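import Pool.Agent.LibNP88.DefsM

/-
PLAN (M1, MEDIUM). hS: a formula ψ of Lvf[[univ]] in the variables Fin m ⊕ Fin n. Formula.. constantsVarsEquiv turns it into a formula of Lvf in the variables univ ⊕ (Fin m ⊕ Fin n) (BoundedFormula.realize_constantsVarsEquiv), it has finitely many free variables (BoundedFormula.freeVarFinset, restrictFreeVar,
realize_restrictFreeVar), relabel the finitely many constants that occur by Fin k: a formula φ in Fin m ⊕ Fin (n + k) (relabel; Fin.append / Fin.addCases). Apply hN to φ: a pattern for S with b_J gives a pattern for φ with b'_J := (b_J, constants).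
-/

set_option autoImplicit false

noncomputable section

open FirstOrder Polynomial

namespace Pool.LibNP88

universe u

/-- NIP bounds the patterns of parameter definable relations -/
theorem nip_def {K : Type u} [Field K] (O : ValuationSubring K) (hN : NIP O) {m n : ℕ}
    (S : Set (Fin m ⊕ Fin n → K)) (hS : Df O S) : ∃ N : ℕ,
    ¬ ∃ (a : Fin N → Fin m → K) (b : Set (Fin N) → Fin n → K),
      ∀ i J, Sum.elim (a i) (b J) ∈ S ↔ i ∈ J := by
  let _ := strV O
  have hS' : (Set.univ : Set K).Definable Lvf S := hS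
  rw [Set.definable_iff_finitely_definable] at hS'
  obtain ⟨A0, -, hA0⟩ := hS'
  rw [Set.definable_iff_exists_formula_sum] at hA0
  obtain ⟨φ, hφ⟩ := hA0
  obtain ⟨k, ⟨e⟩⟩ : ∃ k : ℕ, Nonempty (((A0 : Set K) : Type u) ≃ Fin k) := ⟨_, ⟨Finite.equivFin _⟩⟩
  let g : ((A0 : Set K) : Type u) ⊕ (Fin m ⊕ Fin n) → Fin m ⊕ Fin (n + k) :=
    Sum.elim (fun x => Sum.inr (Fin.natAdd n (e x))) (Sum.elim Sum.inl (fun j => Sum.inr (Fin.castAdd k j)))
  obtain ⟨N, hNN⟩ := hN m (n + k) (φ.relabel g)
  refine ⟨N, ?_⟩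
  rintro ⟨a, b, hab⟩
  refine hNN ⟨a, fun J => Fin.append (b J) (fun i => ((e.symm i : ((A0 : Set K) : Type u)) : K)), fun i J => ?_⟩
  rw [← hab i J, Language.Formula.realize_relabel, hφ]
  have hv : (Sum.elim (a i) (Fin.append (b J) (fun i => ((e.symm i : ((A0 : Set K) : Type u)) : K)))) ∘ g =
      Sum.elim (fun x : ((A0 : Set K) : Type u) => (x : K)) (Sum.elim (a i) (b J)) := by
    funext x
    rcases x with x | x | x
    · show Fin.append (b J) (fun i => ((e.symm i : ((A0 : Set K) : Type u)) : K)) (Fin.natAdd n (e x)) = (x : K)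
      rw [Fin.append_right, Equiv.symm_apply_apply]
    · rfl
    · show Fin.append (b J) (fun i => ((e.symm i : ((A0 : Set K) : Type u)) : K)) (Fin.castAdd k x) = b J x
      rw [Fin.append_left]
  rw [hv]
  rfl

end Pool.LibNP88
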