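import Pool.Agent.LibNP88.M2

/-
PLAN (M4, MEDIUM). coordinates: w = SUM_i v_i b_i is the value at algebraMap ∘ v of the linear polynomial SUM_i C (b i) * X i. def_J: {v | ∃ c : Fin d → K, (∀ j, c j in the maximal ideal) ∧ w(v)^d + SUM c_j w(v)^j = 0}: def_ex over the set of (v, c) in Fin d ⊕ Fin d → K that is the intersection of def_max (variables inr j, def_all)
and def_polyL for the polynomial W^d + SUM_j X (inr j) * W^j, W := SUM_i C (b i) * X (inl i). def_psi: ∃ y-coordinates u : Fin d → K with (SUM u_i b_i)^q = 1 + a x (def_polyL) and the coordinates of y - 1 in JJ: y - 1 = SUM (u_i - e_i) b_i with 1 = SUM e_i b_i; so first the set {u | (SUM u_i b_i) - 1 in J} is definable: ∃ v, (v in def_J) and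
SUM v_i b_i + 1 = SUM u_i b_i (def_ex, def_polyL, def_pre). Then {(a, x) | ∃ u, ..} by def_ex, def_inter, def_pre with variables (Fin d ⊕ Fin d) ⊕ Fin d.
-/

set_option autoImplicit false

noncomputable section

open FirstOrder Polynomial

namespace Pool.LibNP88

universe u

/-- The linear polynomial of a tuple of variables. -/
private def M4_W {K L : Type u} [Field K] [Field L] [Algebra K L] {d : ℕ}
    (b : Module.Basis (Fin d) K L) {σ : Type} (f : Fin d → σ) : MvPolynomial σ L :=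
  ∑ i, MvPolynomial.C (b i) * MvPolynomial.X (f i)

private theorem M4_W_eval {K L : Type u} [Field K] [Field L] [Algebra K L] {d : ℕ}
    (b : Module.Basis (Fin d) K L) {σ : Type} (f : Fin d → σ) (v : σ → K) :
    MvPolynomial.eval (fun s => algebraMap K L (v s)) (M4_W b f) = ∑ i, v (f i) • b i := by
  unfold M4_W
  rw [map_sum]
  refine Finset.sum_congr rfl fun i _ => ?_
  rw [map_mul, MvPolynomial.eval_C, MvPolynomial.eval_X, Algebra.smul_def, mul_comm]

/-- the Jacobson radical in coordinates -/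
theorem def_J {K L : Type u} [Field K] [Field L] [Algebra K L] [FiniteDimensional K L]
    (O : ValuationSubring K) {d : ℕ} (b : Module.Basis (Fin d) K L) (J : Set L)
    (hJ : ∀ w : L, w ∈ J ↔ ∃ c : Fin d → K, (∀ j, O.valuation (c j) < 1) ∧
      w ^ d + ∑ j, algebraMap K L (c j) * w ^ (j : ℕ) = 0) :
    Df O {v : Fin d → K | ∑ i, v i • b i ∈ J} := by
  have h1 : Df O ({u : Fin d ⊕ Fin d → K | ∀ j : Fin d,
      u ∈ {u : Fin d ⊕ Fin d → K | O.valuation (u (Sum.inr j)) < 1}} ∩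
      {u : Fin d ⊕ Fin d → K | MvPolynomial.eval (fun s => algebraMap K L (u s))
        ((M4_W b (Sum.inl : Fin d → Fin d ⊕ Fin d)) ^ d + ∑ j : Fin d,
          MvPolynomial.X (Sum.inr j) * (M4_W b (Sum.inl : Fin d → Fin d ⊕ Fin d)) ^ (j : ℕ))
        = 0}) :=
    def_inter O _ _ (def_all O _ fun j => def_max O (Sum.inr j)) (def_polyL O _)
  have h2 := def_ex O _ h1
  convert h2 using 1
  ext v
  simp only [Set.mem_setOf_eq, Set.mem_inter_iff, Sum.elim_inr]
  rw [hJ]
  refine exists_congr fun c => and_congr Iff.rfl ?_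
  have e1 := M4_W_eval b (Sum.inl : Fin d → Fin d ⊕ Fin d) (Sum.elim v c)
  simp only [Sum.elim_inl] at e1
  rw [map_add, map_pow, e1, map_sum]
  have e2 : ∀ j : Fin d, MvPolynomial.eval
      (fun s => algebraMap K L (Sum.elim v c s))
      (MvPolynomial.X (Sum.inr j) * (M4_W b (Sum.inl : Fin d → Fin d ⊕ Fin d)) ^ (j : ℕ))
      = algebraMap K L (c j) * (∑ i, v i • b i) ^ (j : ℕ) := by
    intro j
    rw [map_mul, map_pow, e1, MvPolynomial.eval_X, Sum.elim_inr]
  rw [Finset.sum_congr rfl fun j _ => e2 j]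

/-- the relation Psi in coordinates -/
theorem def_psi {K L : Type u} [Field K] [Field L] [Algebra K L] [FiniteDimensional K L]
    (O : ValuationSubring K) {d : ℕ} (b : Module.Basis (Fin d) K L) (J : Set L)
    (hJ : ∀ w : L, w ∈ J ↔ ∃ c : Fin d → K, (∀ j, O.valuation (c j) < 1) ∧
      w ^ d + ∑ j, algebraMap K L (c j) * w ^ (j : ℕ) = 0) (q : ℕ) :
    Df O {v : Fin d ⊕ Fin d → K | ∃ y : L,
      y ^ q = 1 + (∑ i, v (Sum.inl i) • b i) * (∑ i, v (Sum.inr i) • b i) ∧ y - 1 ∈ J} := by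
  have h0 := def_J O b J hJ
  have h1 : Df O ({w : (Fin d ⊕ Fin d) ⊕ Fin d → K |
      MvPolynomial.eval (fun s => algebraMap K L (w s))
        ((1 + M4_W b (Sum.inr : Fin d → (Fin d ⊕ Fin d) ⊕ Fin d)) ^ q -
          (1 + M4_W b (fun i : Fin d => (Sum.inl (Sum.inl i) : (Fin d ⊕ Fin d) ⊕ Fin d)) *
            M4_W b (fun i : Fin d => (Sum.inl (Sum.inr i) : (Fin d ⊕ Fin d) ⊕ Fin d)))) = 0} ∩
      {w : (Fin d ⊕ Fin d) ⊕ Fin d → K | (fun s => w (Sum.inr s)) ∈
        {v : Fin d → K | ∑ i, v i • b i ∈ J}}) :=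
    def_inter O _ _ (def_polyL O _) (def_pre O Sum.inr _ h0)
  have h2 := def_ex O _ h1
  convert h2 using 1
  ext v
  simp only [Set.mem_setOf_eq, Set.mem_inter_iff, Sum.elim_inr]
  have ev : ∀ t : Fin d → K, MvPolynomial.eval (fun s => algebraMap K L (Sum.elim v t s))
        ((1 + M4_W b (Sum.inr : Fin d → (Fin d ⊕ Fin d) ⊕ Fin d)) ^ q -
          (1 + M4_W b (fun i : Fin d => (Sum.inl (Sum.inl i) : (Fin d ⊕ Fin d) ⊕ Fin d)) *
            M4_W b (fun i : Fin d => (Sum.inl (Sum.inr i) : (Fin d ⊕ Fin d) ⊕ Fin d))))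
      = (1 + ∑ i, t i • b i) ^ q -
        (1 + (∑ i, v (Sum.inl i) • b i) * (∑ i, v (Sum.inr i) • b i)) := by
    intro t
    rw [map_sub, map_pow, map_add, map_one, map_add, map_one, map_mul, M4_W_eval, M4_W_eval,
      M4_W_eval]
    simp only [Sum.elim_inl, Sum.elim_inr]
  constructor
  · rintro ⟨y, hy, hyJ⟩
    have hrep : ∑ i, (b.repr (y - 1)) i • b i = y - 1 := b.sum_repr (y - 1)
    refine ⟨fun i => b.repr (y - 1) i, ?_, ?_⟩
    · rw [ev, hrep, add_sub_cancel, hy, sub_self]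
    · rw [hrep]
      exact hyJ
  · rintro ⟨t, ht, htJ⟩
    rw [ev, sub_eq_zero] at ht
    exact ⟨1 + ∑ i, t i • b i, ht, by rwa [add_sub_cancel_left]⟩

end Pool.LibNP88
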