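import Pool.Agent.LibNP88.V1

/-
PLAN (V11, MEDIUM/STRONG). Ω := AlgebraicClosure L, At := ext_exists of O to Ω (Algebra K Ω through L). The set VV := {At.comap σ | σ : L →ₐ[K] Ω} ∪ {A, B} is finite (Fintype (L →ₐ[K] Ω)), card >= 2: V an enumeration without repetition (Finset.equivFin, classical). comap to K is O for each. Criterion, d := finrank K L.
(<=) w^d + SUM c_j w^j = 0 with c_j in the maximal ideal of O: in V i: if v w > 1 divide by w^d: 1 = -SUM c_j w^(j-d), every term has value < 1: contradiction; so v w <= 1, v(w^d) = v(SUM c_j w^j) < 1 (d >= 1), v w < 1. (=>) P := (minpoly K w)^(d / natDegree (minpoly K w)) is monic of degree d (natDegree of the minpoly divides d: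
minpoly.natDegree_dvd), P(w) = 0; every root of minpoly in Ω is σ(w) for some σ (Algebra.IsAlgebraic.range_eval_eq_rootSet_minpoly), so has At-valuation < 1. P splits in Ω: P.map = prod (X - C r) with v r < 1: the coefficients below d have value < 1 (induction: if P has all coefficients of value <= 1 and those below the degree < 1, so has (X - C r) P).
So c_j := P.coeff j, val_lt for O, At.
-/

set_option autoImplicit false

noncomputable section

open Polynomial

namespace Pool.LibNP88

universe u

private theorem V11_lt_one_iff {L : Type u} [Field L] (A : ValuationSubring L) (x : L) :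
    A.valuation x < 1 ↔ x = 0 ∨ x⁻¹ ∉ A := by
  by_cases hx : x = 0
  · simp [hx]
  · rw [← A.valuation_le_one_iff, map_inv₀]
    have h0 : 0 < A.valuation x := zero_lt_iff.2 ((Valuation.ne_zero_iff _).2 hx)
    constructor
    · intro h
      right
      rw [not_le]
      exact (one_lt_inv₀ h0).2 h
    · rintro (h | h)
      · exact absurd h hx
      · rw [not_le] at h
        exact (one_lt_inv₀ h0).1 h

private theorem V11_comap {L M : Type u} [Field L] [Field M] (A : ValuationSubring M) (f : L →+* M) (x : L) :
    (A.comap f).valuation x < 1 ↔ A.valuation (f x) < 1 := by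
  rw [V11_lt_one_iff, V11_lt_one_iff, ValuationSubring.mem_comap, map_inv₀, map_eq_zero]

private theorem V11_coeff {M : Type u} [Field M] (A : ValuationSubring M) (s : Multiset M)
    (hs : ∀ r ∈ s, A.valuation r < 1) :
    ∀ j, A.valuation ((s.map fun r => X - C r).prod.coeff j) ≤ 1 ∧
      (j < Multiset.card s → A.valuation ((s.map fun r => X - C r).prod.coeff j) < 1) := by
  induction s using Multiset.induction_on with
  | empty =>
    intro j
    rw [Multiset.map_zero, Multiset.prod_zero, coeff_one]
    constructor
    · split_ifs <;> simp
    · intro h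
      simp at h
  | cons a s ih =>
    have ih' := ih fun r hr => hs r (Multiset.mem_cons_of_mem hr)
    have ha := hs a (Multiset.mem_cons_self a s)
    intro j
    rw [Multiset.map_cons, Multiset.prod_cons, sub_mul, coeff_sub, coeff_C_mul, Multiset.card_cons]
    have h2 : A.valuation (a * (s.map fun r => X - C r).prod.coeff j) < 1 := by
      rw [map_mul]
      exact mul_lt_one_of_lt_of_le ha (ih' j).1
    cases j with
    | zero =>
      rw [coeff_X_mul_zero]
      have h3 : A.valuation (0 - a * (s.map fun r => X - C r).prod.coeff 0) < 1 := by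
        rw [zero_sub, Valuation.map_neg]
        exact h2
      exact ⟨h3.le, fun _ => h3⟩
    | succ j =>
      rw [coeff_X_mul]
      refine ⟨Valuation.map_sub_le _ (ih' j).1 h2.le, fun hj => ?_⟩
      exact Valuation.map_sub_lt _ ((ih' j).2 (by omega)) h2

private theorem V11_back {K L : Type u} [Field K] [Field L] [Algebra K L] [FiniteDimensional K L]
    (O : ValuationSubring K) (V : ValuationSubring L) (hV : V.comap (algebraMap K L) = O) (w : L)
    (c : Fin (Module.finrank K L) → K) (hc : ∀ j, O.valuation (c j) < 1)
    (hw : w ^ Module.finrank K L + ∑ j, algebraMap K L (c j) * w ^ (j : ℕ) = 0) : V.valuation w < 1 := by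
  by_contra hcon
  rw [not_lt] at hcon
  have h0 : 0 < V.valuation w := lt_of_lt_of_le zero_lt_one hcon
  have h1 : V.valuation (∑ j, algebraMap K L (c j) * w ^ (j : ℕ)) < V.valuation w ^ Module.finrank K L := by
    apply Valuation.map_sum_lt _ (pow_ne_zero _ h0.ne')
    intro j _
    rw [map_mul, map_pow]
    have h2 : V.valuation (algebraMap K L (c j)) < 1 := (val_lt O V hV (c j)).2 (hc j)
    have h3 : V.valuation w ^ (j : ℕ) ≤ V.valuation w ^ Module.finrank K L :=
      pow_le_pow_right₀ hcon j.2.le
    refine lt_of_lt_of_le ?_ h3
    exact mul_lt_of_lt_one_left (pow_pos h0 _) h2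
  have h4 : w ^ Module.finrank K L = - ∑ j, algebraMap K L (c j) * w ^ (j : ℕ) := eq_neg_of_add_eq_zero_left hw
  have h5 := congrArg V.valuation h4
  rw [map_pow, Valuation.map_neg] at h5
  rw [h5] at h1
  exact lt_irrefl _ h1

/-- the family of valuation rings and the definability criterion for the Jacobson radical -/
theorem family {K L : Type u} [Field K] [Field L] [Algebra K L] [FiniteDimensional K L]
    (O : ValuationSubring K) (A B : ValuationSubring L) (hA : A.comap (algebraMap K L) = O)
    (hB : B.comap (algebraMap K L) = O) (hne : A ≠ B) :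
    ∃ (s : ℕ) (V : Fin s → ValuationSubring L), 2 ≤ s ∧ Function.Injective V ∧
      (∀ i, (V i).comap (algebraMap K L) = O) ∧
      ∀ w : L, (∀ i, (V i).valuation w < 1) ↔ ∃ c : Fin (Module.finrank K L) → K,
        (∀ j, O.valuation (c j) < 1) ∧
        w ^ Module.finrank K L + ∑ j, algebraMap K L (c j) * w ^ (j : ℕ) = 0 := by
  classical
  obtain ⟨At, hAt⟩ := ext_exists O (AlgebraicClosure L)
  let VV : Finset (ValuationSubring L) :=
    (Finset.univ.image fun σ : L →ₐ[K] AlgebraicClosure L => At.comap (σ : L →+* AlgebraicClosure L)) ∪ {A, B}
  have hAV : A ∈ VV := Finset.mem_union_right _ (Finset.mem_insert_self _ _)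
  have hBV : B ∈ VV := Finset.mem_union_right _ (Finset.mem_insert_of_mem (Finset.mem_singleton_self _))
  have hcom : ∀ W ∈ VV, W.comap (algebraMap K L) = O := by
    intro W hW
    rcases Finset.mem_union.1 hW with h | h
    · obtain ⟨σ, _, rfl⟩ := Finset.mem_image.1 h
      rw [ValuationSubring.comap_comap, AlgHom.comp_algebraMap]
      exact hAt
    · rcases Finset.mem_insert.1 h with h | h
      · rw [h]
        exact hA
      · rw [Finset.mem_singleton.1 h]
        exact hB
  let e := VV.equivFin
  refine ⟨VV.card, fun i => (e.symm i : ValuationSubring L), ?_, ?_, ?_, ?_⟩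
  · exact Finset.one_lt_card.2 ⟨A, hAV, B, hBV, hne⟩
  · exact Subtype.val_injective.comp e.symm.injective
  · intro i
    exact hcom _ (e.symm i).2
  · intro w
    constructor
    · intro hw
      have hwAll : ∀ W ∈ VV, W.valuation w < 1 := by
        intro W hW
        have h := hw (e ⟨W, hW⟩)
        have he : ((e.symm (e ⟨W, hW⟩) : VV) : ValuationSubring L) = W := by
          rw [Equiv.symm_apply_apply]
        have key : ∀ W' : ValuationSubring L, W' = W → W'.valuation w < 1 → W.valuation w < 1 := by
          rintro _ rfl h'
          exact h'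
        exact key _ he h
      have hwσ : ∀ σ : L →ₐ[K] AlgebraicClosure L, At.valuation (σ w) < 1 := by
        intro σ
        have h := hwAll _ (Finset.mem_union_left _ (Finset.mem_image_of_mem
          (fun σ : L →ₐ[K] AlgebraicClosure L => At.comap (σ : L →+* AlgebraicClosure L)) (Finset.mem_univ σ)))
        exact (V11_comap At (σ : L →+* AlgebraicClosure L) w).1 h
      have hint : IsIntegral K w := Algebra.IsIntegral.isIntegral w
      have hdvd : (minpoly K w).natDegree ∣ Module.finrank K L := minpoly.degree_dvd hint
      obtain ⟨m, hm⟩ := hdvd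
      have hd : 0 < Module.finrank K L := Module.finrank_pos
      have hm0 : m ≠ 0 := by
        rintro rfl
        omega
      have hmon : (minpoly K w).Monic := minpoly.monic hint
      let P : K[X] := (minpoly K w) ^ m
      have hP : P.Monic := hmon.pow m
      have hPd : P.natDegree = Module.finrank K L := by
        simp only [P]
        rw [hmon.natDegree_pow, hm, mul_comm]
      have hPw : aeval w P = 0 := by
        simp only [P]
        rw [map_pow, minpoly.aeval, zero_pow hm0]
      let Q : (AlgebraicClosure L)[X] := P.map (algebraMap K (AlgebraicClosure L))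
      have hQ : Q.Monic := hP.map _
      have hQs : Q.Splits := IsAlgClosed.splits Q
      have hQr : ∀ r ∈ Q.roots, At.valuation r < 1 := by
        intro r hr
        have h1 : Q.eval r = 0 := (mem_roots'.1 hr).2
        have h2 : aeval r (minpoly K w) = 0 := by
          have h3 : aeval r P = 0 := by
            rw [aeval_def, eval₂_eq_eval_map]
            exact h1
          simp only [P] at h3
          rw [map_pow] at h3
          exact eq_zero_of_pow_eq_zero h3
        have h4 : r ∈ (minpoly K w).rootSet (AlgebraicClosure L) :=
          mem_rootSet.2 ⟨minpoly.ne_zero hint, h2⟩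
        rw [← Algebra.IsAlgebraic.range_eval_eq_rootSet_minpoly] at h4
        obtain ⟨σ, hσ⟩ := h4
        rw [← hσ]
        exact hwσ σ
      have hcard : Multiset.card Q.roots = Module.finrank K L := by
        rw [← hQs.natDegree_eq_card_roots]
        simp only [Q]
        rw [hP.natDegree_map, hPd]
      have hQc := V11_coeff At Q.roots hQr
      rw [← hQs.eq_prod_roots_of_monic hQ, hcard] at hQc
      refine ⟨fun j => P.coeff j, ?_, ?_⟩
      · intro j
        rw [← val_lt O At hAt]
        have h5 := (hQc j).2 j.2
        simp only [Q] at h5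
        rw [coeff_map] at h5
        exact h5
      · rw [aeval_eq_sum_range, hPd, Finset.sum_range_succ] at hPw
        have h6 : P.coeff (Module.finrank K L) = 1 := by
          rw [← hPd]
          exact hP
        rw [h6, one_smul, Finset.sum_range] at hPw
        rw [← hPw, add_comm]
        congr 1
        refine Finset.sum_congr rfl fun j _ => ?_
        rw [Algebra.smul_def]
    · rintro ⟨c, hc, hw⟩ i
      exact V11_back O _ (hcom _ (e.symm i).2) w c hc hw

end Pool.LibNP88
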