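import Pool.Agent.LibNP88.V1

/-
PLAN (V6, MEDIUM). res_inf: suppose the residue field κ of A is finite; choose lifts ĉ in A of all c in κ; f := X^m * prod_c (X - C ĉ) + 1 in A[X] (monic), m in {1, 2} with p not dividing m + card κ (p >= 2): f has a root x in L, integral over A, so in A (ValuationSubring is integrally closed: IsIntegrallyClosed, or: if v x > 1 the leading term
dominates). The residue of x is some c, so the residue of f(x) is 0 + 1 != 0: contradiction. res_down: suppose the residue field k of O is finite. Every w in A satisfies a relation SUM_(i <= d) c_i w^i = 0, d = [L:K], c_i in K not all 0 (linear dependence of 1, w, .., w^d, or minpoly), scale by the coefficient of largest valuation: c_i in O,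
some unit: the residue of w is a root of a nonzero polynomial of degree <= d over (the image of) k: finitely many polynomials (k finite), each has finitely many roots: the residue field of A is finite. seq: an injective sequence of nonzero residues (Infinite: Infinite.natEmbedding of the set of nonzero elements), lifts; valuation = 1 iff the residue is
not 0 (ValuationSubring.valuation_eq_one_iff / valuation_lt_one_iff, IsLocalRing.residue_eq_zero_iff).
-/

set_option autoImplicit false

noncomputable section

open Polynomial

namespace Pool.LibNP88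

universe u

/-- infinite residue fields -/
theorem res_inf {p : ℕ} (hp : p.Prime) {L : Type u} [Field L] (A : ValuationSubring L)
    (hroot : ∀ f : L[X], f.Monic → ¬ p ∣ f.natDegree → ∃ x, f.eval x = 0) :
    Infinite (IsLocalRing.ResidueField A) := by
  by_contra hinf
  have hfin : Finite (IsLocalRing.ResidueField A) := not_infinite_iff_finite.mp hinf
  have := Fintype.ofFinite (IsLocalRing.ResidueField A)
  have hs : ∀ c : IsLocalRing.ResidueField A, ∃ y : A, IsLocalRing.residue A y = c :=
    IsLocalRing.residue_surjective
  choose l hl using hs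
  obtain ⟨m, hm⟩ : ∃ m : ℕ, ¬ p ∣ m + Fintype.card (IsLocalRing.ResidueField A) := by
    by_contra hcon
    push Not at hcon
    have h1 := hcon 1
    have h2 := hcon 2
    have h3 := (Nat.dvd_sub h2 h1)
    have h4 : 2 + Fintype.card (IsLocalRing.ResidueField A) -
      (1 + Fintype.card (IsLocalRing.ResidueField A)) = 1 := by omega
    rw [h4] at h3
    exact hp.one_lt.ne' (Nat.dvd_one.mp h3)
  set P : A[X] := ∏ c : IsLocalRing.ResidueField A, (X - C (l c)) with hP
  have hPm : P.Monic := monic_prod_of_monic _ _ fun c _ => monic_X_sub_C _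
  have hPd : P.natDegree = Fintype.card (IsLocalRing.ResidueField A) := by
    rw [hP, natDegree_prod_of_monic _ _ fun c _ => monic_X_sub_C _]
    simp
  have hcard : 0 < Fintype.card (IsLocalRing.ResidueField A) := Fintype.card_pos
  have hQm : (X ^ m * P).Monic := (monic_X_pow m).mul hPm
  have hQd : (X ^ m * P).natDegree = m + Fintype.card (IsLocalRing.ResidueField A) := by
    rw [(monic_X_pow m).natDegree_mul hPm, natDegree_X_pow, hPd]
  have hlt : (1 : A[X]).degree < (X ^ m * P).degree := by
    rw [degree_one]
    exact natDegree_pos_iff_degree_pos.mp (by omega)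
  have hfm : (X ^ m * P + 1).Monic := hQm.add_of_left hlt
  have hfd : (X ^ m * P + 1).natDegree = m + Fintype.card (IsLocalRing.ResidueField A) := by
    rw [natDegree_add_eq_left_of_degree_lt hlt, hQd]
  obtain ⟨x, hx⟩ := hroot ((X ^ m * P + 1).map (algebraMap A L)) (hfm.map _) (by
    rw [hfm.natDegree_map, hfd]
    exact hm)
  have hint : IsIntegral A x := ⟨X ^ m * P + 1, hfm, by rw [← eval_map]; exact hx⟩
  obtain ⟨y, hy⟩ := (IsIntegrallyClosed.isIntegral_iff (R := A) (K := L)).mp hint
  rw [← hy, eval_map, eval₂_hom] at hx
  have hy0 : (X ^ m * P + 1).eval y = 0 := by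
    apply IsFractionRing.injective A L
    rw [hx, map_zero]
  rw [eval_add, eval_mul, eval_one, hP, eval_prod] at hy0
  have h1 := congrArg (IsLocalRing.residue A) hy0
  rw [map_add, map_mul, map_one, map_zero, map_prod,
    Finset.prod_eq_zero (Finset.mem_univ (IsLocalRing.residue A y)) (by
      rw [eval_sub, eval_X, eval_C, map_sub, hl, sub_self]), mul_zero, zero_add] at h1
  exact one_ne_zero h1

theorem res_down {K L : Type u} [Field K] [Field L] [Algebra K L] [FiniteDimensional K L]
    (O : ValuationSubring K) (A : ValuationSubring L) (hA : A.comap (algebraMap K L) = O)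
    (h : Infinite (IsLocalRing.ResidueField A)) : Infinite (IsLocalRing.ResidueField O) := by
  classical
  by_contra hinf
  have hfin : Finite (IsLocalRing.ResidueField O) := not_infinite_iff_finite.mp hinf
  have hmem : ∀ x : K, x ∈ O ↔ algebraMap K L x ∈ A := by
    intro x
    rw [← hA]
    rfl
  let φ : O →+* A :=
    { toFun := fun x => ⟨algebraMap K L x, (hmem x).1 x.2⟩
      map_one' := Subtype.ext (map_one _)
      map_mul' := fun a b => Subtype.ext (map_mul (algebraMap K L) (a : K) (b : K))
      map_zero' := Subtype.ext (map_zero _)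
      map_add' := fun a b => Subtype.ext (map_add (algebraMap K L) (a : K) (b : K)) }
  have hloc : IsLocalHom φ := by
    refine ⟨fun x hx => ?_⟩
    obtain ⟨y, hy⟩ := hx.exists_right_inv
    have hy' : algebraMap K L x * (y : L) = 1 := congrArg Subtype.val hy
    have hx0 : (x : K) ≠ 0 := by
      intro h0
      rw [h0, map_zero, zero_mul] at hy'
      exact zero_ne_one hy'
    have hinv : (x : K)⁻¹ ∈ O := by
      rw [hmem, map_inv₀, ← eq_inv_of_mul_eq_one_right hy']
      exact y.2
    exact IsUnit.of_mul_eq_one (⟨(x : K)⁻¹, hinv⟩ : O) (Subtype.ext (mul_inv_cancel₀ hx0))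
  let j : IsLocalRing.ResidueField O →+* IsLocalRing.ResidueField A := IsLocalRing.ResidueField.map φ
  have hj : ∀ x : O, j (IsLocalRing.residue O x) = IsLocalRing.residue A (φ x) := fun x =>
    IsLocalRing.ResidueField.map_residue φ x
  set d := Module.finrank K L with hd
  have key : ∀ y : IsLocalRing.ResidueField A, ∃ g : Fin (d + 1) → IsLocalRing.ResidueField O,
      g ≠ 0 ∧ ∑ i, j (g i) * y ^ (i : ℕ) = 0 := by
    intro y
    obtain ⟨w, rfl⟩ := IsLocalRing.residue_surjective y
    have hdep : ¬ LinearIndependent K (fun i : Fin (d + 1) => (w : L) ^ (i : ℕ)) := by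
      intro hli
      have := hli.fintype_card_le_finrank
      rw [Fintype.card_fin] at this
      omega
    rw [Fintype.not_linearIndependent_iff] at hdep
    obtain ⟨c, hc, i1, hi1⟩ := hdep
    obtain ⟨i0, -, hi0⟩ := Finset.exists_max_image Finset.univ (fun i => O.valuation (c i)) ⟨i1, Finset.mem_univ _⟩
    have hci0 : c i0 ≠ 0 := by
      intro h0
      have := hi0 i1 (Finset.mem_univ _)
      rw [h0, map_zero, le_zero_iff, map_eq_zero] at this
      exact hi1 this
    have hcO : ∀ i, c i / c i0 ∈ O := by
      intro i
      rw [← O.valuation_le_one_iff, map_div₀]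
      exact div_le_one_of_le₀ (hi0 i (Finset.mem_univ _)) zero_le
    refine ⟨fun i => IsLocalRing.residue O ⟨c i / c i0, hcO i⟩, ?_, ?_⟩
    · intro h0
      have h1 := congrFun h0 i0
      have h2 : (⟨c i0 / c i0, hcO i0⟩ : O) = 1 := Subtype.ext (div_self hci0)
      simp only [h2, map_one, Pi.zero_apply] at h1
      exact one_ne_zero h1
    · have h1 : ∑ i : Fin (d + 1), φ ⟨c i / c i0, hcO i⟩ * w ^ (i : ℕ) = 0 := by
        apply Subtype.ext
        rw [AddSubmonoidClass.coe_finsetSum]
        have h2 : ∀ i : Fin (d + 1), ((φ ⟨c i / c i0, hcO i⟩ * w ^ (i : ℕ) : A) : L) =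
            algebraMap K L (c i0)⁻¹ * (c i • (w : L) ^ (i : ℕ)) := by
          intro i
          show algebraMap K L (c i / c i0) * (w : L) ^ (i : ℕ) = _
          rw [Algebra.smul_def, div_eq_mul_inv, map_mul]
          ring
        rw [Finset.sum_congr rfl fun i _ => h2 i, ← Finset.mul_sum, hc, mul_zero]
        rfl
      have h2 := congrArg (IsLocalRing.residue A) h1
      rw [map_sum, map_zero] at h2
      rw [← h2]
      refine Finset.sum_congr rfl fun i _ => ?_
      rw [hj, map_mul, map_pow]
  have hT : (⋃ g : {g : Fin (d + 1) → IsLocalRing.ResidueField O // g ≠ 0},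
      {y : IsLocalRing.ResidueField A | ∑ i, j (g.1 i) * y ^ (i : ℕ) = 0}).Finite := by
    refine Set.finite_iUnion fun g => ?_
    set Q : (IsLocalRing.ResidueField A)[X] := ∑ i : Fin (d + 1), C (j (g.1 i)) * X ^ (i : ℕ) with hQ
    have hQ0 : Q ≠ 0 := by
      intro h0
      apply g.2
      funext i
      have h1 := congrArg (fun R : (IsLocalRing.ResidueField A)[X] => R.coeff (i : ℕ)) h0
      simp only [hQ, finsetSum_coeff, coeff_C_mul, coeff_X_pow, coeff_zero] at h1
      rw [Finset.sum_eq_single i] at h1
      · rw [if_pos rfl, mul_one] at h1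
        exact (map_eq_zero j).mp h1
      · intro b _ hb
        rw [if_neg, mul_zero]
        intro h2
        exact hb (Fin.ext h2.symm)
      · intro hcon
        exact absurd (Finset.mem_univ _) hcon
    refine (Q.roots.toFinset.finite_toSet).subset ?_
    intro y hy
    rw [Finset.mem_coe, Multiset.mem_toFinset, mem_roots hQ0, IsRoot.def, hQ, eval_finsetSum]
    simp only [eval_mul, eval_C, eval_pow, eval_X]
    exact hy
  apply Set.infinite_univ (α := IsLocalRing.ResidueField A)
  refine hT.subset fun y _ => ?_
  obtain ⟨g, hg, hg'⟩ := key y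
  exact Set.mem_iUnion.mpr ⟨⟨g, hg⟩, hg'⟩

theorem seq {K : Type u} [Field K] (O : ValuationSubring K)
    (h : Infinite (IsLocalRing.ResidueField O)) : ∃ c : ℕ → K, (∀ m, O.valuation (c m) = 1) ∧
      ∀ m m', m ≠ m' → O.valuation (c m - c m') = 1 := by
  have hinf : Infinite {x : IsLocalRing.ResidueField O // x ≠ 0} :=
    Set.Infinite.to_subtype (Set.finite_singleton (0 : IsLocalRing.ResidueField O)).infinite_compl
  have hs : ∀ c : IsLocalRing.ResidueField O, ∃ y : O, IsLocalRing.residue O y = c :=
    IsLocalRing.residue_surjective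
  choose l hl using hs
  let e : ℕ ↪ {x : IsLocalRing.ResidueField O // x ≠ 0} := Infinite.natEmbedding _
  have hu : ∀ y : O, IsLocalRing.residue O y ≠ 0 → O.valuation (y : K) = 1 := by
    intro y hy
    rw [← O.valuation_eq_one_iff]
    exact (IsLocalRing.residue_ne_zero_iff_isUnit y).mp hy
  refine ⟨fun m => (l (e m).1 : K), fun m => hu _ (by rw [hl]; exact (e m).2), fun m m' hmm => ?_⟩
  have h1 := hu (l (e m).1 - l (e m').1) (by
    rw [map_sub, hl, hl, sub_ne_zero]
    intro h2
    exact hmm (e.injective (Subtype.ext h2)))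
  exact h1

end Pool.LibNP88
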