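import Pool.Agent.LibNP88.Defs

/-
PLAN (B1, SHORT). rootR: the polynomial X^q - C c over L is monic of degree q, p does not divide q (distinct primes): hB.root gives x in L, hB.intc (X^q - C c over R) gives x in R.
rootk: lift c by hB.crt (value c at i, 0 elsewhere, or the value 1), rootR, apply ρ i. zk: ρ i is a ring hom, (ρ i z)^q = 1; as q is prime it suffices ρ i z != 1 (IsPrimitiveRoot of prime order:
orderOf_eq_prime / IsPrimitiveRoot.iff_orderOf): 1 + z + .. + z^(q-1) = 0 in R (geometric sum), its image would be q != 0. qL: (q : R) is mapped to q != 0, so (q : R) != 0, so (q : L) != 0.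
signs: (x / y)^q = 1, IsPrimitiveRoot.eq_pow_of_pow_eq_one. zL: IsPrimitiveRoot.map_of_injective R.subtype.
-/

set_option autoImplicit false

noncomputable section

open Polynomial

namespace Pool.LibNP88

universe u

theorem rootR {p q : ℕ} {L : Type u} [Field L] {R : Subring L} {ι : Type} [Fintype ι]
    {κ : ι → Type u} [∀ i, Field (κ i)] {ρ : ∀ i, R →+* κ i} (hB : Bs p q R κ ρ) (c : R) : ∃ d : R, d ^ q = c := by
  have hq0 : q ≠ 0 := hB.qp.ne_zero
  have hpq : ¬ p ∣ q := fun h => hB.ne ((Nat.prime_dvd_prime_iff_eq hB.pp hB.qp).1 h)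
  obtain ⟨x, hx⟩ := hB.root (X ^ q - C (c : L)) (monic_X_pow_sub_C _ hq0) (by
    rw [natDegree_X_pow_sub_C]
    exact hpq)
  have hxR : x ∈ R := by
    refine hB.intc (X ^ q - C c) (monic_X_pow_sub_C _ hq0) x ?_
    rw [eval₂_sub, eval₂_X_pow, eval₂_C]
    rw [eval_sub, eval_pow, eval_X, eval_C] at hx
    exact hx
  refine ⟨⟨x, hxR⟩, Subtype.ext ?_⟩
  rw [eval_sub, eval_pow, eval_X, eval_C, sub_eq_zero] at hx
  exact hx

theorem rootk {p q : ℕ} {L : Type u} [Field L] {R : Subring L} {ι : Type} [Fintype ι]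
    {κ : ι → Type u} [∀ i, Field (κ i)] {ρ : ∀ i, R →+* κ i} (hB : Bs p q R κ ρ) (i : ι) (c : κ i) : ∃ d, d ^ q = c := by
  classical
  obtain ⟨x, hx⟩ := hB.crt (fun l => if h : l = i then h ▸ c else 0)
  obtain ⟨d, hd⟩ := rootR hB x
  refine ⟨ρ i d, ?_⟩
  rw [← map_pow, hd, hx i]
  simp

theorem zk {p q : ℕ} {L : Type u} [Field L] {R : Subring L} {ι : Type} [Fintype ι]
    {κ : ι → Type u} [∀ i, Field (κ i)] {ρ : ∀ i, R →+* κ i} (hB : Bs p q R κ ρ) {z : R} (hz : IsPrimitiveRoot z q) (i : ι) : IsPrimitiveRoot (ρ i z) q := by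
  have hq0 : q ≠ 0 := hB.qp.ne_zero
  have h1 : (ρ i z) ^ q = 1 := by rw [← map_pow, hz.pow_eq_one, map_one]
  have h2 : ρ i z ≠ 1 := by
    intro h
    have h3 := hz.geom_sum_eq_zero hB.qp.one_lt
    have h4 := congrArg (ρ i) h3
    rw [map_sum, map_zero] at h4
    have h5 : ∑ k ∈ Finset.range q, ρ i (z ^ k) = (q : κ i) := by
      rw [Finset.sum_congr rfl (g := fun _ => (1 : κ i))]
      · simp
      · intro k _
        rw [map_pow, h, one_pow]
    rw [h5] at h4
    exact hB.qne i h4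
  have : Fact q.Prime := ⟨hB.qp⟩
  rw [← orderOf_eq_prime h1 h2]
  exact IsPrimitiveRoot.orderOf _

theorem qL {p q : ℕ} {L : Type u} [Field L] {R : Subring L} {ι : Type} [Fintype ι]
    {κ : ι → Type u} [∀ i, Field (κ i)] {ρ : ∀ i, R →+* κ i} (hB : Bs p q R κ ρ) : (q : L) ≠ 0 := by
  obtain ⟨i, _, _⟩ := hB.two
  intro h
  have h1 : (q : R) = 0 := by
    apply Subtype.ext
    push_cast
    exact h
  have h2 := congrArg (ρ i) h1
  rw [map_natCast, map_zero] at h2
  exact hB.qne i h2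

theorem zL {p q : ℕ} {L : Type u} [Field L] {R : Subring L} {ι : Type} [Fintype ι]
    {κ : ι → Type u} [∀ i, Field (κ i)] {ρ : ∀ i, R →+* κ i} (hB : Bs p q R κ ρ) {z : R} (hz : IsPrimitiveRoot z q) : IsPrimitiveRoot (z : L) q := by
  exact hz.map_of_injective (f := R.subtype) R.subtype_injective

theorem signs {F : Type u} [Field F] {q : ℕ} (hq : q.Prime) {z : F} (hz : IsPrimitiveRoot z q)
    (x y : F) (h : x ^ q = y ^ q) (hy : y ≠ 0) : ∃ k : Fin q, x = z ^ (k : ℕ) * y := by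
  have hq0 : q ≠ 0 := hq.ne_zero
  have : NeZero q := ⟨hq0⟩
  have h1 : (x / y) ^ q = 1 := by
    rw [div_pow, h, div_self (pow_ne_zero _ hy)]
  obtain ⟨k, hk, hk2⟩ := hz.eq_pow_of_pow_eq_one h1
  refine ⟨⟨k, hk⟩, ?_⟩
  change x = z ^ k * y
  rw [hk2, div_mul_cancel₀ _ hy]

end Pool.LibNP88
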