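import Pool.Agent.LibNP88.Defs

/-
PLAN (C1, SHORT/MEDIUM). For fixed eps the number of k <= M with q k + wt eps <= q M is M + 1 - ceil(wt eps/q) (ceil <= n <= M because wt eps <= n (q-1)): q k <= q M - wt eps iff k <= M - (wt eps + q - 1)/q. Sum over the q^n eps.
-/

set_option autoImplicit false

noncomputable section

open Polynomial

namespace Pool.LibNP88

universe u

private theorem wt_le {n q : ℕ} (hq : 2 ≤ q) (ε : Fin n → Fin q) : wt ε ≤ n * (q - 1) := by
  unfold wt
  calc ∑ j, (ε j : ℕ) ≤ ∑ _j : Fin n, (q - 1) := by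
        apply Finset.sum_le_sum
        intro j _
        have := (ε j).isLt
        omega
    _ = n * (q - 1) := by simp

private theorem ceil_le {n q : ℕ} (hq : 2 ≤ q) (ε : Fin n → Fin q) :
    (wt ε + (q - 1)) / q ≤ n := by
  have h := wt_le hq ε
  rw [Nat.div_le_iff_le_mul_add_pred (by omega)]
  have h2 : n * (q - 1) ≤ q * n := by
    rw [mul_comm q n]
    exact Nat.mul_le_mul_left n (by omega)
  omega

private theorem iff_k {q w M k : ℕ} (hq : 2 ≤ q) :
    q * k + w ≤ q * M ↔ k + (w + (q - 1)) / q ≤ M := by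
  have hq0 : 0 < q := by omega
  constructor
  · intro h
    have h1 : (w + (q - 1)) / q ≤ M - k := by
      rw [Nat.div_le_iff_le_mul_add_pred hq0]
      have : q * (M - k) = q * M - q * k := Nat.mul_sub q M k
      omega
    have h2 : k ≤ M := by
      have : q * k ≤ q * M := by omega
      exact Nat.le_of_mul_le_mul_left this hq0
    omega
  · intro h
    have h1 : (w + (q - 1)) / q ≤ M - k := by omega
    rw [Nat.div_le_iff_le_mul_add_pred hq0] at h1
    have h3 : q * (M - k) = q * M - q * k := Nat.mul_sub q M k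
    have h4 : q * k ≤ q * M := Nat.mul_le_mul_left q ((Nat.le_add_right _ _).trans h)
    omega

private theorem card_k {M c : ℕ} (hc : c ≤ M) :
    (Finset.univ.filter (fun k : Fin (M + 1) => (k : ℕ) + c ≤ M)).card + c = M + 1 := by
  have h1 : (Finset.univ.filter (fun k : Fin (M + 1) => (k : ℕ) + c ≤ M)).card = M + 1 - c := by
    rw [← Finset.card_map Fin.valEmbedding]
    have : (Finset.univ.filter (fun k : Fin (M + 1) => (k : ℕ) + c ≤ M)).map Fin.valEmbedding
        = Finset.range (M + 1 - c) := by
      ext x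
      simp only [Finset.mem_map, Finset.mem_filter, Finset.mem_univ, true_and,
        Fin.valEmbedding_apply, Finset.mem_range]
      constructor
      · rintro ⟨k, hk, rfl⟩
        omega
      · intro hx
        exact ⟨⟨x, by omega⟩, by simp only; omega, rfl⟩
    rw [this, Finset.card_range]
  omega

/-- number of coefficients of LL_M -/
theorem count {n q M : ℕ} (hq : 2 ≤ q) (hM : n ≤ M) :
    (Finset.univ.filter (fun v : (Fin n → Fin q) × Fin (M + 1) =>
      q * (v.2 : ℕ) + wt v.1 ≤ q * M)).card + G0 n q = q ^ n * (M + 1) := by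
  have h1 : (Finset.univ.filter (fun v : (Fin n → Fin q) × Fin (M + 1) =>
      q * (v.2 : ℕ) + wt v.1 ≤ q * M)).card = ∑ ε : Fin n → Fin q,
        (Finset.univ.filter (fun k : Fin (M + 1) => (k : ℕ) + (wt ε + (q - 1)) / q ≤ M)).card := by
    rw [Finset.card_filter, Fintype.sum_prod_type]
    refine Finset.sum_congr rfl (fun ε _ => ?_)
    rw [Finset.card_filter]
    refine Finset.sum_congr rfl (fun k _ => ?_)
    simp only [iff_k hq]
  rw [h1]
  unfold G0
  rw [← Finset.sum_add_distrib]
  have h2 : ∀ ε ∈ (Finset.univ : Finset (Fin n → Fin q)),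
      (Finset.univ.filter (fun k : Fin (M + 1) => (k : ℕ) + (wt ε + (q - 1)) / q ≤ M)).card +
        (wt ε + (q - 1)) / q = M + 1 := by
    intro ε _
    exact card_k ((ceil_le hq ε).trans hM)
  rw [Finset.sum_congr rfl h2]
  simp

end Pool.LibNP88
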