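import Mathlib

/-
LibNP88: MP_b1abd3_lc. A NIP valued field (K,O) such that some finite extension K1 of K has only finite extensions of p-power
degree (p a fixed prime) is henselian. Page: store L23_b1abd3_helper88.md.
Curve X_n : y_j^q = 1 + a_j x, j in Fin n, over a ring R with several residue maps rho_i : R -> kap_i.
Families phi : (Fin n -> Fin q) -> S[X] stand for the functions sum_eps phi_eps(x) y^eps on X_n.
-/

set_option autoImplicit false

noncomputable section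

open Polynomial

namespace Pool.LibNP88

universe u

/-- families of polynomials: the functions sum_eps phi_eps(x) y^eps -/
abbrev Fam (n q : ℕ) (S : Type u) [CommRing S] := (Fin n → Fin q) → S[X]

/-- total exponent -/
def wt {n q : ℕ} (ε : Fin n → Fin q) : ℕ := ∑ j, (ε j : ℕ)

/-- sum of the numbers ceil(|eps|/q) -/
def G0 (n q : ℕ) : ℕ := ∑ ε : Fin n → Fin q, (wt ε + (q - 1)) / q

/-- the space LL_M: pole order at most q M at infinity -/
def InL {n q : ℕ} {S : Type u} [CommRing S] (M : ℕ) (φ : Fam n q S) : Prop :=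
  ∀ ε k, (φ ε).coeff k ≠ 0 → q * k + wt ε ≤ q * M

/-- value of a family at (ξ; η) -/
def fe {n q : ℕ} {S B : Type u} [CommRing S] [CommRing B] (f : S →+* B) (ξ : B) (η : Fin n → B)
    (φ : Fam n q S) : B :=
  ∑ ε, (φ ε).eval₂ f ξ * ∏ j, η j ^ (ε j : ℕ)

/-- value of a polynomial in x (index none) and y_j (index some j) at (ξ; η) -/
def ev {n : ℕ} {S B : Type u} [CommRing S] [CommRing B] (f : S →+* B) (ξ : B) (η : Fin n → B) :
    MvPolynomial (Option (Fin n)) S →+* B :=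
  MvPolynomial.eval₂Hom f (fun o => o.elim ξ η)

/-- (ξ; η) lies on the curve -/
def OnX (q : ℕ) {n : ℕ} {S B : Type u} [CommRing S] [CommRing B] (f : S →+* B) (a : Fin n → S)
    (ξ : B) (η : Fin n → B) : Prop :=
  ∀ j, η j ^ q = 1 + f (a j) * ξ

/-- the action of the group of q-th roots of unity -/
def rt {n q : ℕ} {B : Type u} [CommRing B] (z : B) (g : Fin n → Fin q) (η : Fin n → B) :
    Fin n → B :=
  fun j => z ^ (g j : ℕ) * η j

/-- the family with coefficients c -/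
def fam {n q : ℕ} (M : ℕ) {S : Type u} [CommRing S] (c : (Fin n → Fin q) × Fin (M + 1) → S) :
    Fam n q S :=
  fun ε => ∑ k : Fin (M + 1), monomial (k : ℕ) (c (ε, k))

/-- the family of the polynomial f (no y) -/
def cst {n q : ℕ} {S : Type u} [CommRing S] (f : S[X]) : Fam n q S :=
  fun ε => if wt ε = 0 then f else 0

/-- coordinate of an unramified arc -/
def un {F : Type u} [Field F] (x0 : F) : PowerSeries F := PowerSeries.C x0 + PowerSeries.X

/-- coordinate of an arc that is ramified with parameter y -/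
def ra (q : ℕ) {F : Type u} [Field F] (x0 b : F) : PowerSeries F :=
  PowerSeries.C x0 + PowerSeries.C b⁻¹ * PowerSeries.X ^ q

/-- base rings: a subring R of the field L with finitely many residue maps -/
structure Bs (p q : ℕ) {L : Type u} [Field L] (R : Subring L) {ι : Type} [Fintype ι]
    (κ : ι → Type u) [∀ i, Field (κ i)] (ρ : ∀ i, R →+* κ i) : Prop where
  pp : p.Prime
  qp : q.Prime
  ne : p ≠ q
  two : ∃ i j : ι, i ≠ j
  qne : ∀ i, (q : κ i) ≠ 0
  inf : ∀ i, Infinite (κ i)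
  zeta : ∃ z : R, IsPrimitiveRoot z q
  crt : ∀ z : ∀ i, κ i, ∃ x : R, ∀ i, ρ i x = z i
  unit : ∀ x : R, (∀ i, ρ i x ≠ 0) → ∃ y : R, x * y = 1
  prim : ∀ (N : Type) [Fintype N] (f : N → L), f ≠ 0 → ∃ (c : L) (g : N → R), c ≠ 0 ∧
    (∀ m, c * f m = (g m : L)) ∧ ∀ i, ∃ m, ρ i (g m) ≠ 0
  intc : ∀ f : R[X], f.Monic → ∀ x : L, f.eval₂ R.subtype x = 0 → x ∈ R
  root : ∀ f : L[X], f.Monic → ¬ p ∣ f.natDegree → ∃ x, f.eval x = 0

/-- approximation of points of X_n: every family of residue points with nonzero y-coordinates comes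
from one point -/
def Ap (q : ℕ) {L : Type u} [Field L] (R : Subring L) {ι : Type} (κ : ι → Type u)
    [∀ i, Field (κ i)] (ρ : ∀ i, R →+* κ i) (n : ℕ) : Prop :=
  ∀ a : Fin n → R, (∀ i, Function.Injective (fun j => ρ i (a j))) → (∀ i j, ρ i (a j) ≠ 0) →
    ∀ (x0 : ∀ i, κ i) (y0 : ∀ i, Fin n → κ i), (∀ i, OnX q (ρ i) a (x0 i) (y0 i)) →
    (∀ i j, y0 i j ≠ 0) →
    ∃ (x : R) (y : Fin n → R), (∀ j, y j ^ q = 1 + a j * x) ∧ ∀ i, ρ i x = x0 i ∧
      ∀ j, ρ i (y j) = y0 i j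

/-- the data of the induction step: the curve X_(n+1), the targets (x0 i; y0 i), the point W with
last coordinate 0, the points Q_i = (xR i; yR i) with residue (x0 i; y0 i) at i and W at the other
places -/
structure Sd (q : ℕ) {L : Type u} [Field L] (R : Subring L) {ι : Type} (κ : ι → Type u)
    [∀ i, Field (κ i)] (ρ : ∀ i, R →+* κ i) (n : ℕ) (z : R) (a : Fin (n + 1) → R)
    (x0 : ∀ i, κ i) (y0 : ∀ i, Fin (n + 1) → κ i) (xW : R) (cW : Fin (n + 1) → R) (xR : ι → R)
    (yR : ι → Fin (n + 1) → R) : Prop where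
  zeta : IsPrimitiveRoot z q
  inj : ∀ i, Function.Injective (fun j => ρ i (a j))
  nz : ∀ i j, ρ i (a j) ≠ 0
  tgt : ∀ i, OnX q (ρ i) a (x0 i) (y0 i)
  tnz : ∀ i j, y0 i j ≠ 0
  W : ∀ j, cW j ^ q = 1 + a j * xW
  W0 : cW (Fin.last n) = 0
  Wnz : ∀ i (j : Fin n), ρ i (cW j.castSucc) ≠ 0
  Q : ∀ i j, yR i j ^ q = 1 + a j * xR i
  Qx : ∀ i, ρ i (xR i) = x0 i
  Qy : ∀ i j, ρ i (yR i j) = y0 i j
  Qxo : ∀ i l, l ≠ i → ρ l (xR i) = ρ l xW
  Qyo : ∀ i l, l ≠ i → ∀ j, ρ l (yR i j) = ρ l (cW j)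

end Pool.LibNP88
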