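import Pool.Agent.LibNP88.Defs

/-
Arcs over L and the conditions of the space S: used in the rows T3a, T3b, T4a, T5.
-/

set_option autoImplicit false

noncomputable section

open Polynomial

namespace Pool.LibNP88

universe u

/-- arcs over L at the points Q_l and W -/
structure Ar (q : ℕ) {L : Type u} [Field L] (R : Subring L) {ι : Type} (n : ℕ)
    (a : Fin (n + 1) → R) (xW : R) (cW : Fin (n + 1) → R) (xR : ι → R)
    (yR : ι → Fin (n + 1) → R) (YQ : ι → Fin (n + 1) → PowerSeries L)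
    (YW : Fin (n + 1) → PowerSeries L) : Prop where
  Q : ∀ l, OnX q (PowerSeries.C (R := L)) (fun j => (a j : L)) (un (xR l : L)) (YQ l)
  Q0 : ∀ l j, PowerSeries.constantCoeff (YQ l j) = (yR l j : L)
  Q1 : ∀ l j, PowerSeries.coeff 1 (YQ l j) ≠ 0
  W : OnX q (PowerSeries.C (R := L)) (fun j => (a j : L)) (ra q (xW : L) (a (Fin.last n) : L)) YW
  W0 : ∀ j, PowerSeries.constantCoeff (YW j) = (cW j : L)
  W1 : YW (Fin.last n) = PowerSeries.X
  Ws : ∀ (j : Fin n) (k : ℕ), PowerSeries.coeff k (YW j.castSucc) ≠ 0 → q ∣ k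

/-- the conditions of the space S: pole order, order >= r at g Q_l (g != 1), order >= (s-1) r at W -/
structure Od (q : ℕ) {L : Type u} [Field L] (R : Subring L) {ι : Type} [Fintype ι] (n : ℕ) (z : R)
    (a : Fin (n + 1) → R) (xW : R) (xR : ι → R) (YQ : ι → Fin (n + 1) → PowerSeries L)
    (YW : Fin (n + 1) → PowerSeries L) (r : ℕ) (φ : Fam (n + 1) q R) : Prop where
  M : InL (Fintype.card ι * r) φ
  Q : ∀ (l : ι) (g : Fin (n + 1) → Fin q), (∃ j, (g j : ℕ) ≠ 0) → PowerSeries.X ^ r ∣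
    fe ((PowerSeries.C (R := L)).comp R.subtype) (un (xR l : L))
      (rt (PowerSeries.C (z : L)) g (YQ l)) φ
  W : PowerSeries.X ^ ((Fintype.card ι - 1) * r) ∣
    fe ((PowerSeries.C (R := L)).comp R.subtype) (ra q (xW : L) (a (Fin.last n) : L)) YW φ

end Pool.LibNP88
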