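import Mathlib

/-
LibNP88, model theoretic definitions: the language of rings with a unary predicate, the structure of a valued field, NIP.
-/

set_option autoImplicit false

noncomputable section

open FirstOrder Polynomial

namespace Pool.LibNP88

universe u

/-- function symbols of the language of rings -/
inductive VFun : ℕ → Type
  | zero : VFun 0
  | one : VFun 0
  | neg : VFun 1
  | add : VFun 2
  | mul : VFun 2

/-- the unary predicate -/
inductive VRel : ℕ → Type
  | mem : VRel 1

/-- the language of rings with one unary predicate -/
def Lvf : FirstOrder.Language.{0, 0} := ⟨VFun, VRel⟩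

/-- the valued field (K, O) as a structure -/
@[reducible] def strV {K : Type u} [Field K] (O : ValuationSubring K) : Lvf.Structure K where
  funMap := fun {_} f => match f with
    | VFun.zero => fun _ => 0
    | VFun.one => fun _ => 1
    | VFun.neg => fun x => - x 0
    | VFun.add => fun x => x 0 + x 1
    | VFun.mul => fun x => x 0 * x 1
  RelMap := fun {_} r => match r with
    | VRel.mem => fun x => x 0 ∈ O

/-- (K, O) is NIP: every formula phi(x;y) has a bound for the length of its independence patterns -/
def NIP {K : Type u} [Field K] (O : ValuationSubring K) : Prop :=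
  letI := strV O
  ∀ (m n : ℕ) (φ : Lvf.Formula (Fin m ⊕ Fin n)), ∃ N : ℕ,
    ¬ ∃ (a : Fin N → Fin m → K) (b : Set (Fin N) → Fin n → K),
      ∀ i J, φ.Realize (Sum.elim (a i) (b J)) ↔ i ∈ J

/-- definable with parameters -/
def Df {K : Type u} [Field K] (O : ValuationSubring K) {σ : Type} (S : Set (σ → K)) : Prop :=
  letI := strV O
  (Set.univ : Set K).Definable Lvf S

end Pool.LibNP88
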