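import Pool.Agent.LibNP88.Defs

/-
PLAN (E1, MEDIUM). Induction on D (for all S). D = 0 trivial. D + 1: S != 0, pick a nonzero element, prim gives f in S with coordinates in R, not all in ker ρ i, for every i. CRT gives a functional: choose for every i an index m_i with
ρ i (f m_i) != 0 and (crt) λ : N → R with ρ i (λ m) = 1 if m = m_i, 0 otherwise: then t := SUM_m λ m * f m has ρ i t = ρ i (f m_i) != 0 for all i (in particular t != 0). S' := S ∩ ker (x ↦ SUM λ m x m) has finrank >= finrank S - 1 >= D.
Induction: f_1..f_D in S'. Independent: if SUM c_k f̄_k + c f̄ = 0 over κ i apply λ̄: c * ρ i t = 0, so c = 0. Index type Fin (D+1): Fin.cons / Fin.snoc (LinearIndependent.. fin_cons).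
-/

set_option autoImplicit false

noncomputable section

open Polynomial

namespace Pool.LibNP88

universe u

/-- semi-local linear algebra -/
theorem semi {p q : ℕ} {L : Type u} [Field L] {R : Subring L} {ι : Type} [Fintype ι]
    {κ : ι → Type u} [∀ i, Field (κ i)] {ρ : ∀ i, R →+* κ i} (hB : Bs p q R κ ρ) (N : Type)
    [Fintype N] (S : Submodule L (N → L)) (D : ℕ) (hD : D ≤ Module.finrank L S) :
    ∃ f : Fin D → N → R, (∀ k, (fun m => (f k m : L)) ∈ S) ∧
      ∀ i, LinearIndependent (κ i) (fun k m => ρ i (f k m)) := by
  classical
  induction D generalizing S with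
  | zero => exact ⟨fun k => k.elim0, fun k => k.elim0, fun i => linearIndependent_empty_type⟩
  | succ D ih =>
    have hSne : S ≠ ⊥ := by
      rintro rfl
      rw [finrank_bot] at hD
      omega
    obtain ⟨x, hxS, hx0⟩ := S.exists_mem_ne_zero_of_ne_bot hSne
    obtain ⟨c, g, hc, hg, hgi⟩ := hB.prim N x hx0
    choose m hm using hgi
    have hlam : ∀ n : N, ∃ l : R, ∀ i, ρ i l = if n = m i then 1 else 0 :=
      fun n => hB.crt (fun i => if n = m i then 1 else 0)
    choose lam hlam using hlam
    have ht : ∀ i, ρ i (∑ n, lam n * g n) = ρ i (g (m i)) := by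
      intro i
      rw [map_sum]
      simp only [map_mul, hlam]
      simp
    let T : (N → L) →ₗ[L] L := ∑ n, (lam n : L) • LinearMap.proj n
    have hT : ∀ y : N → L, T y = ∑ n, (lam n : L) * y n := by
      intro y
      simp [T]
    let S' : Submodule L (N → L) := S ⊓ LinearMap.ker T
    have hS' : D ≤ Module.finrank L S' := by
      have h1 := Submodule.finrank_sup_add_finrank_inf_eq S (LinearMap.ker T)
      have h2 : Module.finrank L (↥(S ⊔ LinearMap.ker T)) ≤ Module.finrank L (N → L) :=
        Submodule.finrank_le _
      have h3 := LinearMap.finrank_range_add_finrank_ker T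
      have h4 : Module.finrank L (LinearMap.range T) ≤ 1 := by
        have := Submodule.finrank_le (LinearMap.range T)
        rwa [Module.finrank_self] at this
      have h5 : Module.finrank L S' = Module.finrank L (↥(S ⊓ LinearMap.ker T)) := rfl
      omega
    obtain ⟨f, hf, hfi⟩ := ih S' hS'
    refine ⟨Fin.cons g f, ?_, ?_⟩
    · intro k
      refine Fin.cases ?_ (fun k => ?_) k
      · have : (fun m => ((Fin.cons g f : Fin (D + 1) → N → R) 0 m : L)) = c • x := by
          funext n
          simp only [Fin.cons_zero, Pi.smul_apply, smul_eq_mul]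
          exact (hg n).symm
        rw [this]
        exact S.smul_mem c hxS
      · have h0 : (fun m => (f k m : L)) ∈ S := (hf k).1
        simpa only [Fin.cons_succ] using h0
    · intro i
      have hcons : (fun (k : Fin (D + 1)) (n : N) =>
          ρ i ((Fin.cons g f : Fin (D + 1) → N → R) k n)) =
          Fin.cons (fun n => ρ i (g n)) (fun k n => ρ i (f k n)) := by
        funext k
        refine Fin.cases ?_ (fun k => ?_) k
        · simp
        · simp
      rw [hcons, linearIndependent_finCons]
      refine ⟨hfi i, ?_⟩
      intro hmem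
      -- functional over κ i
      let U : (N → κ i) →ₗ[κ i] κ i := ∑ n, (ρ i (lam n)) • LinearMap.proj n
      have hU : ∀ y : N → κ i, U y = ∑ n, ρ i (lam n) * y n := by
        intro y
        simp [U]
      have hker : Submodule.span (κ i) (Set.range (fun k n => ρ i (f k n))) ≤ LinearMap.ker U := by
        rw [Submodule.span_le]
        rintro _ ⟨k, rfl⟩
        rw [SetLike.mem_coe, LinearMap.mem_ker, hU]
        have h1 : (fun m => (f k m : L)) ∈ LinearMap.ker T := (hf k).2
        rw [LinearMap.mem_ker, hT] at h1
        have h2 : (∑ n, lam n * f k n : R) = 0 := by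
          apply Subtype.ext
          push_cast
          exact h1
        have h3 := congrArg (ρ i) h2
        rw [map_sum, map_zero] at h3
        simpa only [map_mul] using h3
      have h6 := hker hmem
      rw [LinearMap.mem_ker, hU] at h6
      have h7 := ht i
      rw [map_sum] at h7
      simp only [map_mul] at h7
      rw [h6] at h7
      exact hm i h7.symm

end Pool.LibNP88
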