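import Pool.Agent.LibNP88.Defs

/-
PLAN (F1, SHORT/MEDIUM). Work in T = MvPolynomial (Option (Fin n)) S. Φ - C (value) = SUM of (X_none - C x0) * A + (X_some j - C (y0 j)) * A_j (MvPolynomial:
the ideal of polynomials vanishing at the point; by induction on Φ, or MvPolynomial.mem_ideal... / (X_s - C v_s) divides differences: prove by
MvPolynomial.induction_on the statement: exists A_o, Φ = C (ev Φ) + SUM_o (X_o - C (v_o)) * A_o). On an arc: (η_j - y0_j) * k_j = η_j^q - y0_j^q = a_j (ξ - x0),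
k_j = SUM_b η_j^b y0_j^(q-1-b) (geom_sum₂ / Commute.mul_geom_sum₂), so prod k_j * (η_i - y0_i) = (ξ - x0) * a_i * prod_(j != i) k_j. k_j is the value of the polynomial
SUM_b X_(some j)^b C (y0 j)^(q-1-b). Second theorem: a_last u = 1, so ξ - x0 = u (η_last^q - y0_last^q) = (η_last - y0_last) * u * k_last; only the k_j with j < n are needed.
-/

set_option autoImplicit false

noncomputable section

open Polynomial

namespace Pool.LibNP88

universe u

private theorem F1_div {σ : Type} [Fintype σ] {S : Type u} [CommRing S] (v : σ → S)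
    (Φ : MvPolynomial σ S) : ∃ A : σ → MvPolynomial σ S,
      Φ = MvPolynomial.C (MvPolynomial.eval₂Hom (RingHom.id S) v Φ) +
        ∑ o, (MvPolynomial.X o - MvPolynomial.C (v o)) * A o := by
  classical
  induction Φ using MvPolynomial.induction_on with
  | C c =>
    refine ⟨fun _ => 0, ?_⟩
    simp
  | add P Q hP hQ =>
    obtain ⟨A, hA⟩ := hP
    obtain ⟨A', hA'⟩ := hQ
    refine ⟨fun o => A o + A' o, ?_⟩
    rw [map_add, MvPolynomial.C_add]
    simp only [mul_add, Finset.sum_add_distrib]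
    nth_rewrite 1 [hA, hA']
    ring
  | mul_X P i hP =>
    obtain ⟨A, hA⟩ := hP
    refine ⟨fun o => A o * MvPolynomial.X i +
      if o = i then MvPolynomial.C (MvPolynomial.eval₂Hom (RingHom.id S) v P) else 0, ?_⟩
    rw [MvPolynomial.coe_eval₂Hom] at hA
    rw [map_mul, MvPolynomial.coe_eval₂Hom, MvPolynomial.eval₂_X, MvPolynomial.C_mul]
    simp only [mul_add, Finset.sum_add_distrib, mul_ite, mul_zero, Finset.sum_ite_eq', Finset.mem_univ,
      if_true]
    have h1 : ∑ o, (MvPolynomial.X o - MvPolynomial.C (v o)) * (A o * MvPolynomial.X i) =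
        (∑ o, (MvPolynomial.X o - MvPolynomial.C (v o)) * A o) * MvPolynomial.X i := by
      rw [Finset.sum_mul]
      refine Finset.sum_congr rfl fun o _ => ?_
      ring
    rw [h1]
    nth_rewrite 1 [hA]
    ring

private theorem F1_val {n : ℕ} {S : Type u} [CommRing S] (x0 : S) (y0 : Fin n → S)
    (Φ : MvPolynomial (Option (Fin n)) S) (hΦ : ev (RingHom.id S) x0 y0 Φ = 0) :
    ∃ (A : MvPolynomial (Option (Fin n)) S) (A' : Fin n → MvPolynomial (Option (Fin n)) S),
    ∀ (B : Type u) [CommRing B] (f : S →+* B) (ξ : B) (η : Fin n → B),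
      ev f ξ η Φ = (ξ - f x0) * ev f ξ η A + ∑ j, (η j - f (y0 j)) * ev f ξ η (A' j) := by
  obtain ⟨A, hA⟩ := F1_div (fun o : Option (Fin n) => o.elim x0 y0) Φ
  refine ⟨A none, fun j => A (some j), fun B _ f ξ η => ?_⟩
  have h1 : MvPolynomial.eval₂Hom (RingHom.id S) (fun o : Option (Fin n) => o.elim x0 y0) Φ = 0 := hΦ
  rw [h1, MvPolynomial.C_0, zero_add, Fintype.sum_option] at hA
  have h2 := congrArg (ev f ξ η) hA
  rw [h2, map_add, map_mul, map_sum]
  have hX : ∀ o, ev f ξ η (MvPolynomial.X o) = o.elim ξ η := by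
    intro o
    unfold ev
    rw [MvPolynomial.coe_eval₂Hom, MvPolynomial.eval₂_X]
  have hC : ∀ c, ev f ξ η (MvPolynomial.C c) = f c := by
    intro c
    unfold ev
    rw [MvPolynomial.coe_eval₂Hom, MvPolynomial.eval₂_C]
  rw [map_sub, hX, hC]
  congr 1
  refine Finset.sum_congr rfl fun j _ => ?_
  rw [map_mul, map_sub, hX, hC]
  rfl

/-- the polynomial with the value `∑ η^b y0^(q-1-b)` -/
private def F1_K (q : ℕ) {n : ℕ} {S : Type u} [CommRing S] (y0 : Fin n → S) (j : Fin n) :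
    MvPolynomial (Option (Fin n)) S :=
  ∑ b ∈ Finset.range q, MvPolynomial.X (some j) ^ b * MvPolynomial.C (y0 j) ^ (q - 1 - b)

private theorem F1_evK (q : ℕ) {n : ℕ} {S : Type u} [CommRing S] (y0 : Fin n → S) (j : Fin n)
    {B : Type u} [CommRing B] (f : S →+* B) (ξ : B) (η : Fin n → B) :
    ev f ξ η (F1_K q y0 j) = ∑ b ∈ Finset.range q, η j ^ b * f (y0 j) ^ (q - 1 - b) := by
  unfold F1_K
  rw [map_sum]
  refine Finset.sum_congr rfl fun b _ => ?_
  rw [map_mul, map_pow, map_pow]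
  unfold ev
  rw [MvPolynomial.coe_eval₂Hom, MvPolynomial.eval₂_X, MvPolynomial.eval₂_C]
  rfl

private theorem F1_evC {n : ℕ} {S : Type u} [CommRing S] (c : S)
    {B : Type u} [CommRing B] (f : S →+* B) (ξ : B) (η : Fin n → B) :
    ev f ξ η (MvPolynomial.C c) = f c := by
  unfold ev
  rw [MvPolynomial.coe_eval₂Hom, MvPolynomial.eval₂_C]

private theorem F1_rel {n q : ℕ} {S : Type u} [CommRing S] (a : Fin n → S) (x0 : S) (y0 : Fin n → S)
    (h0 : OnX q (RingHom.id S) a x0 y0) {B : Type u} [CommRing B] (f : S →+* B) (ξ : B) (η : Fin n → B)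
    (h : OnX q f a ξ η) (j : Fin n) :
    (∑ b ∈ Finset.range q, η j ^ b * f (y0 j) ^ (q - 1 - b)) * (η j - f (y0 j)) =
      f (a j) * (ξ - f x0) := by
  rw [geom_sum₂_mul]
  have h1 := congrArg f (h0 j)
  rw [map_pow, map_add, map_mul, map_one, RingHom.id_apply] at h1
  rw [h j, h1]
  ring

/-- factor at an unramified point -/
theorem fac_un {n q : ℕ} {S : Type u} [CommRing S] (a : Fin n → S) (x0 : S) (y0 : Fin n → S)
    (h0 : OnX q (RingHom.id S) a x0 y0) (Φ : MvPolynomial (Option (Fin n)) S)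
    (hΦ : ev (RingHom.id S) x0 y0 Φ = 0) : ∃ Φ1 : MvPolynomial (Option (Fin n)) S,
    ∀ (B : Type u) [CommRing B] (f : S →+* B) (ξ : B) (η : Fin n → B), OnX q f a ξ η →
      (∏ j, ∑ b ∈ Finset.range q, η j ^ b * f (y0 j) ^ (q - 1 - b)) * ev f ξ η Φ =
        (ξ - f x0) * ev f ξ η Φ1 := by
  classical
  obtain ⟨A, A', hA⟩ := F1_val x0 y0 Φ hΦ
  refine ⟨(∏ j, F1_K q y0 j) * A + ∑ i, MvPolynomial.C (a i) *
    (∏ j ∈ Finset.univ.erase i, F1_K q y0 j) * A' i, fun B _ f ξ η h => ?_⟩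
  rw [hA B f ξ η, map_add, map_mul, map_prod, map_sum]
  simp only [map_mul, map_prod, F1_evK, F1_evC]
  rw [mul_add, mul_add, Finset.mul_sum, Finset.mul_sum]
  congr 1
  · ring
  · refine Finset.sum_congr rfl fun i _ => ?_
    rw [← Finset.mul_prod_erase Finset.univ
      (fun j => ∑ b ∈ Finset.range q, η j ^ b * f (y0 j) ^ (q - 1 - b)) (Finset.mem_univ i)]
    have h1 := F1_rel a x0 y0 h0 f ξ η h i
    linear_combination ((∏ j ∈ Finset.univ.erase i,
      ∑ b ∈ Finset.range q, η j ^ b * f (y0 j) ^ (q - 1 - b)) * ev f ξ η (A' i)) * h1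

/-- factor at a point near W -/
theorem fac_w {n q : ℕ} {S : Type u} [CommRing S] (a : Fin (n + 1) → S) (v : S)
    (hv : a (Fin.last n) * v = 1) (x0 : S) (y0 : Fin (n + 1) → S)
    (h0 : OnX q (RingHom.id S) a x0 y0) (Φ : MvPolynomial (Option (Fin (n + 1))) S)
    (hΦ : ev (RingHom.id S) x0 y0 Φ = 0) : ∃ Φ1 : MvPolynomial (Option (Fin (n + 1))) S,
    ∀ (B : Type u) [CommRing B] (f : S →+* B) (ξ : B) (η : Fin (n + 1) → B), OnX q f a ξ η →
      (∏ j : Fin n, ∑ b ∈ Finset.range q, η j.castSucc ^ b * f (y0 j.castSucc) ^ (q - 1 - b)) *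
        ev f ξ η Φ = (η (Fin.last n) - f (y0 (Fin.last n))) * ev f ξ η Φ1 := by
  classical
  obtain ⟨A, A', hA⟩ := F1_val x0 y0 Φ hΦ
  refine ⟨(∏ j : Fin n, F1_K q y0 j.castSucc) * (MvPolynomial.C v * F1_K q y0 (Fin.last n)) * A +
    ((∑ i : Fin n, MvPolynomial.C (a i.castSucc) * (MvPolynomial.C v * F1_K q y0 (Fin.last n)) *
      (∏ j ∈ Finset.univ.erase i, F1_K q y0 (Fin.castSucc j)) * A' i.castSucc) +
      (∏ j : Fin n, F1_K q y0 j.castSucc) * A' (Fin.last n)), fun B _ f ξ η h => ?_⟩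
  rw [hA B f ξ η, Fin.sum_univ_castSucc]
  simp only [map_add, map_sum, map_mul, map_prod, F1_evK, F1_evC]
  have hx : ξ - f x0 = (η (Fin.last n) - f (y0 (Fin.last n))) * (f v *
      ∑ b ∈ Finset.range q, η (Fin.last n) ^ b * f (y0 (Fin.last n)) ^ (q - 1 - b)) := by
    have h1 := F1_rel a x0 y0 h0 f ξ η h (Fin.last n)
    have h2 : f (a (Fin.last n)) * f v = 1 := by
      rw [← map_mul, hv, map_one]
    linear_combination (-f v) * h1 - (ξ - f x0) * h2
  rw [mul_add, mul_add, mul_add, mul_add]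
  congr 1
  · rw [hx]
    ring
  · congr 1
    · rw [Finset.mul_sum, Finset.mul_sum]
      refine Finset.sum_congr rfl fun i _ => ?_
      rw [← Finset.mul_prod_erase Finset.univ
        (fun j : Fin n => ∑ b ∈ Finset.range q, η j.castSucc ^ b * f (y0 j.castSucc) ^ (q - 1 - b))
        (Finset.mem_univ i)]
      have h1 := F1_rel a x0 y0 h0 f ξ η h i.castSucc
      linear_combination ((∏ j ∈ Finset.univ.erase i,
        ∑ b ∈ Finset.range q, η (Fin.castSucc j) ^ b * f (y0 (Fin.castSucc j)) ^ (q - 1 - b)) *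
          ev f ξ η (A' i.castSucc)) * h1 + (f (a i.castSucc) * (∏ j ∈ Finset.univ.erase i,
        ∑ b ∈ Finset.range q, η (Fin.castSucc j) ^ b * f (y0 (Fin.castSucc j)) ^ (q - 1 - b)) *
          ev f ξ η (A' i.castSucc)) * hx
    · ring

end Pool.LibNP88
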