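import Pool.Agent.LibNP88.Defs

/-
PLAN (F3, SHORT/MEDIUM). Induction on SUM μ. If all μ k = 0 nothing to show. Otherwise choose k with μ k >= 1: constantCoeff (E k Φ) = 0, hfac gives Φ1. For l != k: E l (u k) is a
unit, X^(μ l) | E l (e k) E l Φ = E l (u k) E l Φ1, so X^(μ l) | E l Φ1. For l = k: E k (u k) = X * unit (coeff 0 = 0, coeff 1 != 0), so X^(μ k) | X E k Φ1,
X^(μ k - 1) | E k Φ1 (domain). Induction for Φ1 with μ - 1 at k: X^(SUM μ - 1) | E0 Φ1, E0 (e k) unit, X | E0 (u k). (PowerSeries over a field: X is prime, constantCoeff != 0 iff unit.)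
-/

set_option autoImplicit false

noncomputable section

open Polynomial

namespace Pool.LibNP88

universe u

/-- abstract multiplicity lemma -/
theorem mult_abs {T : Type u} [CommRing T] {L F : Type u} [Field L] [Field F] {τ : Type}
    [Fintype τ] (E : τ → T →+* PowerSeries L) (E0 : T →+* PowerSeries F) (e v : τ → T)
    (hfac : ∀ k Φ, PowerSeries.constantCoeff (E k Φ) = 0 → ∃ Φ1,
      (∀ l, E l (e k * Φ) = E l (v k * Φ1)) ∧ E0 (e k * Φ) = E0 (v k * Φ1))
    (h0 : ∀ k, PowerSeries.constantCoeff (E k (v k)) = 0)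
    (h1 : ∀ k, PowerSeries.coeff 1 (E k (v k)) ≠ 0)
    (h2 : ∀ k l, k ≠ l → PowerSeries.constantCoeff (E l (v k)) ≠ 0)
    (h3 : ∀ k, PowerSeries.constantCoeff (E0 (e k)) ≠ 0)
    (h4 : ∀ k, PowerSeries.X ∣ E0 (v k)) (μ : τ → ℕ) (Φ : T)
    (h : ∀ k, PowerSeries.X ^ μ k ∣ E k Φ) : PowerSeries.X ^ (∑ k, μ k) ∣ E0 Φ := by
  classical
  obtain ⟨n, hn⟩ : ∃ n, n = ∑ k, μ k := ⟨_, rfl⟩
  induction n generalizing μ Φ with
  | zero =>
    rw [← hn, pow_zero]
    exact one_dvd _
  | succ n ih =>
    obtain ⟨k, hk⟩ : ∃ k, μ k ≠ 0 := by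
      by_contra hcon
      push Not at hcon
      rw [Finset.sum_eq_zero (fun k _ => hcon k)] at hn
      omega
    obtain ⟨a, ha⟩ : ∃ a, μ k = a + 1 := ⟨μ k - 1, by omega⟩
    have hc : PowerSeries.constantCoeff (E k Φ) = 0 := by
      obtain ⟨c, hc⟩ := h k
      rw [hc, ha, pow_succ, map_mul, map_mul, PowerSeries.constantCoeff_X, mul_zero, zero_mul]
    obtain ⟨Φ1, hΦ, hΦ0⟩ := hfac k Φ hc
    have hsum : n = ∑ l, Function.update μ k a l := by
      have e1 := Finset.add_sum_erase Finset.univ μ (Finset.mem_univ k)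
      have e2 := Finset.add_sum_erase Finset.univ (Function.update μ k a) (Finset.mem_univ k)
      have e3 : ∑ l ∈ Finset.univ.erase k, Function.update μ k a l =
          ∑ l ∈ Finset.univ.erase k, μ l :=
        Finset.sum_congr rfl fun l hl =>
          Function.update_of_ne (Finset.ne_of_mem_erase hl) a μ
      rw [e3, Function.update_self] at e2
      omega
    have key : ∀ l, PowerSeries.X ^ Function.update μ k a l ∣ E l Φ1 := by
      intro l
      by_cases hl : l = k
      · subst hl
        rw [Function.update_self]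
        obtain ⟨w, hw⟩ := PowerSeries.X_dvd_iff.2 (h0 l)
        have hwu : IsUnit w := by
          rw [PowerSeries.isUnit_iff_constantCoeff, isUnit_iff_ne_zero]
          have h5 := h1 l
          rw [hw, show (1 : ℕ) = 0 + 1 from rfl, PowerSeries.coeff_succ_X_mul] at h5
          rwa [PowerSeries.coeff_zero_eq_constantCoeff_apply] at h5
        have h6 : PowerSeries.X ^ (a + 1) ∣ E l (v l) * E l Φ1 := by
          rw [← map_mul, ← hΦ l, map_mul, ← ha]
          exact Dvd.dvd.mul_left (h l) _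
        rw [hw, mul_assoc, pow_succ', mul_dvd_mul_iff_left PowerSeries.X_ne_zero,
          hwu.dvd_mul_left] at h6
        exact h6
      · rw [Function.update_of_ne hl]
        have hu : IsUnit (E l (v k)) := by
          rw [PowerSeries.isUnit_iff_constantCoeff, isUnit_iff_ne_zero]
          exact h2 k l (fun hkl => hl hkl.symm)
        rw [← hu.dvd_mul_left, ← map_mul, ← hΦ l, map_mul]
        exact Dvd.dvd.mul_left (h l) _
    have hih := ih (Function.update μ k a) Φ1 key hsum
    rw [← hsum] at hih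
    rw [← hn]
    have hu : IsUnit (E0 (e k)) := by
      rw [PowerSeries.isUnit_iff_constantCoeff, isUnit_iff_ne_zero]
      exact h3 k
    rw [← hu.dvd_mul_left, ← map_mul, hΦ0, map_mul, pow_succ']
    exact mul_dvd_mul (h4 k) hih

end Pool.LibNP88
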