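import Pool.Agent.LibNP88.Defs

/-
PLAN (NF, SHORT/MEDIUM). nf: induction on Φ (MvPolynomial.induction_on'' or monomials + sums): families are closed under addition; for
a monomial c x^k prod y_j^(m_j): take eps_j = m_j mod q and the polynomial C c * X^k * prod (1 + C (a j) * X)^(m_j / q) at eps, 0 elsewhere;
η_j^(m_j) = η_j^(m_j mod q) (η_j^q)^(m_j / q). mv: Φ = SUM_eps (φ eps).eval₂ MvPolynomial.C (X none) * prod_j X (some j)^(eps j); Polynomial.hom_eval₂.
fe_map, fe_hom: eval₂_map, hom_eval₂ / map_sum.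
-/

set_option autoImplicit false

noncomputable section

open Polynomial

namespace Pool.LibNP88

universe u

/-- normal form -/
theorem nf {n q : ℕ} (hq : 0 < q) {S : Type u} [CommRing S] (a : Fin n → S)
    (Φ : MvPolynomial (Option (Fin n)) S) : ∃ φ : Fam n q S,
    ∀ (B : Type u) [CommRing B] (f : S →+* B) (ξ : B) (η : Fin n → B), OnX q f a ξ η →
      ev f ξ η Φ = fe f ξ η φ := by
  induction Φ using MvPolynomial.induction_on' with
  | monomial m c =>
    classical
    obtain ⟨ε0, hε0⟩ : ∃ ε0 : Fin n → Fin q, ∀ j, (ε0 j : ℕ) = m (some j) % q :=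
      ⟨fun j => ⟨m (some j) % q, Nat.mod_lt _ hq⟩, fun j => rfl⟩
    refine ⟨fun ε => if ε = ε0 then
      C c * X ^ (m none) * ∏ j, (1 + C (a j) * X) ^ (m (some j) / q) else 0, ?_⟩
    intro B _ f ξ η hX
    have h1 : ev f ξ η (MvPolynomial.monomial m c) =
        f c * (ξ ^ (m none) * ∏ j, η j ^ (m (some j))) := by
      unfold ev
      rw [MvPolynomial.coe_eval₂Hom, MvPolynomial.eval₂_monomial,
        Finsupp.prod_fintype _ _ (fun i => pow_zero _), Fintype.prod_option]
      rfl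
    rw [h1]
    unfold fe
    rw [Finset.sum_eq_single ε0]
    · beta_reduce
      rw [if_pos rfl, eval₂_mul, eval₂_mul, eval₂_C, eval₂_X_pow, Polynomial.eval₂_finset_prod]
      have h2 : ∏ j, η j ^ (m (some j)) =
          (∏ j, ((1 + C (a j) * X : S[X]) ^ (m (some j) / q)).eval₂ f ξ) * ∏ j, η j ^ (ε0 j : ℕ) := by
        rw [← Finset.prod_mul_distrib]
        refine Finset.prod_congr rfl fun j _ => ?_
        rw [eval₂_pow, eval₂_add, eval₂_one, eval₂_mul, eval₂_C, eval₂_X, ← hX j, hε0 j, ← pow_mul,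
          ← pow_add, Nat.div_add_mod]
      rw [h2]
      ring
    · intro ε _ hε
      beta_reduce
      rw [if_neg hε, eval₂_zero, zero_mul]
    · intro h
      exact absurd (Finset.mem_univ _) h
  | add Φ Ψ hΦ hΨ =>
    obtain ⟨φ, hφ⟩ := hΦ
    obtain ⟨ψ, hψ⟩ := hΨ
    refine ⟨φ + ψ, ?_⟩
    intro B _ f ξ η hX
    rw [map_add, hφ B f ξ η hX, hψ B f ξ η hX]
    unfold fe
    rw [← Finset.sum_add_distrib]
    refine Finset.sum_congr rfl fun ε _ => ?_
    rw [Pi.add_apply, eval₂_add, add_mul]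

/-- families as polynomials -/
theorem mv {n q : ℕ} {S : Type u} [CommRing S] (φ : Fam n q S) :
    ∃ Φ : MvPolynomial (Option (Fin n)) S,
    ∀ (B : Type u) [CommRing B] (f : S →+* B) (ξ : B) (η : Fin n → B),
      ev f ξ η Φ = fe f ξ η φ := by
  refine ⟨∑ ε, (φ ε).eval₂ MvPolynomial.C (MvPolynomial.X none) *
    ∏ j, (MvPolynomial.X (some j)) ^ (ε j : ℕ), ?_⟩
  intro B _ f ξ η
  unfold fe
  rw [map_sum]
  refine Finset.sum_congr rfl fun ε _ => ?_
  rw [map_mul, map_prod, Polynomial.hom_eval₂]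
  have h1 : (ev f ξ η).comp (MvPolynomial.C : S →+* MvPolynomial (Option (Fin n)) S) = f := by
    refine RingHom.ext fun c => ?_
    exact MvPolynomial.eval₂_C _ _ _
  have h2 : ev f ξ η (MvPolynomial.X none) = ξ := MvPolynomial.eval₂_X _ _ _
  rw [h1, h2]
  congr 1
  refine Finset.prod_congr rfl fun j _ => ?_
  rw [map_pow]
  exact congrArg (· ^ (ε j : ℕ)) (MvPolynomial.eval₂_X _ _ _)

theorem fe_map {n q : ℕ} {S S' B : Type u} [CommRing S] [CommRing S'] [CommRing B]
    (s : S →+* S') (f : S' →+* B) (ξ : B) (η : Fin n → B) (φ : Fam n q S) :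
    fe f ξ η (fun ε => (φ ε).map s) = fe (f.comp s) ξ η φ := by
  unfold fe
  refine Finset.sum_congr rfl fun ε _ => ?_
  rw [Polynomial.eval₂_map]

theorem fe_hom {n q : ℕ} {S B B' : Type u} [CommRing S] [CommRing B] [CommRing B']
    (f : S →+* B) (s : B →+* B') (ξ : B) (η : Fin n → B) (φ : Fam n q S) :
    s (fe f ξ η φ) = fe (s.comp f) (s ξ) (fun j => s (η j)) φ := by
  unfold fe
  rw [map_sum]
  refine Finset.sum_congr rfl fun ε _ => ?_
  rw [map_mul, Polynomial.hom_eval₂, map_prod]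
  congr 1
  refine Finset.prod_congr rfl fun j _ => ?_
  rw [map_pow]

/-- multiplication of a family by a polynomial in x -/
theorem fe_mul {n q : ℕ} {S B : Type u} [CommRing S] [CommRing B] (f : S →+* B) (ξ : B)
    (η : Fin n → B) (g : S[X]) (φ : Fam n q S) :
    fe f ξ η (fun ε => g * φ ε) = g.eval₂ f ξ * fe f ξ η φ := by
  unfold fe
  rw [Finset.mul_sum]
  refine Finset.sum_congr rfl fun ε _ => ?_
  rw [eval₂_mul, mul_assoc]

theorem fe_cst {n q : ℕ} (hq : 0 < q) {S B : Type u} [CommRing S] [CommRing B] (f : S →+* B)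
    (ξ : B) (η : Fin n → B) (g : S[X]) : fe f ξ η (cst g : Fam n q S) = g.eval₂ f ξ := by
  unfold fe cst
  have h0 : wt (fun _ : Fin n => (⟨0, hq⟩ : Fin q)) = 0 := by
    unfold wt
    exact Finset.sum_eq_zero fun j _ => rfl
  rw [Finset.sum_eq_single (fun _ : Fin n => (⟨0, hq⟩ : Fin q))]
  · rw [if_pos h0]
    have h1 : ∏ j : Fin n, η j ^ (((⟨0, hq⟩ : Fin q) : ℕ)) = 1 :=
      Finset.prod_eq_one fun j _ => pow_zero _
    rw [h1, mul_one]
  · intro ε _ hε
    have h1 : wt ε ≠ 0 := by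
      intro h
      apply hε
      funext j
      have h2 : (ε j : ℕ) = 0 := by
        have h3 := Finset.sum_eq_zero_iff.1 h j (Finset.mem_univ j)
        exact h3
      exact Fin.ext h2
    rw [if_neg h1, eval₂_zero, zero_mul]
  · intro h
    exact absurd (Finset.mem_univ _) h

theorem fe_add {n q : ℕ} {S B : Type u} [CommRing S] [CommRing B] (f : S →+* B) (ξ : B)
    (η : Fin n → B) (φ ψ : Fam n q S) : fe f ξ η (φ + ψ) = fe f ξ η φ + fe f ξ η ψ := by
  unfold fe
  rw [← Finset.sum_add_distrib]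
  refine Finset.sum_congr rfl fun ε _ => ?_
  rw [Pi.add_apply, eval₂_add, add_mul]

theorem fe_smul {n q : ℕ} {S B : Type u} [CommRing S] [CommRing B] (f : S →+* B) (ξ : B)
    (η : Fin n → B) (c : S) (φ : Fam n q S) : fe f ξ η (c • φ) = f c * fe f ξ η φ := by
  unfold fe
  rw [Finset.mul_sum]
  refine Finset.sum_congr rfl fun ε _ => ?_
  rw [Pi.smul_apply, Polynomial.eval₂_smul, mul_assoc]

end Pool.LibNP88
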