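import Pool.Agent.LibNP88.R1
import Pool.Agent.LibNP88.NF

/-
PLAN (F4, MEDIUM). Split eps = (eps', b), b = eps (last). fe C (ra ..) (rt z g Y) φ = SUM_b X^b * H_(b,g), H_(b,g) := fe (n variables) C (ra ..) (rt z g' Y') (φ (eps', b)) (g last = 0, Y last = X) .
All coefficients of H_(b,g) have index divisible by q: ra .. and Y j.castSucc have this property (hs), it is stable under sums, products (the subring of such series). So X^(q N) | SUM_b X^b H_(b,g) implies
X^(q N) | H_(b,g) for every b < q (coefficients with index = b mod q come only from the b-th term). Fourier (R1) in the n variables g': (q^n) (φ (eps', b)).eval₂ C (ra ..) prod Y'^(eps') is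
divisible by X^(q N); q != 0, Y' units: X^(q N) | (φ eps).eval₂ C (C xW + C b⁻¹ X^q). Write φ eps = (X - C xW)^k ψ with ψ(xW) != 0 (if φ eps != 0; rootMultiplicity): the value is (b⁻¹ X^q)^k times a unit, so
q k >= q N. Second part: ψ coefficients: degree of φ eps = N + degree of ψ eps (monic factor), so InL (M+N) φ -> InL M ψ: for a nonzero coefficient k of ψ eps, k <= natDegree ψ, natDegree φ = N + natDegree ψ and
q natDegree φ + wt <= q (M + N) since the leading coefficient is nonzero.
-/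

set_option autoImplicit false

noncomputable section

open Polynomial

namespace Pool.LibNP88

universe u

/-- the subring of the series with exponents divisible by q -/
private def F4S (q : ℕ) (F : Type u) [Field F] : Subring (PowerSeries F) where
  carrier := {f | ∀ k, PowerSeries.coeff k f ≠ 0 → q ∣ k}
  mul_mem' := by
    intro f g hf hg k hk
    rw [PowerSeries.coeff_mul] at hk
    obtain ⟨x, hx, h⟩ := Finset.exists_ne_zero_of_sum_ne_zero hk
    rw [← Finset.HasAntidiagonal.mem_antidiagonal.1 hx]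
    exact dvd_add (hf _ (left_ne_zero_of_mul h)) (hg _ (right_ne_zero_of_mul h))
  one_mem' := by
    intro k hk
    rw [PowerSeries.coeff_one] at hk
    by_cases h : k = 0
    · rw [h]
      exact dvd_zero q
    · rw [if_neg h] at hk
      exact absurd rfl hk
  add_mem' := by
    intro f g hf hg k hk
    rw [map_add] at hk
    by_cases h : PowerSeries.coeff k f = 0
    · rw [h, zero_add] at hk
      exact hg k hk
    · exact hf k h
  zero_mem' := by
    intro k hk
    rw [map_zero] at hk
    exact absurd rfl hk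
  neg_mem' := by
    intro f hf k hk
    rw [map_neg] at hk
    exact hf k fun h => hk (by rw [h, neg_zero])

private theorem F4S_C (q : ℕ) {F : Type u} [Field F] (c : F) : PowerSeries.C c ∈ F4S q F := by
  intro k hk
  rw [PowerSeries.coeff_C] at hk
  by_cases h : k = 0
  · rw [h]
    exact dvd_zero q
  · rw [if_neg h] at hk
    exact absurd rfl hk

private theorem F4S_ra (q : ℕ) {F : Type u} [Field F] (x b : F) : ra q x b ∈ F4S q F := by
  unfold ra
  refine (F4S q F).add_mem (F4S_C q x) ((F4S q F).mul_mem (F4S_C q _) ?_)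
  intro k hk
  rw [PowerSeries.coeff_X_pow] at hk
  by_cases h : k = q
  · rw [h]
  · rw [if_neg h] at hk
    exact absurd rfl hk

private theorem F4S_eval {q : ℕ} {F : Type u} [Field F] {ξ : PowerSeries F} (hξ : ξ ∈ F4S q F) (P : F[X]) :
    P.eval₂ (PowerSeries.C (R := F)) ξ ∈ F4S q F := by
  rw [Polynomial.eval₂_eq_sum_range]
  exact (F4S q F).sum_mem fun i _ => (F4S q F).mul_mem (F4S_C q _) ((F4S q F).pow_mem hξ i)

private theorem F4S_fe {n q : ℕ} {F : Type u} [Field F] {ξ : PowerSeries F} (hξ : ξ ∈ F4S q F)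
    {η : Fin n → PowerSeries F} (hη : ∀ j, η j ∈ F4S q F) (φ : Fam n q F) :
    fe (PowerSeries.C (R := F)) ξ η φ ∈ F4S q F :=
  (F4S q F).sum_mem fun ε _ => (F4S q F).mul_mem (F4S_eval hξ _)
    ((F4S q F).prod_mem fun j _ => (F4S q F).pow_mem (hη j) _)

/-- the summands X^b H_b have disjoint exponents -/
private theorem F4_split {q N : ℕ} {F : Type u} [Field F] (H : Fin q → PowerSeries F)
    (hH : ∀ b, H b ∈ F4S q F) (h : (PowerSeries.X : PowerSeries F) ^ (q * N) ∣
      ∑ b : Fin q, PowerSeries.X ^ (b : ℕ) * H b) (b : Fin q) :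
    (PowerSeries.X : PowerSeries F) ^ (q * N) ∣ H b := by
  rw [PowerSeries.X_pow_dvd_iff] at h ⊢
  intro k hk
  by_contra hne
  obtain ⟨r, hr⟩ := hH b k hne
  have hb := b.2
  have hrN : r < N := by
    rw [hr] at hk
    exact lt_of_mul_lt_mul_left hk (Nat.zero_le q)
  have hk2 : k + b < q * N := by
    have h1 : q * (r + 1) ≤ q * N := Nat.mul_le_mul_left q hrN
    rw [hr]
    nlinarith
  have h1 := h (k + b) hk2
  rw [map_sum] at h1
  have h2 : ∀ b' : Fin q, b' ≠ b → PowerSeries.coeff (k + b) (PowerSeries.X ^ (b' : ℕ) * H b') = 0 := by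
    intro b' hbb
    rw [PowerSeries.coeff_X_pow_mul']
    split_ifs with h3
    · by_contra hne'
      obtain ⟨r', hr'⟩ := hH b' _ hne'
      apply hbb
      have hb' := b'.2
      have h4 : q * r + b = q * r' + b' := by omega
      have h5 : (q * r + b) % q = b := by
        rw [Nat.mul_add_mod, Nat.mod_eq_of_lt hb]
      have h6 : (q * r' + b') % q = b' := by
        rw [Nat.mul_add_mod, Nat.mod_eq_of_lt hb']
      apply Fin.ext
      rw [← h5, ← h6, h4]
    · rfl
  rw [Finset.sum_eq_single b (fun b' _ hbb => h2 b' hbb) (fun h3 => absurd (Finset.mem_univ _) h3),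
    PowerSeries.coeff_X_pow_mul', if_pos (by omega), Nat.add_sub_cancel] at h1
  exact hne h1

/-- splitting the last exponent -/
private theorem F4_fe {n q : ℕ} {F B : Type u} [Field F] [CommRing B] (f : F →+* B) (ξ : B)
    (η : Fin (n + 1) → B) (φ : Fam (n + 1) q F) :
    fe f ξ η φ = ∑ b : Fin q, η (Fin.last n) ^ (b : ℕ) *
      fe f ξ (fun j : Fin n => η j.castSucc) (fun ε => φ (Fin.snoc ε b) : Fam n q F) := by
  unfold fe
  rw [← (Fin.snocEquiv (fun _ : Fin (n + 1) => Fin q)).sum_comp, Fintype.sum_prod_type]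
  refine Finset.sum_congr rfl fun b _ => ?_
  rw [Finset.mul_sum]
  refine Finset.sum_congr rfl fun ε _ => ?_
  have h1 : (Fin.snocEquiv (fun _ : Fin (n + 1) => Fin q)) (b, ε) = Fin.snoc ε b := rfl
  rw [h1, Fin.prod_univ_castSucc]
  simp only [Fin.snoc_castSucc, Fin.snoc_last]
  ring

private theorem F4_ord {q : ℕ} (hq0 : 0 < q) {F : Type u} [Field F] {x c : F} (hc : c ≠ 0) {N : ℕ} {P : F[X]}
    (h : (PowerSeries.X : PowerSeries F) ^ (q * N) ∣ P.eval₂ (PowerSeries.C (R := F)) (ra q x c)) :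
    (X - C x) ^ N ∣ P := by
  by_cases hP : P = 0
  · rw [hP]
    exact dvd_zero _
  obtain ⟨Q, hQ, hQ'⟩ := Polynomial.exists_eq_pow_rootMultiplicity_mul_and_not_dvd P hP x
  set r := P.rootMultiplicity x with hr
  have hQx : Q.eval x ≠ 0 := fun h0 => hQ' (Polynomial.dvd_iff_isRoot.2 h0)
  have h1 : P.eval₂ (PowerSeries.C (R := F)) (ra q x c) =
      (PowerSeries.C c⁻¹ * PowerSeries.X ^ q) ^ r * Q.eval₂ (PowerSeries.C (R := F)) (ra q x c) := by
    conv_lhs => rw [hQ]
    rw [Polynomial.eval₂_mul, Polynomial.eval₂_pow, Polynomial.eval₂_sub, Polynomial.eval₂_X,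
      Polynomial.eval₂_C]
    congr 2
    unfold ra
    ring
  have h2 : IsUnit (Q.eval₂ (PowerSeries.C (R := F)) (ra q x c)) := by
    rw [PowerSeries.isUnit_iff_constantCoeff, Polynomial.hom_eval₂]
    have h3 : (PowerSeries.constantCoeff (R := F)).comp (PowerSeries.C (R := F)) = RingHom.id F := by
      ext y
      simp
    have h4 : PowerSeries.constantCoeff (ra q x c) = x := by
      unfold ra
      simp [hq0.ne']
    rw [h3, h4]
    exact isUnit_iff_ne_zero.2 hQx
  rw [h1] at h
  have h5 : (PowerSeries.X : PowerSeries F) ^ (q * N) ∣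
      PowerSeries.C (c⁻¹ ^ r) * PowerSeries.X ^ (q * r) := by
    have h6 := (IsUnit.dvd_mul_right h2).1 h
    rwa [mul_pow, ← pow_mul, ← map_pow] at h6
  have h7 : q * N ≤ q * r := by
    by_contra hlt
    push Not at hlt
    rw [PowerSeries.X_pow_dvd_iff] at h5
    have h8 := h5 (q * r) hlt
    rw [PowerSeries.coeff_C_mul, PowerSeries.coeff_X_pow, if_pos rfl, mul_one] at h8
    exact pow_ne_zero r (inv_ne_zero hc) h8
  have h8 : N ≤ r := le_of_mul_le_mul_left h7 hq0
  rw [hQ]
  exact Dvd.dvd.mul_right (pow_dvd_pow _ h8) Q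

/-- divisibility by powers of x - xW -/
theorem div_w {n q : ℕ} (hqp : q.Prime) {F : Type u} [Field F] (hq : (q : F) ≠ 0) (z : F)
    (hz : IsPrimitiveRoot z q) (a : Fin (n + 1) → F) (ha : a (Fin.last n) ≠ 0) (xW : F)
    (Y : Fin (n + 1) → PowerSeries F)
    (hY0 : ∀ j : Fin n, PowerSeries.constantCoeff (Y j.castSucc) ≠ 0)
    (hYl : Y (Fin.last n) = PowerSeries.X)
    (hs : ∀ (j : Fin n) (k : ℕ), PowerSeries.coeff k (Y j.castSucc) ≠ 0 → q ∣ k) (N M : ℕ)
    (φ : Fam (n + 1) q F) (hM : InL (M + N) φ)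
    (h : ∀ g : Fin (n + 1) → Fin q, (g (Fin.last n) : ℕ) = 0 → PowerSeries.X ^ (q * N) ∣
      fe (PowerSeries.C (R := F)) (ra q xW (a (Fin.last n))) (rt (PowerSeries.C z) g Y) φ) :
    ∃ ψ : Fam (n + 1) q F, (∀ ε, φ ε = (X - C xW) ^ N * ψ ε) ∧ InL M ψ := by
  have hq0 : 0 < q := hqp.pos
  have key : ∀ ε : Fin (n + 1) → Fin q, (X - C xW) ^ N ∣ φ ε := by
    intro ε
    refine F4_ord hq0 ha (x := xW) ?_
    have h1 : ∀ (g : Fin n → Fin q) (b : Fin q), (PowerSeries.X : PowerSeries F) ^ (q * N) ∣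
        fe (PowerSeries.C (R := F)) (ra q xW (a (Fin.last n)))
          (rt (PowerSeries.C z) g (fun j : Fin n => Y j.castSucc)) (fun ε' => φ (Fin.snoc ε' b) : Fam n q F) := by
      intro g b
      refine F4_split (fun b => fe (PowerSeries.C (R := F)) (ra q xW (a (Fin.last n)))
          (rt (PowerSeries.C z) g (fun j : Fin n => Y j.castSucc)) (fun ε' => φ (Fin.snoc ε' b) : Fam n q F))
          (fun b => ?_) ?_ b
      · refine F4S_fe (F4S_ra q _ _) (fun j => ?_) _
        exact (F4S q F).mul_mem ((F4S q F).pow_mem (F4S_C q z) _) (hs j)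
      · have h2 := h (Fin.snoc g ⟨0, hq0⟩) (by simp)
        rw [F4_fe] at h2
        have h3 : rt (PowerSeries.C z) (Fin.snoc g ⟨0, hq0⟩ : Fin (n + 1) → Fin q) Y (Fin.last n) =
            PowerSeries.X := by
          unfold rt
          rw [Fin.snoc_last, hYl]
          simp
        have h4 : (fun j : Fin n => rt (PowerSeries.C z) (Fin.snoc g ⟨0, hq0⟩ : Fin (n + 1) → Fin q) Y
            j.castSucc) = rt (PowerSeries.C z) g (fun j : Fin n => Y j.castSucc) := by
          funext j
          unfold rt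
          rw [Fin.snoc_castSucc]
        rw [h3, h4] at h2
        exact h2
    have h2 := fourier (n := n) hqp z hz (PowerSeries.C (R := F)) (ra q xW (a (Fin.last n)))
      (fun j : Fin n => Y j.castSucc) (fun ε' => φ (Fin.snoc ε' (ε (Fin.last n))) : Fam n q F)
      (fun j => ε j.castSucc)
    have h3 : (PowerSeries.X : PowerSeries F) ^ (q * N) ∣ (q : PowerSeries F) ^ n *
        ((φ ε).eval₂ (PowerSeries.C (R := F)) (ra q xW (a (Fin.last n))) *
          ∏ j : Fin n, Y j.castSucc ^ (ε j.castSucc : ℕ)) := by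
      have h4 : (Fin.snoc (fun j : Fin n => ε j.castSucc) (ε (Fin.last n)) : Fin (n + 1) → Fin q) = ε :=
        Fin.snoc_init_self ε
      simp only [h4] at h2
      rw [← h2]
      exact Finset.dvd_sum fun g _ => Dvd.dvd.mul_left (h1 g _) _
    have h4 : IsUnit ((q : PowerSeries F) ^ n) := by
      refine IsUnit.pow n ?_
      rw [PowerSeries.isUnit_iff_constantCoeff, map_natCast]
      exact isUnit_iff_ne_zero.2 hq
    have h5 : IsUnit (∏ j : Fin n, Y j.castSucc ^ (ε j.castSucc : ℕ)) := by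
      rw [PowerSeries.isUnit_iff_constantCoeff, map_prod]
      refine isUnit_iff_ne_zero.2 (Finset.prod_ne_zero_iff.2 fun j _ => ?_)
      rw [map_pow]
      exact pow_ne_zero _ (hY0 j)
    exact (IsUnit.dvd_mul_right h5).1 ((IsUnit.dvd_mul_left h4).1 h3)
  choose ψ hψ using key
  refine ⟨ψ, hψ, ?_⟩
  intro ε k hk
  have hψ0 : ψ ε ≠ 0 := by
    intro h0
    rw [h0, Polynomial.coeff_zero] at hk
    exact hk rfl
  have hmon : ((X - C xW) ^ N : F[X]).Monic := (Polynomial.monic_X_sub_C xW).pow N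
  have h1 : (φ ε).natDegree = N + (ψ ε).natDegree := by
    rw [hψ ε, hmon.natDegree_mul' hψ0, Polynomial.natDegree_pow, Polynomial.natDegree_X_sub_C, mul_one]
  have hφ0 : φ ε ≠ 0 := by
    rw [hψ ε]
    exact mul_ne_zero hmon.ne_zero hψ0
  have h2 := hM ε (φ ε).natDegree (by
    rw [Polynomial.coeff_natDegree]
    exact Polynomial.leadingCoeff_ne_zero.2 hφ0)
  rw [h1] at h2
  have h3 := Polynomial.le_natDegree_of_ne_zero hk
  have h4 : q * k ≤ q * (ψ ε).natDegree := Nat.mul_le_mul_left q h3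
  rw [Nat.mul_add, Nat.mul_add] at h2
  omega

end Pool.LibNP88
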