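import Pool.Agent.LibNP88.F1
import Pool.Agent.LibNP88.F3
import Pool.Agent.LibNP88.NF

/-
PLAN (F5, MEDIUM). T := MvPolynomial (Option (Fin n)) R, Φ from mv φ, E k := ev (C.comp R.subtype) (un (xp k)) (Y k), E0 := ev (C.comp ρ) (un x1) Y1 (both are arcs: OnX for the
ring R, from hY with map). e k := prod_j SUM_b X_(some j)^b C (yp k j)^(q-1-b), v k := X_none - C (xp k). constantCoeff (E k Φ) = value at the point (xp k; yp k) in L
(constantCoeff is a ring hom, fe_hom / MvPolynomial.eval₂_comp) = image of ev id .. Φ in R, R.subtype injective; so fac_un applies. E k (v k) = X; E l (v k) = (xp l - xp k) + X, nonzero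
constant coefficient by injectivity. E0 (e k) has constant coefficient prod_j q y1_j^(q-1) != 0; E0 (v k) = X. mult_w the same with fac_w, v k := X_(some last) - C (yp k last),
e k := product over castSucc; E k (v k) = Y k last - C (..): coefficients 0 and 1 as given; E0 (v k) = Y1 last - ρ(..) = X.
-/

set_option autoImplicit false

noncomputable section

open Polynomial

namespace Pool.LibNP88

universe u

private theorem F5_none {n : ℕ} {S B : Type u} [CommRing S] [CommRing B] (f : S →+* B) (ξ : B)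
    (η : Fin n → B) : ev f ξ η (MvPolynomial.X none) = ξ := by
  unfold ev
  rw [MvPolynomial.coe_eval₂Hom, MvPolynomial.eval₂_X]
  rfl

private theorem F5_some {n : ℕ} {S B : Type u} [CommRing S] [CommRing B] (f : S →+* B) (ξ : B)
    (η : Fin n → B) (j : Fin n) : ev f ξ η (MvPolynomial.X (some j)) = η j := by
  unfold ev
  rw [MvPolynomial.coe_eval₂Hom, MvPolynomial.eval₂_X]
  rfl

private theorem F5_C {n : ℕ} {S B : Type u} [CommRing S] [CommRing B] (f : S →+* B) (ξ : B)
    (η : Fin n → B) (c : S) : ev f ξ η (MvPolynomial.C c) = f c := by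
  unfold ev
  rw [MvPolynomial.coe_eval₂Hom, MvPolynomial.eval₂_C]

private theorem F5_e {n q : ℕ} {S B : Type u} [CommRing S] [CommRing B] (f : S →+* B) (ξ : B)
    (η : Fin n → B) (y : Fin n → S) :
    ev f ξ η (∏ j, ∑ b ∈ Finset.range q,
      MvPolynomial.X (some j) ^ b * MvPolynomial.C (y j) ^ (q - 1 - b)) =
      ∏ j, ∑ b ∈ Finset.range q, η j ^ b * f (y j) ^ (q - 1 - b) := by
  rw [map_prod]
  refine Finset.prod_congr rfl fun j _ => ?_
  rw [map_sum]
  refine Finset.sum_congr rfl fun b _ => ?_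
  rw [map_mul, map_pow, map_pow, F5_some, F5_C]

private theorem F5_v {n : ℕ} {S B : Type u} [CommRing S] [CommRing B] (f : S →+* B) (ξ : B)
    (η : Fin n → B) (x : S) :
    ev f ξ η (MvPolynomial.X none - MvPolynomial.C x) = ξ - f x := by
  rw [map_sub, F5_none, F5_C]

/-- multiplicities at an unramified residue point -/
theorem mult_un {L F : Type u} [Field L] [Field F] (R : Subring L) (ρ : R →+* F) {n q : ℕ}
    (hq : (q : F) ≠ 0) (a : Fin n → R) (x1 : F) (y1 : Fin n → F) (hy1 : ∀ j, y1 j ≠ 0)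
    (Y1 : Fin n → PowerSeries F) (hY1 : OnX q (PowerSeries.C (R := F)) (fun j => ρ (a j)) (un x1) Y1)
    (hY10 : ∀ j, PowerSeries.constantCoeff (Y1 j) = y1 j) {τ : Type} [Fintype τ] (xp : τ → R)
    (yp : τ → Fin n → R) (hp : ∀ k j, yp k j ^ q = 1 + a j * xp k) (hinj : Function.Injective xp)
    (hx : ∀ k, ρ (xp k) = x1) (hy : ∀ k j, ρ (yp k j) = y1 j) (Y : τ → Fin n → PowerSeries L)
    (hY : ∀ k, OnX q (PowerSeries.C (R := L)) (fun j => (a j : L)) (un (xp k : L)) (Y k))
    (hY0 : ∀ k j, PowerSeries.constantCoeff (Y k j) = (yp k j : L)) (μ : τ → ℕ) (φ : Fam n q R)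
    (h : ∀ k, PowerSeries.X ^ μ k ∣
      fe ((PowerSeries.C (R := L)).comp R.subtype) (un (xp k : L)) (Y k) φ) :
    PowerSeries.X ^ (∑ k, μ k) ∣ fe ((PowerSeries.C (R := F)).comp ρ) (un x1) Y1 φ := by
  obtain ⟨Φ, hΦ⟩ := mv φ
  let fL : R →+* PowerSeries L := (PowerSeries.C (R := L)).comp R.subtype
  let fF : R →+* PowerSeries F := (PowerSeries.C (R := F)).comp ρ
  let E : τ → MvPolynomial (Option (Fin n)) R →+* PowerSeries L := fun k =>
    ev fL (un (xp k : L)) (Y k)
  let E0 : MvPolynomial (Option (Fin n)) R →+* PowerSeries F := ev fF (un x1) Y1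
  have hE : ∀ k, OnX q fL a (un (xp k : L)) (Y k) := fun k j => hY k j
  have hE0 : OnX q fF a (un x1) Y1 := fun j => hY1 j
  have hun : ∀ (K : Type u) [Field K] (x x' : K),
      PowerSeries.constantCoeff (un x - PowerSeries.C x') = x - x' := by
    intro K _ x x'
    simp [un]
  have hunX : ∀ (K : Type u) [Field K] (x : K), un x - PowerSeries.C x = PowerSeries.X := by
    intro K _ x
    simp [un]
  rw [← hΦ]
  refine mult_abs E E0
    (fun k => ∏ j, ∑ b ∈ Finset.range q,
      MvPolynomial.X (some j) ^ b * MvPolynomial.C (yp k j) ^ (q - 1 - b))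
    (fun k => MvPolynomial.X none - MvPolynomial.C (xp k)) ?_ ?_ ?_ ?_ ?_ ?_ μ Φ ?_
  · intro k Φ hk
    have h1 : (PowerSeries.constantCoeff (R := L)).comp (E k) =
        R.subtype.comp (ev (RingHom.id R) (xp k) (yp k)) := by
      apply MvPolynomial.ringHom_ext
      · intro c
        simp only [RingHom.comp_apply, E, F5_C, fL, RingHom.id_apply]
        exact PowerSeries.constantCoeff_C _
      · intro o
        cases o with
        | none =>
          simp only [RingHom.comp_apply, E, F5_none]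
          simp [un]
        | some j =>
          simp only [RingHom.comp_apply, E, F5_some]
          exact hY0 k j
    have h2 : R.subtype (ev (RingHom.id R) (xp k) (yp k) Φ) = 0 := by
      rw [← RingHom.comp_apply, ← h1, RingHom.comp_apply, hk]
    have h3 : ev (RingHom.id R) (xp k) (yp k) Φ = 0 := by
      apply R.subtype_injective
      rw [h2, map_zero]
    obtain ⟨Φ1, hΦ1⟩ := fac_un (q := q) a (xp k) (yp k) (fun j => hp k j) Φ h3
    refine ⟨Φ1, fun l => ?_, ?_⟩
    · change ev fL (un (xp l : L)) (Y l) _ = ev fL (un (xp l : L)) (Y l) _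
      rw [map_mul, map_mul, F5_e, F5_v]
      exact hΦ1 _ fL _ _ (hE l)
    · change ev fF (un x1) Y1 _ = ev fF (un x1) Y1 _
      rw [map_mul, map_mul, F5_e, F5_v]
      exact hΦ1 _ fF _ _ hE0
  · intro k
    change PowerSeries.constantCoeff (ev fL (un (xp k : L)) (Y k) _) = 0
    rw [F5_v]
    change PowerSeries.constantCoeff (un (xp k : L) - PowerSeries.C (xp k : L)) = 0
    rw [hun, sub_self]
  · intro k
    change PowerSeries.coeff 1 (ev fL (un (xp k : L)) (Y k) _) ≠ 0
    rw [F5_v]
    change PowerSeries.coeff 1 (un (xp k : L) - PowerSeries.C (xp k : L)) ≠ 0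
    rw [hunX, PowerSeries.coeff_one_X]
    exact one_ne_zero
  · intro k l hkl
    change PowerSeries.constantCoeff (ev fL (un (xp l : L)) (Y l) _) ≠ 0
    rw [F5_v]
    change PowerSeries.constantCoeff (un (xp l : L) - PowerSeries.C (xp k : L)) ≠ 0
    rw [hun, sub_ne_zero]
    intro h4
    exact hkl (hinj (Subtype.ext h4.symm))
  · intro k
    change PowerSeries.constantCoeff (ev fF (un x1) Y1 _) ≠ 0
    rw [F5_e, map_prod, Finset.prod_ne_zero_iff]
    intro j _
    have h4 : PowerSeries.constantCoeff (∑ b ∈ Finset.range q,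
        Y1 j ^ b * fF (yp k j) ^ (q - 1 - b)) = (q : F) * y1 j ^ (q - 1) := by
      rw [map_sum]
      have h5 : ∀ b ∈ Finset.range q, PowerSeries.constantCoeff
          (Y1 j ^ b * fF (yp k j) ^ (q - 1 - b)) = y1 j ^ (q - 1) := by
        intro b hb
        rw [map_mul, map_pow, map_pow, hY10]
        change y1 j ^ b * PowerSeries.constantCoeff (PowerSeries.C (ρ (yp k j))) ^ (q - 1 - b) = _
        rw [PowerSeries.constantCoeff_C, hy, ← pow_add]
        congr 1
        have := Finset.mem_range.1 hb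
        omega
      rw [Finset.sum_congr rfl h5, Finset.sum_const, Finset.card_range, nsmul_eq_mul]
    rw [h4]
    exact mul_ne_zero hq (pow_ne_zero _ (hy1 j))
  · intro k
    change PowerSeries.X ∣ ev fF (un x1) Y1 _
    rw [F5_v]
    change PowerSeries.X ∣ un x1 - PowerSeries.C (ρ (xp k))
    rw [hx, hunX]
  · intro k
    change PowerSeries.X ^ μ k ∣ ev fL (un (xp k : L)) (Y k) Φ
    rw [hΦ]
    exact h k

end Pool.LibNP88
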