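import Pool.Agent.LibNP88.F1
import Pool.Agent.LibNP88.F3
import Pool.Agent.LibNP88.NF

/-
PLAN (F6, MEDIUM). See F5 (same proof with fac_w). T := MvPolynomial (Option (Fin (n+1))) R, E k := ev (C.comp R.subtype) (ξ k) (Y k), E0 := ev (C.comp ρ) (ra q x1 (ρ (a last))) Y1,
v k := X_(some last) - C (yp k last), e k := prod_(j : Fin n) SUM_b X_(some j.castSucc)^b C (yp k j.castSucc)^(q-1-b). E k (v k) = Y k last - C (..): coefficient 0 is 0, coefficient 1 is h1 k;
E l (v k): constant coefficient yp l last - yp k last != 0. E0 (e k): constant coefficient prod q y1_j^(q-1) != 0 (j < n), E0 (v k) = X - C (ρ (yp k last)) = X.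
-/

set_option autoImplicit false

noncomputable section

open Polynomial

namespace Pool.LibNP88

universe u

/-- multiplicities at a residue point of W type -/
theorem mult_w {L F : Type u} [Field L] [Field F] (R : Subring L) (ρ : R →+* F) {n q : ℕ}
    (hq : (q : F) ≠ 0) (a : Fin (n + 1) → R) (v : R) (hv : a (Fin.last n) * v = 1) (x1 : F)
    (y1 : Fin (n + 1) → F) (hy1 : ∀ j : Fin n, y1 j.castSucc ≠ 0) (hyl : y1 (Fin.last n) = 0)
    (Y1 : Fin (n + 1) → PowerSeries F)
    (hY1 : OnX q (PowerSeries.C (R := F)) (fun j => ρ (a j)) (ra q x1 (ρ (a (Fin.last n)))) Y1)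
    (hY10 : ∀ j, PowerSeries.constantCoeff (Y1 j) = y1 j)
    (hY1l : PowerSeries.X ∣ Y1 (Fin.last n)) {τ : Type} [Fintype τ] (xp : τ → R)
    (yp : τ → Fin (n + 1) → R) (hp : ∀ k j, yp k j ^ q = 1 + a j * xp k)
    (hinj : Function.Injective fun k => yp k (Fin.last n)) (hx : ∀ k, ρ (xp k) = x1)
    (hy : ∀ k j, ρ (yp k j) = y1 j) (ξ : τ → PowerSeries L) (Y : τ → Fin (n + 1) → PowerSeries L)
    (hY : ∀ k, OnX q (PowerSeries.C (R := L)) (fun j => (a j : L)) (ξ k) (Y k))
    (hξ0 : ∀ k, PowerSeries.constantCoeff (ξ k) = (xp k : L))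
    (hY0 : ∀ k j, PowerSeries.constantCoeff (Y k j) = (yp k j : L))
    (h1 : ∀ k, PowerSeries.coeff 1 (Y k (Fin.last n)) ≠ 0) (μ : τ → ℕ) (φ : Fam (n + 1) q R)
    (h : ∀ k, PowerSeries.X ^ μ k ∣
      fe ((PowerSeries.C (R := L)).comp R.subtype) (ξ k) (Y k) φ) :
    PowerSeries.X ^ (∑ k, μ k) ∣
      fe ((PowerSeries.C (R := F)).comp ρ) (ra q x1 (ρ (a (Fin.last n)))) Y1 φ := by
  classical
  obtain ⟨Φ, hΦ⟩ := mv φ
  set fL : R →+* PowerSeries L := (PowerSeries.C (R := L)).comp R.subtype with hfL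
  set fF : R →+* PowerSeries F := (PowerSeries.C (R := F)).comp ρ with hfF
  let E : τ → MvPolynomial (Option (Fin (n + 1))) R →+* PowerSeries L := fun k => ev fL (ξ k) (Y k)
  let E0 : MvPolynomial (Option (Fin (n + 1))) R →+* PowerSeries F :=
    ev fF (ra q x1 (ρ (a (Fin.last n)))) Y1
  let e : τ → MvPolynomial (Option (Fin (n + 1))) R := fun k =>
    ∏ j : Fin n, ∑ b ∈ Finset.range q, MvPolynomial.X (some j.castSucc) ^ b *
      MvPolynomial.C (yp k j.castSucc) ^ (q - 1 - b)
  let w : τ → MvPolynomial (Option (Fin (n + 1))) R := fun k =>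
    MvPolynomial.X (some (Fin.last n)) - MvPolynomial.C (yp k (Fin.last n))
  have he : ∀ {B : Type u} [CommRing B] (f : R →+* B) (x : B) (y : Fin (n + 1) → B) (k : τ),
      ev f x y (e k) = ∏ j : Fin n, ∑ b ∈ Finset.range q,
        y j.castSucc ^ b * f (yp k j.castSucc) ^ (q - 1 - b) := by
    intro B _ f x y k
    simp only [e, ev, MvPolynomial.coe_eval₂Hom, MvPolynomial.eval₂_prod,
      MvPolynomial.eval₂_sum, MvPolynomial.eval₂_mul, MvPolynomial.eval₂_pow,
      MvPolynomial.eval₂_X, MvPolynomial.eval₂_C, Option.elim_some]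
  have hw : ∀ {B : Type u} [CommRing B] (f : R →+* B) (x : B) (y : Fin (n + 1) → B) (k : τ),
      ev f x y (w k) = y (Fin.last n) - f (yp k (Fin.last n)) := by
    intro B _ f x y k
    simp only [w, ev, map_sub, MvPolynomial.coe_eval₂Hom,
      MvPolynomial.eval₂_X, MvPolynomial.eval₂_C, Option.elim_some]
  have hcc : ∀ k Ψ, PowerSeries.constantCoeff (E k Ψ) =
      R.subtype (ev (RingHom.id R) (xp k) (yp k) Ψ) := by
    intro k Ψ
    have h2 : (PowerSeries.constantCoeff (R := L)).comp (E k) =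
        R.subtype.comp (ev (RingHom.id R) (xp k) (yp k)) := by
      refine MvPolynomial.ringHom_ext (fun r => ?_) (fun o => ?_)
      · simp [E, ev, fL]
      · rcases o with _ | j
        · simpa [E, ev] using hξ0 k
        · simpa [E, ev] using hY0 k j
    exact congrArg (fun g : MvPolynomial (Option (Fin (n + 1))) R →+* L => g Ψ) h2
  have key := mult_abs E E0 e w (fun k Ψ hΨ => by
      rw [hcc] at hΨ
      have h3 : ev (RingHom.id R) (xp k) (yp k) Ψ = 0 := by
        exact Subtype.ext hΨ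
      obtain ⟨Φ1, h4⟩ := fac_w a v hv (xp k) (yp k) (fun j => hp k j) Ψ h3
      refine ⟨Φ1, fun l => ?_, ?_⟩
      · rw [map_mul, map_mul]
        change ev fL (ξ l) (Y l) (e k) * ev fL (ξ l) (Y l) Ψ =
          ev fL (ξ l) (Y l) (w k) * ev fL (ξ l) (Y l) Φ1
        rw [he, hw]
        exact h4 (PowerSeries L) fL (ξ l) (Y l) (fun j => hY l j)
      · rw [map_mul, map_mul]
        change ev fF _ Y1 (e k) * ev fF _ Y1 Ψ = ev fF _ Y1 (w k) * ev fF _ Y1 Φ1
        rw [he, hw]
        exact h4 (PowerSeries F) fF _ Y1 (fun j => hY1 j))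
    (fun k => by
      change PowerSeries.constantCoeff (ev fL (ξ k) (Y k) (w k)) = 0
      rw [hw, map_sub, hY0, hfL, RingHom.comp_apply, PowerSeries.constantCoeff_C]
      exact sub_self _)
    (fun k => by
      change PowerSeries.coeff 1 (ev fL (ξ k) (Y k) (w k)) ≠ 0
      rw [hw, map_sub, hfL, RingHom.comp_apply, PowerSeries.coeff_C, if_neg one_ne_zero, sub_zero]
      exact h1 k)
    (fun k l hkl => by
      change PowerSeries.constantCoeff (ev fL (ξ l) (Y l) (w k)) ≠ 0
      rw [hw, map_sub, hY0, hfL, RingHom.comp_apply, PowerSeries.constantCoeff_C, sub_ne_zero]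
      intro h5
      exact hkl (hinj (Subtype.ext h5.symm)))
    (fun k => by
      change PowerSeries.constantCoeff (ev fF _ Y1 (e k)) ≠ 0
      rw [he, map_prod]
      refine Finset.prod_ne_zero_iff.2 fun j _ => ?_
      have h6 : PowerSeries.constantCoeff (∑ b ∈ Finset.range q,
          Y1 j.castSucc ^ b * fF (yp k j.castSucc) ^ (q - 1 - b)) =
          (q : F) * y1 j.castSucc ^ (q - 1) := by
        rw [map_sum]
        rw [Finset.sum_congr rfl (g := fun _ => y1 j.castSucc ^ (q - 1))]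
        · rw [Finset.sum_const, Finset.card_range, nsmul_eq_mul]
        · intro b hb
          rw [map_mul, map_pow, map_pow, hY10, hfF, RingHom.comp_apply,
            PowerSeries.constantCoeff_C, hy, ← pow_add]
          congr 1
          have := Finset.mem_range.1 hb
          omega
      rw [h6]
      exact mul_ne_zero hq (pow_ne_zero _ (hy1 j)))
    (fun k => by
      change PowerSeries.X ∣ ev fF _ Y1 (w k)
      rw [hw, hfF, RingHom.comp_apply, hy, hyl, map_zero, sub_zero]
      exact hY1l) μ Φ (fun k => by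
      change PowerSeries.X ^ μ k ∣ ev fL (ξ k) (Y k) Φ
      rw [hΦ]
      exact h k)
  have h7 : E0 Φ = fe fF (ra q x1 (ρ (a (Fin.last n)))) Y1 φ := hΦ _ _ _ _
  rw [← h7]
  exact key

end Pool.LibNP88
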