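import Pool.Agent.LibNP88.DefsM

/-
PLAN (M2, MEDIUM). (1) for P in MvPolynomial σ K there is a term t of Lvf[[univ]] in the variables σ with realize v = eval v P (MvPolynomial.induction_on: constants = parameters, add, mul, variables; realize_con, funMap of the language Lvf[[univ]] is that of strV: simp with Term.realize_..). So {v | eval v P = 0} is defined by t =' zero-term. The finset
intersection of such sets is definable (Definable.inter / finite). def_polyL: basis b of L over K: P = SUM_i b_i P_i with P_i in MvPolynomial σ K (coefficients in the basis: map coefficients by the linear functional b.coord i; or induction on P), eval of P at (algebraMap ∘ v) = SUM_i b_i * algebraMap (eval v P_i): zero iff all eval v P_i = 0.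
def_mem: the relation symbol. def_max: v s in the maximal ideal iff v s = 0 or (v s in O and its inverse is not in O) iff v s in O and there is no w in O with v s * w = 1: image/projection of a definable subset of (σ ⊕ Unit → K) (Set.Definable.image_comp_sumInl_fin or image_comp), complement, intersection.
def_ex: projection along finitely many variables: Set.Definable.image_comp_sumInl_fin / Definable.image_comp. def_pre: Definable.preimage_comp.
-/

set_option autoImplicit false

noncomputable section

open FirstOrder Polynomial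

namespace Pool.LibNP88

universe u

private theorem term_poly {K : Type u} [Field K] (O : ValuationSubring K) {σ : Type}
    (P : MvPolynomial σ K) :
    letI := strV O
    ∃ t : (Lvf[[(Set.univ : Set K)]]).Term σ, ∀ v : σ → K,
      t.realize v = MvPolynomial.eval v P := by
  letI := strV O
  induction P using MvPolynomial.induction_on with
  | C a =>
    refine ⟨(Lvf.con (⟨a, trivial⟩ : (Set.univ : Set K))).term, fun v => ?_⟩
    rw [Language.Term.realize_con, MvPolynomial.eval_C]
  | add p q hp hq =>
    obtain ⟨tp, hp⟩ := hp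
    obtain ⟨tq, hq⟩ := hq
    refine ⟨Language.Functions.apply₂ (L := Lvf[[(Set.univ : Set K)]]) (Sum.inl VFun.add) tp tq,
      fun v => ?_⟩
    rw [Language.Term.realize_functions_apply₂, MvPolynomial.eval_add, ← hp, ← hq]
    rfl
  | mul_X p i hp =>
    obtain ⟨tp, hp⟩ := hp
    refine ⟨Language.Functions.apply₂ (L := Lvf[[(Set.univ : Set K)]]) (Sum.inl VFun.mul) tp
      (Language.var i), fun v => ?_⟩
    rw [Language.Term.realize_functions_apply₂, MvPolynomial.eval_mul, ← hp, MvPolynomial.eval_X]
    rfl

/-- zero sets of polynomials are definable -/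
theorem def_poly {K : Type u} [Field K] (O : ValuationSubring K) {σ : Type} [Finite σ]
    (P : MvPolynomial σ K) : Df O {v : σ → K | MvPolynomial.eval v P = 0} := by
  letI := strV O
  obtain ⟨t, ht⟩ := term_poly O P
  obtain ⟨z, hz⟩ := term_poly O (0 : MvPolynomial σ K)
  refine ⟨t.equal z, ?_⟩
  ext v
  change MvPolynomial.eval v P = 0 ↔ (t.equal z).Realize v
  rw [Language.Formula.realize_equal, ht, hz, map_zero]

theorem def_inter {K : Type u} [Field K] (O : ValuationSubring K) {σ : Type} (S T : Set (σ → K))
    (hS : Df O S) (hT : Df O T) : Df O (S ∩ T) := by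
  letI := strV O
  exact Set.Definable.inter hS hT

theorem def_all {K : Type u} [Field K] (O : ValuationSubring K) {σ τ : Type} [Finite τ]
    (S : τ → Set (σ → K)) (hS : ∀ t, Df O (S t)) : Df O {v | ∀ t, v ∈ S t} := by
  letI := strV O
  have h : Set.Definable (Set.univ : Set K) Lvf (⋂ t, S t) := Set.definable_iInter_of_finite hS
  have h2 : {v | ∀ t, v ∈ S t} = ⋂ t, S t := by
    ext v
    simp
  rw [h2]
  exact h

theorem def_ex {K : Type u} [Field K] (O : ValuationSubring K) {σ τ : Type} [Finite σ] [Finite τ]
    (S : Set (σ ⊕ τ → K)) (hS : Df O S) : Df O {v : σ → K | ∃ w : τ → K, Sum.elim v w ∈ S} := by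
  letI := strV O
  have h : Set.Definable (Set.univ : Set K) Lvf ((fun g : σ ⊕ τ → K => g ∘ Sum.inl) '' S) :=
    Set.Definable.image_comp hS Sum.inl
  have h2 : {v : σ → K | ∃ w : τ → K, Sum.elim v w ∈ S} =
      (fun g : σ ⊕ τ → K => g ∘ Sum.inl) '' S := by
    ext v
    constructor
    · rintro ⟨w, hw⟩
      exact ⟨_, hw, rfl⟩
    · rintro ⟨g, hg, rfl⟩
      refine ⟨g ∘ Sum.inr, ?_⟩
      change Sum.elim (g ∘ Sum.inl) (g ∘ Sum.inr) ∈ S
      rw [Sum.elim_comp_inl_inr]
      exact hg
  rw [h2]
  exact h

theorem def_pre {K : Type u} [Field K] (O : ValuationSubring K) {σ τ : Type} (f : σ → τ)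
    (S : Set (σ → K)) (hS : Df O S) : Df O {v : τ → K | (fun s => v (f s)) ∈ S} := by
  letI := strV O
  exact Set.Definable.preimage_comp f hS

private theorem coord_poly {K L : Type u} [Field K] [Field L] [Algebra K L]
    {ι : Type} [Fintype ι] (b : Module.Basis ι K L) {σ : Type} (P : MvPolynomial σ L) :
    ∃ Q : ι → MvPolynomial σ K, ∀ v : σ → K,
      MvPolynomial.eval (fun s => algebraMap K L (v s)) P =
        ∑ i, MvPolynomial.eval v (Q i) • b i := by
  induction P using MvPolynomial.induction_on with
  | C a =>
    refine ⟨fun i => MvPolynomial.C (b.repr a i), fun v => ?_⟩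
    simp only [MvPolynomial.eval_C]
    exact (b.sum_repr a).symm
  | add p q hp hq =>
    obtain ⟨Qp, hp⟩ := hp
    obtain ⟨Qs, hq⟩ := hq
    refine ⟨fun i => Qp i + Qs i, fun v => ?_⟩
    simp only [MvPolynomial.eval_add, add_smul, Finset.sum_add_distrib, hp, hq]
  | mul_X p s hp =>
    obtain ⟨Qp, hp⟩ := hp
    refine ⟨fun i => Qp i * MvPolynomial.X s, fun v => ?_⟩
    simp only [MvPolynomial.eval_mul, MvPolynomial.eval_X, hp, Finset.sum_mul]
    refine Finset.sum_congr rfl fun i _ => ?_
    rw [mul_comm (MvPolynomial.eval v (Qp i)), mul_smul, Algebra.smul_def (v s), mul_comm]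

/-- zero sets of polynomials with coefficients in a finite extension are definable -/
theorem def_polyL {K L : Type u} [Field K] [Field L] [Algebra K L] [FiniteDimensional K L]
    (O : ValuationSubring K) {σ : Type} [Finite σ] (P : MvPolynomial σ L) :
    Df O {v : σ → K | MvPolynomial.eval (fun s => algebraMap K L (v s)) P = 0} := by
  obtain ⟨Q, hQ⟩ := coord_poly (Module.finBasis K L) P
  have h : {v : σ → K | MvPolynomial.eval (fun s => algebraMap K L (v s)) P = 0} =
      {v | ∀ t, v ∈ {v : σ → K | MvPolynomial.eval v (Q t) = 0}} := by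
    ext v
    change MvPolynomial.eval (fun s => algebraMap K L (v s)) P = 0 ↔
      ∀ t, MvPolynomial.eval v (Q t) = 0
    rw [hQ]
    constructor
    · intro h
      exact Fintype.linearIndependent_iff.1 (Module.finBasis K L).linearIndependent _ h
    · intro h
      exact Finset.sum_eq_zero fun i _ => by rw [h i, zero_smul]
  rw [h]
  exact def_all O _ (fun t => def_poly O (Q t))

theorem def_max {K : Type u} [Field K] (O : ValuationSubring K) {σ : Type} [Finite σ] (s : σ) :
    Df O {v : σ → K | O.valuation (v s) < 1} := by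
  letI := strV O
  have hmem : ∀ {τ : Type} (t : τ), Df O {v : τ → K | v t ∈ O} := by
    intro τ t
    refine ⟨Language.Relations.formula₁ (L := Lvf[[(Set.univ : Set K)]]) (Sum.inl VRel.mem)
      (Language.var t), ?_⟩
    ext v
    change v t ∈ O ↔ (Language.Relations.formula₁ (L := Lvf[[(Set.univ : Set K)]])
      (Sum.inl VRel.mem) (Language.var t)).Realize v
    rw [Language.Formula.realize_rel₁]
    exact Iff.rfl
  have h1 : Df O {v : σ → K | ∃ w : Unit → K, Sum.elim v w ∈
      {u : σ ⊕ Unit → K | MvPolynomial.eval u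
        (MvPolynomial.X (Sum.inl s) * MvPolynomial.X (Sum.inr ()) - 1) = 0} ∩
        {u : σ ⊕ Unit → K | u (Sum.inr ()) ∈ O}} :=
    def_ex O _ (def_inter O _ _ (def_poly O _) (hmem _))
  have h2 : {v : σ → K | O.valuation (v s) < 1} = {v : σ → K | v s ∈ O} ∩
      {v : σ → K | ∃ w : Unit → K, Sum.elim v w ∈
      {u : σ ⊕ Unit → K | MvPolynomial.eval u
        (MvPolynomial.X (Sum.inl s) * MvPolynomial.X (Sum.inr ()) - 1) = 0} ∩
        {u : σ ⊕ Unit → K | u (Sum.inr ()) ∈ O}}ᶜ := by
    ext v
    constructor
    · intro hv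
      have hv' : O.valuation (v s) < 1 := hv
      refine ⟨(O.valuation_le_one_iff _).1 hv'.le, ?_⟩
      rintro ⟨w, hw1, hw2⟩
      have hw1' : MvPolynomial.eval (Sum.elim v w)
        (MvPolynomial.X (Sum.inl s) * MvPolynomial.X (Sum.inr ()) - 1) = 0 := hw1
      simp only [map_sub, map_mul, MvPolynomial.eval_X, map_one, Sum.elim_inl, Sum.elim_inr] at hw1'
      have hw3 : O.valuation (w ()) ≤ 1 := (O.valuation_le_one_iff _).2 hw2
      have hw4 : O.valuation (v s * w ()) = 1 := by
        rw [sub_eq_zero.1 hw1', map_one]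
      rw [map_mul] at hw4
      exact absurd hw4 (mul_lt_one_of_lt_of_le hv' hw3).ne
    · rintro ⟨hv1, hv2⟩
      have hv1' : v s ∈ O := hv1
      change O.valuation (v s) < 1
      refine lt_of_le_of_ne ((O.valuation_le_one_iff _).2 hv1') ?_
      intro h
      apply hv2
      have h0 : v s ≠ 0 := by
        intro h0
        rw [h0, map_zero] at h
        exact zero_ne_one h
      refine ⟨fun _ => (v s)⁻¹, ?_, ?_⟩
      · change MvPolynomial.eval _ _ = 0
        simp only [map_sub, map_mul, MvPolynomial.eval_X, map_one, Sum.elim_inl, Sum.elim_inr]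
        rw [mul_inv_cancel₀ h0, sub_self]
      · change (v s)⁻¹ ∈ O
        rw [← O.valuation_le_one_iff, map_inv₀, h, inv_one]
  rw [h2]
  exact def_inter O _ _ (hmem s) (Set.Definable.compl h1)

end Pool.LibNP88
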