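import Pool.Agent.LibNP88.Defs

/-
PLAN (N1, MEDIUM/STRONG). In P := MvPolynomial (Fin n) S[X] put Φ_g := SUM_eps C (φ eps) * C (C z^(SUM g_j eps_j)) * prod X_j^(eps_j), Ψ := prod_g Φ_g.
Ψ is invariant under X_j -> z X_j (g -> g + 1 in the coordinate j modulo q permutes the factors; Fin q has no ring structure needed: use
ZMod q or the equivalence Fin.cycle / finRotate), so its coefficient at the monomial m satisfies c = z^(m_j) c (S a domain, z primitive): q | m_j for all j if c != 0.
Hence Ψ = MvPolynomial.expand q Θ (take Θ with coefficient of m equal to the coefficient of q m). N := MvPolynomial.eval (fun j => 1 + C (a j) * X) Θ.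
Value: apply the ring homomorphism P -> B, coefficients by eval₂ f ξ, X_j -> η_j: prod_g fe(..) = value of expand q Θ = Θ at η_j^q = 1 + f(a_j) ξ.
Degree: weight of a monomial X^k prod X_j^(m_j) is q k + |m|; every monomial of Φ_g has weight <= q M (InL), so every monomial of Ψ has weight <= q^n q M
(card of Fin n -> Fin q is q^n), the monomial of Θ satisfies q k + q |m| <= q^(n) q M, and its value has degree <= k + |m| <= q^n M.
(For the weights: submodule of elements all of whose monomials have weight <= w; products add the bounds: induction over a Finset product.)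
-/

set_option autoImplicit false

noncomputable section

open Polynomial

namespace Pool.LibNP88

universe u

private def N1_e {n q : ℕ} (ε : Fin n → Fin q) : Fin n →₀ ℕ :=
  Finsupp.equivFunOnFinite.symm (fun j => (ε j : ℕ))

private theorem N1_e_apply {n q : ℕ} (ε : Fin n → Fin q) (j : Fin n) : N1_e ε j = (ε j : ℕ) := rfl

private def N1_Phi {n q : ℕ} {S : Type u} [CommRing S] (z : S) (φ : Fam n q S)
    (g : Fin n → Fin q) : MvPolynomial (Fin n) S[X] :=
  ∑ ε, MvPolynomial.monomial (N1_e ε) (φ ε * C (∏ j, z ^ ((g j : ℕ) * (ε j : ℕ))))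

private theorem N1_val {n q : ℕ} {S B : Type u} [CommRing S] [CommRing B] (z : S) (φ : Fam n q S)
    (g : Fin n → Fin q) (f : S →+* B) (ξ : B) (η : Fin n → B) :
    MvPolynomial.eval₂Hom (Polynomial.eval₂RingHom f ξ) η (N1_Phi z φ g) =
      fe f ξ (rt (f z) g η) φ := by
  unfold N1_Phi fe
  rw [map_sum]
  refine Finset.sum_congr rfl fun ε _ => ?_
  rw [MvPolynomial.coe_eval₂Hom, MvPolynomial.eval₂_monomial, Finsupp.prod_fintype _ _ (fun _ => pow_zero _),
    map_mul]
  simp only [Polynomial.coe_eval₂RingHom, Polynomial.eval₂_C, map_prod, map_pow, N1_e_apply, rt, mul_pow,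
    Finset.prod_mul_distrib, ← pow_mul]
  ring

/-- multiplication of the variables by constants -/
private def N1_sig {n : ℕ} {S : Type u} [CommRing S] (w : Fin n → S[X]) :
    MvPolynomial (Fin n) S[X] →+* MvPolynomial (Fin n) S[X] :=
  MvPolynomial.eval₂Hom MvPolynomial.C (fun j => MvPolynomial.C (w j) * MvPolynomial.X j)

private theorem N1_sig_monomial {n : ℕ} {S : Type u} [CommRing S] (w : Fin n → S[X])
    (m : Fin n →₀ ℕ) (c : S[X]) :
    N1_sig w (MvPolynomial.monomial m c) = MvPolynomial.monomial m (c * ∏ j, w j ^ m j) := by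
  unfold N1_sig
  rw [MvPolynomial.coe_eval₂Hom, MvPolynomial.eval₂_monomial, Finsupp.prod_fintype _ _ (fun _ => pow_zero _)]
  simp only [mul_pow, Finset.prod_mul_distrib]
  rw [MvPolynomial.monomial_eq, Finsupp.prod_fintype _ _ (fun _ => pow_zero _), map_mul, map_prod]
  simp only [map_pow]
  ring

private theorem N1_sig_coeff {n : ℕ} {S : Type u} [CommRing S] (w : Fin n → S[X])
    (p : MvPolynomial (Fin n) S[X]) (m : Fin n →₀ ℕ) :
    (N1_sig w p).coeff m = p.coeff m * ∏ j, w j ^ m j := by
  induction p using MvPolynomial.induction_on' with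
  | monomial u a =>
    rw [N1_sig_monomial, MvPolynomial.coeff_monomial, MvPolynomial.coeff_monomial]
    split_ifs with h
    · rw [h]
    · rw [zero_mul]
  | add p r hp hr => rw [map_add, MvPolynomial.coeff_add, hp, hr, MvPolynomial.coeff_add, add_mul]

private theorem N1_sig_Phi {n q : ℕ} [NeZero q] (hq : q.Prime) {S : Type u} [CommRing S] (z : S) (hz : z ^ q = 1)
    (φ : Fam n q S) (i : Fin n) (g : Fin n → Fin q) :
    N1_sig (fun j => if j = i then C z else 1) (N1_Phi z φ g) =
      N1_Phi z φ (g + Pi.single i 1) := by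
  unfold N1_Phi
  rw [map_sum]
  refine Finset.sum_congr rfl fun ε _ => ?_
  rw [N1_sig_monomial, mul_assoc]
  congr 2
  have h1 : ∏ j, (if j = i then (C z : S[X]) else 1) ^ N1_e ε j = C (z ^ (ε i : ℕ)) := by
    rw [Finset.prod_eq_single i]
    · rw [if_pos rfl, N1_e_apply, map_pow]
    · intro j _ hj
      rw [if_neg hj, one_pow]
    · intro h
      exact absurd (Finset.mem_univ _) h
  rw [h1, ← map_mul]
  congr 1
  have h2 : ∀ j, z ^ (((g + Pi.single i (1 : Fin q) : Fin n → Fin q) j : ℕ) * (ε j : ℕ)) =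
      z ^ ((g j : ℕ) * (ε j : ℕ)) * (if j = i then z ^ (ε i : ℕ) else 1) := by
    intro j
    by_cases hj : j = i
    · subst hj
      rw [if_pos rfl, Pi.add_apply, Pi.single_eq_same, Fin.val_add, pow_mul, ← pow_eq_pow_mod _ hz, pow_add,
        mul_pow, ← pow_mul, Fin.val_one', Nat.mod_eq_of_lt hq.one_lt, pow_one]
    · rw [if_neg hj, Pi.add_apply, Pi.single_eq_of_ne hj, add_zero, mul_one]
  rw [Finset.prod_congr rfl fun j _ => h2 j, Finset.prod_mul_distrib]
  congr 1
  simp

/-- weights -/
private def N1_W {n : ℕ} (q b : ℕ) {S : Type u} [CommRing S] (p : MvPolynomial (Fin n) S[X]) : Prop :=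
  ∀ (m : Fin n →₀ ℕ) (k : ℕ), (p.coeff m).coeff k ≠ 0 → q * k + ∑ j, m j ≤ b

private theorem N1_W_one {n : ℕ} (q : ℕ) {S : Type u} [CommRing S] :
    N1_W q 0 (1 : MvPolynomial (Fin n) S[X]) := by
  intro m k h
  rw [MvPolynomial.coeff_one] at h
  split_ifs at h with h0
  · rw [Polynomial.coeff_one] at h
    split_ifs at h with h1
    · subst h0
      subst h1
      simp
    · exact absurd rfl h
  · exact absurd (Polynomial.coeff_zero k) h

private theorem N1_W_mul {n : ℕ} {q b c : ℕ} {S : Type u} [CommRing S] {p r : MvPolynomial (Fin n) S[X]}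
    (hp : N1_W q b p) (hr : N1_W q c r) : N1_W q (b + c) (p * r) := by
  intro m k h
  rw [MvPolynomial.coeff_mul, Polynomial.finsetSum_coeff] at h
  obtain ⟨x, hx, h1⟩ := Finset.exists_ne_zero_of_sum_ne_zero h
  rw [Polynomial.coeff_mul] at h1
  obtain ⟨y, hy, h2⟩ := Finset.exists_ne_zero_of_sum_ne_zero h1
  have h3 := hp x.1 y.1 (left_ne_zero_of_mul h2)
  have h4 := hr x.2 y.2 (right_ne_zero_of_mul h2)
  rw [Finset.HasAntidiagonal.mem_antidiagonal] at hx hy
  rw [← hx, ← hy]
  have h5 : ∑ j, (x.1 + x.2) j = ∑ j, x.1 j + ∑ j, x.2 j := by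
    rw [← Finset.sum_add_distrib]
    rfl
  rw [h5]
  have h6 : q * (y.1 + y.2) = q * y.1 + q * y.2 := by ring
  omega

private theorem N1_W_Phi {n q M : ℕ} {S : Type u} [CommRing S] (z : S) {φ : Fam n q S} (hφ : InL M φ)
    (g : Fin n → Fin q) : N1_W q (q * M) (N1_Phi z φ g) := by
  intro m k h
  unfold N1_Phi at h
  rw [MvPolynomial.coeff_sum, Polynomial.finsetSum_coeff] at h
  obtain ⟨ε, _, h1⟩ := Finset.exists_ne_zero_of_sum_ne_zero h
  rw [MvPolynomial.coeff_monomial] at h1
  split_ifs at h1 with h0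
  · rw [Polynomial.coeff_mul_C] at h1
    have h2 := hφ ε k (left_ne_zero_of_mul h1)
    rw [← h0]
    exact h2
  · exact absurd (Polynomial.coeff_zero k) h1

private theorem N1_W_prod {n q M : ℕ} {S : Type u} [CommRing S] (z : S) {φ : Fam n q S} (hφ : InL M φ)
    (s : Finset (Fin n → Fin q)) : N1_W q (s.card * (q * M)) (∏ g ∈ s, N1_Phi z φ g) := by
  classical
  induction s using Finset.induction_on with
  | empty =>
    rw [Finset.prod_empty, Finset.card_empty, zero_mul]
    exact N1_W_one q
  | insert g s hg ih =>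
    rw [Finset.prod_insert hg, Finset.card_insert_of_notMem hg, add_mul, one_mul, add_comm]
    exact N1_W_mul (N1_W_Phi z hφ g) ih

/-- the norm of a family -/
theorem norm_fam {n q : ℕ} (hq : q.Prime) {S : Type u} [CommRing S] [IsDomain S] (z : S)
    (hz : IsPrimitiveRoot z q) (a : Fin n → S) (φ : Fam n q S) : ∃ N : S[X],
    (∀ (B : Type u) [CommRing B] (f : S →+* B) (ξ : B) (η : Fin n → B), OnX q f a ξ η →
      N.eval₂ f ξ = ∏ g : Fin n → Fin q, fe f ξ (rt (f z) g η) φ) ∧
    ∀ M, InL M φ → N.natDegree ≤ q ^ n * M := by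
  have : NeZero q := ⟨hq.ne_zero⟩
  obtain ⟨Ψ, hΨ⟩ : ∃ Ψ : MvPolynomial (Fin n) S[X], Ψ = ∏ g, N1_Phi z φ g := ⟨_, rfl⟩
  have hdvd : ∀ m, Ψ.coeff m ≠ 0 → ∀ j, q ∣ m j := by
    intro m hm i
    have h1 : N1_sig (fun j => if j = i then C z else 1) Ψ = Ψ := by
      rw [hΨ, map_prod]
      refine Fintype.prod_equiv (Equiv.addRight (Pi.single i (1 : Fin q))) _ _ fun g => ?_
      rw [N1_sig_Phi hq z hz.pow_eq_one]
      rfl
    have h2 := N1_sig_coeff (fun j => if j = i then C z else 1) Ψ m
    rw [h1] at h2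
    have h3 : ∏ j, (if j = i then (C z : S[X]) else 1) ^ m j = C (z ^ m i) := by
      rw [Finset.prod_eq_single i]
      · rw [if_pos rfl, map_pow]
      · intro j _ hj
        rw [if_neg hj, one_pow]
      · intro h
        exact absurd (Finset.mem_univ _) h
    rw [h3] at h2
    have h4 : (C (z ^ m i) : S[X]) = 1 := by
      have h5 : Ψ.coeff m * C (z ^ m i) = Ψ.coeff m * 1 := by rw [mul_one]; exact h2.symm
      exact mul_left_cancel₀ hm h5
    rw [← map_one C] at h4
    exact hz.dvd_of_pow_eq_one _ (C_injective h4)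
  refine ⟨∑ m ∈ Ψ.support, Ψ.coeff m * ∏ j, (1 + C (a j) * X) ^ (m j / q), ?_, ?_⟩
  · intro B _ f ξ η hη
    have h1 : MvPolynomial.eval₂Hom (Polynomial.eval₂RingHom f ξ) η Ψ =
        ∏ g : Fin n → Fin q, fe f ξ (rt (f z) g η) φ := by
      rw [hΨ, map_prod]
      exact Finset.prod_congr rfl fun g _ => N1_val z φ g f ξ η
    rw [← h1, MvPolynomial.coe_eval₂Hom, MvPolynomial.eval₂_eq', Polynomial.eval₂_finsetSum]
    refine Finset.sum_congr rfl fun m hm => ?_
    rw [Polynomial.eval₂_mul, Polynomial.eval₂_finsetProd]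
    congr 1
    refine Finset.prod_congr rfl fun j _ => ?_
    rw [Polynomial.eval₂_pow, Polynomial.eval₂_add, Polynomial.eval₂_one, Polynomial.eval₂_mul,
      Polynomial.eval₂_C, Polynomial.eval₂_X, ← hη j, ← pow_mul,
      Nat.mul_div_cancel' (hdvd m (MvPolynomial.mem_support_iff.1 hm) j)]
  · intro M hM
    refine Polynomial.natDegree_sum_le_of_forall_le _ _ fun m hm => ?_
    have h1 : N1_W q (q ^ n * (q * M)) Ψ := by
      have := N1_W_prod z hM (Finset.univ : Finset (Fin n → Fin q))
      rw [hΨ]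
      simpa using this
    have h2 : Ψ.coeff m ≠ 0 := MvPolynomial.mem_support_iff.1 hm
    have h3 := h1 m (Ψ.coeff m).natDegree (by
      rw [Polynomial.coeff_natDegree]
      exact Polynomial.leadingCoeff_ne_zero.2 h2)
    have h4 : (∏ j, (1 + C (a j) * X : S[X]) ^ (m j / q)).natDegree ≤ ∑ j, m j / q := by
      refine (Polynomial.natDegree_prod_le _ _).trans (Finset.sum_le_sum fun j _ => ?_)
      refine (Polynomial.natDegree_pow_le).trans ?_
      have h5 : (1 + C (a j) * X : S[X]).natDegree ≤ 1 := by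
        refine (Polynomial.natDegree_add_le _ _).trans ?_
        rw [Polynomial.natDegree_one]
        exact max_le (Nat.zero_le 1) ((Polynomial.natDegree_C_mul_le _ _).trans Polynomial.natDegree_X_le)
      calc m j / q * (1 + C (a j) * X : S[X]).natDegree ≤ m j / q * 1 := Nat.mul_le_mul_left _ h5
        _ = m j / q := mul_one _
    have h6 : q * ∑ j, m j / q = ∑ j, m j := by
      rw [Finset.mul_sum]
      exact Finset.sum_congr rfl fun j _ => Nat.mul_div_cancel' (hdvd m h2 j)
    have h7 : q * ((Ψ.coeff m).natDegree + ∑ j, m j / q) ≤ q * (q ^ n * M) := by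
      rw [mul_add, h6]
      refine h3.trans (le_of_eq ?_)
      ring
    have h8 := Nat.le_of_mul_le_mul_left h7 hq.pos
    refine (Polynomial.natDegree_mul_le).trans ?_
    omega

end Pool.LibNP88
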