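import Pool.Agent.LibNP88.T6

/-
PLAN (N2, SHORT/MEDIUM). Take places i0 != i1 (hB.two), z (hB.zeta). ap_all with the targets x0 i = 0, y0 i j = 1, except y0 i1 j = ρ i1 z if e j is false. This gives x, y_j. If e j: y := y_j, w := y_j - 1 has all residues 0. Conversely suppose e j is false and y in L, y^q = 1 + a_j x = y_j^q, w in R, w = y - 1, residues 0:
y in R, y = z^k y_j (signs over L with zL; y_j != 0); at i0: 1 = (ρ z)^k, so k = 0 (zk, k < q), y = y_j, at i1: 1 = ρ i1 (y_j) = ρ i1 z != 1 (zk, q >= 2). Contradiction.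
-/

set_option autoImplicit false

noncomputable section

open Polynomial

namespace Pool.LibNP88

universe u

/-- IP patterns -/
theorem patt {p q : ℕ} {L : Type u} [Field L] {R : Subring L} {ι : Type} [Fintype ι]
    {κ : ι → Type u} [∀ i, Field (κ i)] {ρ : ∀ i, R →+* κ i} (hB : Bs p q R κ ρ) (n : ℕ) (a : Fin n → R)
    (hinj : ∀ i, Function.Injective (fun j => ρ i (a j))) (hnz : ∀ i j, ρ i (a j) ≠ 0)
    (e : Fin n → Prop) : ∃ x : R, ∀ j,
      (∃ y : L, y ^ q = 1 + (a j : L) * (x : L) ∧ ∃ w : R, (w : L) = y - 1 ∧ ∀ i, ρ i w = 0) ↔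
        e j := by
  classical
  obtain ⟨i0, i1, h01⟩ := hB.two
  obtain ⟨z, hz⟩ := hB.zeta
  have hq2 : 2 ≤ q := hB.qp.two_le
  have hz1 : ρ i1 z ≠ 1 := by
    intro h
    have := (zk hB hz i1)
    rw [h] at this
    have h2 := this.pow_ne_one_of_pos_of_lt (l := 1) (by norm_num) (by omega)
    simp at h2
  have hz0 : ρ i1 z ≠ 0 := by
    intro h
    have h2 := (zk hB hz i1).pow_eq_one
    rw [h, zero_pow hB.qp.ne_zero] at h2
    exact zero_ne_one h2
  obtain ⟨x, y, hxy, hres⟩ := ap_all hB n a hinj hnz (fun i => 0)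
    (fun i j => if i = i1 ∧ ¬ e j then ρ i z else 1)
    (by
      intro i j
      by_cases h : i = i1 ∧ ¬ e j
      · simp only [if_pos h, mul_zero, add_zero]
        rw [← map_pow, hz.pow_eq_one, map_one]
      · simp only [if_neg h, mul_zero, add_zero, one_pow])
    (by
      intro i j
      by_cases h : i = i1 ∧ ¬ e j
      · simp only [if_pos h]
        rw [h.1]
        exact hz0
      · simp only [if_neg h]
        exact one_ne_zero)
  refine ⟨x, fun j => ⟨?_, ?_⟩⟩
  · rintro ⟨y', hy', w, hw, hwi⟩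
    by_contra hej
    have hyj : y j ≠ 0 := by
      intro h
      have h1 := (hres i0).2 j
      rw [h, map_zero, if_neg (fun h => h01 h.1)] at h1
      exact zero_ne_one h1
    have hyjL : ((y j : R) : L) ≠ 0 := fun h => hyj (Subtype.ext h)
    have hpow : y' ^ q = ((y j : R) : L) ^ q := by
      rw [hy']
      have := congrArg (fun t : R => (t : L)) (hxy j)
      simp only [Subring.coe_pow, Subring.coe_add, Subring.coe_mul, Subring.coe_one] at this
      exact this.symm
    obtain ⟨k, hk⟩ := signs hB.qp (zL hB hz) y' ((y j : R) : L) hpow hyjL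
    have hyw : z ^ (k : ℕ) * y j = w + 1 := by
      apply Subtype.ext
      simp only [Subring.coe_pow, Subring.coe_add, Subring.coe_mul, Subring.coe_one]
      rw [← hk, hw]
      ring
    have hk0 : (k : ℕ) = 0 := by
      have h1 := congrArg (ρ i0) hyw
      rw [map_mul, map_pow, (hres i0).2 j, if_neg (fun h => h01 h.1), map_add, hwi, map_one,
        mul_one, zero_add] at h1
      by_contra hk1
      exact (zk hB hz i0).pow_ne_one_of_pos_of_lt hk1 k.2 h1
    have h1 := congrArg (ρ i1) hyw
    rw [hk0, pow_zero, one_mul, (hres i1).2 j, if_pos ⟨rfl, hej⟩, map_add, hwi, map_one,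
      zero_add] at h1
    exact hz1 h1
  · intro hej
    refine ⟨y j, ?_, y j - 1, rfl, ?_⟩
    · have := congrArg (fun t : R => (t : L)) (hxy j)
      simp only [Subring.coe_pow, Subring.coe_add, Subring.coe_mul, Subring.coe_one] at this
      exact this
    · intro i
      rw [map_sub, map_one, (hres i).2 j, if_neg (fun h => h.2 hej), sub_self]

end Pool.LibNP88
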