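import Pool.Agent.LibNP88.Defs

/-
PLAN (P1, SHORT/MEDIUM). f = C (c^q) * (1 + X g) (c != 0). Build the coefficients of Y recursively, or: for every r a polynomial
(or power series) Y_r with constant coefficient c and X^r | Y_r^q - f, Y_(r+1) = Y_r + C e X^r where e = (coefficient r of f - Y_r^q)/(q c^(q-1))
((Y_r + e X^r)^q = Y_r^q + q c^(q-1) e X^r mod X^(r+1), add_pow_le / Commute.add_pow or (a + b)^q - a^q = b (q a^(q-1) + b ..)). Then
Y := PowerSeries.mk fun k => coeff k (Y_(k+1)). Alternatively HenselianLocalRing / IsAdicComplete for F[[X]] if Mathlib has it.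
-/

set_option autoImplicit false

noncomputable section

open Polynomial

namespace Pool.LibNP88

universe u

/-- q-th roots of power series -/
theorem root_ps {F : Type u} [Field F] {q : ℕ} (hq : (q : F) ≠ 0) (f : PowerSeries F) (c : F)
    (hc : c ≠ 0) (hf : PowerSeries.constantCoeff f = c ^ q) :
    ∃ Y : PowerSeries F, Y ^ q = f ∧ PowerSeries.constantCoeff Y = c := by
  have hq0 : q ≠ 0 := by
    rintro rfl
    exact hq Nat.cast_zero
  have hens : HenselianRing (PowerSeries F) (Ideal.span {(PowerSeries.X : PowerSeries F)}) :=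
    inferInstance
  have hmem : ∀ g : PowerSeries F, g ∈ Ideal.span {(PowerSeries.X : PowerSeries F)} ↔
      PowerSeries.constantCoeff g = 0 := by
    intro g
    rw [Ideal.mem_span_singleton, PowerSeries.X_dvd_iff]
  obtain ⟨Y, hY, hYc⟩ := hens.is_henselian (X ^ q - C f : (PowerSeries F)[X])
    (monic_X_pow_sub_C f hq0) (PowerSeries.C c) (by
      rw [hmem]
      simp [hf]) (by
      apply IsUnit.map
      rw [PowerSeries.isUnit_iff_constantCoeff]
      simp only [derivative_sub, derivative_X_pow, derivative_C, sub_zero, eval_mul, eval_pow,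
        eval_X, map_mul, map_pow, map_natCast, eval_natCast, PowerSeries.constantCoeff_C]
      exact (mul_ne_zero hq (pow_ne_zero _ hc)).isUnit)
  refine ⟨Y, ?_, ?_⟩
  · rw [IsRoot, eval_sub, eval_pow, eval_X, eval_C, sub_eq_zero] at hY
    exact hY
  · rw [hmem, map_sub, PowerSeries.constantCoeff_C, sub_eq_zero] at hYc
    exact hYc

end Pool.LibNP88
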