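import Pool.Agent.LibNP88.P1

/-
PLAN (P2, MEDIUM). arc_un: root_ps for f = 1 + C (a j) * (C x0 + X), constant coefficient y0 j ^ q; coefficient 1 of Y^q is
q * (y0 j)^(q-1) * coeff 1 Y (derivative PowerSeries.derivative or coeff_one of a power by induction) and equals a j != 0.
arc_ra: T j := root_ps for 1 + C (a j) * (C xW + C b⁻¹ * X) (b = a (last)), Y j.castSucc := T j with X replaced by X^q
(PowerSeries.subst, PowerSeries.expand if it exists, or define mk fun k => if q ∣ k then coeff (k/q) T else 0 and check the power by comparing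
with the truncations), Y last = X: X^q = 1 + b (xW + b⁻¹ X^q) since 1 + b xW = c last ^ q = 0.
-/

set_option autoImplicit false

noncomputable section

open Polynomial

namespace Pool.LibNP88

universe u

private theorem P2_one {F : Type u} [Field F] {Y : PowerSeries F} (h : PowerSeries.coeff 1 Y = 0)
    (n : ℕ) : PowerSeries.coeff 1 (Y ^ n) = 0 := by
  induction n with
  | zero =>
    rw [pow_zero, PowerSeries.coeff_one]
    simp
  | succ n ih =>
    rw [pow_succ, PowerSeries.coeff_mul]
    simp [Finset.Nat.antidiagonal_succ, ih, h]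

/-- unramified arcs -/
theorem arc_un {F : Type u} [Field F] {n q : ℕ} (hq : (q : F) ≠ 0) (a : Fin n → F) (x0 : F)
    (y0 : Fin n → F) (h0 : OnX q (RingHom.id F) a x0 y0) (hy : ∀ j, y0 j ≠ 0) :
    ∃ Y : Fin n → PowerSeries F, OnX q (PowerSeries.C (R := F)) a (un x0) Y ∧
      (∀ j, PowerSeries.constantCoeff (Y j) = y0 j) ∧
      ∀ j, a j ≠ 0 → PowerSeries.coeff 1 (Y j) ≠ 0 := by
  have hex : ∀ j, ∃ Y : PowerSeries F, Y ^ q = 1 + PowerSeries.C (a j) * un x0 ∧
      PowerSeries.constantCoeff Y = y0 j := by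
    intro j
    apply root_ps hq _ _ (hy j)
    rw [h0 j]
    simp [un]
  choose Y hY hYc using hex
  refine ⟨Y, hY, hYc, fun j haj hcon => haj ?_⟩
  have h1 := P2_one hcon q
  rw [hY j] at h1
  unfold un at h1
  rw [map_add, mul_add, map_add, ← map_mul, PowerSeries.coeff_C_mul, PowerSeries.coeff_one_X,
    PowerSeries.coeff_one, PowerSeries.coeff_C] at h1
  simpa using h1

/-- arcs through W -/
theorem arc_ra {F : Type u} [Field F] {n q : ℕ} (hq1 : q ≠ 0) (hq : (q : F) ≠ 0)
    (a : Fin (n + 1) → F) (ha : a (Fin.last n) ≠ 0) (x0 : F) (y0 : Fin (n + 1) → F)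
    (h0 : OnX q (RingHom.id F) a x0 y0) (hl : y0 (Fin.last n) = 0)
    (hy : ∀ j : Fin n, y0 j.castSucc ≠ 0) :
    ∃ Y : Fin (n + 1) → PowerSeries F,
      OnX q (PowerSeries.C (R := F)) a (ra q x0 (a (Fin.last n))) Y ∧
      (∀ j, PowerSeries.constantCoeff (Y j) = y0 j) ∧ Y (Fin.last n) = PowerSeries.X ∧
      ∀ (j : Fin n) (k : ℕ), PowerSeries.coeff k (Y j.castSucc) ≠ 0 → q ∣ k := by
  have hb : 1 + a (Fin.last n) * x0 = 0 := by
    have h1 := h0 (Fin.last n)
    rw [hl, zero_pow hq1] at h1
    exact h1.symm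
  have hex : ∀ j : Fin n, ∃ T : PowerSeries F, T ^ q = 1 + PowerSeries.C (a j.castSucc) *
      (PowerSeries.C x0 + PowerSeries.C (a (Fin.last n))⁻¹ * PowerSeries.X) ∧
      PowerSeries.constantCoeff T = y0 j.castSucc := by
    intro j
    apply root_ps hq _ _ (hy j)
    rw [h0 j.castSucc]
    simp
  choose T hT hTc using hex
  obtain ⟨Y, hYl, hYc⟩ : ∃ Y : Fin (n + 1) → PowerSeries F, Y (Fin.last n) = PowerSeries.X ∧
      ∀ j : Fin n, Y j.castSucc = PowerSeries.expand q hq1 (T j) :=
    ⟨fun i => Fin.lastCases (motive := fun _ => PowerSeries F) PowerSeries.X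
      (fun j => PowerSeries.expand q hq1 (T j)) i, Fin.lastCases_last,
      fun j => Fin.lastCases_castSucc _⟩
  refine ⟨Y, ?_, ?_, hYl, ?_⟩
  · intro j
    refine Fin.lastCases ?_ (fun j => ?_) j
    · rw [hYl]
      unfold ra
      have h2 : PowerSeries.C (a (Fin.last n)) * PowerSeries.C (a (Fin.last n))⁻¹ =
          (1 : PowerSeries F) := by
        rw [← map_mul, mul_inv_cancel₀ ha, map_one]
      have h3 : (1 : PowerSeries F) + PowerSeries.C (a (Fin.last n)) * PowerSeries.C x0 = 0 := by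
        rw [← map_mul, ← map_one (PowerSeries.C (R := F)), ← map_add, hb, map_zero]
      linear_combination (-PowerSeries.X ^ q : PowerSeries F) * h2 - h3
    · rw [hYc, ← map_pow, hT]
      unfold ra
      simp only [map_add, map_mul, map_one, PowerSeries.expand_C, PowerSeries.expand_X]
  · intro j
    refine Fin.lastCases ?_ (fun j => ?_) j
    · rw [hYl, PowerSeries.constantCoeff_X, hl]
    · rw [hYc, PowerSeries.constantCoeff_expand, hTc]
  · intro j k hk
    rw [hYc] at hk
    by_contra hcon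
    exact hk (PowerSeries.coeff_expand_of_not_dvd q hq1 _ hcon)

end Pool.LibNP88
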