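import Pool.Agent.LibNP88.P2
import Pool.Agent.LibNP88.NF

/-
PLAN (P3, MEDIUM/STRONG). Induction on n, for all x0, Y (arcs at unramified points). n = 0: φ is one polynomial, eval₂ C (C x0 + X) is injective
(Polynomial.eval₂ = taylor / comp; X - C x0 substitution; or compare coefficients: it is the polynomial φ.comp (X + C x0) as a power series).
Step n -> n+1 (split eps into eps', b = eps (last)): suppose SUM_b G_b Y_last^b = 0, G_b := fe C (un x0) Y' (φ (eps', b)) , Y' = Y ∘ castSucc. Let E be the subfield of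
FractionRing F[[X]] (or LaurentSeries F) generated by / the fraction field of the subring A' = range of ev C (un x0) Y' (all ev values are fe values by nf).
CLAIM: 1 + a_last (x0 + X) is not a q-th power in E. Otherwise alpha^q = (1 + a_last (x0 + X)) beta^q with alpha = ev Φ, beta = ev Ψ != 0. The polynomial
Φ^q - (1 + C a_last X_none) Ψ^q has normal form γ with fe C (un x0) Y' γ = 0, so γ = 0 by the induction hypothesis; evaluate it at another arc: x1 := -1/a_last,
1 + a_j x1 = (a_last - a_j)/a_last != 0 (a injective) is a q-th power in F (hroot), arc_un gives an arc Y1 at x1; there ev Ψ != 0 (normal form of Ψ is nonzero, induction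
hypothesis) and alpha1^q = a_last X beta1^q: the orders give q | 1, contradiction (q >= 2). By X_pow_sub_C_irreducible_of_prime the polynomial T^q - (1 + a_last (x0+X)) is
irreducible over E, Y_last is a root, so minpoly has degree q and SUM_(b<q) G_b T^b of degree < q vanishes: all G_b = 0; induction hypothesis for each b.
-/

set_option autoImplicit false

noncomputable section

open Polynomial

namespace Pool.LibNP88

universe u

private theorem P3_inj {F : Type u} [Field F] (x0 : F) (p : F[X])
    (h : p.eval₂ (PowerSeries.C (R := F)) (un x0) = 0) : p = 0 := by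
  have h1 : ((p.comp (X + C x0) : F[X]) : PowerSeries F) = p.eval₂ (PowerSeries.C (R := F)) (un x0) := by
    have h2 := Polynomial.hom_eval₂ p (C : F →+* F[X]) (Polynomial.coeToPowerSeries.ringHom (R := F))
      (X + C x0)
    have h3 : (Polynomial.coeToPowerSeries.ringHom (R := F)).comp (C : F →+* F[X]) =
        (PowerSeries.C (R := F)) := by
      refine RingHom.ext fun c => ?_
      rw [RingHom.comp_apply, Polynomial.coeToPowerSeries.ringHom_apply, Polynomial.coe_C]
    have h4 : Polynomial.coeToPowerSeries.ringHom (R := F) (X + C x0) = un x0 := by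
      rw [map_add, Polynomial.coeToPowerSeries.ringHom_apply, Polynomial.coeToPowerSeries.ringHom_apply,
        Polynomial.coe_X, Polynomial.coe_C]
      unfold un
      rw [add_comm]
    rw [h3, h4] at h2
    rw [← h2, Polynomial.coeToPowerSeries.ringHom_apply]
    rfl
  rw [h] at h1
  exact Polynomial.comp_X_add_C_eq_zero_iff.1 (Polynomial.coe_eq_zero_iff.1 h1)

/-- orders: a q-th power is not `c X` times a q-th power -/
private theorem P3_ord {F : Type u} [Field F] {q : ℕ} (hq : q.Prime) {c : F} (hc : c ≠ 0)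
    {α β : PowerSeries F} (hβ : β ≠ 0) (h : α ^ q = PowerSeries.C c * PowerSeries.X * β ^ q) : False := by
  have hC : PowerSeries.C c ≠ (0 : PowerSeries F) := by
    intro h0
    apply hc
    have h1 := congrArg PowerSeries.constantCoeff h0
    simpa using h1
  have hCo : (PowerSeries.C c : PowerSeries F).order = 0 :=
    PowerSeries.order_zero_of_unit ((isUnit_iff_ne_zero.2 hc).map (PowerSeries.C (R := F)))
  have hα : α ≠ 0 := by
    rintro rfl
    rw [zero_pow hq.ne_zero] at h
    exact (mul_ne_zero (mul_ne_zero hC PowerSeries.X_ne_zero) (pow_ne_zero q hβ)) h.symm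
  have h1 := congrArg PowerSeries.order h
  rw [PowerSeries.order_mul, PowerSeries.order_mul, PowerSeries.order_pow, PowerSeries.order_pow,
    PowerSeries.order_X, hCo, zero_add] at h1
  obtain ⟨x, hx⟩ := ENat.ne_top_iff_exists.1 (fun h2 => hα (PowerSeries.order_eq_top.1 h2))
  obtain ⟨y, hy⟩ := ENat.ne_top_iff_exists.1 (fun h2 => hβ (PowerSeries.order_eq_top.1 h2))
  rw [← hx, ← hy, nsmul_eq_mul, nsmul_eq_mul] at h1
  have h2 : q * x = 1 + q * y := by exact_mod_cast h1
  have h3 : q ∣ 1 := by
    have h4 : q ∣ 1 + q * y := ⟨x, h2.symm⟩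
    exact (Nat.dvd_add_left (dvd_mul_right q y)).1 h4
  exact hq.one_lt.ne' (Nat.dvd_one.1 h3)

/-- the algebraic step: a relation of degree `< q` for a root of `T ^ q = u`, `u` not a `q`-th power in the field of
fractions of the subring `A` -/
private theorem P3_alg {D : Type u} [CommRing D] [IsDomain D] {q : ℕ} (hq : q.Prime) (A : Subring D)
    (u : A) (hu : ∀ α β : A, β ≠ 0 → α ^ q ≠ u * β ^ q) (y : D) (hy : y ^ q = u) (g : Fin q → A)
    (hg : ∑ b, (g b : D) * y ^ (b : ℕ) = 0) (b : Fin q) : g b = 0 := by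
  classical
  let E := FractionRing A
  let K := FractionRing D
  have hinj : Function.Injective ((algebraMap D K).comp A.subtype) :=
    (IsFractionRing.injective D K).comp A.subtype_injective
  let σ : E →+* K := IsFractionRing.lift hinj
  have hσ : ∀ c : A, σ (algebraMap A E c) = algebraMap D K (c : D) := fun c =>
    IsFractionRing.lift_algebraMap hinj c
  have hirr : Irreducible (X ^ q - C (algebraMap A E u) : E[X]) := by
    refine X_pow_sub_C_irreducible_of_prime hq fun e he => ?_
    obtain ⟨α, β, hβ, rfl⟩ := IsFractionRing.div_surjective (A := A) e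
    have hβ0 : β ≠ 0 := nonZeroDivisors.ne_zero hβ
    have hβE : algebraMap A E β ≠ 0 := fun h => hβ0 ((IsFractionRing.to_map_eq_zero_iff (K := E)).1 h)
    refine hu α β hβ0 (IsFractionRing.injective A E ?_)
    rw [div_pow, div_eq_iff (pow_ne_zero q hβE)] at he
    rw [map_pow, map_mul, map_pow]
    exact he
  set P : E[X] := ∑ b : Fin q, C (algebraMap A E (g b)) * X ^ (b : ℕ) with hP
  have hcoeff : P.coeff (b : ℕ) = algebraMap A E (g b) := by
    rw [hP, Polynomial.finsetSum_coeff, Finset.sum_eq_single b]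
    · rw [coeff_C_mul, coeff_X_pow, if_pos rfl, mul_one]
    · intro b' _ hb'
      rw [coeff_C_mul, coeff_X_pow, if_neg (fun h => hb' (Fin.ext h.symm)), mul_zero]
    · intro h
      exact absurd (Finset.mem_univ _) h
  have hdeg : P.natDegree < q := by
    have h1 : P.natDegree ≤ q - 1 := by
      rw [hP]
      refine natDegree_sum_le_of_forall_le _ _ fun b' _ => ?_
      refine (natDegree_C_mul_X_pow_le _ _).trans ?_
      have := b'.2
      omega
    have := hq.one_lt
    omega
  have hPy : P.eval₂ σ (algebraMap D K y) = 0 := by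
    rw [hP, eval₂_finsetSum]
    have h1 : ∀ b' : Fin q, (C (algebraMap A E (g b')) * X ^ (b' : ℕ) : E[X]).eval₂ σ (algebraMap D K y) =
        algebraMap D K ((g b' : D) * y ^ (b' : ℕ)) := by
      intro b'
      rw [eval₂_mul, eval₂_C, eval₂_X_pow, hσ, map_mul, map_pow]
    rw [Finset.sum_congr rfl fun b' _ => h1 b', ← map_sum, hg, map_zero]
  have hfy : (X ^ q - C (algebraMap A E u) : E[X]).eval₂ σ (algebraMap D K y) = 0 := by
    rw [eval₂_sub, eval₂_X_pow, eval₂_C, hσ, ← map_pow, hy, sub_self]
  have hP0 : P = 0 := by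
    by_contra hne
    have hnd : ¬ (X ^ q - C (algebraMap A E u) : E[X]) ∣ P := by
      intro hd
      have h1 := natDegree_le_of_dvd hd hne
      rw [natDegree_X_pow_sub_C] at h1
      omega
    obtain ⟨r, t, hrt⟩ := (hirr.coprime_iff_not_dvd).2 hnd
    have h1 := congrArg (fun Q : E[X] => Q.eval₂ σ (algebraMap D K y)) hrt
    simp only [eval₂_add, eval₂_mul, hPy, hfy, mul_zero, add_zero, eval₂_one] at h1
    exact zero_ne_one h1
  have h1 : algebraMap A E (g b) = 0 := by
    rw [← hcoeff, hP0, coeff_zero]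
  exact (IsFractionRing.to_map_eq_zero_iff (K := E)).1 h1

private theorem P3_sum {F : Type u} [Field F] {q n : ℕ} (x0 : F) (Y : Fin (n + 1) → PowerSeries F)
    (φ : Fam (n + 1) q F) :
    fe (PowerSeries.C (R := F)) (un x0) Y φ = ∑ b : Fin q,
      fe (PowerSeries.C (R := F)) (un x0) (fun j => Y j.castSucc)
        (fun ε' : Fin n → Fin q => φ (Fin.snoc (α := fun _ => Fin q) ε' b)) * Y (Fin.last n) ^ (b : ℕ) := by
  unfold fe
  rw [← (Fin.snocEquiv (fun _ : Fin (n + 1) => Fin q)).sum_comp, Fintype.sum_prod_type]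
  refine Finset.sum_congr rfl fun b _ => ?_
  rw [Finset.sum_mul]
  refine Finset.sum_congr rfl fun ε' _ => ?_
  rw [Fin.prod_univ_castSucc, ← mul_assoc]
  simp only [Fin.snocEquiv_apply, Fin.snoc_castSucc, Fin.snoc_last]
  rfl

/-- Kummer independence: a family that vanishes along an unramified arc is zero -/
theorem kummer {F : Type u} [Field F] {q : ℕ} (hqp : q.Prime) (hq : (q : F) ≠ 0)
    (hroot : ∀ c : F, ∃ d, d ^ q = c) (n : ℕ) (a : Fin n → F) (hinj : Function.Injective a)
    (ha : ∀ j, a j ≠ 0) (x0 : F) (Y : Fin n → PowerSeries F)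
    (hY : OnX q (PowerSeries.C (R := F)) a (un x0) Y)
    (hY0 : ∀ j, PowerSeries.constantCoeff (Y j) ≠ 0) (φ : Fam n q F)
    (h : fe (PowerSeries.C (R := F)) (un x0) Y φ = 0) : φ = 0 := by
  induction n generalizing x0 with
  | zero =>
    funext ε
    refine P3_inj x0 _ ?_
    unfold fe at h
    rw [Fintype.sum_eq_single ε (fun ε' hε' => absurd (Subsingleton.elim _ _) hε'),
      Finset.univ_eq_empty, Finset.prod_empty, mul_one] at h
    exact h
  | succ n ih =>
    set a' : Fin n → F := fun j => a j.castSucc with ha'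
    set Y' : Fin n → PowerSeries F := fun j => Y j.castSucc with hY'
    have hinj' : Function.Injective a' := fun i j hij => Fin.castSucc_injective n (hinj hij)
    have haL : a (Fin.last n) ≠ 0 := ha _
    have hYX : OnX q (PowerSeries.C (R := F)) a' (un x0) Y' := fun j => hY j.castSucc
    have hY0' : ∀ j, PowerSeries.constantCoeff (Y' j) ≠ 0 := fun j => hY0 j.castSucc
    have ih' := fun (x1 : F) (Y1 : Fin n → PowerSeries F) (hY1 : OnX q (PowerSeries.C (R := F)) a' (un x1) Y1)
      (hY10 : ∀ j, PowerSeries.constantCoeff (Y1 j) ≠ 0) (ψ : Fam n q F)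
      (hψ : fe (PowerSeries.C (R := F)) (un x1) Y1 ψ = 0) =>
      ih a' hinj' (fun j => ha j.castSucc) x1 Y1 hY1 hY10 ψ hψ
    let θ : MvPolynomial (Option (Fin n)) F →+* PowerSeries F := ev (PowerSeries.C (R := F)) (un x0) Y'
    let A : Subring (PowerSeries F) := θ.range
    -- the element `u`
    let U : MvPolynomial (Option (Fin n)) F :=
      1 + MvPolynomial.C (a (Fin.last n)) * MvPolynomial.X none
    have hevU : ∀ (ξ : PowerSeries F) (η : Fin n → PowerSeries F),
        ev (PowerSeries.C (R := F)) ξ η U = 1 + PowerSeries.C (a (Fin.last n)) * ξ := by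
      intro ξ η
      have e1 : ev (PowerSeries.C (R := F)) ξ η (MvPolynomial.C (a (Fin.last n))) =
        PowerSeries.C (a (Fin.last n)) := MvPolynomial.eval₂_C _ _ _
      have e2 : ev (PowerSeries.C (R := F)) ξ η (MvPolynomial.X none) = ξ := MvPolynomial.eval₂_X _ _ _
      change ev (PowerSeries.C (R := F)) ξ η (1 + MvPolynomial.C (a (Fin.last n)) * MvPolynomial.X none) = _
      rw [map_add, map_mul, map_one, e1, e2]
    have hu : ∀ α β : A, β ≠ 0 → α ^ q ≠ (⟨θ U, ⟨U, rfl⟩⟩ : A) * β ^ q := by
      rintro ⟨_, Φ, rfl⟩ ⟨_, Ψ, rfl⟩ hβ hαβ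
      have hαβ' : θ Φ ^ q = θ U * θ Ψ ^ q := congrArg Subtype.val hαβ
      have hβ' : θ Ψ ≠ 0 := fun h0 => hβ (Subtype.ext h0)
      obtain ⟨γ, hγ⟩ := nf (n := n) hqp.pos a' (Φ ^ q - U * Ψ ^ q)
      obtain ⟨ψ, hψ⟩ := nf (n := n) hqp.pos a' Ψ
      have hγ0 : γ = 0 := by
        refine ih' x0 Y' hYX hY0' γ ?_
        rw [← hγ _ _ _ _ hYX, map_sub, map_mul, map_pow, map_pow]
        exact sub_eq_zero.2 hαβ'
      -- the other arc
      have hx1 : 1 + a (Fin.last n) * (-(a (Fin.last n))⁻¹) = 0 := by
        rw [mul_neg, mul_inv_cancel₀ haL]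
        ring
      have hne1 : ∀ j, 1 + a' j * (-(a (Fin.last n))⁻¹) ≠ 0 := by
        intro j h0
        have h1 : a' j = a (Fin.last n) := by
          have h2 : a' j * (a (Fin.last n))⁻¹ = 1 := by linear_combination -h0
          field_simp at h2
          exact h2
        exact (Fin.castSucc_lt_last j).ne (hinj h1)
      choose y1 hy1 using fun j => hroot (1 + a' j * (-(a (Fin.last n))⁻¹))
      have hy1' : ∀ j, y1 j ≠ 0 := by
        intro j h0
        have h1 := hy1 j
        rw [h0, zero_pow hqp.ne_zero] at h1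
        exact hne1 j h1.symm
      obtain ⟨Y1, hY1, hY1c, -⟩ := arc_un hq a' (-(a (Fin.last n))⁻¹) y1 (fun j => hy1 j) hy1'
      have hY10 : ∀ j, PowerSeries.constantCoeff (Y1 j) ≠ 0 := fun j => by
        rw [hY1c]
        exact hy1' j
      have hβ1 : ev (PowerSeries.C (R := F)) (un (-(a (Fin.last n))⁻¹)) Y1 Ψ ≠ 0 := by
        intro h0
        rw [hψ _ _ _ _ hY1] at h0
        have h1 := ih' _ Y1 hY1 hY10 ψ h0
        apply hβ'
        change ev (PowerSeries.C (R := F)) (un x0) Y' Ψ = 0
        rw [hψ _ _ _ _ hYX, h1]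
        unfold fe
        refine Finset.sum_eq_zero fun ε _ => ?_
        rw [Pi.zero_apply, eval₂_zero, zero_mul]
      have h2 : ev (PowerSeries.C (R := F)) (un (-(a (Fin.last n))⁻¹)) Y1 (Φ ^ q - U * Ψ ^ q) = 0 := by
        rw [hγ _ _ _ _ hY1, hγ0]
        unfold fe
        refine Finset.sum_eq_zero fun ε _ => ?_
        rw [Pi.zero_apply, eval₂_zero, zero_mul]
      rw [map_sub, map_mul, map_pow, map_pow, hevU, sub_eq_zero] at h2
      have h3 : (1 : PowerSeries F) + PowerSeries.C (a (Fin.last n)) * un (-(a (Fin.last n))⁻¹) =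
          PowerSeries.C (a (Fin.last n)) * PowerSeries.X := by
        unfold un
        rw [mul_add, ← add_assoc, ← map_mul, ← map_one (PowerSeries.C (R := F)), ← map_add, hx1, map_zero,
          zero_add]
      rw [h3] at h2
      exact P3_ord hqp haL hβ1 h2
    -- the coefficients
    have hG : ∀ b : Fin q, fe (PowerSeries.C (R := F)) (un x0) Y'
        (fun ε' : Fin n → Fin q => φ (Fin.snoc (α := fun _ => Fin q) ε' b)) ∈ A := by
      intro b
      obtain ⟨Φ, hΦ⟩ := mv (fun ε' : Fin n → Fin q => φ (Fin.snoc (α := fun _ => Fin q) ε' b))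
      exact ⟨Φ, hΦ _ _ _ _⟩
    have hyq : Y (Fin.last n) ^ q = ((⟨θ U, ⟨U, rfl⟩⟩ : A) : PowerSeries F) := by
      change _ = ev (PowerSeries.C (R := F)) (un x0) Y' U
      rw [hevU]
      exact hY (Fin.last n)
    have hz := P3_alg hqp A ⟨θ U, ⟨U, rfl⟩⟩ hu (Y (Fin.last n)) hyq (fun b => ⟨_, hG b⟩)
      (by
        rw [← h, P3_sum])
    funext ε
    have h1 := ih' x0 Y' hYX hY0' _ (congrArg Subtype.val (hz (ε (Fin.last n))))
    have h2 := congrFun h1 (Fin.init ε)
    have h3 : Fin.snoc (α := fun _ => Fin q) (Fin.init ε) (ε (Fin.last n)) = ε := Fin.snoc_init_self ε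
    beta_reduce at h2
    rw [h3] at h2
    exact h2

end Pool.LibNP88
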