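import Pool.Agent.LibNP88.Defs

/-
PLAN (R1, SHORT/MEDIUM). Expand: SUM_g prod_j z^((q - eps_j) g_j) * z^(eps'_j g_j) = prod_j SUM_(c < q) z^((q - eps_j + eps'_j) c) (Finset.prod_univ_sum / Fintype.piFinset), equal to q^n if
eps' = eps (exponent q c), and 0 otherwise: some j has q - eps_j + eps'_j not divisible by q (|eps_j - eps'_j| < q), z^(..) != 1 is a q-th root of unity, geometric sum 0: in B use that f maps the
identity of F (F field: IsPrimitiveRoot.geom_sum_eq_zero for z^(k), k not divisible by q, order of z^k is q as q is prime).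
-/

set_option autoImplicit false

noncomputable section

open Polynomial

namespace Pool.LibNP88

universe u

/-- the sum over one coordinate -/
private theorem R1_one {q : ℕ} {F B : Type u} [Field F] [CommRing B] (z : F)
    (hz : IsPrimitiveRoot z q) (f : F →+* B) (a b : Fin q) :
    ∑ c : Fin q, f z ^ ((q - (a : ℕ)) * (c : ℕ)) * f z ^ ((c : ℕ) * (b : ℕ)) =
      if a = b then (q : B) else 0 := by
  have h0 : ∑ c : Fin q, f z ^ ((q - (a : ℕ)) * (c : ℕ)) * f z ^ ((c : ℕ) * (b : ℕ)) =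
      f (∑ c ∈ Finset.range q, (z ^ (q - (a : ℕ) + (b : ℕ))) ^ c) := by
    rw [map_sum, ← Fin.sum_univ_eq_sum_range]
    refine Finset.sum_congr rfl fun c _ => ?_
    rw [map_pow, map_pow, ← pow_add, ← pow_mul]
    congr 1
    ring
  rw [h0]
  have ha := a.2
  have hb := b.2
  split_ifs with hab
  · subst hab
    have h1 : q - (a : ℕ) + (a : ℕ) = q := by omega
    rw [h1, hz.pow_eq_one]
    simp
  · have h1 : z ^ (q - (a : ℕ) + (b : ℕ)) ≠ 1 := by
      intro h2
      have h3 := (hz.pow_eq_one_iff_dvd _).1 h2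
      apply hab
      obtain ⟨t, ht⟩ := h3
      have h4 : t = 1 := by
        have h5 : 0 < t := by
          rcases Nat.eq_zero_or_pos t with rfl | h
          · omega
          · exact h
        have h6 : t < 2 := by
          by_contra h7
          have h8 : q * 2 ≤ q * t := Nat.mul_le_mul_left q (by omega)
          omega
        omega
      rw [h4] at ht
      apply Fin.ext
      omega
    have h2 : (z ^ (q - (a : ℕ) + (b : ℕ)) - 1) *
        ∑ c ∈ Finset.range q, (z ^ (q - (a : ℕ) + (b : ℕ))) ^ c = 0 := by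
      rw [mul_comm, geom_sum_mul, ← pow_mul, mul_comm, pow_mul, hz.pow_eq_one, one_pow, sub_self]
    have h3 := (mul_eq_zero.1 h2).resolve_left (sub_ne_zero.2 h1)
    rw [h3, map_zero]

/-- Fourier inversion -/
theorem fourier {n q : ℕ} (hqp : q.Prime) {F B : Type u} [Field F] [CommRing B] (z : F)
    (hz : IsPrimitiveRoot z q) (f : F →+* B) (ξ : B) (η : Fin n → B) (φ : Fam n q F)
    (ε : Fin n → Fin q) :
    ∑ g : Fin n → Fin q, (∏ j, f z ^ ((q - (ε j : ℕ)) * (g j : ℕ))) * fe f ξ (rt (f z) g η) φ =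
      (q : B) ^ n * ((φ ε).eval₂ f ξ * ∏ j, η j ^ (ε j : ℕ)) := by
  have h1 : ∀ g : Fin n → Fin q,
      (∏ j, f z ^ ((q - (ε j : ℕ)) * (g j : ℕ))) * fe f ξ (rt (f z) g η) φ =
      ∑ ε' : Fin n → Fin q, ((φ ε').eval₂ f ξ * ∏ j, η j ^ (ε' j : ℕ)) *
        ∏ j, (f z ^ ((q - (ε j : ℕ)) * (g j : ℕ)) * f z ^ ((g j : ℕ) * (ε' j : ℕ))) := by
    intro g
    unfold fe
    rw [Finset.mul_sum]
    refine Finset.sum_congr rfl fun ε' _ => ?_
    unfold rt
    rw [Finset.prod_mul_distrib]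
    have h2 : ∏ j, (f z ^ (g j : ℕ) * η j) ^ (ε' j : ℕ) =
        (∏ j, f z ^ ((g j : ℕ) * (ε' j : ℕ))) * ∏ j, η j ^ (ε' j : ℕ) := by
      rw [← Finset.prod_mul_distrib]
      refine Finset.prod_congr rfl fun j _ => ?_
      rw [mul_pow, ← pow_mul]
    rw [h2]
    ring
  rw [Finset.sum_congr rfl fun g _ => h1 g, Finset.sum_comm]
  have h3 : ∀ ε' : Fin n → Fin q, (∑ g : Fin n → Fin q,
      ((φ ε').eval₂ f ξ * ∏ j, η j ^ (ε' j : ℕ)) *
        ∏ j, (f z ^ ((q - (ε j : ℕ)) * (g j : ℕ)) * f z ^ ((g j : ℕ) * (ε' j : ℕ)))) =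
      if ε = ε' then (q : B) ^ n * ((φ ε).eval₂ f ξ * ∏ j, η j ^ (ε j : ℕ)) else 0 := by
    intro ε'
    rw [← Finset.mul_sum]
    have h4 : (∑ g : Fin n → Fin q,
        ∏ j, (f z ^ ((q - (ε j : ℕ)) * (g j : ℕ)) * f z ^ ((g j : ℕ) * (ε' j : ℕ)))) =
        ∏ j, ∑ c : Fin q, f z ^ ((q - (ε j : ℕ)) * (c : ℕ)) * f z ^ ((c : ℕ) * (ε' j : ℕ)) := by
      rw [Finset.prod_univ_sum, Fintype.piFinset_univ]
    rw [h4, Finset.prod_congr rfl fun j _ => R1_one z hz f (ε j) (ε' j)]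
    split_ifs with h5
    · subst h5
      simp only [if_true]
      rw [Finset.prod_const, Finset.card_univ, Fintype.card_fin]
      ring
    · obtain ⟨j, hj⟩ := Function.ne_iff.1 h5
      have h6 : (∏ j, if ε j = ε' j then (q : B) else 0) = 0 :=
        Finset.prod_eq_zero (Finset.mem_univ j) (if_neg hj)
      rw [h6, mul_zero]
  rw [Finset.sum_congr rfl fun ε' _ => h3 ε', Finset.sum_ite_eq]
  simp

end Pool.LibNP88
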