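import Pool.Agent.LibNP88.P3

/-
PLAN (R2, MEDIUM). The space Λ of all lam (supported on 1 <= c < ceil(|eps|/q), a finite set of indices since ceil(|eps|/q) <= n) is finite dimensional; Λ_r := {lam : X^(r+1) | h_lam} is a decreasing
sequence of subspaces, it is stationary (finrank), and its intersection is {lam : h_lam = 0}: so for some r0 and r >= r0, lam in Λ_r implies h_lam = 0. (If the stationary space contains lam then X^(r+1) | h_lam for all r,
so h_lam = 0: PowerSeries.ext.) h_lam = 0 implies lam = 0: multiply by prod_j Y_j^(q-1): Y^(q-1-eps): h = SUM_eps (SUM_c lam X^c) Y^(q-1-eps) , i.e. the family ψ(eps*) := SUM_c C (lam eps c) (X - C x0)^c at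
eps* = q-1-eps (Fin.rev) vanishes along the arc (X of the power series is un x0 - C x0); kummer gives ψ = 0, so lam = 0 (powers of X - C x0 independent). q - 1 - eps_j: (Y_j^(eps_j))⁻¹ Y_j^(q-1) = Y_j^(q-1-eps_j).
Note (PowerSeries) inverse of units: PowerSeries.mul_inv_cancel with constantCoeff != 0.
-/

set_option autoImplicit false

noncomputable section

open Polynomial

namespace Pool.LibNP88

universe u

private def R2_H {F : Type u} [Field F] {q n : ℕ} (Y : Fin n → PowerSeries F) :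
    ((Fin n → Fin q) → Fin (n + 1) → F) →ₗ[F] PowerSeries F where
  toFun v := ∑ ε, ∑ c : Fin (n + 1),
    PowerSeries.C (v ε c) * PowerSeries.X ^ (c : ℕ) * (∏ j, Y j ^ (ε j : ℕ))⁻¹
  map_add' v w := by
    rw [← Finset.sum_add_distrib]
    refine Finset.sum_congr rfl fun ε _ => ?_
    rw [← Finset.sum_add_distrib]
    refine Finset.sum_congr rfl fun c _ => ?_
    rw [Pi.add_apply, Pi.add_apply, map_add]
    ring
  map_smul' r v := by
    rw [RingHom.id_apply, Finset.smul_sum]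
    refine Finset.sum_congr rfl fun ε _ => ?_
    rw [Finset.smul_sum]
    refine Finset.sum_congr rfl fun c _ => ?_
    rw [Pi.smul_apply, Pi.smul_apply, smul_eq_mul, map_mul, PowerSeries.smul_eq_C_mul]
    ring

private theorem R2_inj {F : Type u} [Field F] {q : ℕ} (hqp : q.Prime) (hq : (q : F) ≠ 0)
    (hroot : ∀ c : F, ∃ d, d ^ q = c) (n : ℕ) (a : Fin n → F) (hinj : Function.Injective a)
    (ha : ∀ j, a j ≠ 0) (x0 : F) (Y : Fin n → PowerSeries F)
    (hY : OnX q (PowerSeries.C (R := F)) a (un x0) Y)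
    (hY0 : ∀ j, PowerSeries.constantCoeff (Y j) ≠ 0)
    (v : (Fin n → Fin q) → Fin (n + 1) → F) (hv : R2_H Y v = 0) : v = 0 := by
  have hq0 : 0 < q := hqp.pos
  let ρ : Equiv.Perm (Fin n → Fin q) := Equiv.piCongrRight fun _ => Fin.revPerm
  let ψ : Fam n q F := fun ε => ∑ c : Fin (n + 1), C (v (ρ ε) c) * (X - C x0) ^ (c : ℕ)
  have hprod : ∀ ε : Fin n → Fin q, (∏ j, Y j ^ (q - 1)) * (∏ j, Y j ^ (ε j : ℕ))⁻¹ =
      ∏ j, Y j ^ ((ρ ε j : Fin q) : ℕ) := by
    intro ε
    have h1 : ∏ j, Y j ^ (q - 1) = (∏ j, Y j ^ ((ρ ε j : Fin q) : ℕ)) * ∏ j, Y j ^ (ε j : ℕ) := by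
      rw [← Finset.prod_mul_distrib]
      refine Finset.prod_congr rfl fun j _ => ?_
      rw [← pow_add]
      congr 1
      have h2 : ((ρ ε j : Fin q) : ℕ) = q - ((ε j : ℕ) + 1) := Fin.val_rev (ε j)
      rw [h2]
      have := (ε j).isLt
      omega
    rw [h1, mul_assoc, PowerSeries.mul_inv_cancel, mul_one]
    rw [map_prod]
    refine Finset.prod_ne_zero_iff.2 fun j _ => ?_
    rw [map_pow]
    exact pow_ne_zero _ (hY0 j)
  have hfe : fe (PowerSeries.C (R := F)) (un x0) Y ψ = 0 := by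
    have h1 : (∏ j, Y j ^ (q - 1)) * R2_H Y v = 0 := by rw [hv, mul_zero]
    rw [← h1]
    show ∑ ε, (ψ ε).eval₂ (PowerSeries.C (R := F)) (un x0) * ∏ j, Y j ^ (ε j : ℕ) =
      (∏ j, Y j ^ (q - 1)) * ∑ ε, ∑ c : Fin (n + 1),
        PowerSeries.C (v ε c) * PowerSeries.X ^ (c : ℕ) * (∏ j, Y j ^ (ε j : ℕ))⁻¹
    rw [Finset.mul_sum]
    refine Fintype.sum_equiv ρ _ _ fun ε => ?_
    rw [Finset.mul_sum]
    have h2 : (ψ ε).eval₂ (PowerSeries.C (R := F)) (un x0) =
        ∑ c : Fin (n + 1), PowerSeries.C (v (ρ ε) c) * PowerSeries.X ^ (c : ℕ) := by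
      show (∑ c : Fin (n + 1), C (v (ρ ε) c) * (X - C x0) ^ (c : ℕ)).eval₂
        (PowerSeries.C (R := F)) (un x0) = _
      rw [eval₂_finsetSum]
      refine Finset.sum_congr rfl fun c _ => ?_
      rw [eval₂_mul, eval₂_C, eval₂_pow, eval₂_sub, eval₂_X, eval₂_C]
      unfold un
      rw [add_sub_cancel_left]
    rw [h2, Finset.sum_mul]
    refine Finset.sum_congr rfl fun c _ => ?_
    have h3 : ρ (ρ ε) = ε := by
      funext j
      exact Fin.rev_rev (ε j)
    have h4 := hprod (ρ ε)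
    rw [h3] at h4
    rw [← h4]
    ring
  have hψ : ψ = 0 := kummer hqp hq hroot n a hinj ha x0 Y hY hY0 ψ hfe
  funext ε c
  have h5 : ψ (ρ.symm ε) = 0 := congrFun hψ _
  have h6 : (∑ c : Fin (n + 1), C (v ε c) * (X - C x0) ^ (c : ℕ)) = 0 := by
    have h7 : ψ (ρ.symm ε) = ∑ c : Fin (n + 1), C (v (ρ (ρ.symm ε)) c) * (X - C x0) ^ (c : ℕ) := rfl
    rw [h7, Equiv.apply_symm_apply] at h5
    exact h5
  have h8 := congrArg (fun P : F[X] => (P.comp (X + C x0)).coeff (c : ℕ)) h6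
  beta_reduce at h8
  rw [Polynomial.sum_comp, finsetSum_coeff, zero_comp, coeff_zero] at h8
  have h9 : ∀ i : Fin (n + 1), ((C (v ε i) * (X - C x0) ^ (i : ℕ)).comp (X + C x0)).coeff (c : ℕ) =
      if i = c then v ε i else 0 := by
    intro i
    rw [mul_comp, C_comp, pow_comp, sub_comp, X_comp, C_comp, add_sub_cancel_right, coeff_C_mul,
      coeff_X_pow]
    by_cases hic : i = c
    · subst hic
      simp
    · have : (c : ℕ) ≠ (i : ℕ) := fun h => hic (Fin.ext h.symm)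
      rw [if_neg this, if_neg hic, mul_zero]
  rw [Finset.sum_congr rfl fun i _ => h9 i, Finset.sum_ite_eq' Finset.univ c] at h8
  simpa using h8

private theorem R2_stab {F V : Type u} [Field F] [AddCommGroup V] [Module F V]
    [FiniteDimensional F V] (H : V →ₗ[F] PowerSeries F) (hH : ∀ v, H v = 0 → v = 0) :
    ∃ r0 : ℕ, ∀ r, r0 ≤ r → ∀ v, PowerSeries.X ^ (r + 1) ∣ H v → v = 0 := by
  let W : ℕ → Submodule F V := fun r =>
    { carrier := {v | PowerSeries.X ^ (r + 1) ∣ H v}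
      add_mem' := by
        intro v w hv hw
        show PowerSeries.X ^ (r + 1) ∣ H (v + w)
        rw [map_add]
        exact dvd_add hv hw
      zero_mem' := by
        show PowerSeries.X ^ (r + 1) ∣ H 0
        rw [map_zero]
        exact dvd_zero _
      smul_mem' := by
        intro c v hv
        show PowerSeries.X ^ (r + 1) ∣ H (c • v)
        rw [map_smul, PowerSeries.smul_eq_C_mul]
        exact Dvd.dvd.mul_left hv _ }
  have hW : ∀ r s, r ≤ s → W s ≤ W r := by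
    intro r s hrs v hv
    exact (pow_dvd_pow _ (by omega)).trans hv
  let f : ℕ →o (Submodule F V)ᵒᵈ := ⟨fun r => OrderDual.toDual (W r), fun r s hrs => hW r s hrs⟩
  obtain ⟨r0, hr0⟩ := IsArtinian.monotone_stabilizes f
  refine ⟨r0, fun r hr v hv => hH v ?_⟩
  have h1 : ∀ m, r0 ≤ m → W r0 = W m := fun m hm => congrArg OrderDual.ofDual (hr0 m hm)
  have h2 : v ∈ W r0 := by
    rw [h1 r hr]
    exact hv
  ext m
  rw [map_zero]
  have h3 : v ∈ W (max r0 m) := by
    rw [← h1 _ (le_max_left _ _)]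
    exact h2
  have h4 : PowerSeries.X ^ (max r0 m + 1) ∣ H v := h3
  rw [PowerSeries.X_pow_dvd_iff] at h4
  exact h4 m (by have := le_max_right r0 m; omega)

/-- independence of the functionals -/
theorem indep {F : Type u} [Field F] {q : ℕ} (hqp : q.Prime) (hq : (q : F) ≠ 0)
    (hroot : ∀ c : F, ∃ d, d ^ q = c) (n : ℕ) (a : Fin n → F) (hinj : Function.Injective a)
    (ha : ∀ j, a j ≠ 0) (x0 : F) (Y : Fin n → PowerSeries F)
    (hY : OnX q (PowerSeries.C (R := F)) a (un x0) Y)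
    (hY0 : ∀ j, PowerSeries.constantCoeff (Y j) ≠ 0) :
    ∃ r0 : ℕ, ∀ r, r0 ≤ r → ∀ lam : (Fin n → Fin q) → ℕ → F,
      (∀ ε c, lam ε c ≠ 0 → 1 ≤ c ∧ c < (wt ε + (q - 1)) / q) →
      PowerSeries.X ^ (r + 1) ∣ ∑ ε, ∑ c ∈ Finset.range (n + 1),
        PowerSeries.C (lam ε c) * PowerSeries.X ^ c * (∏ j, Y j ^ (ε j : ℕ))⁻¹ →
      lam = 0 := by
  obtain ⟨r0, hr0⟩ := R2_stab (R2_H (q := q) Y)
    (R2_inj hqp hq hroot n a hinj ha x0 Y hY hY0)
  refine ⟨r0, fun r hr lam hsupp hdvd => ?_⟩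
  have h1 := hr0 r hr (fun ε c => lam ε (c : ℕ)) (by
    refine hdvd.trans (dvd_of_eq ?_)
    show _ = ∑ ε, ∑ c : Fin (n + 1),
      PowerSeries.C (lam ε (c : ℕ)) * PowerSeries.X ^ (c : ℕ) * (∏ j, Y j ^ (ε j : ℕ))⁻¹
    refine Finset.sum_congr rfl fun ε _ => ?_
    rw [Finset.sum_range])
  funext ε c
  by_contra hne
  have h2 := (hsupp ε c hne).2
  have h3 : wt ε ≤ n * (q - 1) := by
    unfold wt
    calc ∑ j, (ε j : ℕ) ≤ ∑ _j : Fin n, (q - 1) :=
          Finset.sum_le_sum fun j _ => by have := (ε j).isLt; omega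
      _ = n * (q - 1) := by rw [Finset.sum_const, Finset.card_univ, Fintype.card_fin, smul_eq_mul]
  have h4 : (wt ε + (q - 1)) / q < n + 1 := by
    rw [Nat.div_lt_iff_lt_mul hqp.pos]
    have h5 : (n + 1) * (q - 1) < (n + 1) * q :=
      Nat.mul_lt_mul_of_pos_left (by have := hqp.pos; omega) (Nat.succ_pos n)
    have h6 : (n + 1) * (q - 1) = n * (q - 1) + (q - 1) := by ring
    omega
  have h7 := congrFun (congrFun h1 ε) ⟨c, by omega⟩
  exact hne h7

end Pool.LibNP88
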