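import Pool.Agent.LibNP88.R1
import Pool.Agent.LibNP88.R2

/-
PLAN (R3, MEDIUM/STRONG). Let W0 be the span of v (dimension D), for r >= max(r0 of indep, n + 1). For v in W0: w := fe C (un x0) Y v mod X^r. (1) Fourier (rt with all g; the terms with g != 0 are divisible by X^r):
q^n (v eps)(x0 + X) Y^eps = w mod X^r for every eps, so (v eps)(x0 + X) = q^(-n) w (Y^eps)⁻¹ mod X^r. (2) The map v -> w mod X^r (F^r, coefficients 0..r-1) has kernel of dimension <= 1 on LL_r: if w = 0 then X^r | (v eps)(x0 + X),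
(X - C x0)^r | v eps, with degree <= r - ceil(wt eps / q): v eps = 0 for wt eps > 0 and v 0 = c (X - C x0)^r. (3) The image lies in the kernel of the functionals l_(eps,c)(w) := coeff (r - c) (w (Y^eps)⁻¹),
1 <= c < ceil(|eps|/q) (c <= n <= r - 1): because natDegree (v eps) <= r - ceil(|eps|/q) < r - c, and the coefficients of (v eps)(x0 + X) above the degree vanish. (4) These functionals on F^r are linearly independent: a relation
SUM lam l = 0, evaluated at w = X^a, a = 0..r-1, says coeff (r - a) (SUM lam X^c (Y^eps)⁻¹) = 0, i.e. the coefficients 1..r of h vanish, coefficient 0 vanishes as c >= 1: X^(r+1) | h, indep. Their number is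
SUM_eps (ceil - 1 for |eps| > 0) = G0 - (q^n - 1). So D <= 1 + r - (G0 - q^n + 1) = r + q^n - G0. (Dimension of the common kernel of k independent functionals on F^r is r - k: finrank of dualCoannihilator, or LinearMap.pi surjective.)
-/

set_option autoImplicit false

noncomputable section

open Polynomial

namespace Pool.LibNP88

universe u

private theorem wt_le {n q : ℕ} (hq : 2 ≤ q) (ε : Fin n → Fin q) : wt ε ≤ n * (q - 1) := by
  unfold wt
  calc ∑ j, (ε j : ℕ) ≤ ∑ _j : Fin n, (q - 1) := by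
        apply Finset.sum_le_sum
        intro j _
        have := (ε j).isLt
        omega
    _ = n * (q - 1) := by simp

private theorem ceil_le {n q : ℕ} (hq : 2 ≤ q) (ε : Fin n → Fin q) :
    (wt ε + (q - 1)) / q ≤ n := by
  have h := wt_le hq ε
  rw [Nat.div_le_iff_le_mul_add_pred (by omega)]
  have h2 : n * (q - 1) ≤ q * n := by
    rw [mul_comm q n]
    exact Nat.mul_le_mul_left n (by omega)
  omega

private theorem of_k {q w M k : ℕ} (hq : 2 ≤ q) (h : q * k + w ≤ q * M) :
    k + (w + (q - 1)) / q ≤ M := by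
  have hq0 : 0 < q := by omega
  have h1 : (w + (q - 1)) / q ≤ M - k := by
    rw [Nat.div_le_iff_le_mul_add_pred hq0]
    have : q * (M - k) = q * M - q * k := Nat.mul_sub q M k
    omega
  have h2 : k ≤ M := by
    have : q * k ≤ q * M := by omega
    exact Nat.le_of_mul_le_mul_left this hq0
  omega

private theorem r3_add {n q : ℕ} {S B : Type u} [CommRing S] [CommRing B] (f : S →+* B) (ξ : B)
    (η : Fin n → B) (φ ψ : Fam n q S) : fe f ξ η (φ + ψ) = fe f ξ η φ + fe f ξ η ψ := by
  unfold fe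
  rw [← Finset.sum_add_distrib]
  refine Finset.sum_congr rfl (fun ε _ => ?_)
  rw [Pi.add_apply, eval₂_add, add_mul]

private theorem r3_smul {n q : ℕ} {S B : Type u} [CommRing S] [CommRing B] (f : S →+* B) (ξ : B)
    (η : Fin n → B) (c : S) (φ : Fam n q S) : fe f ξ η (c • φ) = f c * fe f ξ η φ := by
  unfold fe
  rw [Finset.mul_sum]
  refine Finset.sum_congr rfl (fun ε _ => ?_)
  rw [Pi.smul_apply, eval₂_smul, mul_assoc]

private theorem eval_un {F : Type u} [Field F] (x0 : F) (f : F[X]) :
    f.eval₂ (PowerSeries.C (R := F)) (un x0) = ((taylor x0 f : F[X]) : PowerSeries F) := by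
  rw [taylor_apply, Polynomial.comp]
  have h := Polynomial.hom_eval₂ f (C : F →+* F[X]) (Polynomial.coeToPowerSeries.ringHom (R := F))
    (X + C x0)
  have h2 : (Polynomial.coeToPowerSeries.ringHom (R := F)).comp (C : F →+* F[X]) =
      PowerSeries.C (R := F) := by
    ext a : 1
    simp
  have h3 : (Polynomial.coeToPowerSeries.ringHom (R := F)) (X + C x0) = un x0 := by
    simp [un, add_comm]
  rw [h2, h3] at h
  rw [← h]
  rfl

private theorem coeff_zero_of {n q : ℕ} {F : Type u} [Field F] (hq : 2 ≤ q) {r : ℕ}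
    {φ : Fam n q F} (hφ : InL r φ) (x0 : F) (ε : Fin n → Fin q) (k : ℕ)
    (hk : r < k + (wt ε + (q - 1)) / q) : (taylor x0 (φ ε)).coeff k = 0 := by
  by_cases h0 : φ ε = 0
  · rw [h0]; simp
  · apply coeff_eq_zero_of_natDegree_lt
    rw [natDegree_taylor]
    by_contra hlt
    push Not at hlt
    have h1 := hφ ε (φ ε).natDegree (by
      rw [coeff_natDegree]
      exact leadingCoeff_ne_zero.mpr h0)
    have h2 := of_k hq h1
    omega

private theorem four {n q : ℕ} (hqp : q.Prime) {F : Type u} [Field F] (z : F)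
    (hz : IsPrimitiveRoot z q) (x0 : F) (Y : Fin n → PowerSeries F) (φ : Fam n q F) (r : ℕ)
    (hφ : ∀ g : Fin n → Fin q, (∃ j, (g j : ℕ) ≠ 0) → PowerSeries.X ^ r ∣
        fe (PowerSeries.C (R := F)) (un x0) (rt (PowerSeries.C z) g Y) φ)
    (ε : Fin n → Fin q) :
    PowerSeries.X ^ r ∣ fe (PowerSeries.C (R := F)) (un x0) Y φ -
      (q : PowerSeries F) ^ n * (((taylor x0 (φ ε) : F[X]) : PowerSeries F) *
        ∏ j, Y j ^ (ε j : ℕ)) := by
  have h := fourier hqp z hz (PowerSeries.C (R := F)) (un x0) Y φ ε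
  rw [← eval_un, ← h]
  have hq0 := hqp.pos
  obtain ⟨g0, hg0⟩ : ∃ g0 : Fin n → Fin q, ∀ j, (g0 j : ℕ) = 0 := ⟨fun _ => ⟨0, hq0⟩, fun _ => rfl⟩
  rw [← Finset.add_sum_erase _ _ (Finset.mem_univ g0)]
  have h0 : (∏ j, (PowerSeries.C (R := F)) z ^ ((q - (ε j : ℕ)) * (g0 j : ℕ))) *
      fe (PowerSeries.C (R := F)) (un x0) (rt ((PowerSeries.C (R := F)) z) g0 Y) φ =
      fe (PowerSeries.C (R := F)) (un x0) Y φ := by
    have h1 : rt ((PowerSeries.C (R := F)) z) g0 Y = Y := by
      funext j
      simp [rt, hg0 j]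
    rw [h1]
    simp [hg0]
  rw [h0, ← sub_sub, sub_self, zero_sub, dvd_neg]
  refine Finset.dvd_sum (fun g hg => ?_)
  refine Dvd.dvd.mul_left (hφ g ?_) _
  by_contra hall
  push Not at hall
  apply Finset.ne_of_mem_erase hg
  funext j
  apply Fin.ext
  rw [hall j, hg0 j]

private theorem cardJ {n q : ℕ} (hq : 2 ≤ q) :
    Fintype.card {x : (Fin n → Fin q) × Fin (n + 1) // 1 ≤ (x.2 : ℕ) ∧
      (x.2 : ℕ) < (wt x.1 + (q - 1)) / q} + q ^ n = G0 n q + 1 := by
  classical
  rw [Fintype.card_subtype, Finset.card_filter, Fintype.sum_prod_type]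
  have h1 : ∀ ε : Fin n → Fin q, (∑ c : Fin (n + 1),
      if 1 ≤ (c : ℕ) ∧ (c : ℕ) < (wt ε + (q - 1)) / q then 1 else 0) + 1 =
      (wt ε + (q - 1)) / q + if wt ε = 0 then 1 else 0 := by
    intro ε
    rw [← Finset.card_filter]
    have hc := ceil_le hq ε
    generalize hE : (wt ε + (q - 1)) / q = E at hc
    have h2 : (Finset.univ.filter (fun c : Fin (n + 1) => 1 ≤ (c : ℕ) ∧ (c : ℕ) < E)).card
        = E - 1 := by
      rw [← Finset.card_map Fin.valEmbedding]
      have : (Finset.univ.filter (fun c : Fin (n + 1) => 1 ≤ (c : ℕ) ∧ (c : ℕ) < E)).map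
          Fin.valEmbedding = Finset.Ico 1 E := by
        ext x
        simp only [Finset.mem_map, Finset.mem_filter, Finset.mem_univ, true_and,
          Fin.valEmbedding_apply, Finset.mem_Ico]
        constructor
        · rintro ⟨k, hk, rfl⟩
          omega
        · intro hx
          exact ⟨⟨x, by omega⟩, by simp only; omega, rfl⟩
      rw [this, Nat.card_Ico]
    rw [h2]
    by_cases hw : wt ε = 0
    · rw [if_pos hw]
      have : E = 0 := by
        rw [← hE, hw, zero_add]
        exact Nat.div_eq_of_lt (by omega)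
      omega
    · rw [if_neg hw]
      have : 1 ≤ E := by
        rw [← hE]
        rw [Nat.one_le_div_iff (by omega)]
        omega
      omega
  have h3 : (∑ ε : Fin n → Fin q, ((∑ c : Fin (n + 1),
      if 1 ≤ (c : ℕ) ∧ (c : ℕ) < (wt ε + (q - 1)) / q then 1 else 0) + 1)) =
      ∑ ε : Fin n → Fin q, ((wt ε + (q - 1)) / q + if wt ε = 0 then 1 else 0) :=
    Finset.sum_congr rfl (fun ε _ => h1 ε)
  rw [Finset.sum_add_distrib, Finset.sum_add_distrib] at h3
  have h4 : ∑ ε : Fin n → Fin q, (1 : ℕ) = q ^ n := by simp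
  have h5 : ∑ ε : Fin n → Fin q, (if wt ε = 0 then 1 else 0) = 1 := by
    rw [← Finset.card_filter]
    rw [Finset.card_eq_one]
    refine ⟨fun _ => ⟨0, by omega⟩, ?_⟩
    ext ε
    simp only [Finset.mem_filter, Finset.mem_univ, true_and, Finset.mem_singleton]
    constructor
    · intro h
      unfold wt at h
      rw [Finset.sum_eq_zero_iff] at h
      funext j
      exact Fin.ext (h j (Finset.mem_univ j))
    · rintro rfl
      simp [wt]
  rw [h4, h5] at h3
  exact h3

private theorem ker_le_one {F V W : Type*} [Field F] [AddCommGroup V] [Module F V]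
    [FiniteDimensional F V] [AddCommGroup W] [Module F W] (Φ : V →ₗ[F] W) (T : V →ₗ[F] F)
    (h : ∀ v, Φ v = 0 → T v = 0 → v = 0) : Module.finrank F (LinearMap.ker Φ) ≤ 1 := by
  have hinjT : Function.Injective (T.comp (LinearMap.ker Φ).subtype) := by
    refine (injective_iff_map_eq_zero _).mpr ?_
    rintro ⟨v, hv⟩ hT
    exact Subtype.ext (h v hv hT)
  have := LinearMap.finrank_le_finrank_of_injective hinjT
  rwa [Module.finrank_self] at this

/-- dimension bound (Riemann-Roch) -/
theorem dim_bound {F : Type u} [Field F] {q : ℕ} (hqp : q.Prime) (hq : (q : F) ≠ 0)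
    (hroot : ∀ c : F, ∃ d, d ^ q = c) (z : F) (hz : IsPrimitiveRoot z q) (n : ℕ) (a : Fin n → F)
    (hinj : Function.Injective a) (ha : ∀ j, a j ≠ 0) (x0 : F) (Y : Fin n → PowerSeries F)
    (hY : OnX q (PowerSeries.C (R := F)) a (un x0) Y)
    (hY0 : ∀ j, PowerSeries.constantCoeff (Y j) ≠ 0) :
    ∃ r0 : ℕ, ∀ r, r0 ≤ r → ∀ (D : ℕ) (v : Fin D → Fam n q F), LinearIndependent F v →
      (∀ k, InL r (v k)) →
      (∀ k (g : Fin n → Fin q), (∃ j, (g j : ℕ) ≠ 0) → PowerSeries.X ^ r ∣
        fe (PowerSeries.C (R := F)) (un x0) (rt (PowerSeries.C z) g Y) (v k)) →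
      D + G0 n q ≤ r + q ^ n := by
  classical
  obtain ⟨r1, hr1⟩ := indep hqp hq hroot n a hinj ha x0 Y hY hY0
  refine ⟨max r1 (n + 1), fun r hr D v hv hL hX => ?_⟩
  have hrr : r1 ≤ r := (le_max_left _ _).trans hr
  have hnr : n + 1 ≤ r := (le_max_right _ _).trans hr
  have hq2 := hqp.two_le
  -- the inverse of the monomial
  obtain ⟨P, hP⟩ : ∃ P : (Fin n → Fin q) → PowerSeries F,
      ∀ ε, P ε = (∏ j, Y j ^ (ε j : ℕ))⁻¹ := ⟨_, fun _ => rfl⟩
  have hPm : ∀ ε, (∏ j, Y j ^ (ε j : ℕ)) * P ε = 1 := by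
    intro ε
    rw [hP]
    apply PowerSeries.mul_inv_cancel
    rw [map_prod]
    refine Finset.prod_ne_zero_iff.mpr (fun j _ => ?_)
    rw [map_pow]
    exact pow_ne_zero _ (hY0 j)
  have hqC : (q : PowerSeries F) = PowerSeries.C (q : F) := by simp
  -- the linear map
  let Φ : Fam n q F →ₗ[F] (Fin r → F) :=
    { toFun := fun φ i => PowerSeries.coeff (i : ℕ) (fe (PowerSeries.C (R := F)) (un x0) Y φ)
      map_add' := by
        intro φ ψ
        funext i
        rw [r3_add, map_add, Pi.add_apply]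
      map_smul' := by
        intro c φ
        funext i
        rw [r3_smul, PowerSeries.coeff_C_mul, RingHom.id_apply, Pi.smul_apply, smul_eq_mul] }
  have hΦ : ∀ φ i, Φ φ i = PowerSeries.coeff (i : ℕ)
      (fe (PowerSeries.C (R := F)) (un x0) Y φ) := fun _ _ => rfl
  obtain ⟨W0, hW0⟩ : ∃ W0 : Submodule F (Fam n q F), W0 = Submodule.span F (Set.range v) :=
    ⟨_, rfl⟩
  have hW : ∀ φ ∈ W0, InL r φ ∧ ∀ (g : Fin n → Fin q), (∃ j, (g j : ℕ) ≠ 0) →
      PowerSeries.X ^ r ∣ fe (PowerSeries.C (R := F)) (un x0) (rt (PowerSeries.C z) g Y) φ := by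
    intro φ hφ
    rw [hW0] at hφ
    induction hφ using Submodule.span_induction with
    | mem x hx =>
      obtain ⟨k, rfl⟩ := hx
      exact ⟨hL k, hX k⟩
    | zero =>
      refine ⟨fun ε k h => absurd (by simp) h, fun g _ => ?_⟩
      have := r3_smul (PowerSeries.C (R := F)) (un x0) (rt (PowerSeries.C z) g Y) (0 : F)
        (0 : Fam n q F)
      rw [zero_smul, map_zero, zero_mul] at this
      rw [this]
      exact dvd_zero _
    | add x y _ _ hx hy =>
      refine ⟨fun ε k h => ?_, fun g hg => ?_⟩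
      · rw [Pi.add_apply, coeff_add] at h
        by_cases h1 : (x ε).coeff k = 0
        · refine hy.1 ε k ?_
          rwa [h1, zero_add] at h
        · exact hx.1 ε k h1
      · rw [r3_add]
        exact dvd_add (hx.2 g hg) (hy.2 g hg)
    | smul c x _ hx =>
      refine ⟨fun ε k h => ?_, fun g hg => ?_⟩
      · rw [Pi.smul_apply, coeff_smul, smul_eq_mul] at h
        exact hx.1 ε k (right_ne_zero_of_mul h)
      · rw [r3_smul]
        exact Dvd.dvd.mul_left (hx.2 g hg) _
  haveI : FiniteDimensional F W0 := by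
    rw [hW0]
    exact FiniteDimensional.span_of_finite F (Set.finite_range v)
  have hD : Module.finrank F W0 = D := by
    rw [hW0, finrank_span_eq_card hv, Fintype.card_fin]
  -- main congruence
  have hcong : ∀ φ ∈ W0, ∀ ε, PowerSeries.X ^ r ∣
      fe (PowerSeries.C (R := F)) (un x0) Y φ * P ε -
        (q : PowerSeries F) ^ n * ((taylor x0 (φ ε) : F[X]) : PowerSeries F) := by
    intro φ hφ ε
    have h1 := four hqp z hz x0 Y φ r (hW φ hφ).2 ε
    have h2 : fe (PowerSeries.C (R := F)) (un x0) Y φ * P ε -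
        (q : PowerSeries F) ^ n * ((taylor x0 (φ ε) : F[X]) : PowerSeries F) =
        (fe (PowerSeries.C (R := F)) (un x0) Y φ -
        (q : PowerSeries F) ^ n * (((taylor x0 (φ ε) : F[X]) : PowerSeries F) *
          ∏ j, Y j ^ (ε j : ℕ))) * P ε := by
      rw [sub_mul, mul_assoc _ (_ * _) (P ε), mul_assoc _ (∏ j, Y j ^ (ε j : ℕ)) (P ε), hPm,
        mul_one]
    rw [h2]
    exact Dvd.dvd.mul_right h1 _
  have hqn : (q : F) ^ n ≠ 0 := pow_ne_zero _ hq
  have hqCn : (q : PowerSeries F) ^ n = PowerSeries.C ((q : F) ^ n) := by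
    rw [map_pow, hqC]
  have hco : ∀ φ ∈ W0, ∀ ε, ∀ k, k < r → PowerSeries.coeff k
      (fe (PowerSeries.C (R := F)) (un x0) Y φ * P ε) =
        (q : F) ^ n * (taylor x0 (φ ε)).coeff k := by
    intro φ hφ ε k hk
    have h1 := (PowerSeries.X_pow_dvd_iff.mp (hcong φ hφ ε)) k hk
    rw [map_sub, sub_eq_zero, hqCn, PowerSeries.coeff_C_mul, Polynomial.coeff_coe] at h1
    exact h1
  -- kernel
  obtain ⟨e0, he0⟩ : ∃ e0 : Fin n → Fin q, ∀ j, (e0 j : ℕ) = 0 :=
    ⟨fun _ => ⟨0, hqp.pos⟩, fun _ => rfl⟩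
  obtain ⟨Φ', hΦ'⟩ : ∃ Φ' : W0 →ₗ[F] (Fin r → F), ∀ φ : W0, Φ' φ = Φ φ :=
    ⟨Φ.comp W0.subtype, fun _ => rfl⟩
  have hker : Module.finrank F (LinearMap.ker Φ') ≤ 1 := by
    let T : W0 →ₗ[F] F :=
      { toFun := fun φ => (taylor x0 ((φ : Fam n q F) e0)).coeff r
        map_add' := by
          intro φ ψ
          simp
        map_smul' := by
          intro c φ
          simp }
    have hT : ∀ φ, T φ = (taylor x0 ((φ : Fam n q F) e0)).coeff r := fun _ => rfl
    apply ker_le_one Φ' T
    · rintro ⟨φ, hφW⟩ hφ hTφ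
      rw [hT] at hTφ
      simp only at hTφ
      rw [hΦ'] at hφ
      have hφ' : Φ φ = 0 := hφ
      have hw : PowerSeries.X ^ r ∣ fe (PowerSeries.C (R := F)) (un x0) Y φ := by
        rw [PowerSeries.X_pow_dvd_iff]
        intro k hk
        have := congrFun hφ' ⟨k, hk⟩
        rw [hΦ] at this
        exact this
      have hlow : ∀ ε k, k < r → (taylor x0 (φ ε)).coeff k = 0 := by
        intro ε k hk
        have h1 := hco φ hφW ε k hk
        have h2 : PowerSeries.coeff k (fe (PowerSeries.C (R := F)) (un x0) Y φ * P ε) = 0 :=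
          (PowerSeries.X_pow_dvd_iff.mp (Dvd.dvd.mul_right hw (P ε))) k hk
        rw [h2] at h1
        exact (mul_eq_zero.mp h1.symm).resolve_left hqn
      have hz0 : φ = 0 := by
        funext ε
        have ht : taylor x0 (φ ε) = 0 := by
          ext k
          rw [coeff_zero]
          rcases lt_or_ge k r with hk | hk
          · exact hlow ε k hk
          · by_cases hE : r < k + (wt ε + (q - 1)) / q
            · exact coeff_zero_of hq2 (hW φ hφW).1 x0 ε k hE
            · have hE0 : (wt ε + (q - 1)) / q = 0 := by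
                have := Nat.zero_le ((wt ε + (q - 1)) / q)
                omega
              have hkr : k = r := by
                rw [hE0] at hE
                omega
              have hw0 : wt ε = 0 := by
                have := (Nat.div_eq_zero_iff).mp hE0
                omega
              have hε : ε = e0 := by
                unfold wt at hw0
                rw [Finset.sum_eq_zero_iff] at hw0
                funext j
                apply Fin.ext
                rw [hw0 j (Finset.mem_univ j), he0 j]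
              rw [hkr, hε]
              exact hTφ
        exact taylor_injective x0 (by rw [ht, Pi.zero_apply, map_zero])
      apply Subtype.ext
      exact hz0
  -- the matrix of the functionals
  let J := {x : (Fin n → Fin q) × Fin (n + 1) // 1 ≤ (x.2 : ℕ) ∧
      (x.2 : ℕ) < (wt x.1 + (q - 1)) / q}
  have hJ : Fintype.card J + q ^ n = G0 n q + 1 := cardJ hq2
  let A : Matrix J (Fin r) F := fun x i =>
    PowerSeries.coeff (r - (x.1.2 : ℕ)) (PowerSeries.X ^ (i : ℕ) * P x.1.1)
  have hA : ∀ x i, A x i = PowerSeries.coeff (r - (x.1.2 : ℕ))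
    (PowerSeries.X ^ (i : ℕ) * P x.1.1) := fun _ _ => rfl
  have hcle : ∀ x : J, (x.1.2 : ℕ) ≤ n := fun x => by
    have := x.1.2.isLt
    omega
  have hAΦ : ∀ φ ∈ W0, A.mulVecLin (Φ φ) = 0 := by
    intro φ hφ
    funext x
    obtain ⟨⟨ε, c⟩, hc1, hc2⟩ := x
    have hcn : (c : ℕ) ≤ n := by
      have := c.isLt
      omega
    simp only at hc1 hc2
    rw [Matrix.mulVecLin_apply, Pi.zero_apply]
    have h1 : A.mulVec (Φ φ) ⟨⟨ε, c⟩, hc1, hc2⟩ = PowerSeries.coeff (r - (c : ℕ))
        (fe (PowerSeries.C (R := F)) (un x0) Y φ * P ε) := by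
      rw [PowerSeries.coeff_mul, Finset.Nat.sum_antidiagonal_eq_sum_range_succ
        (fun i j => PowerSeries.coeff i (fe (PowerSeries.C (R := F)) (un x0) Y φ) *
          PowerSeries.coeff j (P ε))]
      simp only [Matrix.mulVec, dotProduct, hA, hΦ]
      rw [Fin.sum_univ_eq_sum_range (fun i => PowerSeries.coeff (r - (c : ℕ))
        (PowerSeries.X ^ i * P ε) * PowerSeries.coeff i
          (fe (PowerSeries.C (R := F)) (un x0) Y φ)) r]
      symm
      apply Finset.sum_subset_zero_on_sdiff
      · intro i hi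
        rw [Finset.mem_range] at hi ⊢
        omega
      · intro i hi
        rw [Finset.mem_sdiff, Finset.mem_range, Finset.mem_range] at hi
        rw [PowerSeries.coeff_X_pow_mul', if_neg (by omega), zero_mul]
      · intro i hi
        rw [Finset.mem_range] at hi
        rw [PowerSeries.coeff_X_pow_mul', if_pos (by omega), mul_comm]
    rw [h1, hco φ hφ ε _ (by omega), coeff_zero_of hq2 (hW φ hφ).1 x0 ε _ (by omega), mul_zero]
  have hrank : A.rank = Fintype.card J := by
    apply LinearIndependent.rank_matrix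
    rw [Fintype.linearIndependent_iff]
    intro g hg
    -- lam
    let lam : (Fin n → Fin q) → ℕ → F := fun ε c =>
      if h : ∃ hc : c < n + 1, 1 ≤ c ∧ c < (wt ε + (q - 1)) / q then
        g ⟨(ε, ⟨c, h.1⟩), h.2⟩ else 0
    have hlamx : ∀ x : J, lam x.1.1 (x.1.2 : ℕ) = g x := by
      intro x
      simp only [lam]
      rw [dif_pos ⟨x.1.2.isLt, x.2⟩]
    have hlamn : ∀ (ε : Fin n → Fin q) (c : ℕ), ¬ (1 ≤ c ∧ c < (wt ε + (q - 1)) / q) →
        lam ε c = 0 := by
      intro ε c hcon
      simp only [lam]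
      rw [dif_neg]
      rintro ⟨_, h2⟩
      exact hcon h2
    have hsum : ∀ h : (Fin n → Fin q) → ℕ → F,
        ∑ ε, ∑ c ∈ Finset.range (n + 1), lam ε c * h ε c =
          ∑ x : J, g x * h x.1.1 (x.1.2 : ℕ) := by
      intro h
      rw [Finset.sum_congr rfl (fun ε _ => Finset.sum_range (fun c => lam ε c * h ε c))]
      rw [← Fintype.sum_prod_type' (f := fun ε (c : Fin (n + 1)) => lam ε c * h ε c)]
      rw [← Finset.sum_filter_of_ne (p := fun x : (Fin n → Fin q) × Fin (n + 1) =>
        1 ≤ (x.2 : ℕ) ∧ (x.2 : ℕ) < (wt x.1 + (q - 1)) / q)]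
      · rw [Finset.sum_subtype (p := fun x : (Fin n → Fin q) × Fin (n + 1) =>
          1 ≤ (x.2 : ℕ) ∧ (x.2 : ℕ) < (wt x.1 + (q - 1)) / q) _ (by simp)]
        refine Finset.sum_congr rfl (fun x _ => ?_)
        rw [hlamx x]
      · intro x _ hne
        by_contra hcon
        exact hne (by rw [hlamn _ _ hcon, zero_mul])
    have hlam0 : lam = 0 := by
      apply hr1 r hrr
      · intro ε c hne
        by_contra hcon
        exact hne (hlamn _ _ hcon)
      · rw [PowerSeries.X_pow_dvd_iff]
        intro k hk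
        have e1 : PowerSeries.coeff k (∑ ε, ∑ c ∈ Finset.range (n + 1),
            PowerSeries.C (lam ε c) * PowerSeries.X ^ c * (∏ j, Y j ^ (ε j : ℕ))⁻¹) =
            ∑ ε, ∑ c ∈ Finset.range (n + 1), lam ε c *
              PowerSeries.coeff k (PowerSeries.X ^ c * P ε) := by
          rw [map_sum]
          refine Finset.sum_congr rfl (fun ε _ => ?_)
          rw [map_sum]
          refine Finset.sum_congr rfl (fun c _ => ?_)
          rw [← hP, mul_assoc, PowerSeries.coeff_C_mul]
        rw [e1, hsum (fun ε c => PowerSeries.coeff k (PowerSeries.X ^ c * P ε))]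
        rcases Nat.eq_zero_or_pos k with hk0 | hk0
        · refine Finset.sum_eq_zero (fun x _ => ?_)
          have hx1 : 1 ≤ (x.1.2 : ℕ) := x.2.1
          rw [hk0, PowerSeries.coeff_X_pow_mul', if_neg (by omega), mul_zero]
        · have e2 := congrFun hg ⟨r - k, by omega⟩
          rw [Finset.sum_apply] at e2
          rw [Pi.zero_apply] at e2
          rw [← e2]
          refine Finset.sum_congr rfl (fun x _ => ?_)
          rw [Pi.smul_apply, smul_eq_mul]
          have hx1 : 1 ≤ (x.1.2 : ℕ) := x.2.1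
          have hx2 := hcle x
          have e3 : A.row x ⟨r - k, by omega⟩ = PowerSeries.coeff (r - (x.1.2 : ℕ))
            (PowerSeries.X ^ (r - k) * P x.1.1) := rfl
          rw [e3, PowerSeries.coeff_X_pow_mul', PowerSeries.coeff_X_pow_mul']
          by_cases hck : (x.1.2 : ℕ) ≤ k
          · rw [if_pos hck, if_pos (by omega)]
            congr 3
            omega
          · rw [if_neg hck, if_neg (by omega)]
    intro x
    have h1 : lam x.1.1 (x.1.2 : ℕ) = 0 := by rw [hlam0]; rfl
    simp only [lam] at h1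
    rw [dif_pos ⟨x.1.2.isLt, x.2⟩] at h1
    exact h1
  have hrange : LinearMap.range Φ' ≤ LinearMap.ker A.mulVecLin := by
    rintro _ ⟨⟨φ, hφ⟩, rfl⟩
    rw [LinearMap.mem_ker, hΦ']
    exact hAΦ φ hφ
  have h1 := LinearMap.finrank_range_add_finrank_ker A.mulVecLin
  have h2 := Submodule.finrank_mono hrange
  have h3 := LinearMap.finrank_range_add_finrank_ker Φ'
  have h4 : Module.finrank F (LinearMap.range A.mulVecLin) = Fintype.card J := hrank
  rw [Module.finrank_fintype_fun_eq_card, Fintype.card_fin] at h1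
  rw [hD] at h3
  omega

end Pool.LibNP88
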