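import Pool.Agent.LibNP88.B1
import Pool.Agent.LibNP88.P2
import Pool.Agent.LibNP88.Defs2

/-
PLAN (T1, MEDIUM). a_last is a unit of R (hB.unit, all residues nonzero): a_last v = 1; xW := -v. cW last := 0, cW j.castSucc := a q-th root in R (rootR) of 1 + a_j xW = (a_last - a_j) v; its residues are nonzero as ρ i (a j) != ρ i (a last).
For each i apply hA (Ap n) to a ∘ castSucc with the targets (x0 i; y0 i ∘ castSucc) at i and (ρ l xW; ρ l ∘ cW ∘ castSucc) at l != i (Function.update or if l = i; all y-targets nonzero): xR i and yR i j.castSucc. yR i last := ± a q-th root w in R of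
1 + a_last xR i: at i, (ρ i w)^q = 1 + ρ i a_last * x0 i = (y0 i last)^q, so ρ i w = (ρ i z)^k y0 i last (signs, zk), replace w by z^(q-k) w; at l != i (ρ l w)^q = 1 + ρ l (a_last xW) = 0 so ρ l w = 0 = ρ l (cW last). Fin.lastCases for the y-vectors.
step_arcs: arc_un over L at (xR l; yR l) (hS.Q mapped to L; yR l j != 0 in L because some residue is: at the place l it is y0 l j; a j != 0), arc_ra over L at (xW; cW) (qL, hS.W, hS.W0, hS.Wnz).
-/

set_option autoImplicit false

noncomputable section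

open Polynomial

namespace Pool.LibNP88

universe u

/-- the data of the induction step exist -/
theorem step_data {p q : ℕ} {L : Type u} [Field L] {R : Subring L} {ι : Type} [Fintype ι]
    {κ : ι → Type u} [∀ i, Field (κ i)] {ρ : ∀ i, R →+* κ i} (hB : Bs p q R κ ρ) (n : ℕ)
    (hA : Ap q R κ ρ n) {z : R} (hz : IsPrimitiveRoot z q) (a : Fin (n + 1) → R)
    (hinj : ∀ i, Function.Injective (fun j => ρ i (a j))) (hnz : ∀ i j, ρ i (a j) ≠ 0)
    (x0 : ∀ i, κ i) (y0 : ∀ i, Fin (n + 1) → κ i) (h0 : ∀ i, OnX q (ρ i) a (x0 i) (y0 i))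
    (hy0 : ∀ i j, y0 i j ≠ 0) :
    ∃ (xW : R) (cW : Fin (n + 1) → R) (xR : ι → R) (yR : ι → Fin (n + 1) → R),
      Sd q R κ ρ n z a x0 y0 xW cW xR yR := by
  classical
  have hq0 : q ≠ 0 := hB.qp.ne_zero
  obtain ⟨v, hv⟩ := hB.unit (a (Fin.last n)) (fun i => hnz i (Fin.last n))
  choose rr hrr using fun c : R => rootR hB c
  set cW : Fin (n + 1) → R := Fin.snoc (α := fun _ => R)
    (fun j : Fin n => rr (1 + a j.castSucc * (-v))) 0 with hcW
  have hcl : cW (Fin.last n) = 0 := by rw [hcW, Fin.snoc_last]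
  have hcc : ∀ j : Fin n, cW j.castSucc = rr (1 + a j.castSucc * (-v)) := fun j => by
    rw [hcW, Fin.snoc_castSucc]
  have hW : ∀ j, cW j ^ q = 1 + a j * (-v) := by
    intro j
    refine Fin.lastCases ?_ (fun j => ?_) j
    · rw [hcl, zero_pow hq0, mul_neg, hv]; ring
    · rw [hcc, hrr]
  have hvk : ∀ i, ρ i v ≠ 0 := fun i h => by
    have := congrArg (ρ i) hv
    rw [map_mul, h, mul_zero, map_one] at this
    exact zero_ne_one this
  have hWnz : ∀ i (j : Fin n), ρ i (cW j.castSucc) ≠ 0 := by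
    intro i j h
    have h1 := congrArg (ρ i) (hW j.castSucc)
    rw [map_pow, h, zero_pow hq0] at h1
    have h2 : 1 + a j.castSucc * (-v) = (a (Fin.last n) - a j.castSucc) * v := by
      rw [sub_mul, hv]; ring
    rw [h2, map_mul, map_sub] at h1
    have h3 := mul_ne_zero (sub_ne_zero.2 (fun h4 : ρ i (a (Fin.last n)) = ρ i (a j.castSucc) =>
      absurd (hinj i h4) (Fin.castSucc_lt_last j).ne')) (hvk i)
    exact h3 h1.symm
  -- the points
  have hpt : ∀ i, ∃ (x : R) (y : Fin n → R), (∀ j, y j ^ q = 1 + a j.castSucc * x) ∧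
      ∀ l, ρ l x = (if l = i then x0 l else ρ l (-v)) ∧
      ∀ j, ρ l (y j) = (if l = i then y0 l j.castSucc else ρ l (cW j.castSucc)) := by
    intro i
    refine hA (fun j => a j.castSucc)
      (fun l j j' h => Fin.castSucc_injective n (hinj l h)) (fun l j => hnz l j.castSucc)
      (fun l => if l = i then x0 l else ρ l (-v))
      (fun l j => if l = i then y0 l j.castSucc else ρ l (cW j.castSucc)) ?_ ?_
    · intro l j
      by_cases hl : l = i
      · simp only [if_pos hl]
        exact h0 l j.castSucc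
      · simp only [if_neg hl]
        have := congrArg (ρ l) (hW j.castSucc)
        rw [map_pow, map_add, map_one, map_mul] at this
        exact this
    · intro l j
      by_cases hl : l = i
      · simp only [if_pos hl]
        exact hy0 l j.castSucc
      · simp only [if_neg hl]
        exact hWnz l j
  choose xR y' hy' hres using hpt
  have hlast : ∀ i, ∃ w : R, w ^ q = 1 + a (Fin.last n) * xR i ∧ ρ i w = y0 i (Fin.last n) ∧
      ∀ l, l ≠ i → ρ l w = 0 := by
    intro i
    obtain ⟨w, hw⟩ := rootR hB (1 + a (Fin.last n) * xR i)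
    have h1 : ρ i w ^ q = y0 i (Fin.last n) ^ q := by
      rw [← map_pow, hw, h0 i (Fin.last n), map_add, map_one, map_mul, (hres i i).1, if_pos rfl]
    obtain ⟨k, hk⟩ := signs hB.qp (zk hB hz i) _ _ h1 (hy0 i _)
    refine ⟨z ^ (q - (k : ℕ)) * w, ?_, ?_, ?_⟩
    · rw [mul_pow, ← pow_mul, mul_comm (q - (k : ℕ)) q, pow_mul, hz.pow_eq_one, one_pow, one_mul, hw]
    · rw [map_mul, hk, map_pow, ← mul_assoc, ← pow_add, Nat.sub_add_cancel k.2.le,
        (zk hB hz i).pow_eq_one, one_mul]
    · intro l hl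
      have h2 : ρ l w ^ q = 0 := by
        rw [← map_pow, hw, map_add, map_one, map_mul, (hres i l).1, if_neg hl, ← map_mul,
          mul_neg, hv, map_neg, map_one]
        ring
      rw [map_mul, pow_eq_zero_iff hq0 |>.1 h2, mul_zero]
  choose w hw1 hw2 hw3 using hlast
  refine ⟨-v, cW, xR, fun i => Fin.snoc (α := fun _ => R) (y' i) (w i), ⟨hz, hinj, hnz, h0, hy0,
    hW, hcl, hWnz, ?_, ?_, ?_, ?_, ?_⟩⟩
  · intro i j
    refine Fin.lastCases ?_ (fun j => ?_) j
    · simp only [Fin.snoc_last]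
      exact hw1 i
    · simp only [Fin.snoc_castSucc]
      exact hy' i j
  · intro i
    rw [(hres i i).1, if_pos rfl]
  · intro i j
    refine Fin.lastCases ?_ (fun j => ?_) j
    · simp only [Fin.snoc_last]
      exact hw2 i
    · simp only [Fin.snoc_castSucc]
      rw [(hres i i).2 j, if_pos rfl]
  · intro i l hl
    rw [(hres i l).1, if_neg hl]
  · intro i l hl j
    refine Fin.lastCases ?_ (fun j => ?_) j
    · simp only [Fin.snoc_last]
      rw [hw3 i l hl, hcl, map_zero]
    · simp only [Fin.snoc_castSucc]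
      rw [(hres i l).2 j, if_neg hl]

/-- arcs over L exist -/
theorem step_arcs {p q : ℕ} {L : Type u} [Field L] {R : Subring L} {ι : Type} [Fintype ι]
    {κ : ι → Type u} [∀ i, Field (κ i)] {ρ : ∀ i, R →+* κ i} (hB : Bs p q R κ ρ) {n : ℕ} {z : R}
    {a : Fin (n + 1) → R} {x0 : ∀ i, κ i} {y0 : ∀ i, Fin (n + 1) → κ i} {xW : R}
    {cW : Fin (n + 1) → R} {xR : ι → R} {yR : ι → Fin (n + 1) → R}
    (hS : Sd q R κ ρ n z a x0 y0 xW cW xR yR) :
    ∃ (YQ : ι → Fin (n + 1) → PowerSeries L) (YW : Fin (n + 1) → PowerSeries L),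
      Ar q R n a xW cW xR yR YQ YW := by
  have hq0 : q ≠ 0 := hB.qp.ne_zero
  obtain ⟨i0, -, -⟩ := hB.two
  have hanz : ∀ j, (a j : L) ≠ 0 := fun j h => by
    have h1 : a j = 0 := Subtype.ext h
    apply hS.nz i0 j
    rw [h1, map_zero]
  have hQ : ∀ l, ∃ Y : Fin (n + 1) → PowerSeries L,
      OnX q (PowerSeries.C (R := L)) (fun j => (a j : L)) (un (xR l : L)) Y ∧
      (∀ j, PowerSeries.constantCoeff (Y j) = (yR l j : L)) ∧
      ∀ j, (a j : L) ≠ 0 → PowerSeries.coeff 1 (Y j) ≠ 0 := by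
    intro l
    refine arc_un (qL hB) (fun j => (a j : L)) (xR l : L) (fun j => (yR l j : L)) ?_ ?_
    · intro j
      have := congrArg (fun t : R => (t : L)) (hS.Q l j)
      simpa using this
    · intro j h
      have h1 : yR l j = 0 := Subtype.ext h
      apply hS.tnz l j
      rw [← hS.Qy l j, h1, map_zero]
  choose YQ hQ1 hQ2 hQ3 using hQ
  obtain ⟨YW, hW1, hW2, hW3, hW4⟩ := arc_ra hq0 (qL hB) (fun j => (a j : L)) (hanz _) (xW : L)
    (fun j => (cW j : L)) (by
      intro j
      have := congrArg (fun t : R => (t : L)) (hS.W j)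
      simpa using this) (by
      show ((cW (Fin.last n) : R) : L) = 0
      rw [hS.W0]; rfl) (by
      intro j h
      have h1 : cW j.castSucc = 0 := Subtype.ext h
      apply hS.Wnz i0 j
      rw [h1, map_zero])
  exact ⟨YQ, YW, ⟨hQ1, hQ2, fun l j => hQ3 l j (hanz j), hW1, hW2, hW3, hW4⟩⟩

end Pool.LibNP88
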