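import Pool.Agent.LibNP88.C1
import Pool.Agent.LibNP88.NF

/-
PLAN (T2, MEDIUM). S := ⨅ of kernels: the coordinates c v with not (q v.2 + wt v.1 <= q M) are zero; for k in τ and l < μ k the coefficient l of fe C (ξ k) (Y k) (fam M c) is zero (linear in c: fe_add, fe_smul, fam additive).
X^μ | f iff the coefficients below μ vanish (PowerSeries.X_pow_dvd_iff). finrank of the space of c supported on the good indices = number of good indices (count); SUM μ further linear conditions (rank-nullity: the map S0 -> ∏_k (Fin (μ k) → L) has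
kernel of dimension >= finrank S0 - SUM μ). InL: (fam M c eps).coeff l = c (eps, l) for l <= M, 0 otherwise.
-/

set_option autoImplicit false

noncomputable section

open Polynomial

namespace Pool.LibNP88

universe u

private theorem T2_coeff {L : Type u} [Field L] {n q M : ℕ}
    (c : (Fin n → Fin q) × Fin (M + 1) → L) (ε : Fin n → Fin q) (k : Fin (M + 1)) :
    (fam M c ε).coeff (k : ℕ) = c (ε, k) := by
  unfold fam
  rw [finsetSum_coeff, Finset.sum_eq_single k]
  · rw [coeff_monomial, if_pos rfl]
  · intro b _ hb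
    rw [coeff_monomial, if_neg]
    intro h
    exact hb (Fin.ext h)
  · intro h
    exact absurd (Finset.mem_univ _) h

private theorem T2_coeff' {L : Type u} [Field L] {n q M : ℕ}
    (c : (Fin n → Fin q) × Fin (M + 1) → L) (ε : Fin n → Fin q) (k : ℕ) (hk : M < k) :
    (fam M c ε).coeff k = 0 := by
  unfold fam
  rw [finsetSum_coeff]
  refine Finset.sum_eq_zero fun b _ => ?_
  rw [coeff_monomial, if_neg]
  intro h
  have := b.2
  omega

private theorem T2_InL {L : Type u} [Field L] {n q M : ℕ}
    (c : (Fin n → Fin q) × Fin (M + 1) → L) :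
    InL M (fam M c) ↔ ∀ v : {v : (Fin n → Fin q) × Fin (M + 1) //
      ¬ (q * (v.2 : ℕ) + wt v.1 ≤ q * M)}, c v = 0 := by
  constructor
  · rintro h ⟨⟨ε, k⟩, hv⟩
    by_contra hc
    refine hv (h ε k ?_)
    rw [T2_coeff]
    exact hc
  · intro h ε k hk
    by_contra hv
    rcases Nat.lt_or_ge M k with h1 | h1
    · exact hk (T2_coeff' c ε k h1)
    · have h2 := h ⟨(ε, ⟨k, Nat.lt_succ_of_le h1⟩), hv⟩
      have h3 := T2_coeff c ε ⟨k, Nat.lt_succ_of_le h1⟩
      exact hk (h3.trans h2)

private theorem T2_fam_add {L : Type u} [Field L] {n q : ℕ} (M : ℕ)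
    (c c' : (Fin n → Fin q) × Fin (M + 1) → L) : fam M (c + c') = fam M c + fam M c' := by
  funext ε
  unfold fam
  simp only [Pi.add_apply, map_add, Finset.sum_add_distrib]

private theorem T2_fam_smul {L : Type u} [Field L] {n q : ℕ} (M : ℕ) (a : L)
    (c : (Fin n → Fin q) × Fin (M + 1) → L) : fam M (a • c) = a • fam M c := by
  funext ε
  unfold fam
  simp only [Pi.smul_apply, Finset.smul_sum, smul_monomial]

/-- the values of the families as a linear map -/
private def T2_lin {L : Type u} [Field L] {n q : ℕ} (M : ℕ) (ξ : PowerSeries L)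
    (Y : Fin n → PowerSeries L) : ((Fin n → Fin q) × Fin (M + 1) → L) →ₗ[L] PowerSeries L where
  toFun c := fe (PowerSeries.C (R := L)) ξ Y (fam M c)
  map_add' c c' := by rw [T2_fam_add, fe_add]
  map_smul' a c := by
    rw [T2_fam_smul, fe_smul, RingHom.id_apply, PowerSeries.smul_eq_C_mul]

/-- dimension of the space of families with prescribed orders -/
theorem space {L : Type u} [Field L] {n q M : ℕ} (hq : 2 ≤ q) (hM : n ≤ M) {τ : Type} [Fintype τ]
    (ξ : τ → PowerSeries L) (Y : τ → Fin n → PowerSeries L) (μ : τ → ℕ) :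
    ∃ S : Submodule L ((Fin n → Fin q) × Fin (M + 1) → L),
      (∀ c, c ∈ S ↔ (InL M (fam M c) ∧ ∀ k, PowerSeries.X ^ μ k ∣
        fe (PowerSeries.C (R := L)) (ξ k) (Y k) (fam M c))) ∧
      q ^ n * (M + 1) ≤ Module.finrank L S + G0 n q + ∑ k, μ k := by
  classical
  set B := {v : (Fin n → Fin q) × Fin (M + 1) // ¬ (q * (v.2 : ℕ) + wt v.1 ≤ q * M)} with hB
  set T1 : ((Fin n → Fin q) × Fin (M + 1) → L) →ₗ[L] (B → L) :=
    LinearMap.pi fun v : B => LinearMap.proj (v : (Fin n → Fin q) × Fin (M + 1)) with hT1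
  set T2 : ((Fin n → Fin q) × Fin (M + 1) → L) →ₗ[L] (∀ k : τ, Fin (μ k) → L) :=
    LinearMap.pi fun k => LinearMap.pi fun l : Fin (μ k) =>
      (PowerSeries.coeff (R := L) (l : ℕ)) ∘ₗ T2_lin M (ξ k) (Y k) with hT2
  refine ⟨LinearMap.ker (T1.prod T2), ?_, ?_⟩
  · intro c
    have h0 : c ∈ LinearMap.ker (T1.prod T2) ↔ T1 c = 0 ∧ T2 c = 0 := by
      rw [LinearMap.mem_ker]
      exact Prod.mk_eq_zero
    rw [h0, T2_InL]
    refine and_congr ?_ ?_
    · rw [funext_iff]
      exact Iff.rfl
    · rw [funext_iff]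
      refine forall_congr' fun k => ?_
      rw [PowerSeries.X_pow_dvd_iff, funext_iff]
      constructor
      · intro h m hm
        exact h ⟨m, hm⟩
      · intro h l
        exact h l l.2
  · have h1 := LinearMap.finrank_range_add_finrank_ker (T1.prod T2)
    have h2 : Module.finrank L (LinearMap.range (T1.prod T2)) ≤
        Module.finrank L ((B → L) × (∀ k : τ, Fin (μ k) → L)) := Submodule.finrank_le _
    have h3 : Module.finrank L ((B → L) × (∀ k : τ, Fin (μ k) → L)) =
        Fintype.card B + ∑ k, μ k := by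
      rw [Module.finrank_prod, Module.finrank_pi, Module.finrank_pi_fintype]
      congr 1
      refine Finset.sum_congr rfl fun k _ => ?_
      rw [Module.finrank_pi, Fintype.card_fin]
    have h4 : Module.finrank L ((Fin n → Fin q) × Fin (M + 1) → L) = q ^ n * (M + 1) := by
      rw [Module.finrank_pi, Fintype.card_prod, Fintype.card_pi]
      simp
    have h5 : Fintype.card B = G0 n q := by
      have h6 := count (n := n) (q := q) (M := M) hq hM
      have h7 : Fintype.card B = (Finset.univ.filter (fun v : (Fin n → Fin q) × Fin (M + 1) =>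
          ¬ (q * (v.2 : ℕ) + wt v.1 ≤ q * M))).card := Fintype.card_subtype _
      have h8 := Finset.card_filter_add_card_filter_not
        (s := (Finset.univ : Finset ((Fin n → Fin q) × Fin (M + 1))))
        (fun v => q * (v.2 : ℕ) + wt v.1 ≤ q * M)
      have h9 : (Finset.univ : Finset ((Fin n → Fin q) × Fin (M + 1))).card = q ^ n * (M + 1) := by
        rw [Finset.card_univ, Fintype.card_prod, Fintype.card_pi]
        simp
      omega
    omega

end Pool.LibNP88
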