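import Pool.Agent.LibNP88.B1
import Pool.Agent.LibNP88.Defs2
import Pool.Agent.LibNP88.F4
import Pool.Agent.LibNP88.F5
import Pool.Agent.LibNP88.F6
import Pool.Agent.LibNP88.P2

/-
PLAN (T3a, MEDIUM/STRONG). Let φi := fun eps => (φ eps).map (ρ i); fe_map: fe (C.comp (ρ i)) .. φ = fe C .. φi. (1) for g != 0 mult_un with τ = Unit and the point g Q_i = (xR i; rt z g (yR i)), μ = r, residue point (x0 i; rt (ρ i z) g (y0 i)), residue arc
rt (C (ρ i z)) g Y1: X^r divides fe C (un (x0 i)) (rt ..) φi. (2) for g with g last = 0: mult_w at the residue point (ρ i xW; rt (ρ i z) g (ρ i ∘ cW)), residue arc rt (C (ρ i z)) g YK where YK is the arc of arc_ra over κ i at (ρ i xW; ρ i ∘ cW) (YK last = X);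
τ := Option ({l // l != i} × Fin q), none ↦ g W over L (ξ = ra q xW (a last), Y = rt (C z) g YW, μ = (s-1) r if g = 0, else 0), (l, b) ↦ (g with last coordinate b) Q_l (ξ = un (xR l), Y = rt (C z) g' (YQ l), μ = 0 if g' = 0, else r). Last coordinates are distinct: 0 for none; z^b yR l last
is nonzero at the place l (= y0 l last), while yR l' last is 0 at the place l for l' != l; z^b distinct for distinct b (zL). SUM μ = q (s-1) r in both cases (g = 0: (s-1)(q-1) r + (s-1) r). (3) div_w with N = (s-1) r, M = r (s r = r + (s-1) r, s >= 1; InL of the map from hO.M):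
φi eps = (X - C xW)^N ψ eps, InL r ψ. (4) fe C (un x0) .. φi = (un x0 - C xW)^N * fe .. ψ (fe_mul) and un x0 - C xW has constant coefficient x0 i - ρ i xW != 0 (1 + a_last x0 = y0 last^q != 0 = 1 + a_last xW): a unit. So X^r | fe .. ψ for g != 0.
Existence of q-th root etc.: B1 (zk, zL, qL); hB.qne i.
-/

set_option autoImplicit false

noncomputable section

open Polynomial

namespace Pool.LibNP88

universe u

private theorem t3a_onx {n q : ℕ} {S B : Type u} [CommRing S] [CommRing B] (f : S →+* B)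
    (a : Fin n → S) (ξ : B) (η : Fin n → B) (z : B) (hz : z ^ q = 1) (g : Fin n → Fin q)
    (h : OnX q f a ξ η) : OnX q f a ξ (rt z g η) := by
  intro j
  unfold rt
  rw [mul_pow, ← pow_mul, mul_comm (g j : ℕ) q, pow_mul, hz, one_pow, one_mul]
  exact h j

private theorem t3a_cc {n q : ℕ} {F : Type u} [Field F] (z : F) (g : Fin n → Fin q)
    (Y : Fin n → PowerSeries F) (j : Fin n) : PowerSeries.constantCoeff (rt (PowerSeries.C z) g Y j) =
      z ^ (g j : ℕ) * PowerSeries.constantCoeff (Y j) := by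
  unfold rt
  rw [map_mul, map_pow, PowerSeries.constantCoeff_C]

private theorem t3a_c1 {n q : ℕ} {F : Type u} [Field F] (z : F) (g : Fin n → Fin q)
    (Y : Fin n → PowerSeries F) (j : Fin n) : PowerSeries.coeff 1 (rt (PowerSeries.C z) g Y j) =
      z ^ (g j : ℕ) * PowerSeries.coeff 1 (Y j) := by
  unfold rt
  rw [← map_pow, PowerSeries.coeff_C_mul]

private theorem t3a_rt0 {n q : ℕ} {B : Type u} [CommRing B] (z : B) (g : Fin n → Fin q)
    (η : Fin n → B) (hg : ¬ ∃ j, (g j : ℕ) ≠ 0) : rt z g η = η := by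
  push Not at hg
  funext j
  unfold rt
  rw [hg j, pow_zero, one_mul]

private theorem t3a_un {F : Type u} [Field F] (x : F) : PowerSeries.constantCoeff (un x) = x := by
  unfold un
  simp

private theorem t3a_ra {q : ℕ} (hq : q ≠ 0) {F : Type u} [Field F] (x b : F) :
    PowerSeries.constantCoeff (ra q x b) = x := by
  unfold ra
  simp [hq]

variable {p q : ℕ} {L : Type u} [Field L] {R : Subring L} {ι : Type} [Fintype ι]
    {κ : ι → Type u} [∀ i, Field (κ i)] {ρ : ∀ i, R →+* κ i}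

/-- step 1 -/
private theorem t3a_one (hB : Bs p q R κ ρ) {n : ℕ} {z : R}
    {a : Fin (n + 1) → R} {x0 : ∀ i, κ i} {y0 : ∀ i, Fin (n + 1) → κ i} {xW : R}
    {cW : Fin (n + 1) → R} {xR : ι → R} {yR : ι → Fin (n + 1) → R}
    (hS : Sd q R κ ρ n z a x0 y0 xW cW xR yR) {YQ : ι → Fin (n + 1) → PowerSeries L}
    {YW : Fin (n + 1) → PowerSeries L} (hA : Ar q R n a xW cW xR yR YQ YW)
    (r : ℕ) (φ : Fam (n + 1) q R) (hO : Od q R n z a xW xR YQ YW r φ) (i : ι)
    (Y1 : Fin (n + 1) → PowerSeries (κ i))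
    (hY1 : OnX q (PowerSeries.C (R := κ i)) (fun j => ρ i (a j)) (un (x0 i)) Y1)
    (hY10 : ∀ j, PowerSeries.constantCoeff (Y1 j) = y0 i j)
    (g : Fin (n + 1) → Fin q) (hg : ∃ j, (g j : ℕ) ≠ 0) : PowerSeries.X ^ r ∣
        fe ((PowerSeries.C (R := κ i)).comp (ρ i)) (un (x0 i))
          (rt (PowerSeries.C (ρ i z)) g Y1) φ := by
  have hz1 : z ^ q = 1 := hS.zeta.pow_eq_one
  have hzk : (ρ i z) ^ q = 1 := (zk hB hS.zeta i).pow_eq_one
  have hzk0 : ρ i z ≠ 0 := (zk hB hS.zeta i).ne_zero hB.qp.ne_zero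
  have hzL : (z : L) ^ q = 1 := (zL hB hS.zeta).pow_eq_one
  have h := mult_un R (ρ i) (hB.qne i) a (x0 i) (rt (ρ i z) g (y0 i))
    (fun j => mul_ne_zero (pow_ne_zero _ hzk0) (hS.tnz i j))
    (rt (PowerSeries.C (ρ i z)) g Y1)
    (t3a_onx _ _ _ _ _ (by rw [← map_pow, hzk, map_one]) g hY1)
    (fun j => by rw [t3a_cc, hY10]; rfl) (τ := Unit) (fun _ => xR i)
    (fun _ => rt z g (yR i))
    (fun _ j => by
      have h2 := t3a_onx (RingHom.id R) a (xR i) (yR i) z hz1 g (fun j => hS.Q i j) j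
      exact h2)
    (fun _ _ _ => rfl) (fun _ => hS.Qx i)
    (fun _ j => by
      unfold rt
      rw [map_mul, map_pow, hS.Qy])
    (fun _ => rt (PowerSeries.C (z : L)) g (YQ i))
    (fun _ => t3a_onx _ _ _ _ _ (by rw [← map_pow, hzL, map_one]) g (hA.Q i))
    (fun _ j => by
      rw [t3a_cc, hA.Q0]
      unfold rt
      push_cast
      rfl)
    (fun _ => r) φ (fun _ => hO.Q i g hg)
  rw [Finset.sum_const, Finset.card_univ, Fintype.card_unit, one_smul] at h
  exact h

private def t3a_xp (q : ℕ) (i : ι) (xW : R) (xR : ι → R) :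
    Option ({l : ι // l ≠ i} × Fin q) → R
  | none => xW
  | some (l, _) => xR l.1

private def t3a_yp {n : ℕ} (i : ι) (z : R) (g : Fin (n + 1) → Fin q) (cW : Fin (n + 1) → R)
    (yR : ι → Fin (n + 1) → R) : Option ({l : ι // l ≠ i} × Fin q) → Fin (n + 1) → R
  | none => rt z g cW
  | some (l, b) => rt z (Function.update g (Fin.last n) b) (yR l.1)

private def t3a_ξ {n : ℕ} (i : ι) (a : Fin (n + 1) → R) (xW : R) (xR : ι → R) :
    Option ({l : ι // l ≠ i} × Fin q) → PowerSeries L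
  | none => ra q (xW : L) (a (Fin.last n) : L)
  | some (l, _) => un (xR l.1 : L)

private def t3a_Y {n : ℕ} (i : ι) (z : R) (g : Fin (n + 1) → Fin q)
    (YQ : ι → Fin (n + 1) → PowerSeries L) (YW : Fin (n + 1) → PowerSeries L) :
    Option ({l : ι // l ≠ i} × Fin q) → Fin (n + 1) → PowerSeries L
  | none => rt (PowerSeries.C (z : L)) g YW
  | some (l, b) => rt (PowerSeries.C (z : L)) (Function.update g (Fin.last n) b) (YQ l.1)


private theorem t3a_sum (q : ℕ) (hq : 0 < q) (r : ℕ) :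
    ∑ b : Fin q, (if (b : ℕ) ≠ 0 then r else 0) = (q - 1) * r := by
  obtain ⟨m, rfl⟩ : ∃ m, q = m + 1 := ⟨q - 1, by omega⟩
  rw [Fin.sum_univ_succ]
  simp

/-- step 2 -/
private theorem t3a_two (hB : Bs p q R κ ρ) {n : ℕ} {z : R}
    {a : Fin (n + 1) → R} {x0 : ∀ i, κ i} {y0 : ∀ i, Fin (n + 1) → κ i} {xW : R}
    {cW : Fin (n + 1) → R} {xR : ι → R} {yR : ι → Fin (n + 1) → R}
    (hS : Sd q R κ ρ n z a x0 y0 xW cW xR yR) {YQ : ι → Fin (n + 1) → PowerSeries L}
    {YW : Fin (n + 1) → PowerSeries L} (hA : Ar q R n a xW cW xR yR YQ YW)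
    (r : ℕ) (φ : Fam (n + 1) q R) (hO : Od q R n z a xW xR YQ YW r φ) (i : ι)
    (YK : Fin (n + 1) → PowerSeries (κ i))
    (hYK : OnX q (PowerSeries.C (R := κ i)) (fun j => ρ i (a j))
      (ra q (ρ i xW) (ρ i (a (Fin.last n)))) YK)
    (hYK0 : ∀ j, PowerSeries.constantCoeff (YK j) = ρ i (cW j))
    (hYKl : YK (Fin.last n) = PowerSeries.X)
    (g : Fin (n + 1) → Fin q) (hg : (g (Fin.last n) : ℕ) = 0) :
    PowerSeries.X ^ (q * ((Fintype.card ι - 1) * r)) ∣
        fe ((PowerSeries.C (R := κ i)).comp (ρ i)) (ra q (ρ i xW) (ρ i (a (Fin.last n))))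
          (rt (PowerSeries.C (ρ i z)) g YK) φ := by
  classical
  have hz1 : z ^ q = 1 := hS.zeta.pow_eq_one
  have hzk : (ρ i z) ^ q = 1 := (zk hB hS.zeta i).pow_eq_one
  have hzk0 : ∀ l, ρ l z ≠ 0 := fun l => (zk hB hS.zeta l).ne_zero hB.qp.ne_zero
  have hzL : (z : L) ^ q = 1 := (zL hB hS.zeta).pow_eq_one
  have hzL0 : (z : L) ≠ 0 := (zL hB hS.zeta).ne_zero hB.qp.ne_zero
  obtain ⟨v, hv⟩ := hB.unit (a (Fin.last n)) (fun i => hS.nz i _)
  have hlast : ∀ l (b : Fin q), ρ l (z ^ (b : ℕ) * yR l (Fin.last n)) ≠ 0 := by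
    intro l b
    rw [map_mul, map_pow, hS.Qy]
    exact mul_ne_zero (pow_ne_zero _ (hzk0 l)) (hS.tnz l _)
  have hlast0 : ∀ l l' (b : Fin q), l ≠ l' → ρ l (z ^ (b : ℕ) * yR l' (Fin.last n)) = 0 := by
    intro l l' b hne
    rw [map_mul, hS.Qyo l' l hne, hS.W0, map_zero, mul_zero]
  have hup : ∀ (b : Fin q), Function.update g (Fin.last n) b (Fin.last n) = b := fun b =>
    Function.update_self _ _ _
  have hups : ∀ (b : Fin q) (j : Fin (n + 1)), j ≠ Fin.last n →
      Function.update g (Fin.last n) b j = g j := fun b j hj => Function.update_of_ne hj _ _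
  have h := mult_w R (ρ i) (hB.qne i) a v hv (ρ i xW) (rt (ρ i z) g (fun j => ρ i (cW j)))
    (fun j => mul_ne_zero (pow_ne_zero _ (hzk0 i)) (hS.Wnz i j))
    (by
      show ρ i z ^ (g (Fin.last n) : ℕ) * ρ i (cW (Fin.last n)) = 0
      rw [hS.W0, map_zero, mul_zero])
    (rt (PowerSeries.C (ρ i z)) g YK)
    (t3a_onx _ _ _ _ _ (by rw [← map_pow, hzk, map_one]) g hYK)
    (fun j => by rw [t3a_cc, hYK0]; rfl)
    (by
      unfold rt
      rw [hYKl]
      exact Dvd.intro_left _ rfl)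
    (τ := Option ({l : ι // l ≠ i} × Fin q)) (t3a_xp q i xW xR) (t3a_yp i z g cW yR)
    (by
      rintro (_ | ⟨l, b⟩) j
      · exact t3a_onx (RingHom.id R) a xW cW z hz1 g (fun j => hS.W j) j
      · exact t3a_onx (RingHom.id R) a (xR l.1) (yR l.1) z hz1 _ (fun j => hS.Q l.1 j) j)
    (by
      rintro (_ | ⟨l, b⟩) (_ | ⟨l', b'⟩) he
      · rfl
      · exfalso
        simp only [t3a_yp, rt, hup, hS.W0, mul_zero] at he
        exact hlast l'.1 b' (by rw [← he, map_zero])
      · exfalso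
        simp only [t3a_yp, rt, hup, hS.W0, mul_zero] at he
        exact hlast l.1 b (by rw [he, map_zero])
      · simp only [t3a_yp, rt, hup] at he
        have hll : l.1 = l'.1 := by
          by_contra hne
          have h1 := hlast l.1 b
          rw [he, hlast0 _ _ _ hne] at h1
          exact h1 rfl
        have hll' : l = l' := Subtype.ext hll
        subst hll'
        have h0 : yR l.1 (Fin.last n) ≠ 0 := by
          intro h0
          have h1 := hlast l.1 b
          rw [h0, mul_zero, map_zero] at h1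
          exact h1 rfl
        have h2 := mul_right_cancel₀ h0 he
        have h3 := hS.zeta.pow_inj b.2 b'.2 h2
        rw [Fin.ext h3])
    (by
      rintro (_ | ⟨l, b⟩)
      · rfl
      · exact hS.Qxo l.1 i (Ne.symm l.2))
    (by
      rintro (_ | ⟨l, b⟩) j
      · simp only [t3a_yp, rt, map_mul, map_pow]
      · simp only [t3a_yp, rt, map_mul, map_pow, hS.Qyo l.1 i (Ne.symm l.2)]
        rcases eq_or_ne j (Fin.last n) with rfl | hj
        · rw [hS.W0, map_zero, mul_zero, mul_zero]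
        · rw [hups b j hj])
    (t3a_ξ i a xW xR) (t3a_Y i z g YQ YW)
    (by
      rintro (_ | ⟨l, b⟩)
      · exact t3a_onx _ _ _ _ _ (by rw [← map_pow, hzL, map_one]) g hA.W
      · exact t3a_onx _ _ _ _ _ (by rw [← map_pow, hzL, map_one]) _ (hA.Q l.1))
    (by
      rintro (_ | ⟨l, b⟩)
      · exact t3a_ra hB.qp.ne_zero _ _
      · exact t3a_un _)
    (by
      rintro (_ | ⟨l, b⟩) j
      · simp only [t3a_Y, t3a_yp]
        rw [t3a_cc, hA.W0]
        unfold rt
        push_cast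
        rfl
      · simp only [t3a_Y, t3a_yp]
        rw [t3a_cc, hA.Q0]
        unfold rt
        push_cast
        rfl)
    (by
      rintro (_ | ⟨l, b⟩)
      · simp only [t3a_Y]
        rw [t3a_c1, hA.W1, PowerSeries.coeff_one_X, mul_one]
        exact pow_ne_zero _ hzL0
      · simp only [t3a_Y]
        rw [t3a_c1]
        exact mul_ne_zero (pow_ne_zero _ hzL0) (hA.Q1 _ _))
    (fun k => match k with
      | none => if (∃ j, (g j : ℕ) ≠ 0) then 0 else (Fintype.card ι - 1) * r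
      | some (l, b) => if (∃ j, ((Function.update g (Fin.last n) b) j : ℕ) ≠ 0) then r else 0)
    φ
    (by
      rintro (_ | ⟨l, b⟩)
      · show _ ^ (if (∃ j, (g j : ℕ) ≠ 0) then 0 else (Fintype.card ι - 1) * r) ∣ _
        split_ifs with hgn
        · rw [pow_zero]; exact one_dvd _
        · have h2 := hO.W
          simp only [t3a_ξ, t3a_Y]
          rw [t3a_rt0 _ _ _ hgn]
          exact h2
      · show _ ^ (if (∃ j, ((Function.update g (Fin.last n) b) j : ℕ) ≠ 0) then r else 0) ∣ _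
        split_ifs with hgn
        · exact hO.Q l.1 _ hgn
        · rw [pow_zero]; exact one_dvd _)
  refine (pow_dvd_pow _ (le_of_eq ?_)).trans h
  rw [Fintype.sum_option, Fintype.sum_prod_type]
  have hcard : Fintype.card {l : ι // l ≠ i} = Fintype.card ι - 1 := by
    rw [Fintype.card_subtype_compl, Fintype.card_subtype_eq]
  by_cases hgn : ∃ j, (g j : ℕ) ≠ 0
  · have h1 : ∀ b : Fin q, ∃ j, ((Function.update g (Fin.last n) b) j : ℕ) ≠ 0 := by
      intro b
      obtain ⟨j, hj⟩ := hgn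
      refine ⟨j, ?_⟩
      rw [hups b j (fun h => hj (by rw [h]; exact hg))]
      exact hj
    simp only [if_pos hgn, if_pos (h1 _), Finset.sum_const, Finset.card_univ, hcard,
      Fintype.card_fin, smul_eq_mul]
    ring
  · have hgn' := hgn
    push Not at hgn'
    have h1 : ∀ b : Fin q, (∃ j, ((Function.update g (Fin.last n) b) j : ℕ) ≠ 0) ↔
        (b : ℕ) ≠ 0 := by
      intro b
      constructor
      · rintro ⟨j, hj⟩
        rcases eq_or_ne j (Fin.last n) with rfl | hj'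
        · rwa [hup] at hj
        · rw [hups b j hj'] at hj
          exact absurd (hgn' j) hj
      · intro hb
        exact ⟨Fin.last n, by rw [hup]; exact hb⟩
    simp only [if_neg hgn, h1, t3a_sum q hB.qp.pos r, Finset.sum_const, Finset.card_univ, hcard,
      smul_eq_mul]
    obtain ⟨m, hm⟩ : ∃ m, q = m + 1 := ⟨q - 1, by have := hB.qp.pos; omega⟩
    rw [hm]
    simp only [Nat.add_sub_cancel]
    ring

/-- the reduction at the place i of a family satisfying the conditions -/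
theorem red_one {p q : ℕ} {L : Type u} [Field L] {R : Subring L} {ι : Type} [Fintype ι]
    {κ : ι → Type u} [∀ i, Field (κ i)] {ρ : ∀ i, R →+* κ i} (hB : Bs p q R κ ρ) {n : ℕ} {z : R}
    {a : Fin (n + 1) → R} {x0 : ∀ i, κ i} {y0 : ∀ i, Fin (n + 1) → κ i} {xW : R}
    {cW : Fin (n + 1) → R} {xR : ι → R} {yR : ι → Fin (n + 1) → R}
    (hS : Sd q R κ ρ n z a x0 y0 xW cW xR yR) {YQ : ι → Fin (n + 1) → PowerSeries L}
    {YW : Fin (n + 1) → PowerSeries L} (hA : Ar q R n a xW cW xR yR YQ YW)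
    (r : ℕ) (φ : Fam (n + 1) q R) (hO : Od q R n z a xW xR YQ YW r φ) (i : ι)
    (Y1 : Fin (n + 1) → PowerSeries (κ i))
    (hY1 : OnX q (PowerSeries.C (R := κ i)) (fun j => ρ i (a j)) (un (x0 i)) Y1)
    (hY10 : ∀ j, PowerSeries.constantCoeff (Y1 j) = y0 i j) :
    ∃ ψ : Fam (n + 1) q (κ i),
      (∀ ε, (φ ε).map (ρ i) = (X - C (ρ i xW)) ^ ((Fintype.card ι - 1) * r) * ψ ε) ∧ InL r ψ ∧
      ∀ g : Fin (n + 1) → Fin q, (∃ j, (g j : ℕ) ≠ 0) → PowerSeries.X ^ r ∣
        fe (PowerSeries.C (R := κ i)) (un (x0 i)) (rt (PowerSeries.C (ρ i z)) g Y1) ψ := by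
  classical
  obtain ⟨YK, hYK, hYK0, hYKl, hYKs⟩ := arc_ra hB.qp.ne_zero (hB.qne i) (fun j => ρ i (a j))
    (hS.nz i _) (ρ i xW) (fun j => ρ i (cW j))
    (fun j => by
      show ρ i (cW j) ^ q = 1 + (RingHom.id (κ i)) (ρ i (a j)) * ρ i xW
      rw [RingHom.id_apply, ← map_pow, hS.W, map_add, map_mul, map_one])
    (by rw [hS.W0, map_zero]) (hS.Wnz i)
  have hcard : 1 ≤ Fintype.card ι := Fintype.card_pos_iff.mpr ⟨i⟩
  obtain ⟨ψ, hψ, hM⟩ := div_w hB.qp (hB.qne i) (ρ i z) (zk hB hS.zeta i) (fun j => ρ i (a j))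
    (hS.nz i _) (ρ i xW) YK (fun j => by rw [hYK0]; exact hS.Wnz i j) hYKl hYKs
    ((Fintype.card ι - 1) * r) r (fun ε => (φ ε).map (ρ i))
    (by
      intro ε k hk
      rw [coeff_map] at hk
      have hk0 : (φ ε).coeff k ≠ 0 := by
        intro h0
        rw [h0, map_zero] at hk
        exact hk rfl
      have h1 := hO.M ε k hk0
      have h2 : r + (Fintype.card ι - 1) * r = Fintype.card ι * r := by
        obtain ⟨m, hm⟩ : ∃ m, Fintype.card ι = m + 1 := ⟨Fintype.card ι - 1, by omega⟩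
        rw [hm]
        simp only [Nat.add_sub_cancel]
        ring
      rw [h2]
      exact h1)
    (by
      intro g hg
      rw [fe_map]
      exact t3a_two hB hS hA r φ hO i YK hYK hYK0 hYKl g hg)
  refine ⟨ψ, hψ, hM, ?_⟩
  intro g hg
  have h1 := t3a_one hB hS hA r φ hO i Y1 hY1 hY10 g hg
  rw [← fe_map] at h1
  have h2 : (fun ε => (φ ε).map (ρ i)) =
      fun ε => (X - C (ρ i xW)) ^ ((Fintype.card ι - 1) * r) * ψ ε := funext hψ
  rw [h2, fe_mul] at h1
  have hu : IsUnit (((X - C (ρ i xW)) ^ ((Fintype.card ι - 1) * r)).eval₂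
      (PowerSeries.C (R := κ i)) (un (x0 i))) := by
    rw [eval₂_pow, eval₂_sub, eval₂_X, eval₂_C]
    apply IsUnit.pow
    rw [PowerSeries.isUnit_iff_constantCoeff, map_sub, t3a_un, PowerSeries.constantCoeff_C]
    rw [isUnit_iff_ne_zero, sub_ne_zero]
    intro he
    have h3 := hS.tgt i (Fin.last n)
    rw [he, ← map_one (ρ i), ← map_mul, ← map_add, ← hS.W, hS.W0, zero_pow hB.qp.ne_zero,
      map_zero] at h3
    exact hS.tnz i _ (pow_eq_zero_iff hB.qp.ne_zero |>.mp h3)
  exact (hu.dvd_mul_left).mp h1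

end Pool.LibNP88
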