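import Pool.Agent.LibNP88.T3a
import Pool.Agent.LibNP88.T2
import Pool.Agent.LibNP88.E1
import Pool.Agent.LibNP88.R3

/-
PLAN (T3b, MEDIUM/STRONG). r0 := max of n + 1, G0 (n+1) q and the r0 of dim_bound at every place i (F = κ i, a = ρ i ∘ a, arc Y1 i from arc_un at (x0 i; y0 i); rootk, zk). For r >= r0: M := s r (s = card ι >= 2), space over L with
τ := (ι × {g : Fin (n+1) → Fin q // ∃ j, (g j : ℕ) ≠ 0}) ⊕ Unit, orders r resp. (s-1) r: SUM μ = s (q^(n+1) - 1) r + (s-1) r, so D := r + q^(n+1) - G0 <= finrank S (G0 <= r + q^(n+1)). semi (N := the index type) gives f_k : index → R, k < D, in S, with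
independent reductions. φ_k := fam M (f_k) over R: it satisfies Od (the conditions over L for the image fam M (f_k : L) = map; fe_map; InL by injectivity of R -> L). red_one: (φ_k).map (ρ i) = (X - C xW)^N ψ_k. The ψ_k (k < D) are independent over κ i (fam M is injective and
linear, so is multiplication by (X - C xW)^N). T := cst ((X - C (x0 i))^r) is in InL r and has order exactly r at un (x0 i) along every arc. If ψ_1..ψ_D, T were independent, dim_bound would give D + 1 + G0 <= r + q^(n+1): contradiction. So T = SUM_k c_k^i ψ_k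
(linearIndependent_fin_cons / snoc). hB.crt: λ_k in R with ρ i λ_k = c_k^i for all i. φ := SUM_k λ_k • φ_k: Od is stable under linear combinations (fe_add, fe_smul), and the reduction at i is (X - C xW)^N T.
-/

set_option autoImplicit false

noncomputable section

open Polynomial

namespace Pool.LibNP88

universe u

private theorem T3b_map_fam {n q M : ℕ} {L : Type u} [Field L] {S' : Type u} [CommRing S']
    {R : Subring L} (s : R →+* S') (c : (Fin n → Fin q) × Fin (M + 1) → R) (ε : Fin n → Fin q) :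
    ((fam M c : Fam n q R) ε).map s = (fam M (fun v => s (c v)) : Fam n q S') ε := by
  unfold fam
  rw [Polynomial.map_sum]
  refine Finset.sum_congr rfl fun k _ => ?_
  rw [Polynomial.map_monomial]

private theorem T3b_coeff_fam {n q M : ℕ} {S : Type u} [CommRing S]
    (c : (Fin n → Fin q) × Fin (M + 1) → S) (ε : Fin n → Fin q) (k : Fin (M + 1)) :
    ((fam M c : Fam n q S) ε).coeff k = c (ε, k) := by
  unfold fam
  rw [Polynomial.finset_sum_coeff, Finset.sum_eq_single k]
  · rw [Polynomial.coeff_monomial, if_pos rfl]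
  · intro b _ hb
    rw [Polynomial.coeff_monomial, if_neg]
    intro h
    exact hb (Fin.ext h)
  · intro h
    exact absurd (Finset.mem_univ k) h

private theorem T3b_card {n q : ℕ} (hq : 0 < q) :
    Fintype.card {g : Fin n → Fin q // ∃ j, (g j : ℕ) ≠ 0} + 1 = q ^ n := by
  classical
  have h1 : Fintype.card {g : Fin n → Fin q // ¬ ∃ j, (g j : ℕ) ≠ 0} = 1 := by
    rw [Fintype.card_eq_one_iff]
    refine ⟨⟨fun _ => ⟨0, hq⟩, ?_⟩, ?_⟩
    · rintro ⟨j, hj⟩
      exact hj rfl
    · rintro ⟨g, hg⟩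
      refine Subtype.ext (funext fun j => Fin.ext ?_)
      by_contra h
      exact hg ⟨j, h⟩
  have h2 := Fintype.card_subtype_compl (fun g : Fin n → Fin q => ∃ j, (g j : ℕ) ≠ 0)
  rw [h1, Fintype.card_fun, Fintype.card_fin, Fintype.card_fin] at h2
  have h3 := Fintype.card_subtype_le (fun g : Fin n → Fin q => ∃ j, (g j : ℕ) ≠ 0)
  rw [Fintype.card_fun, Fintype.card_fin, Fintype.card_fin] at h3
  omega

private theorem T3b_Od_add {q : ℕ} {L : Type u} [Field L] {R : Subring L} {ι : Type} [Fintype ι]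
    {n : ℕ} {z : R} {a : Fin (n + 1) → R} {xW : R} {xR : ι → R}
    {YQ : ι → Fin (n + 1) → PowerSeries L} {YW : Fin (n + 1) → PowerSeries L} {r : ℕ}
    {φ ψ : Fam (n + 1) q R} (h1 : Od q R n z a xW xR YQ YW r φ)
    (h2 : Od q R n z a xW xR YQ YW r ψ) : Od q R n z a xW xR YQ YW r (φ + ψ) := by
  refine ⟨?_, ?_, ?_⟩
  · intro ε k hk
    by_cases h : (φ ε).coeff k = 0
    · refine h2.M ε k ?_
      intro h'
      apply hk
      rw [Pi.add_apply, Polynomial.coeff_add, h, h', add_zero]
    · exact h1.M ε k h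
  · intro l g hg
    rw [fe_add]
    exact dvd_add (h1.Q l g hg) (h2.Q l g hg)
  · rw [fe_add]
    exact dvd_add h1.W h2.W

private theorem T3b_Od_smul {q : ℕ} {L : Type u} [Field L] {R : Subring L} {ι : Type} [Fintype ι]
    {n : ℕ} {z : R} {a : Fin (n + 1) → R} {xW : R} {xR : ι → R}
    {YQ : ι → Fin (n + 1) → PowerSeries L} {YW : Fin (n + 1) → PowerSeries L} {r : ℕ}
    {φ : Fam (n + 1) q R} (c : R) (h1 : Od q R n z a xW xR YQ YW r φ) :
    Od q R n z a xW xR YQ YW r (c • φ) := by
  refine ⟨?_, ?_, ?_⟩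
  · intro ε k hk
    refine h1.M ε k ?_
    intro h'
    apply hk
    rw [Pi.smul_apply, Polynomial.coeff_smul, h', smul_zero]
  · intro l g hg
    rw [fe_smul]
    exact Dvd.dvd.mul_left (h1.Q l g hg) _
  · rw [fe_smul]
    exact Dvd.dvd.mul_left h1.W _

private theorem T3b_Od_zero {q : ℕ} {L : Type u} [Field L] {R : Subring L} {ι : Type} [Fintype ι]
    {n : ℕ} {z : R} {a : Fin (n + 1) → R} {xW : R} {xR : ι → R}
    {YQ : ι → Fin (n + 1) → PowerSeries L} {YW : Fin (n + 1) → PowerSeries L} {r : ℕ} :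
    Od q R n z a xW xR YQ YW r (0 : Fam (n + 1) q R) := by
  have h0 : ∀ (ξ : PowerSeries L) (η : Fin (n + 1) → PowerSeries L),
      fe ((PowerSeries.C (R := L)).comp R.subtype) ξ η (0 : Fam (n + 1) q R) = 0 := by
    intro ξ η
    unfold fe
    refine Finset.sum_eq_zero fun ε _ => ?_
    rw [Pi.zero_apply, Polynomial.eval₂_zero, zero_mul]
  refine ⟨?_, ?_, ?_⟩
  · intro ε k hk
    exact absurd (by rw [Pi.zero_apply, Polynomial.coeff_zero]) hk
  · intro l g hg
    rw [h0]
    exact dvd_zero _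
  · rw [h0]
    exact dvd_zero _

private theorem T3b_Od_sum {q : ℕ} {L : Type u} [Field L] {R : Subring L} {ι : Type} [Fintype ι]
    {n : ℕ} {z : R} {a : Fin (n + 1) → R} {xW : R} {xR : ι → R}
    {YQ : ι → Fin (n + 1) → PowerSeries L} {YW : Fin (n + 1) → PowerSeries L} {r : ℕ}
    {D : ℕ} (lam : Fin D → R) (φ : Fin D → Fam (n + 1) q R)
    (h1 : ∀ k, Od q R n z a xW xR YQ YW r (φ k)) :
    Od q R n z a xW xR YQ YW r (∑ k, lam k • φ k) := by
  classical
  induction (Finset.univ : Finset (Fin D)) using Finset.induction_on with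
  | empty => rw [Finset.sum_empty]; exact T3b_Od_zero
  | insert k s hk ih =>
    rw [Finset.sum_insert hk]
    exact T3b_Od_add (T3b_Od_smul _ (h1 k)) ih

/-- the family phi of the induction step -/
theorem step_phi {p q : ℕ} {L : Type u} [Field L] {R : Subring L} {ι : Type} [Fintype ι]
    {κ : ι → Type u} [∀ i, Field (κ i)] {ρ : ∀ i, R →+* κ i} (hB : Bs p q R κ ρ) {n : ℕ} {z : R}
    {a : Fin (n + 1) → R} {x0 : ∀ i, κ i} {y0 : ∀ i, Fin (n + 1) → κ i} {xW : R}
    {cW : Fin (n + 1) → R} {xR : ι → R} {yR : ι → Fin (n + 1) → R}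
    (hS : Sd q R κ ρ n z a x0 y0 xW cW xR yR) {YQ : ι → Fin (n + 1) → PowerSeries L}
    {YW : Fin (n + 1) → PowerSeries L} (hA : Ar q R n a xW cW xR yR YQ YW) :
    ∃ r0 : ℕ, ∀ r, r0 ≤ r → ∃ φ : Fam (n + 1) q R, Od q R n z a xW xR YQ YW r φ ∧
      ∀ i ε, (φ ε).map (ρ i) = (cst ((X - C (x0 i)) ^ r *
        (X - C (ρ i xW)) ^ ((Fintype.card ι - 1) * r)) : Fam (n + 1) q (κ i)) ε := by
  classical
  have hqp := hB.qp
  have hq0 : 0 < q := hqp.pos
  -- arcs over the residue fields
  have harc : ∀ i, ∃ Y : Fin (n + 1) → PowerSeries (κ i),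
      OnX q (PowerSeries.C (R := κ i)) (fun j => ρ i (a j)) (un (x0 i)) Y ∧
      ∀ j, PowerSeries.constantCoeff (Y j) = y0 i j := by
    intro i
    obtain ⟨Y, h1, h2, -⟩ := arc_un (hB.qne i) (fun j => ρ i (a j)) (x0 i) (y0 i)
      (fun j => hS.tgt i j) (hS.tnz i)
    exact ⟨Y, h1, h2⟩
  choose Y1 hY1 hY10 using harc
  have hdb := fun i => dim_bound hqp (hB.qne i) (rootk hB i) (ρ i z) (zk hB hS.zeta i) (n + 1)
    (fun j => ρ i (a j)) (hS.inj i) (hS.nz i) (x0 i) (Y1 i) (hY1 i)
    (fun j => by rw [hY10 i j]; exact hS.tnz i j)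
  choose r1 hr1 using hdb
  refine ⟨(n + 1) + G0 (n + 1) q + ∑ i, r1 i, fun r hr => ?_⟩
  have hrn : n + 1 ≤ r := by omega
  have hrG : G0 (n + 1) q ≤ r := by omega
  have hri : ∀ i, r1 i ≤ r := by
    intro i
    have := Finset.single_le_sum (f := r1) (fun j _ => Nat.zero_le _) (Finset.mem_univ i)
    omega
  obtain ⟨s, hs⟩ : ∃ s, s = Fintype.card ι := ⟨_, rfl⟩
  have hs2 : 2 ≤ s := by
    obtain ⟨i, j, hij⟩ := hB.two
    rw [hs]
    exact Fintype.one_lt_card_iff.2 ⟨i, j, hij⟩
  have hMn : n + 1 ≤ Fintype.card ι * r := by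
    rw [← hs]
    nlinarith
  -- the space over L
  let τ := (ι × {g : Fin (n + 1) → Fin q // ∃ j, (g j : ℕ) ≠ 0}) ⊕ Unit
  let ξ : τ → PowerSeries L := Sum.elim (fun k => un (xR k.1 : L))
    (fun _ => ra q (xW : L) (a (Fin.last n) : L))
  let Yt : τ → Fin (n + 1) → PowerSeries L := Sum.elim
    (fun k => rt (PowerSeries.C (z : L)) k.2.1 (YQ k.1)) (fun _ => YW)
  let μ : τ → ℕ := Sum.elim (fun _ => r) (fun _ => (Fintype.card ι - 1) * r)
  obtain ⟨Sp, hSp, hdim⟩ := space (L := L) hqp.two_le hMn ξ Yt μ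
  have hsum : ∑ k, μ k = s * (q ^ (n + 1) - 1) * r + (s - 1) * r := by
    have hc := T3b_card (n := n + 1) hq0
    rw [Fintype.sum_sum_type]
    simp only [μ, Sum.elim_inl, Sum.elim_inr, Finset.sum_const, Finset.card_univ,
      Fintype.card_prod, Fintype.card_unit, smul_eq_mul, one_mul, ← hs]
    have : Fintype.card {g : Fin (n + 1) → Fin q // ∃ j, (g j : ℕ) ≠ 0} = q ^ (n + 1) - 1 := by
      omega
    rw [this]
  have hQ1 : 1 ≤ q ^ (n + 1) := Nat.one_le_pow _ _ hq0
  have hD : r + q ^ (n + 1) - G0 (n + 1) q ≤ Module.finrank L Sp := by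
    obtain ⟨d, hd⟩ : ∃ d, d = Module.finrank L Sp := ⟨_, rfl⟩
    rw [← hd] at hdim ⊢
    rw [hsum, ← hs] at hdim
    obtain ⟨Q', hQ'⟩ : ∃ Q', q ^ (n + 1) = Q' + 1 := ⟨q ^ (n + 1) - 1, by omega⟩
    obtain ⟨s', hs'⟩ : ∃ s', s = s' + 1 := ⟨s - 1, by omega⟩
    rw [hQ', hs'] at hdim
    rw [hQ']
    have e1 : (Q' + 1) * ((s' + 1) * r + 1) = (s' + 1) * Q' * r + s' * r + (r + Q' + 1) := by ring
    have e2 : Q' + 1 - 1 = Q' := by omega
    have e3 : s' + 1 - 1 = s' := by omega
    rw [e1, e2, e3] at hdim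
    omega
  obtain ⟨f, hf, hfi⟩ := semi hB _ Sp _ hD
  -- the families over R
  let φ : Fin (r + q ^ (n + 1) - G0 (n + 1) q) → Fam (n + 1) q R := fun k =>
    fam (Fintype.card ι * r) (f k)
  have hOd : ∀ k, Od q R n z a xW xR YQ YW r (φ k) := by
    intro k
    have h1 := (hSp _).1 (hf k)
    have hmap : ∀ ε, ((φ k) ε).map R.subtype
        = (fam (Fintype.card ι * r) (fun m => ((f k m : R) : L)) : Fam (n + 1) q L) ε :=
      fun ε => T3b_map_fam R.subtype (f k) ε
    have hfe : ∀ (ξ : PowerSeries L) (η : Fin (n + 1) → PowerSeries L),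
        fe ((PowerSeries.C (R := L)).comp R.subtype) ξ η (φ k) =
          fe (PowerSeries.C (R := L)) ξ η (fam (Fintype.card ι * r)
            (fun m => ((f k m : R) : L)) : Fam (n + 1) q L) := by
      intro ξ η
      rw [← fe_map]
      congr 1
      exact funext hmap
    refine ⟨?_, ?_, ?_⟩
    · intro ε m hm
      refine h1.1 ε m ?_
      rw [← hmap, Polynomial.coeff_map]
      intro h0
      apply hm
      exact Subtype.ext h0
    · intro l g hg
      rw [hfe]
      exact h1.2 (Sum.inl (l, ⟨g, hg⟩))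
    · rw [hfe]
      exact h1.2 (Sum.inr ())
  -- the reductions
  have hred := fun i k => red_one hB hS hA r (φ k) (hOd k) i (Y1 i) (hY1 i) (hY10 i)
  choose ψ hψ1 hψ2 hψ3 using hred
  have hind : ∀ i, LinearIndependent (κ i) (ψ i) := by
    intro i
    rw [Fintype.linearIndependent_iff]
    intro c hc
    refine (Fintype.linearIndependent_iff.1 (hfi i)) c ?_
    have h1 : ∀ ε, ∑ k, c k • ((φ k) ε).map (ρ i) = 0 := by
      intro ε
      have h2 := congrFun hc ε
      rw [Finset.sum_apply] at h2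
      have h3 : ∀ k, c k • ((φ k) ε).map (ρ i) =
          (X - C (ρ i xW)) ^ ((Fintype.card ι - 1) * r) * (c k • ψ i k) ε := by
        intro k
        rw [hψ1, Pi.smul_apply, mul_smul_comm]
      rw [Finset.sum_congr rfl (fun k _ => h3 k), ← Finset.mul_sum, h2, Pi.zero_apply, mul_zero]
    funext m
    rw [Finset.sum_apply, Pi.zero_apply]
    have h4 := congrArg (fun P => Polynomial.coeff P (m.2 : ℕ)) (h1 m.1)
    simp only [Polynomial.finset_sum_coeff, Polynomial.coeff_smul, Polynomial.coeff_map,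
      Polynomial.coeff_zero] at h4
    rw [← h4]
    refine Finset.sum_congr rfl fun k _ => ?_
    rw [Pi.smul_apply]
    congr 2
    exact (T3b_coeff_fam (f k) m.1 m.2).symm
  have hT : ∀ i, ∃ c : Fin (r + q ^ (n + 1) - G0 (n + 1) q) → κ i,
      ∑ k, c k • ψ i k = (cst ((X - C (x0 i)) ^ r) : Fam (n + 1) q (κ i)) := by
    intro i
    by_contra hno
    have hspan : (cst ((X - C (x0 i)) ^ r) : Fam (n + 1) q (κ i)) ∉
        Submodule.span (κ i) (Set.range (ψ i)) := by
      intro hmem
      obtain ⟨c, hc⟩ := (Submodule.mem_span_range_iff_exists_fun (κ i)).1 hmem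
      exact hno ⟨c, hc⟩
    have hli : LinearIndependent (κ i) (Fin.cons
        (cst ((X - C (x0 i)) ^ r) : Fam (n + 1) q (κ i)) (ψ i) :
          Fin (r + q ^ (n + 1) - G0 (n + 1) q + 1) → Fam (n + 1) q (κ i)) :=
      linearIndependent_finCons.2 ⟨hind i, hspan⟩
    have hb := hr1 i r (hri i) _ _ hli
      (fun k => by
        refine Fin.cases ?_ (fun k => ?_) k
        · intro ε m hm
          rw [Fin.cons_zero] at hm
          unfold cst at hm
          by_cases hw : wt ε = 0
          · rw [if_pos hw] at hm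
            have hm2 : m ≤ r := by
              by_contra hgt
              apply hm
              apply Polynomial.coeff_eq_zero_of_natDegree_lt
              rw [Polynomial.natDegree_pow, Polynomial.natDegree_X_sub_C]
              omega
            rw [hw, add_zero]
            exact Nat.mul_le_mul_left q hm2
          · rw [if_neg hw, Polynomial.coeff_zero] at hm
            exact absurd rfl hm
        · rw [Fin.cons_succ]
          exact hψ2 i k)
      (fun k => by
        refine Fin.cases ?_ (fun k => ?_) k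
        · intro g hg
          rw [Fin.cons_zero, fe_cst hq0, Polynomial.eval₂_pow, Polynomial.eval₂_sub,
            Polynomial.eval₂_X, Polynomial.eval₂_C]
          unfold un
          rw [add_sub_cancel_left]
        · intro g hg
          rw [Fin.cons_succ]
          exact hψ3 i k g hg)
    omega
  choose c hc using hT
  have hlam : ∀ k, ∃ x : R, ∀ i, ρ i x = c i k := fun k => hB.crt (fun i => c i k)
  choose lam hlam using hlam
  refine ⟨∑ k, lam k • φ k, T3b_Od_sum lam φ hOd, fun i ε => ?_⟩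
  have h1 := congrFun (hc i) ε
  rw [Finset.sum_apply] at h1
  rw [Finset.sum_apply, Polynomial.map_sum]
  have h2 : ∀ k, ((lam k • φ k) ε).map (ρ i) =
      (X - C (ρ i xW)) ^ ((Fintype.card ι - 1) * r) * (c i k • ψ i k) ε := by
    intro k
    rw [Pi.smul_apply, Polynomial.map_smul, hlam, hψ1, Pi.smul_apply, mul_smul_comm]
  rw [Finset.sum_congr rfl (fun k _ => h2 k), ← Finset.mul_sum, h1]
  unfold cst
  by_cases hw : wt ε = 0
  · rw [if_pos hw, if_pos hw, mul_comm]
  · rw [if_neg hw, if_neg hw, mul_zero]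

end Pool.LibNP88
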