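import Pool.Agent.LibNP88.B1
import Pool.Agent.LibNP88.Defs2
import Pool.Agent.LibNP88.NF

/-
PLAN (T4a, MEDIUM). The factors are monic and the polynomial identity may be checked in L[X]: Polynomial.map_dvd_map (R.subtype injective, monic). In L[X] the linear factors X - xW, X - xR l (l in ι) are pairwise different (xR l and xR l' differ at the place l: x0 l != ρ l xW, since
1 + a_last x0 = y0 last^q != 0; the same for xW), so it is enough that each power divides (Finset.prod_dvd_of_coprime, IsCoprime). For xR l: N.eval₂ (C.comp R.subtype) (un (xR l)) = prod_g (..), every factor with g != 0 is divisible by X^r (hO.Q): X^(r (q^(n+1) - 1)) divides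
the value of (N.map) at C x + X, i.e. the power series of the polynomial (N.map).comp (X + C x) (Polynomial.coe), so (X - C x)^k | N.map (X_pow_dvd, comp with X - C x). For W: the factor of g = (0,..,0,b): the arc rt (C z) g YW is the image of YW under
PowerSeries.rescale (z^b) (ra.. and YW castSucc are invariant because only exponents divisible by q occur and z^q = 1; X ↦ C (z^b) X), so fe(..) for g is the rescaling of fe(..) at YW and divisible by X^((s-1) r): q factors, X^(q (s-1) r) | N.eval₂ at ra.. ;
write N.map = (X - C xW)^k N', N'(xW) != 0 (N != 0; if N = 0 trivial): value = (b⁻¹ X^q)^k * unit, q k >= q (s-1) r.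
-/

set_option autoImplicit false

noncomputable section

open Polynomial

namespace Pool.LibNP88

universe u

private theorem t4a_un {F : Type u} [Field F] (x0 : F) (P : F[X]) :
    P.eval₂ (PowerSeries.C (R := F)) (un x0) = ((P.comp (X + C x0) : F[X]) : PowerSeries F) := by
  have h1 : ((P.comp (X + C x0) : F[X]) : PowerSeries F) =
      Polynomial.coeToPowerSeries.ringHom (P.eval₂ C (X + C x0)) := rfl
  rw [h1, Polynomial.hom_eval₂]
  congr 1
  · ext c
    simp
  · simp [un, add_comm]

private theorem t4a_coe_dvd {F : Type u} [Field F] (k : ℕ) (P : F[X])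
    (h : (PowerSeries.X : PowerSeries F) ^ k ∣ (P : PowerSeries F)) : (X : F[X]) ^ k ∣ P := by
  rw [PowerSeries.X_pow_dvd_iff] at h
  rw [Polynomial.X_pow_dvd_iff]
  intro d hd
  have := h d hd
  rwa [Polynomial.coeff_coe] at this

/-- divisibility at an unramified point -/
private theorem t4a_unr {F : Type u} [Field F] (k : ℕ) (x0 : F) (P : F[X])
    (h : (PowerSeries.X : PowerSeries F) ^ k ∣ P.eval₂ (PowerSeries.C (R := F)) (un x0)) :
    (X - C x0) ^ k ∣ P := by
  rw [X_sub_C_pow_dvd_iff]
  rw [t4a_un] at h
  exact t4a_coe_dvd k _ h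

/-- divisibility at a ramified point -/
private theorem t4a_ram {F : Type u} [Field F] {q : ℕ} (hq : 0 < q) (m : ℕ) (x0 b : F)
    (hb : b ≠ 0) (P : F[X])
    (h : (PowerSeries.X : PowerSeries F) ^ (q * m) ∣ P.eval₂ (PowerSeries.C (R := F)) (ra q x0 b)) :
    (X - C x0) ^ m ∣ P := by
  by_cases hP : P = 0
  · rw [hP]; exact dvd_zero _
  obtain ⟨P', hP', hnd⟩ := P.exists_eq_pow_rootMultiplicity_mul_and_not_dvd hP x0
  set k := P.rootMultiplicity x0
  have h1 : P.eval₂ (PowerSeries.C (R := F)) (ra q x0 b) =
      (PowerSeries.C b⁻¹) ^ k * PowerSeries.X ^ (q * k) *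
        P'.eval₂ (PowerSeries.C (R := F)) (ra q x0 b) := by
    conv_lhs => rw [hP']
    rw [eval₂_mul, eval₂_pow, eval₂_sub, eval₂_X, eval₂_C]
    unfold ra
    ring
  have hc : PowerSeries.constantCoeff (P'.eval₂ (PowerSeries.C (R := F)) (ra q x0 b)) =
      P'.eval x0 := by
    rw [Polynomial.hom_eval₂]
    have e1 : (PowerSeries.constantCoeff (R := F)).comp (PowerSeries.C (R := F)) = RingHom.id F := by
      ext c; simp
    have e2 : PowerSeries.constantCoeff (ra q x0 b) = x0 := by
      unfold ra
      simp [hq.ne']
    rw [e1, e2, eval₂_id]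
  have hne : P'.eval x0 ≠ 0 := by
    intro h0
    exact hnd (dvd_iff_isRoot.2 h0)
  have hu : IsUnit (P'.eval₂ (PowerSeries.C (R := F)) (ra q x0 b)) := by
    rw [PowerSeries.isUnit_iff_constantCoeff, hc]
    exact isUnit_iff_ne_zero.2 hne
  have hu2 : IsUnit ((PowerSeries.C (R := F) b⁻¹) ^ k) := by
    apply IsUnit.pow
    rw [PowerSeries.isUnit_iff_constantCoeff]
    simp [hb]
  have h2 : (PowerSeries.X : PowerSeries F) ^ (q * m) ∣ PowerSeries.X ^ (q * k) := by
    rw [h1, hu.dvd_mul_right, hu2.dvd_mul_left] at h
    exact h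
  have h3 : q * m ≤ q * k := by
    by_contra hcon
    push Not at hcon
    rw [PowerSeries.X_pow_dvd_iff] at h2
    have := h2 (q * k) hcon
    rw [PowerSeries.coeff_X_pow_self] at this
    exact one_ne_zero this
  have h4 : m ≤ k := Nat.le_of_mul_le_mul_left h3 hq
  exact (pow_dvd_pow _ h4).trans (hP' ▸ dvd_mul_right _ _)

/-- the norm is divisible by many factors -/
theorem norm_div {p q : ℕ} {L : Type u} [Field L] {R : Subring L} {ι : Type} [Fintype ι]
    {κ : ι → Type u} [∀ i, Field (κ i)] {ρ : ∀ i, R →+* κ i} (hB : Bs p q R κ ρ) {n : ℕ} {z : R}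
    {a : Fin (n + 1) → R} {x0 : ∀ i, κ i} {y0 : ∀ i, Fin (n + 1) → κ i} {xW : R}
    {cW : Fin (n + 1) → R} {xR : ι → R} {yR : ι → Fin (n + 1) → R}
    (hS : Sd q R κ ρ n z a x0 y0 xW cW xR yR) {YQ : ι → Fin (n + 1) → PowerSeries L}
    {YW : Fin (n + 1) → PowerSeries L} (hA : Ar q R n a xW cW xR yR YQ YW)
    (r : ℕ) (φ : Fam (n + 1) q R) (hO : Od q R n z a xW xR YQ YW r φ) (N : R[X])
    (hN : ∀ (B : Type u) [CommRing B] (f : R →+* B) (ξ : B) (η : Fin (n + 1) → B),
      OnX q f a ξ η → N.eval₂ f ξ = ∏ g : Fin (n + 1) → Fin q, fe f ξ (rt (f z) g η) φ) :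
    (X - C xW) ^ ((Fintype.card ι - 1) * r) * ∏ l, (X - C (xR l)) ^ (r * (q ^ (n + 1) - 1)) ∣ N := by
  classical
  have hq : 0 < q := hB.qp.pos
  have : NeZero q := ⟨hq.ne'⟩
  set f : R →+* PowerSeries L := (PowerSeries.C (R := L)).comp R.subtype with hf
  have hmon : ((X - C xW) ^ ((Fintype.card ι - 1) * r) *
      ∏ l, (X - C (xR l)) ^ (r * (q ^ (n + 1) - 1)) : R[X]).Monic :=
    ((monic_X_sub_C xW).pow _).mul
      (monic_prod_of_monic _ _ (fun l _ => (monic_X_sub_C (xR l)).pow _))
  rw [← map_dvd_map R.subtype R.subtype_injective hmon, Polynomial.map_mul, Polynomial.map_prod]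
  simp only [Polynomial.map_pow, Polynomial.map_sub, map_X, map_C]
  -- the points are different
  have hlast : ∀ i, x0 i ≠ ρ i xW := by
    intro i h
    have h1 := hS.tgt i (Fin.last n)
    have h2 := congrArg (ρ i) (hS.W (Fin.last n))
    rw [hS.W0, zero_pow hq.ne', map_zero, map_add, map_one, map_mul] at h2
    rw [h, ← h2] at h1
    exact hS.tnz i (Fin.last n) (eq_zero_of_pow_eq_zero h1)
  have hRW : ∀ l, (xR l : L) ≠ (xW : L) := by
    intro l h
    have h1 : xR l = xW := Subtype.ext h
    apply hlast l
    rw [← hS.Qx l, h1]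
  have hRR : ∀ l l', l ≠ l' → (xR l : L) ≠ (xR l' : L) := by
    intro l l' hl h
    have h1 : xR l = xR l' := Subtype.ext h
    apply hlast l
    rw [← hS.Qx l, h1]
    exact hS.Qxo l' l hl
  have hcop : ∀ (x y : L) (k m : ℕ), x ≠ y → IsCoprime ((X - C x) ^ k) ((X - C y) ^ m) := by
    intro x y k m hxy
    apply IsCoprime.pow
    exact isCoprime_X_sub_C_of_isUnit_sub (isUnit_iff_ne_zero.2 (sub_ne_zero.2 hxy))
  -- divisibility at `Q_l`
  have hdQ : ∀ l, (X - C (R.subtype (xR l))) ^ (r * (q ^ (n + 1) - 1)) ∣ N.map R.subtype := by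
    intro l
    apply t4a_unr
    rw [eval₂_map]
    have hon : OnX q f a (un (xR l : L)) (YQ l) := hA.Q l
    have h1 := hN _ f _ _ hon
    have h2 : N.eval₂ ((PowerSeries.C (R := L)).comp R.subtype) (un (R.subtype (xR l))) =
        N.eval₂ f (un (xR l : L)) := rfl
    rw [h2, h1]
    have h3 : (PowerSeries.X : PowerSeries L) ^ (r * (q ^ (n + 1) - 1)) =
        ∏ g : Fin (n + 1) → Fin q,
          (if g = 0 then (1 : PowerSeries L) else PowerSeries.X ^ r) := by
      rw [← Finset.mul_prod_erase Finset.univ _ (Finset.mem_univ (0 : Fin (n + 1) → Fin q)),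
        if_pos rfl, one_mul, Finset.prod_congr rfl (fun g hg => if_neg (Finset.ne_of_mem_erase hg)),
        Finset.prod_const, Finset.card_erase_of_mem (Finset.mem_univ _), Finset.card_univ,
        Fintype.card_fun, Fintype.card_fin, Fintype.card_fin, ← pow_mul]
    rw [h3]
    apply Finset.prod_dvd_prod_of_dvd
    intro g _
    split_ifs with hg
    · exact one_dvd _
    · have hj : ∃ j, (g j : ℕ) ≠ 0 := by
        by_contra hcon
        push Not at hcon
        apply hg
        funext j
        exact Fin.ext (by rw [hcon j]; rfl)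
      exact hO.Q l g hj
  -- divisibility at `W`
  have hdW : (X - C (R.subtype xW)) ^ ((Fintype.card ι - 1) * r) ∣ N.map R.subtype := by
    set b : L := (a (Fin.last n) : L) with hb
    have hb0 : b ≠ 0 := by
      obtain ⟨i, _, _⟩ := hB.two
      intro h0
      apply hS.nz i (Fin.last n)
      have : a (Fin.last n) = 0 := Subtype.ext h0
      rw [this, map_zero]
    apply t4a_ram hq ((Fintype.card ι - 1) * r) _ b hb0
    rw [eval₂_map]
    have hon : OnX q f a (ra q (xW : L) b) YW := hA.W
    have h1 := hN _ f _ _ hon
    have h2 : N.eval₂ ((PowerSeries.C (R := L)).comp R.subtype) (ra q (R.subtype xW) b) =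
        N.eval₂ f (ra q (xW : L) b) := rfl
    rw [h2, h1]
    set m := (Fintype.card ι - 1) * r with hm
    -- the special elements
    let G : Fin q → (Fin (n + 1) → Fin q) := fun b => fun j => if j = Fin.last n then b else 0
    have hG : Function.Injective G := by
      intro b b' h
      have := congrFun h (Fin.last n)
      simpa [G] using this
    have hfac : ∀ t : Fin q, (PowerSeries.X : PowerSeries L) ^ m ∣
        fe f (ra q (xW : L) b) (rt (f z) (G t) YW) φ := by
      intro t
      set w : L := (z : L) ^ (t : ℕ) with hw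
      have hzq : (z : L) ^ q = 1 := by
        have := hS.zeta.pow_eq_one
        have h5 := congrArg (fun y : R => (y : L)) this
        simpa using h5
      have hwq : w ^ q = 1 := by
        rw [hw, ← pow_mul, mul_comm, pow_mul, hzq, one_pow]
      have hresc : PowerSeries.rescale w (fe f (ra q (xW : L) b) YW φ) =
          fe f (ra q (xW : L) b) (rt (f z) (G t) YW) φ := by
        rw [fe_hom]
        have e1 : (PowerSeries.rescale w).comp f = f := by
          apply RingHom.ext
          intro c
          show PowerSeries.rescale w (PowerSeries.C (c : L)) = PowerSeries.C (c : L)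
          ext k
          rw [PowerSeries.coeff_rescale, PowerSeries.coeff_C]
          split_ifs with hk
          · rw [hk]; simp
          · simp
        have e2 : PowerSeries.rescale w (ra q (xW : L) b) = ra q (xW : L) b := by
          unfold ra
          rw [map_add, map_mul, map_pow, PowerSeries.rescale_X, mul_pow, ← map_pow, hwq, map_one,
            one_mul]
          congr 1
          · ext k
            rw [PowerSeries.coeff_rescale, PowerSeries.coeff_C]
            split_ifs with hk
            · rw [hk]; simp
            · simp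
          · congr 1
            ext k
            rw [PowerSeries.coeff_rescale, PowerSeries.coeff_C]
            split_ifs with hk
            · rw [hk]; simp
            · simp
        have e3 : (fun j => PowerSeries.rescale w (YW j)) = rt (f z) (G t) YW := by
          funext j
          unfold rt
          induction j using Fin.lastCases with
          | last =>
            rw [hA.W1, PowerSeries.rescale_X]
            have : ((G t (Fin.last n) : Fin q) : ℕ) = (t : ℕ) := by simp [G]
            rw [this, hw, map_pow]
            rfl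
          | cast j =>
            have : ((G t j.castSucc : Fin q) : ℕ) = 0 := by
              have h6 : G t j.castSucc = 0 := by
                simp [G, (Fin.castSucc_lt_last j).ne]
              rw [h6]; rfl
            rw [this, pow_zero, one_mul]
            ext k
            rw [PowerSeries.coeff_rescale]
            by_cases hk : PowerSeries.coeff k (YW j.castSucc) = 0
            · rw [hk, mul_zero]
            · obtain ⟨k', rfl⟩ := hA.Ws j k hk
              rw [pow_mul, hwq, one_pow, one_mul]
        rw [e1, e2, e3]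
      rw [← hresc]
      obtain ⟨T, hT⟩ := hO.W
      have hT' : fe f (ra q (xW : L) b) YW φ = PowerSeries.X ^ m * T := hT
      rw [hT', map_mul, map_pow, PowerSeries.rescale_X, mul_pow, mul_comm (PowerSeries.C w ^ m),
        mul_assoc]
      exact dvd_mul_right _ _
    have h4 : (PowerSeries.X : PowerSeries L) ^ (q * m) =
        ∏ g ∈ Finset.univ.image G, (PowerSeries.X : PowerSeries L) ^ m := by
      rw [Finset.prod_const, Finset.card_image_of_injective _ hG, Finset.card_univ,
        Fintype.card_fin, ← pow_mul, mul_comm]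
    rw [h4]
    refine (Finset.prod_dvd_prod_of_dvd _
      (fun g => fe f (ra q (xW : L) b) (rt (f z) g YW) φ) ?_).trans
      (Finset.prod_dvd_prod_of_subset _ _ _ (Finset.subset_univ _))
    intro g hg
    obtain ⟨t, -, rfl⟩ := Finset.mem_image.1 hg
    exact hfac t
  apply IsCoprime.mul_dvd
  · apply IsCoprime.prod_right
    intro l _
    exact hcop _ _ _ _ (hRW l).symm
  · exact hdW
  · apply Finset.prod_dvd_of_coprime
    · intro l _ l' _ hl
      exact hcop _ _ _ _ (hRR l l' hl)
    · intro l _
      exact hdQ l

end Pool.LibNP88
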