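import Pool.Agent.LibNP88.B1
import Pool.Agent.LibNP88.P2
import Pool.Agent.LibNP88.NF

/-
PLAN (T4b, SHORT/MEDIUM). Take an arc Y1 over κ i at (x0 i; y0 i) (arc_un). Apply hN to f := C.comp (ρ i), ξ := un (x0 i), η := Y1: left side (N.map (ρ i)).eval₂ C (un x0), every factor on the right is fe .. φ = fe C .. (φ mapped) = fe of cst (..) = value of the polynomial (fe_map, fe_cst).
So both polynomials have the same value at C x0 + X; the map P ↦ P.eval₂ C (C x0 + X) is injective (it is P.comp (X + C x0) as a power series). Card of Fin (n+1) → Fin q is q^(n+1).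
-/

set_option autoImplicit false

noncomputable section

open Polynomial

namespace Pool.LibNP88

universe u

private theorem t4b_inj {F : Type u} [Field F] (x0 : F) (P Q : F[X])
    (h : P.eval₂ (PowerSeries.C (R := F)) (un x0) = Q.eval₂ (PowerSeries.C (R := F)) (un x0)) :
    P = Q := by
  have key : ∀ P : F[X], P.eval₂ (PowerSeries.C (R := F)) (un x0) =
      ((taylor x0 P : F[X]) : PowerSeries F) := by
    intro P
    have h1 : ((taylor x0 P : F[X]) : PowerSeries F) =
        Polynomial.coeToPowerSeries.ringHom (P.eval₂ C (X + C x0)) := rfl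
    rw [h1, Polynomial.hom_eval₂]
    congr 1
    · ext c
      simp
    · simp [un, add_comm]
  rw [key, key] at h
  exact taylor_injective x0 (Polynomial.coe_injective F h)

/-- reduction of the norm -/
theorem norm_red {p q : ℕ} {L : Type u} [Field L] {R : Subring L} {ι : Type} [Fintype ι]
    {κ : ι → Type u} [∀ i, Field (κ i)] {ρ : ∀ i, R →+* κ i} (hB : Bs p q R κ ρ) {n : ℕ} {z : R}
    {a : Fin (n + 1) → R} {x0 : ∀ i, κ i} {y0 : ∀ i, Fin (n + 1) → κ i} {xW : R}
    {cW : Fin (n + 1) → R} {xR : ι → R} {yR : ι → Fin (n + 1) → R}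
    (hS : Sd q R κ ρ n z a x0 y0 xW cW xR yR)
    (m r : ℕ) (φ : Fam (n + 1) q R) (i : ι)
    (hφ : ∀ ε, (φ ε).map (ρ i) =
      (cst ((X - C (x0 i)) ^ r * (X - C (ρ i xW)) ^ m) : Fam (n + 1) q (κ i)) ε)
    (N : R[X])
    (hN : ∀ (B : Type u) [CommRing B] (f : R →+* B) (ξ : B) (η : Fin (n + 1) → B),
      OnX q f a ξ η → N.eval₂ f ξ = ∏ g : Fin (n + 1) → Fin q, fe f ξ (rt (f z) g η) φ) :
    N.map (ρ i) = ((X - C (x0 i)) ^ r * (X - C (ρ i xW)) ^ m) ^ q ^ (n + 1) := by
  obtain ⟨Y, hY, -, -⟩ := arc_un (F := κ i) (n := n + 1) (q := q) (hB.qne i)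
    (fun j => ρ i (a j)) (x0 i) (y0 i) (hS.tgt i) (hS.tnz i)
  have hY' : OnX q ((PowerSeries.C (R := κ i)).comp (ρ i)) a (un (x0 i)) Y := hY
  have h1 := hN _ _ _ _ hY'
  have hq : 0 < q := hB.qp.pos
  have h2 : ∀ g : Fin (n + 1) → Fin q,
      fe ((PowerSeries.C (R := κ i)).comp (ρ i)) (un (x0 i))
        (rt (((PowerSeries.C (R := κ i)).comp (ρ i)) z) g Y) φ =
      ((X - C (x0 i)) ^ r * (X - C (ρ i xW)) ^ m).eval₂ (PowerSeries.C (R := κ i)) (un (x0 i)) := by
    intro g
    rw [← fe_map (ρ i) (PowerSeries.C (R := κ i))]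
    have : (fun ε => (φ ε).map (ρ i)) =
        (cst ((X - C (x0 i)) ^ r * (X - C (ρ i xW)) ^ m) : Fam (n + 1) q (κ i)) := funext hφ
    rw [this, fe_cst hq]
  rw [Finset.prod_congr rfl (fun g _ => h2 g), Finset.prod_const, Finset.card_univ,
    Fintype.card_fun, Fintype.card_fin, Fintype.card_fin, ← eval₂_pow, ← eval₂_map] at h1
  exact t4b_inj (x0 i) _ _ h1

end Pool.LibNP88
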