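import Pool.Agent.LibNP88.B1

/-
PLAN (T4c, MEDIUM). N = A * U with A monic of degree (s-1) r + s r (Q - 1), Q := q^(n+1), s = card ι. natDegree N <= Q s r gives natDegree U <= r (A monic: natDegree_mul; N != 0 because its reduction is not 0). Reduction at i: ρ_i xR l = ρ_i xW for l != i, = x0 i for l = i, so
A.map = (X - C xW)^((s-1) r + (s-1) r (Q-1)) (X - C x0)^(r (Q-1)) and (.)^Q = A.map * (X - C x0)^r: cancel (monic), U.map (ρ i) = (X - C (x0 i))^r. So coefficient r of U has residue 1 everywhere: a unit of R (hB.unit), u * U.coeff r = 1; U1 := C u * U is monic of degree r >= 1, U1.map subtype over L has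
a root (hB.root, p does not divide r), in R by hB.intc; U.map (ρ i) vanishes at ρ i ξ: (ρ i ξ - x0 i)^r = 0, r != 0 (p | 0). N.eval ξ = A.eval ξ * U.eval ξ = 0.
-/

set_option autoImplicit false

noncomputable section

open Polynomial

namespace Pool.LibNP88

universe u

/-- the root -/
theorem root_U {p q : ℕ} {L : Type u} [Field L] {R : Subring L} {ι : Type} [Fintype ι]
    {κ : ι → Type u} [∀ i, Field (κ i)] {ρ : ∀ i, R →+* κ i} (hB : Bs p q R κ ρ) {n : ℕ} {z : R}
    {a : Fin (n + 1) → R} {x0 : ∀ i, κ i} {y0 : ∀ i, Fin (n + 1) → κ i} {xW : R}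
    {cW : Fin (n + 1) → R} {xR : ι → R} {yR : ι → Fin (n + 1) → R}
    (hS : Sd q R κ ρ n z a x0 y0 xW cW xR yR)
    (r : ℕ) (hr : ¬ p ∣ r) (N : R[X])
    (hd : N.natDegree ≤ q ^ (n + 1) * (Fintype.card ι * r))
    (hdiv : (X - C xW) ^ ((Fintype.card ι - 1) * r) *
      ∏ l, (X - C (xR l)) ^ (r * (q ^ (n + 1) - 1)) ∣ N)
    (hred : ∀ i, N.map (ρ i) = ((X - C (x0 i)) ^ r *
      (X - C (ρ i xW)) ^ ((Fintype.card ι - 1) * r)) ^ q ^ (n + 1)) :
    ∃ ξ : R, (∀ i, ρ i ξ = x0 i) ∧ N.eval ξ = 0 := by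
  classical
  obtain ⟨i₀, j₀, hij⟩ := hB.two
  obtain ⟨s, hs⟩ : ∃ s, Fintype.card ι = s + 1 := by
    have : 0 < Fintype.card ι := Fintype.card_pos_iff.2 ⟨i₀⟩
    exact ⟨Fintype.card ι - 1, by omega⟩
  obtain ⟨Q, hQ⟩ : ∃ Q, q ^ (n + 1) = Q + 1 := by
    have : 0 < q ^ (n + 1) := pow_pos hB.qp.pos _
    exact ⟨q ^ (n + 1) - 1, by omega⟩
  rw [hs, hQ, Nat.add_sub_cancel, Nat.add_sub_cancel] at hdiv
  rw [hs, hQ] at hd
  simp only [hs, hQ, Nat.add_sub_cancel] at hred
  obtain ⟨U, hU⟩ := hdiv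
  set A : R[X] := (X - C xW) ^ (s * r) * ∏ l, (X - C (xR l)) ^ (r * Q) with hA
  have hAprod : (∏ l, (X - C (xR l)) ^ (r * Q) : R[X]).Monic :=
    monic_prod_of_monic _ _ (fun l _ => (monic_X_sub_C (xR l)).pow _)
  have hAm : A.Monic := ((monic_X_sub_C xW).pow _).mul hAprod
  have hAdeg : A.natDegree = s * r + (s + 1) * (r * Q) := by
    rw [hA, ((monic_X_sub_C xW).pow _).natDegree_mul hAprod, natDegree_pow, natDegree_X_sub_C,
      natDegree_prod_of_monic _ _ (fun l _ => (monic_X_sub_C (xR l)).pow _)]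
    simp only [natDegree_pow, natDegree_X_sub_C, mul_one, Finset.sum_const, Finset.card_univ, hs,
      smul_eq_mul]
  have hr0 : r ≠ 0 := by
    rintro rfl
    exact hr (dvd_zero p)
  -- reduction of `A`
  have hAred : ∀ i, A.map (ρ i) * (X - C (x0 i)) ^ r =
      ((X - C (x0 i)) ^ r * (X - C (ρ i xW)) ^ (s * r)) ^ (Q + 1) := by
    intro i
    have h1 : A.map (ρ i) = (X - C (ρ i xW)) ^ (s * r) *
        ∏ l, (X - C (ρ i (xR l))) ^ (r * Q) := by
      rw [hA, Polynomial.map_mul, Polynomial.map_prod]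
      simp only [Polynomial.map_pow, Polynomial.map_sub, map_X, map_C]
    have h2 : (∏ l, (X - C (ρ i (xR l))) ^ (r * Q) : (κ i)[X]) =
        (X - C (x0 i)) ^ (r * Q) * ((X - C (ρ i xW)) ^ (r * Q)) ^ s := by
      rw [← Finset.mul_prod_erase Finset.univ _ (Finset.mem_univ i), hS.Qx i]
      congr 1
      rw [Finset.prod_congr rfl (fun l hl => by
        rw [hS.Qxo l i (Finset.ne_of_mem_erase hl).symm]), Finset.prod_const,
        Finset.card_erase_of_mem (Finset.mem_univ i), Finset.card_univ, hs, Nat.add_sub_cancel]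
    rw [h1, h2]
    ring
  have hUred : ∀ i, U.map (ρ i) = (X - C (x0 i)) ^ r := by
    intro i
    have h1 := hred i
    rw [hU, Polynomial.map_mul, ← hAred i] at h1
    exact mul_left_cancel₀ (hAm.map (ρ i)).ne_zero h1
  have hN0 : N ≠ 0 := by
    intro h0
    have h1 := hred i₀
    rw [h0, Polynomial.map_zero] at h1
    have h2 : (((X - C (x0 i₀)) ^ r * (X - C (ρ i₀ xW)) ^ (s * r)) ^ (Q + 1) : (κ i₀)[X]).Monic :=
      (((monic_X_sub_C _).pow _).mul ((monic_X_sub_C _).pow _)).pow _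
    exact h2.ne_zero h1.symm
  have hU0 : U ≠ 0 := by
    rintro rfl
    rw [mul_zero] at hU
    exact hN0 hU
  have hUdeg : U.natDegree ≤ r := by
    have h1 : N.natDegree = A.natDegree + U.natDegree := by
      rw [hU, hAm.natDegree_mul' hU0]
    rw [h1, hAdeg] at hd
    nlinarith
  have hcoef : ∀ i, ρ i (U.coeff r) = 1 := by
    intro i
    rw [← coeff_map, hUred i]
    have h1 : ((X - C (x0 i)) ^ r : (κ i)[X]).Monic := (monic_X_sub_C _).pow _
    have h2 : ((X - C (x0 i)) ^ r : (κ i)[X]).natDegree = r := by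
      rw [natDegree_pow, natDegree_X_sub_C, mul_one]
    have h3 := h1.coeff_natDegree
    rwa [h2] at h3
  obtain ⟨u, hu⟩ := hB.unit (U.coeff r) (fun i => by rw [hcoef i]; exact one_ne_zero)
  set U1 : R[X] := C u * U with hU1
  have hU1m : U1.Monic := by
    apply monic_of_natDegree_le_of_coeff_eq_one r
    · exact (natDegree_C_mul_le u U).trans hUdeg
    · rw [hU1, coeff_C_mul, mul_comm, hu]
  have hU1d : U1.natDegree = r := by
    apply le_antisymm ((natDegree_C_mul_le u U).trans hUdeg)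
    apply le_natDegree_of_ne_zero
    rw [coeff_C_mul, mul_comm, hu]
    exact one_ne_zero
  obtain ⟨x, hx⟩ := hB.root (U1.map R.subtype) (hU1m.map _) (by
    rw [hU1m.natDegree_map, hU1d]; exact hr)
  rw [eval_map] at hx
  have hxR := hB.intc U1 hU1m x hx
  set ξ : R := ⟨x, hxR⟩ with hξ
  have hξ0 : U1.eval ξ = 0 := by
    apply R.subtype_injective
    rw [map_zero, ← eval₂_at_apply]
    exact hx
  have hUξ : U.eval ξ = 0 := by
    rw [hU1, eval_mul, eval_C] at hξ0
    have : U.coeff r * (u * U.eval ξ) = 0 := by rw [hξ0, mul_zero]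
    rwa [← mul_assoc, hu, one_mul] at this
  refine ⟨ξ, ?_, ?_⟩
  · intro i
    have h1 : (U.map (ρ i)).eval (ρ i ξ) = 0 := by
      rw [eval_map, eval₂_at_apply, hUξ, map_zero]
    rw [hUred i, eval_pow, eval_sub, eval_X, eval_C] at h1
    exact sub_eq_zero.1 (eq_zero_of_pow_eq_zero h1)
  · rw [hU, eval_mul, hUξ, mul_zero]

end Pool.LibNP88
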