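import Pool.Agent.LibNP88.T3a
import Pool.Agent.LibNP88.P2

/-
PLAN (T5, MEDIUM). Fix i. (ρ i (η j))^q = 1 + ρ i (a j) x0 i = (y0 i j)^q != 0, so (signs, zk) ρ i (η j) = (ρ i z)^(g j) y0 i j for some g : Fin (n+1) → Fin q. If all g j = 0 we are done. Otherwise mult_un at the residue point (x0 i; rt (ρ i z) g (y0 i)) with residue arc rt (C (ρ i z)) g Y1 (Y1 : arc_un at
(x0 i; y0 i)), τ = Bool (or Fin 2): the points g Q_i = (xR i; rt z g (yR i)) with μ = r (arc rt (C z) g (YQ i), hO.Q) and P = (ξ; η) with μ = 1 (arc from arc_un over L at (ξ; η), η j != 0; the constant coefficient of fe is fe R.subtype ξ η φ = 0). ξ != xR i: choose l != i (hB.two), ρ l ξ = x0 l but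
ρ l (xR i) = ρ l xW != x0 l. Hence X^(r+1) | fe (C.comp (ρ i)) (un (x0 i)) (..) φ = ((un x0 - C x0)^r (un x0 - C xW)^m) = X^r * unit (fe_map, hφ, fe_cst): contradiction. Every i.
-/

set_option autoImplicit false

noncomputable section

open Polynomial

namespace Pool.LibNP88

universe u

private theorem T5_rt {n q : ℕ} {S B : Type u} [CommRing S] [CommRing B] {f : S →+* B}
    {a : Fin n → S} {ξ : B} {η : Fin n → B} (h : OnX q f a ξ η) {z : B} (hz : z ^ q = 1)
    (g : Fin n → Fin q) : OnX q f a ξ (rt z g η) := by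
  intro j
  rw [← h j]
  unfold rt
  rw [mul_pow, ← pow_mul, mul_comm (g j : ℕ) q, pow_mul, hz, one_pow, one_mul]

private theorem T5_cc {F : Type u} [Field F] (x : F) :
    PowerSeries.constantCoeff (un x) = x := by
  unfold un
  rw [map_add, PowerSeries.constantCoeff_C, PowerSeries.constantCoeff_X, add_zero]

private theorem T5_ne {p q : ℕ} {L : Type u} [Field L] {R : Subring L} {ι : Type} [Fintype ι]
    {κ : ι → Type u} [∀ i, Field (κ i)] {ρ : ∀ i, R →+* κ i} (hB : Bs p q R κ ρ) {n : ℕ} {z : R}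
    {a : Fin (n + 1) → R} {x0 : ∀ i, κ i} {y0 : ∀ i, Fin (n + 1) → κ i} {xW : R}
    {cW : Fin (n + 1) → R} {xR : ι → R} {yR : ι → Fin (n + 1) → R}
    (hS : Sd q R κ ρ n z a x0 y0 xW cW xR yR) (l : ι) : x0 l ≠ ρ l xW := by
  intro h
  have h1 : (1 : R) + a (Fin.last n) * xW = 0 := by
    rw [← hS.W, hS.W0, zero_pow hB.qp.ne_zero]
  have h2 := congrArg (ρ l) h1
  rw [map_add, map_one, map_mul, map_zero, ← h] at h2
  have h3 := hS.tgt l (Fin.last n)
  rw [h2] at h3
  exact hS.tnz l (Fin.last n) (pow_eq_zero_iff hB.qp.ne_zero |>.1 h3)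

/-- the point P reduces to the targets -/
theorem step_pt {p q : ℕ} {L : Type u} [Field L] {R : Subring L} {ι : Type} [Fintype ι]
    {κ : ι → Type u} [∀ i, Field (κ i)] {ρ : ∀ i, R →+* κ i} (hB : Bs p q R κ ρ) {n : ℕ} {z : R}
    {a : Fin (n + 1) → R} {x0 : ∀ i, κ i} {y0 : ∀ i, Fin (n + 1) → κ i} {xW : R}
    {cW : Fin (n + 1) → R} {xR : ι → R} {yR : ι → Fin (n + 1) → R}
    (hS : Sd q R κ ρ n z a x0 y0 xW cW xR yR) {YQ : ι → Fin (n + 1) → PowerSeries L}
    {YW : Fin (n + 1) → PowerSeries L} (hA : Ar q R n a xW cW xR yR YQ YW)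
    (m r : ℕ) (φ : Fam (n + 1) q R) (hO : Od q R n z a xW xR YQ YW r φ)
    (hφ : ∀ i ε, (φ ε).map (ρ i) =
      (cst ((X - C (x0 i)) ^ r * (X - C (ρ i xW)) ^ m) : Fam (n + 1) q (κ i)) ε)
    (ξ : R) (η : Fin (n + 1) → R) (hη : ∀ j, η j ^ q = 1 + a j * ξ) (hξ : ∀ i, ρ i ξ = x0 i)
    (h0 : fe (RingHom.id R) ξ η φ = 0) : ∀ i j, ρ i (η j) = y0 i j := by
  intro i
  have hq0 : 0 < q := hB.qp.pos
  have hzi : IsPrimitiveRoot (ρ i z) q := zk hB hS.zeta i
  have hsg : ∀ j, ∃ k : Fin q, ρ i (η j) = (ρ i z) ^ (k : ℕ) * y0 i j := by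
    intro j
    refine signs hB.qp hzi _ _ ?_ (hS.tnz i j)
    have h1 := hS.tgt i j
    rw [h1, ← map_pow, hη j, map_add, map_one, map_mul, hξ i]
  choose g hg using hsg
  by_cases hall : ∀ j, (g j : ℕ) = 0
  · intro j
    rw [hg j, hall j, pow_zero, one_mul]
  exfalso
  push Not at hall
  -- the residue arc
  obtain ⟨Y1, hY1, hY10, -⟩ := arc_un (F := κ i) (hB.qne i) (fun j => ρ i (a j)) (x0 i) (y0 i)
    (fun j => hS.tgt i j) (hS.tnz i)
  -- the arc at `P`
  have hzi0 : ρ i z ≠ 0 := hzi.ne_zero hB.qp.ne_zero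
  have hηi : ∀ j, ρ i (η j) ≠ 0 := fun j => by
    rw [hg j]
    exact mul_ne_zero (pow_ne_zero _ hzi0) (hS.tnz i j)
  have hη0 : ∀ j, (η j : L) ≠ 0 := fun j h => by
    have h1 : η j = 0 := Subtype.ext h
    apply hηi j
    rw [h1, map_zero]
  obtain ⟨YP, hYP, hYP0, -⟩ := arc_un (F := L) (qL hB) (fun j => (a j : L)) (ξ : L)
    (fun j => (η j : L)) (fun j => by
      have h1 := congrArg (R.subtype) (hη j)
      rw [map_pow, map_add, map_one, map_mul] at h1
      exact h1) hη0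
  have hzL : IsPrimitiveRoot (z : L) q := zL hB hS.zeta
  -- the two points are different
  have hne : ξ ≠ xR i := by
    intro h
    obtain ⟨i1, i2, h12⟩ := hB.two
    obtain ⟨l, hl⟩ : ∃ l : ι, l ≠ i := by
      by_cases h3 : i1 = i
      · exact ⟨i2, fun h4 => h12 (h3.trans h4.symm)⟩
      · exact ⟨i1, h3⟩
    apply T5_ne hB hS l
    rw [← hξ l, h, hS.Qxo i l hl]
  have hdvd := mult_un R (ρ i) (hB.qne i) a (x0 i) (rt (ρ i z) g (y0 i))
    (fun j => mul_ne_zero (pow_ne_zero _ hzi0) (hS.tnz i j))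
    (rt (PowerSeries.C (ρ i z)) g Y1)
    (T5_rt hY1 (by rw [← map_pow, hzi.pow_eq_one, map_one]) g)
    (fun j => by
      unfold rt
      rw [map_mul, map_pow, PowerSeries.constantCoeff_C, hY10])
    (τ := Bool) (fun b => cond b (xR i) ξ) (fun b => cond b (rt z g (yR i)) η)
    (by
      rintro (_ | _) j
      · exact hη j
      · exact T5_rt (f := RingHom.id R) (a := a) (fun j => hS.Q i j) hS.zeta.pow_eq_one g j)
    (by
      rintro (_ | _) (_ | _) h
      · rfl
      · exact absurd h hne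
      · exact absurd h.symm hne
      · rfl)
    (by
      rintro (_ | _)
      · exact hξ i
      · exact hS.Qx i)
    (by
      rintro (_ | _) j
      · exact hg j
      · change ρ i (z ^ (g j : ℕ) * yR i j) = (ρ i z) ^ (g j : ℕ) * y0 i j
        rw [map_mul, map_pow, hS.Qy])
    (fun b => cond b (rt (PowerSeries.C (z : L)) g (YQ i)) YP)
    (by
      rintro (_ | _)
      · exact hYP
      · exact T5_rt (hA.Q i) (by rw [← map_pow, hzL.pow_eq_one, map_one]) g)
    (by
      rintro (_ | _) j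
      · exact hYP0 j
      · change PowerSeries.constantCoeff (PowerSeries.C (z : L) ^ (g j : ℕ) * YQ i j) =
          ((z ^ (g j : ℕ) * yR i j : R) : L)
        rw [map_mul, map_pow, PowerSeries.constantCoeff_C, hA.Q0]
        push_cast
        rfl)
    (fun b => cond b r 1) φ
    (by
      rintro (_ | _)
      · change PowerSeries.X ^ 1 ∣ fe ((PowerSeries.C (R := L)).comp R.subtype) (un (ξ : L)) YP φ
        rw [pow_one, PowerSeries.X_dvd_iff, fe_hom, T5_cc]
        have h1 : (PowerSeries.constantCoeff (R := L)).comp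
            ((PowerSeries.C (R := L)).comp R.subtype) = R.subtype.comp (RingHom.id R) :=
          RingHom.ext fun x => PowerSeries.constantCoeff_C _
        have h2 : (fun j => PowerSeries.constantCoeff (YP j)) = fun j => R.subtype (η j) :=
          funext hYP0
        rw [h1, h2]
        have h3 := fe_hom (RingHom.id R) R.subtype ξ η φ
        rw [h0, map_zero] at h3
        exact h3.symm
      · exact hO.Q i g hall)
  -- the value
  have hval : fe ((PowerSeries.C (R := κ i)).comp (ρ i)) (un (x0 i))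
      (rt (PowerSeries.C (ρ i z)) g Y1) φ =
      PowerSeries.X ^ r * (un (x0 i) - PowerSeries.C (ρ i xW)) ^ m := by
    rw [← fe_map, funext (hφ i), fe_cst hq0]
    rw [eval₂_mul, eval₂_pow, eval₂_pow, eval₂_sub, eval₂_sub, eval₂_X, eval₂_C, eval₂_C]
    unfold un
    rw [add_sub_cancel_left]
  rw [hval, Fintype.sum_bool] at hdvd
  change PowerSeries.X ^ (r + 1) ∣ _ at hdvd
  rw [pow_succ] at hdvd
  have hX : (PowerSeries.X : PowerSeries (κ i)) ^ r ≠ 0 := pow_ne_zero _ PowerSeries.X_ne_zero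
  rw [mul_dvd_mul_iff_left hX, PowerSeries.X_dvd_iff, map_pow, map_sub, T5_cc,
    PowerSeries.constantCoeff_C] at hdvd
  exact T5_ne hB hS i (sub_eq_zero.1 (eq_zero_of_pow_eq_zero hdvd))

end Pool.LibNP88
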