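import Pool.Agent.LibNP88.T1
import Pool.Agent.LibNP88.T3b
import Pool.Agent.LibNP88.T4a
import Pool.Agent.LibNP88.T4b
import Pool.Agent.LibNP88.T4c
import Pool.Agent.LibNP88.T5
import Pool.Agent.LibNP88.N1

/-
PLAN (T6, SHORT/MEDIUM). Induction on n. n = 0: hB.crt. Step: given a, x0, y0 over X_(n+1): z from hB.zeta, step_data, step_arcs, step_phi with r := p * r0 + 1 (p does not divide r, r >= r0), N from norm_fam (z, φ, InL from Od.M), norm_div, norm_red, root_U: ξ. Take η' j in R with η' j ^ q = 1 + a j ξ (rootR); hN with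
f = id, ξ, η': 0 = prod_g fe id ξ (rt z g η') φ (N.eval₂ id = N.eval), so one factor vanishes: η := rt z g η' (η j ^ q = 1 + a j ξ as z^q = 1), step_pt.
-/

set_option autoImplicit false

noncomputable section

open Polynomial

namespace Pool.LibNP88

universe u

/-- approximation on all curves X_n -/
theorem ap_all {p q : ℕ} {L : Type u} [Field L] {R : Subring L} {ι : Type} [Fintype ι]
    {κ : ι → Type u} [∀ i, Field (κ i)] {ρ : ∀ i, R →+* κ i} (hB : Bs p q R κ ρ) (n : ℕ) : Ap q R κ ρ n := by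
  induction n with
  | zero =>
    intro a _ _ x0 y0 _ _
    obtain ⟨x, hx⟩ := hB.crt x0
    exact ⟨x, fun j => j.elim0, fun j => j.elim0, fun i => ⟨hx i, fun j => j.elim0⟩⟩
  | succ n ih =>
    intro a hinj hnz x0 y0 h0 hy0
    obtain ⟨z, hz⟩ := hB.zeta
    obtain ⟨xW, cW, xR, yR, hS⟩ := step_data hB n ih hz a hinj hnz x0 y0 h0 hy0
    obtain ⟨YQ, YW, hA⟩ := step_arcs hB hS
    obtain ⟨r0, hr0⟩ := step_phi hB hS hA
    have hp1 : 1 < p := hB.pp.one_lt
    have hr : ¬ p ∣ (p * r0 + 1) := by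
      intro h
      have h2 : p ∣ 1 := (Nat.dvd_add_right (Dvd.intro r0 rfl)).1 h
      have := Nat.le_of_dvd one_pos h2
      omega
    have hge : r0 ≤ p * r0 + 1 := by nlinarith
    obtain ⟨φ, hO, hφ⟩ := hr0 (p * r0 + 1) hge
    obtain ⟨N, hN, hdeg⟩ := norm_fam hB.qp z hz a φ
    have hdiv := norm_div hB hS hA (p * r0 + 1) φ hO N hN
    have hred := fun i => norm_red hB hS _ (p * r0 + 1) φ i (hφ i) N hN
    obtain ⟨ξ, hξ, hNξ⟩ := root_U hB hS (p * r0 + 1) hr N (hdeg _ hO.M) hdiv hred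
    choose η' hη' using fun j => rootR hB (1 + a j * ξ)
    have h3 := hN R (RingHom.id R) ξ η' (fun j => by simpa using hη' j)
    have h4 : N.eval₂ (RingHom.id R) ξ = 0 := by
      rw [← Polynomial.eval₂_id] at hNξ
      exact hNξ
    rw [h4] at h3
    obtain ⟨g, -, hg⟩ := Finset.prod_eq_zero_iff.1 h3.symm
    have hη : ∀ j, (rt z g η') j ^ q = 1 + a j * ξ := by
      intro j
      simp only [rt]
      rw [mul_pow, hη' j, ← pow_mul, mul_comm, pow_mul', hz.pow_eq_one, one_pow, mul_one]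
    refine ⟨ξ, rt z g η', hη, fun i => ⟨hξ i, ?_⟩⟩
    exact step_pt hB hS hA _ (p * r0 + 1) φ hO hφ ξ (rt z g η') hη hξ hg i

end Pool.LibNP88
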