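import Pool.Agent.LibNP88.Defs

/-
PLAN (V1, SHORT/MEDIUM). ext_exists: LocalSubring.exists_le_valuationSubring applied to the local subring of L that is the image of O under algebraMap (LocalSubring.map / range of the ring hom O → L, the image of a local ring under an injective ring hom): A valuation ring A of L dominating it.
A.comap contains O and x in O with O-valuation < 1 goes to the maximal ideal of A. If x in A.comap is not in O then x⁻¹ in the maximal ideal of O, so its image is in the maximal ideal of A, so x is not in A: contradiction.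
incomp: suppose A <= B, x in B, x not in A. y := x⁻¹ is in the maximal ideal of A, in A <= B, so y is a unit of B. y is algebraic over K: SUM c_i y^i = 0, c_i in K not all 0; divide by a coefficient of maximal valuation: all c_i in O, some c_i a unit. m := least index with c_m a unit of O.
Divide by y^m (unit of B): c_m + SUM_(i > m) c_i y^(i-m) = - SUM_(i<m) c_i y^(i-m) is in the maximal ideal of B (the c_i with i < m are in the maximal ideal of O, whose image is in the one of B), and the maximal ideal of B is contained in the one of A (A <= B: w in mB, w != 0, w⁻¹ not in B, so not in A, so w in A is not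
a unit). y in mA, so c_m in mA ∩ K = mO: contradiction. (valuation < 1 iff in the maximal ideal: ValuationSubring.valuation_lt_one_iff.)
-/

set_option autoImplicit false

noncomputable section

open Polynomial

namespace Pool.LibNP88

universe u

/-- extension of valuation rings to any extension field -/
theorem ext_exists {K : Type u} [Field K] (O : ValuationSubring K) (L : Type u) [Field L]
    [Algebra K L] : ∃ A : ValuationSubring L, A.comap (algebraMap K L) = O := by
  obtain ⟨A, hA1, hA2⟩ :=
    (LocalSubring.map (algebraMap K L) O.toLocalSubring).exists_le_valuationSubring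
  refine ⟨A, ?_⟩
  have hmem : ∀ x ∈ O, algebraMap K L x ∈ A := fun x hx => hA1 ⟨x, hx, rfl⟩
  ext x
  rw [ValuationSubring.mem_comap]
  refine ⟨fun hx => ?_, hmem x⟩
  by_contra hxO
  have hx1 : x⁻¹ ∈ O := (O.mem_or_inv_mem x).resolve_left hxO
  have hx0 : x ≠ 0 := by
    rintro rfl
    exact hxO O.zero_mem
  have hy : algebraMap K L x⁻¹ ∈ (LocalSubring.map (algebraMap K L) O.toLocalSubring).toSubring :=
    ⟨x⁻¹, hx1, rfl⟩
  have hu : IsUnit (Subring.inclusion hA1 ⟨algebraMap K L x⁻¹, hy⟩) := by
    refine isUnit_iff_exists_inv.2 ⟨⟨algebraMap K L x, hx⟩, ?_⟩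
    apply Subtype.ext
    change algebraMap K L x⁻¹ * algebraMap K L x = 1
    rw [← map_mul, inv_mul_cancel₀ hx0, map_one]
  obtain ⟨⟨z, w, hw, rfl⟩, hz⟩ := isUnit_iff_exists_inv.1 (hA2.1 _ hu)
  have hz' : algebraMap K L x⁻¹ * algebraMap K L w = 1 := congrArg Subtype.val hz
  rw [← map_mul] at hz'
  have h1 : x⁻¹ * w = 1 := (algebraMap K L).injective (by rw [hz', map_one])
  have h2 : w = x := by
    rw [← mul_inv_cancel_left₀ hx0 w, h1, mul_one]
  exact hxO (h2 ▸ hw)

private theorem val_le' {K L : Type u} [Field K] [Field L] [Algebra K L] (O : ValuationSubring K)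
    (A : ValuationSubring L) (hA : A.comap (algebraMap K L) = O) (x : K) :
    A.valuation (algebraMap K L x) ≤ 1 ↔ O.valuation x ≤ 1 := by
  rw [ValuationSubring.valuation_le_one_iff, ValuationSubring.valuation_le_one_iff, ← hA,
    ValuationSubring.mem_comap]

private theorem one_le' {K : Type u} [Field K] (O : ValuationSubring K) {x : K} (hx : x ≠ 0) :
    1 ≤ O.valuation x ↔ O.valuation x⁻¹ ≤ 1 := by
  rw [map_inv₀]
  exact (inv_le_one₀ (zero_lt_iff.2 ((Valuation.ne_zero_iff _).2 hx))).symm

private theorem val_lt' {K L : Type u} [Field K] [Field L] [Algebra K L] (O : ValuationSubring K)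
    (A : ValuationSubring L) (hA : A.comap (algebraMap K L) = O) (x : K) :
    A.valuation (algebraMap K L x) < 1 ↔ O.valuation x < 1 := by
  rcases eq_or_ne x 0 with rfl | hx
  · simp
  · rw [← not_le, ← not_le, one_le' O hx,
      one_le' A ((map_ne_zero_iff _ (algebraMap K L).injective).2 hx), ← map_inv₀, val_le' O A hA]

/-- distinct extensions to an algebraic extension are incomparable -/
theorem incomp {K L : Type u} [Field K] [Field L] [Algebra K L] [Algebra.IsAlgebraic K L]
    (O : ValuationSubring K) (A B : ValuationSubring L) (hA : A.comap (algebraMap K L) = O)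
    (hB : B.comap (algebraMap K L) = O) (h : A ≤ B) : A = B := by
  classical
  refine le_antisymm h fun x hxB => ?_
  by_contra hxA
  have hx0 : x ≠ 0 := by
    rintro rfl
    exact hxA A.zero_mem
  have hmono : ∀ w : L, B.valuation w < 1 → A.valuation w < 1 := by
    intro w hw
    rcases eq_or_ne w 0 with rfl | hw0
    · simp
    · rw [← not_le, one_le' A hw0]
      intro h1
      rw [← not_le, one_le' B hw0] at hw
      exact hw ((B.valuation_le_one_iff _).2 (h ((A.valuation_le_one_iff _).1 h1)))
  have hyA : A.valuation x⁻¹ < 1 := by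
    rw [← not_le, one_le' A (inv_ne_zero hx0), inv_inv, A.valuation_le_one_iff]
    exact hxA
  have hyB : B.valuation x⁻¹ = 1 := by
    apply le_antisymm
    · exact (B.valuation_le_one_iff _).2 (h ((A.valuation_le_one_iff _).1 hyA.le))
    · rw [one_le' B (inv_ne_zero hx0), inv_inv, B.valuation_le_one_iff]
      exact hxB
  set y := x⁻¹ with hy
  have hy0 : y ≠ 0 := inv_ne_zero hx0
  obtain ⟨p, hp0, hp⟩ := Algebra.IsAlgebraic.isAlgebraic (R := K) y
  obtain ⟨j, hj, hjmax⟩ := Finset.exists_max_image p.support (fun i => O.valuation (p.coeff i))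
    (Polynomial.support_nonempty.2 hp0)
  have hcj : p.coeff j ≠ 0 := Polynomial.mem_support_iff.1 hj
  set q : K[X] := C (p.coeff j)⁻¹ * p with hq
  have hqy : aeval y q = 0 := by rw [hq, map_mul, hp, mul_zero]
  have hqc : ∀ i, O.valuation (q.coeff i) ≤ 1 := by
    intro i
    rw [hq, coeff_C_mul, map_mul, map_inv₀]
    by_cases hi : i ∈ p.support
    · have h1 := hjmax i hi
      have h2 : O.valuation (p.coeff j) ≠ 0 := (Valuation.ne_zero_iff _).2 hcj
      calc (O.valuation (p.coeff j))⁻¹ * O.valuation (p.coeff i)
          ≤ (O.valuation (p.coeff j))⁻¹ * O.valuation (p.coeff j) := mul_le_mul_right h1 _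
        _ = 1 := inv_mul_cancel₀ h2
    · rw [Polynomial.notMem_support_iff.1 hi, map_zero, mul_zero]
      exact zero_le_one
  have hex : ∃ m, O.valuation (q.coeff m) = 1 := by
    refine ⟨j, ?_⟩
    rw [hq, coeff_C_mul, inv_mul_cancel₀ hcj, map_one]
  set m := Nat.find hex with hm
  have hm1 : O.valuation (q.coeff m) = 1 := Nat.find_spec hex
  have hmlt : ∀ i < m, O.valuation (q.coeff i) < 1 := fun i hi =>
    lt_of_le_of_ne (hqc i) (Nat.find_min hex hi)
  have hmdeg : m < q.natDegree + 1 := by
    by_contra hcon
    rw [Polynomial.coeff_eq_zero_of_natDegree_lt (by omega), map_zero] at hm1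
    exact zero_ne_one hm1
  have hsum : ∑ i ∈ Finset.range (q.natDegree + 1), algebraMap K L (q.coeff i) * y ^ i = 0 := by
    rw [← hqy, aeval_eq_sum_range]
    exact Finset.sum_congr rfl fun i _ => by rw [Algebra.smul_def]
  set N := q.natDegree + 1 with hN
  have hterm : ∀ i ∈ (Finset.range N).erase m,
      A.valuation (algebraMap K L (q.coeff i) * y ^ i * (y ^ m)⁻¹) < 1 := by
    intro i hi
    have him : i ≠ m := (Finset.mem_erase.1 hi).1
    rcases lt_or_gt_of_ne him with hlt | hgt
    · apply hmono
      rw [map_mul, map_mul, map_inv₀, map_pow, map_pow, hyB, one_pow, one_pow, inv_one, mul_one,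
        mul_one, val_lt' O B hB]
      exact hmlt i hlt
    · have h1 : y ^ i * (y ^ m)⁻¹ = y ^ (i - m) := by
        rw [pow_sub₀ y hy0 hgt.le]
      rw [mul_assoc, h1, map_mul, map_pow, mul_comm]
      refine mul_lt_one_of_lt_of_le ?_ ?_
      · exact pow_lt_one₀ zero_le hyA (by omega)
      · exact (val_le' O A hA _).2 (hqc i)
  have hqm : algebraMap K L (q.coeff m) =
      -∑ i ∈ (Finset.range N).erase m, algebraMap K L (q.coeff i) * y ^ i * (y ^ m)⁻¹ := by
    rw [← Finset.add_sum_erase _ _ (Finset.mem_range.2 hmdeg)] at hsum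
    have h1 := congrArg (fun z => z * (y ^ m)⁻¹) hsum
    simp only [add_mul, zero_mul, Finset.sum_mul] at h1
    rw [mul_assoc, mul_inv_cancel₀ (pow_ne_zero _ hy0), mul_one] at h1
    exact eq_neg_of_add_eq_zero_left h1
  have hlast : A.valuation (algebraMap K L (q.coeff m)) < 1 := by
    rw [hqm, Valuation.map_neg]
    exact Valuation.map_sum_lt _ one_ne_zero hterm
  rw [val_lt' O A hA, hm1] at hlast
  exact lt_irrefl _ hlast

theorem val_lt {K L : Type u} [Field K] [Field L] [Algebra K L] (O : ValuationSubring K)
    (A : ValuationSubring L) (hA : A.comap (algebraMap K L) = O) (x : K) :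
    A.valuation (algebraMap K L x) < 1 ↔ O.valuation x < 1 :=
  val_lt' O A hA x

theorem val_one {K L : Type u} [Field K] [Field L] [Algebra K L] (O : ValuationSubring K)
    (A : ValuationSubring L) (hA : A.comap (algebraMap K L) = O) (x : K) :
    A.valuation (algebraMap K L x) = 1 ↔ O.valuation x = 1 := by
  constructor
  · intro h
    refine le_antisymm ((val_le' O A hA x).1 h.le) ?_
    rw [← not_lt, ← val_lt' O A hA, h]
    exact lt_irrefl _
  · intro h
    refine le_antisymm ((val_le' O A hA x).2 h.le) ?_
    rw [← not_lt, val_lt' O A hA, h]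
    exact lt_irrefl _

end Pool.LibNP88
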