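import Pool.Agent.LibNP88.Defs

/-
PLAN (V5, SHORT/MEDIUM). f is a product of monic irreducible polynomials (normalizedFactors / induction on the degree, Polynomial.Monic.. UniqueFactorizationMonoid): p does not divide the sum of the degrees, so some monic irreducible factor g has degree prime to p. N := AdjoinRoot g is a finite extension of L of degree natDegree g, of K1
([Algebra K1 N] through L: Algebra.compHom or (algebraMap L N).comp (algebraMap K1 L) as local instance, IsScalarTower) of degree [L:K1] * natDegree g = p^k: so natDegree g divides p^k, prime to p: natDegree g = 1: g has a root. (Module.finrank_mul_finrank, AdjoinRoot.powerBasis finrank.) Note AdjoinRoot g : Type u.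
-/

set_option autoImplicit false

noncomputable section

open Polynomial

namespace Pool.LibNP88

universe u

private theorem V5_factor {p : ℕ} {L : Type u} [Field L] (n : ℕ) : ∀ f : L[X], f.Monic →
    f.natDegree = n → ¬ p ∣ n → ∃ g : L[X], g.Monic ∧ Irreducible g ∧ g ∣ f ∧
      ¬ p ∣ g.natDegree := by
  induction n using Nat.strong_induction_on with
  | _ n ih =>
    intro f hf hn hp
    have hu : ¬ IsUnit f := by
      intro h
      have h1 := natDegree_eq_zero_of_isUnit h
      rw [hn] at h1
      exact hp (h1 ▸ dvd_zero p)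
    obtain ⟨g, hg, hgi, hgf⟩ := exists_monic_irreducible_factor f hu
    by_cases hpg : p ∣ g.natDegree
    · obtain ⟨h, rfl⟩ := hgf
      have hh : h.Monic := Monic.of_mul_monic_left hg hf
      have hdeg : g.natDegree + h.natDegree = n := by rw [← hn, hg.natDegree_mul hh]
      have hg0 : 0 < g.natDegree := hgi.natDegree_pos
      obtain ⟨g', h1, h2, h3, h4⟩ := ih h.natDegree (by omega) h hh rfl (fun hd =>
        hp (hdeg ▸ Dvd.dvd.add hpg hd))
      exact ⟨g', h1, h2, h3.mul_left g, h4⟩
    · exact ⟨g, hg, hgi, hgf, hpg⟩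

/-- roots of polynomials of degree prime to p -/
theorem root_of_deg {p : ℕ} (hp : p.Prime) {K1 L : Type u} [Field K1] [Field L] [Algebra K1 L]
    [FiniteDimensional K1 L] (h : ∀ (N : Type u) [Field N] [Algebra K1 N]
      [FiniteDimensional K1 N], ∃ k, Module.finrank K1 N = p ^ k) (f : L[X]) (hf : f.Monic)
    (hd : ¬ p ∣ f.natDegree) : ∃ x, f.eval x = 0 := by
  obtain ⟨g, hg, hgi, hgf, hpg⟩ := V5_factor f.natDegree f hf rfl hd
  haveI : Fact (Irreducible g) := ⟨hgi⟩
  haveI : FiniteDimensional L (AdjoinRoot g) := (AdjoinRoot.powerBasis hg.ne_zero).finite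
  haveI : FiniteDimensional K1 (AdjoinRoot g) := Module.Finite.trans L (AdjoinRoot g)
  obtain ⟨k, hk⟩ := h (AdjoinRoot g)
  have h1 : Module.finrank L (AdjoinRoot g) = g.natDegree := by
    rw [(AdjoinRoot.powerBasis hg.ne_zero).finrank, AdjoinRoot.powerBasis_dim]
  rw [← Module.finrank_mul_finrank K1 L (AdjoinRoot g), h1] at hk
  have h2 : g.natDegree ∣ p ^ k := ⟨_, by rw [← hk, mul_comm]⟩
  have h3 : g.natDegree = 1 :=
    Nat.Coprime.eq_one_of_dvd (Nat.Coprime.pow_right k
      ((Nat.Prime.coprime_iff_not_dvd hp).2 hpg).symm) h2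
  obtain ⟨x, hx⟩ := exists_root_of_degree_eq_one ((degree_eq_iff_natDegree_eq_of_pos one_pos).2 h3)
  exact ⟨x, eval_eq_zero_of_dvd_of_eval_eq_zero hgf hx⟩

end Pool.LibNP88
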