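import Pool.Agent.LibNP88.Defs

/-
PLAN (V3, MEDIUM/STRONG). valuation v_i := (V i).valuation (multiplicative: x in V i iff v_i x <= 1). (A) for z in L there is f in L with v_i f <= 1 for all i, v_i (f - 1) < 1 whenever v_i (z - 1) < 1, v_i f < 1 whenever v_i z < 1 or v_i z > 1: f := z / (1 + c z (z - 1)) with c = c m for a good m: at i with v_i z <= 1 we need
v_i (1 + c z (z-1)) = 1: at most one m is bad for every i (if two m, m' were bad then v_i((c m - c m') z (z-1)) < 1, so v_i (z (z-1)) < 1, so v_i (1 + c z (z-1)) = 1); at i with v_i z > 1: f = z⁻¹ / (z⁻² + c - c z⁻¹), the denominator has value 1. Fin s is finite, infinitely many m: choose m good for all i.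
(B) for i != j: a in V i \ V j, b in V j \ V i: z := 1 + a / b, v_i (z - 1) < 1, v_j z > 1, f = e_ij; e_i := prod_(j != i) e_ij : all v_k e_i <= 1, v_i (e_i - 1) < 1, v_j (e_i) < 1 for j != i.
(C) for x with v_i x <= 1: y := x / (1 + u x^2), u := c m (1 - e_i), is in all V_j (m good) and v_i (y - x) < 1: at i v_i u < 1; at j != i v_j(u - c m) < 1, if v_j x > 1: y = x⁻¹ / (x⁻² + u); if v_j x <= 1: need v_j (1 + u x^2) = 1: at most one bad m.
(D) x := SUM e_i y_i with y_i for t i: v_j(x - t j) < 1.
-/

set_option autoImplicit false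

noncomputable section

open Polynomial

namespace Pool.LibNP88

universe u

private theorem V3_good {L : Type u} [Field L] {s : ℕ} (V : Fin s → ValuationSubring L)
    (c : ℕ → L) (hc : ∀ i m, (V i).valuation (c m) = 1)
    (hcc : ∀ i m m', m ≠ m' → (V i).valuation (c m - c m') = 1) (w : L) :
    ∃ m, ∀ i, (V i).valuation w ≤ 1 → (V i).valuation (1 + c m * w) = 1 := by
  by_contra hcon
  push Not at hcon
  choose g hg1 hg2 using hcon
  obtain ⟨m, m', hmm, hgm⟩ := Finite.exists_ne_map_eq_of_infinite g
  have key : ∀ n, g n = g m → (V (g m)).valuation (1 + c n * w) < 1 := by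
    intro n hn
    have h1 := hg1 n
    have h2 := hg2 n
    rw [hn] at h1 h2
    refine lt_of_le_of_ne ?_ h2
    refine (Valuation.map_add _ _ _).trans (max_le ?_ ?_)
    · rw [map_one]
    · rw [map_mul, hc, one_mul]
      exact h1
  have h3 := key m rfl
  have h4 := key m' hgm.symm
  have h5 : (V (g m)).valuation ((c m - c m') * w) < 1 := by
    have h6 : (c m - c m') * w = (1 + c m * w) - (1 + c m' * w) := by ring
    rw [h6]
    exact lt_of_le_of_lt (Valuation.map_sub _ _ _) (max_lt h3 h4)
  rw [map_mul, hcc _ _ _ hmm, one_mul] at h5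
  refine hg2 m ?_
  apply Valuation.map_one_add_of_lt
  rw [map_mul, hc, one_mul]
  exact h5

private theorem V3_A {L : Type u} [Field L] {s : ℕ} (V : Fin s → ValuationSubring L)
    (c : ℕ → L) (hc : ∀ i m, (V i).valuation (c m) = 1)
    (hcc : ∀ i m m', m ≠ m' → (V i).valuation (c m - c m') = 1) (z : L) :
    ∃ f : L, (∀ i, (V i).valuation f ≤ 1) ∧
      (∀ i, (V i).valuation (z - 1) < 1 → (V i).valuation (f - 1) < 1) ∧
      ∀ i, 1 < (V i).valuation z → (V i).valuation f < 1 := by
  obtain ⟨m, hm⟩ := V3_good V c hc hcc (z * (z - 1))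
  have hle : ∀ i, (V i).valuation z ≤ 1 → (V i).valuation (1 + c m * (z * (z - 1))) = 1 := by
    intro i hi
    apply hm
    rw [map_mul]
    refine mul_le_one' hi ?_
    refine (Valuation.map_sub _ _ _).trans (max_le hi ?_)
    rw [map_one]
  have hgt : ∀ i, 1 < (V i).valuation z →
      (V i).valuation (z / (1 + c m * (z * (z - 1)))) < 1 := by
    intro i hi
    have h1 : (V i).valuation (z - 1) = (V i).valuation z := by
      have h2 : z - 1 = -1 + z := by ring
      rw [h2]
      apply Valuation.map_add_eq_of_lt_right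
      rw [Valuation.map_neg, map_one]
      exact hi
    have h2 : (V i).valuation (c m * (z * (z - 1))) = (V i).valuation z * (V i).valuation z := by
      rw [map_mul, map_mul, hc, one_mul, h1]
    have h3 : 1 < (V i).valuation z * (V i).valuation z := one_lt_mul'' hi hi
    have h4 : (V i).valuation (1 + c m * (z * (z - 1))) = (V i).valuation z * (V i).valuation z := by
      rw [← h2]
      apply Valuation.map_add_eq_of_lt_right
      rw [map_one, h2]
      exact h3
    have h5 : (V i).valuation z ≠ 0 := (lt_trans zero_lt_one hi).ne'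
    rw [map_div₀, h4, div_mul_cancel_left₀ h5]
    exact inv_lt_one_of_one_lt₀ hi
  refine ⟨z / (1 + c m * (z * (z - 1))), ?_, ?_, hgt⟩
  · intro i
    rcases le_or_gt ((V i).valuation z) 1 with hi | hi
    · rw [map_div₀, hle i hi, div_one]
      exact hi
    · exact (hgt i hi).le
  · intro i hi
    have hz : (V i).valuation z ≤ 1 := by
      have h1 : z = (z - 1) + 1 := by ring
      rw [h1]
      refine (Valuation.map_add _ _ _).trans (max_le hi.le ?_)
      rw [map_one]
    have h1 := hle i hz
    have hne : 1 + c m * (z * (z - 1)) ≠ 0 := by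
      intro h0
      rw [h0, map_zero] at h1
      exact zero_ne_one h1
    have h2 : z / (1 + c m * (z * (z - 1))) - 1 =
        ((z - 1) * (1 - c m * z)) / (1 + c m * (z * (z - 1))) := by
      rw [eq_div_iff hne, sub_mul, div_mul_cancel₀ _ hne]
      ring
    rw [h2, map_div₀, h1, div_one, map_mul]
    have h3 : (V i).valuation (1 - c m * z) ≤ 1 := by
      refine (Valuation.map_sub _ _ _).trans (max_le ?_ ?_)
      · rw [map_one]
      · rw [map_mul, hc, one_mul]
        exact hz
    exact lt_of_le_of_lt (mul_le_of_le_one_right' h3) hi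

private theorem V3_pair {L : Type u} [Field L] {s : ℕ} (V : Fin s → ValuationSubring L)
    (hV : ∀ i j, V i ≤ V j → i = j) (c : ℕ → L) (hc : ∀ i m, (V i).valuation (c m) = 1)
    (hcc : ∀ i m m', m ≠ m' → (V i).valuation (c m - c m') = 1) (i j : Fin s) (hij : i ≠ j) :
    ∃ f : L, (∀ k, (V k).valuation f ≤ 1) ∧ (V i).valuation (f - 1) < 1 ∧ (V j).valuation f < 1 := by
  obtain ⟨a, ha, ha'⟩ := SetLike.not_le_iff_exists.1 (fun h => hij (hV i j h))
  obtain ⟨b, hb, hb'⟩ := SetLike.not_le_iff_exists.1 (fun h => hij (hV j i h).symm)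
  rw [← ValuationSubring.valuation_le_one_iff] at ha hb
  rw [← ValuationSubring.valuation_le_one_iff, not_le] at ha' hb'
  have hb0 : b ≠ 0 := by
    rintro rfl
    rw [map_zero] at hb'
    exact not_lt_bot hb'
  obtain ⟨f, hf1, hf2, hf3⟩ := V3_A V c hc hcc (1 + a / b)
  refine ⟨f, hf1, hf2 i ?_, hf3 j ?_⟩
  · rw [add_sub_cancel_left, map_div₀]
    have h1 : (V i).valuation b ≠ 0 := (lt_trans zero_lt_one hb').ne'
    rw [div_lt_one₀ (lt_trans zero_lt_one hb')]
    exact lt_of_le_of_lt ha hb'
  · have h1 : (V j).valuation b ≠ 0 := by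
      rw [Ne, map_eq_zero]
      exact hb0
    have h2 : 1 < (V j).valuation (a / b) := by
      rw [map_div₀, one_lt_div₀ (zero_lt_iff.2 h1)]
      exact lt_of_le_of_lt hb ha'
    rw [Valuation.map_add_eq_of_lt_right]
    · exact h2
    · rw [map_one]
      exact h2

private theorem V3_e {L : Type u} [Field L] {s : ℕ} (V : Fin s → ValuationSubring L)
    (hV : ∀ i j, V i ≤ V j → i = j) (c : ℕ → L) (hc : ∀ i m, (V i).valuation (c m) = 1)
    (hcc : ∀ i m m', m ≠ m' → (V i).valuation (c m - c m') = 1) (i : Fin s) (S : Finset (Fin s))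
    (hS : i ∉ S) :
    ∃ e : L, (∀ k, (V k).valuation e ≤ 1) ∧ (V i).valuation (e - 1) < 1 ∧
      ∀ j ∈ S, (V j).valuation e < 1 := by
  classical
  induction S using Finset.induction_on with
  | empty =>
    refine ⟨1, fun k => by rw [map_one], ?_, fun j hj => absurd hj (Finset.notMem_empty j)⟩
    rw [sub_self, map_zero]
    exact zero_lt_one
  | insert j S hj ih =>
    have hiS : i ∉ S := fun h => hS (Finset.mem_insert_of_mem h)
    have hij : i ≠ j := by
      rintro rfl
      exact hS (Finset.mem_insert_self _ _)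
    obtain ⟨e, he1, he2, he3⟩ := ih hiS
    obtain ⟨f, hf1, hf2, hf3⟩ := V3_pair V hV c hc hcc i j hij
    refine ⟨e * f, fun k => ?_, ?_, ?_⟩
    · rw [map_mul]
      exact mul_le_one' (he1 k) (hf1 k)
    · have h1 : e * f - 1 = e * (f - 1) + (e - 1) := by ring
      rw [h1]
      refine lt_of_le_of_lt (Valuation.map_add _ _ _) (max_lt ?_ he2)
      rw [map_mul]
      exact lt_of_le_of_lt (mul_le_of_le_one_left' (he1 i)) hf2
    · intro l hl
      rw [map_mul]
      rcases Finset.mem_insert.1 hl with rfl | hl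
      · exact lt_of_le_of_lt (mul_le_of_le_one_left' (he1 l)) hf3
      · exact lt_of_le_of_lt (mul_le_of_le_one_right' (hf1 l)) (he3 l hl)

private theorem V3_C {L : Type u} [Field L] {s : ℕ} (V : Fin s → ValuationSubring L)
    (c : ℕ → L) (hc : ∀ i m, (V i).valuation (c m) = 1)
    (hcc : ∀ i m m', m ≠ m' → (V i).valuation (c m - c m') = 1) (i : Fin s) (e : L)
    (he : ∀ k, (V k).valuation e ≤ 1) (he1 : (V i).valuation (e - 1) < 1)
    (he2 : ∀ j, j ≠ i → (V j).valuation e < 1) (x : L) (hx : (V i).valuation x ≤ 1) :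
    ∃ y : L, (∀ k, (V k).valuation y ≤ 1) ∧ (V i).valuation (y - x) < 1 := by
  obtain ⟨m, hm⟩ := V3_good V c hc hcc ((1 - e) * (x * x))
  have h1e : ∀ k, (V k).valuation (1 - e) ≤ 1 := by
    intro k
    refine (Valuation.map_sub _ _ _).trans (max_le ?_ (he k))
    rw [map_one]
  have hle : ∀ k, (V k).valuation x ≤ 1 → (V k).valuation (1 + c m * ((1 - e) * (x * x))) = 1 := by
    intro k hk
    apply hm
    rw [map_mul, map_mul]
    exact mul_le_one' (h1e k) (mul_le_one' hk hk)
  refine ⟨x / (1 + c m * ((1 - e) * (x * x))), ?_, ?_⟩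
  · intro k
    rcases le_or_gt ((V k).valuation x) 1 with hk | hk
    · rw [map_div₀, hle k hk, div_one]
      exact hk
    · have hki : k ≠ i := by
        rintro rfl
        exact absurd hx (not_le.2 hk)
      have h1 : (V k).valuation (1 - e) = 1 := by
        rw [sub_eq_add_neg]
        apply Valuation.map_one_add_of_lt
        rw [Valuation.map_neg]
        exact he2 k hki
      have h2 : (V k).valuation (c m * ((1 - e) * (x * x))) = (V k).valuation x * (V k).valuation x := by
        rw [map_mul, map_mul, map_mul, hc, one_mul, h1, one_mul]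
      have h3 : 1 < (V k).valuation x * (V k).valuation x := one_lt_mul'' hk hk
      have h4 : (V k).valuation (1 + c m * ((1 - e) * (x * x))) =
          (V k).valuation x * (V k).valuation x := by
        rw [← h2]
        apply Valuation.map_add_eq_of_lt_right
        rw [map_one, h2]
        exact h3
      have h5 : (V k).valuation x ≠ 0 := (lt_trans zero_lt_one hk).ne'
      rw [map_div₀, h4, div_mul_cancel_left₀ h5]
      exact (inv_lt_one_of_one_lt₀ hk).le
  · have h1 := hle i hx
    have hne : 1 + c m * ((1 - e) * (x * x)) ≠ 0 := by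
      intro h0
      rw [h0, map_zero] at h1
      exact zero_ne_one h1
    have h2 : x / (1 + c m * ((1 - e) * (x * x))) - x =
        ((e - 1) * (c m * (x * x * x))) / (1 + c m * ((1 - e) * (x * x))) := by
      rw [eq_div_iff hne, sub_mul, div_mul_cancel₀ _ hne]
      ring
    rw [h2, map_div₀, h1, div_one, map_mul, map_mul, hc, one_mul, map_mul, map_mul]
    exact lt_of_le_of_lt (mul_le_of_le_one_right' (mul_le_one' (mul_le_one' hx hx) hx)) he1

/-- Chinese remainder theorem for pairwise incomparable valuation rings -/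
theorem crtV {L : Type u} [Field L] {s : ℕ} (V : Fin s → ValuationSubring L)
    (hV : ∀ i j, V i ≤ V j → i = j) (c : ℕ → L) (hc : ∀ i m, (V i).valuation (c m) = 1)
    (hcc : ∀ i m m', m ≠ m' → (V i).valuation (c m - c m') = 1)
    (t : Fin s → L) (ht : ∀ i, (V i).valuation (t i) ≤ 1) :
    ∃ x : L, (∀ i, (V i).valuation x ≤ 1) ∧ ∀ i, (V i).valuation (x - t i) < 1 := by
  classical
  have hE : ∀ i, ∃ e : L, (∀ k, (V k).valuation e ≤ 1) ∧ (V i).valuation (e - 1) < 1 ∧
      ∀ j, j ≠ i → (V j).valuation e < 1 := by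
    intro i
    obtain ⟨e, he1, he2, he3⟩ := V3_e V hV c hc hcc i (Finset.univ.erase i) (Finset.notMem_erase _ _)
    exact ⟨e, he1, he2, fun j hj => he3 j (Finset.mem_erase.2 ⟨hj, Finset.mem_univ _⟩)⟩
  choose e he1 he2 he3 using hE
  choose y hy1 hy2 using fun i => V3_C V c hc hcc i (e i) (he1 i) (he2 i) (he3 i) (t i) (ht i)
  refine ⟨∑ i, e i * y i, ?_, ?_⟩
  · intro k
    apply Valuation.map_sum_le
    intro i _
    rw [map_mul]
    exact mul_le_one' (he1 i k) (hy1 i k)
  · intro j
    have h1 : ∑ i, e i * y i - t j = ∑ i, (e i * y i - if i = j then t j else 0) := by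
      rw [Finset.sum_sub_distrib, Finset.sum_ite_eq' Finset.univ j (fun _ => t j), if_pos (Finset.mem_univ _)]
    rw [h1]
    apply Valuation.map_sum_lt _ one_ne_zero
    intro i _
    by_cases hij : i = j
    · subst hij
      rw [if_pos rfl]
      have h2 : e i * y i - t i = (e i - 1) * y i + (y i - t i) := by ring
      rw [h2]
      refine lt_of_le_of_lt (Valuation.map_add _ _ _) (max_lt ?_ (hy2 i))
      rw [map_mul]
      exact lt_of_le_of_lt (mul_le_of_le_one_right' (hy1 i i)) (he2 i)
    · rw [if_neg hij, sub_zero, map_mul]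
      exact lt_of_le_of_lt (mul_le_of_le_one_right' (hy1 i j)) (he3 i j (Ne.symm hij))

end Pool.LibNP88
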