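import Pool.Agent.LibNP88.Defs

/-
PLAN (V4, SHORT/MEDIUM). Claim: for every finset F of N there is g in L in such that v_i (g) = sup of v_i (f m), m in F, for all i (i.e. v_i(f m) <= v_i g for m in F, and some m in F has v_i (f m) = v_i g, or g = 0 and F = ∅ or all f m = 0). Induction: g' := g + c k * f m for a good k: if v_i g != v_i (f m) every k is
good (v_i (c k) = 1: Valuation.map_add_eq_of_lt); if v_i g = v_i (f m) != 0: bad iff v_i (g / f m + c k) < 1, at most one k is bad for every i (difference c k - c k'). If g = 0 or f m = 0 trivial. At the end F = univ, g != 0 as f != 0; c := g⁻¹.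
-/

set_option autoImplicit false

noncomputable section

open Polynomial

namespace Pool.LibNP88

universe u

private theorem v4_ind {L : Type u} [Field L] {s : ℕ} (V : Fin s → ValuationSubring L)
    (c : ℕ → L) (hc : ∀ i m, (V i).valuation (c m) = 1)
    (hcc : ∀ i m m', m ≠ m' → (V i).valuation (c m - c m') = 1)
    {N : Type} (f : N → L) (F : Finset N) : ∃ g : L,
      (∀ i, ∀ m ∈ F, (V i).valuation (f m) ≤ (V i).valuation g) ∧
      (g = 0 ∨ ∀ i, ∃ m ∈ F, (V i).valuation (f m) = (V i).valuation g) := by
  classical
  induction F using Finset.induction_on with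
  | empty => exact ⟨0, by simp, Or.inl rfl⟩
  | insert m F hm ih =>
    obtain ⟨g, hg1, hg2⟩ := ih
    by_cases hfm : f m = 0
    · refine ⟨g, ?_, ?_⟩
      · intro i m' hm'
        rcases Finset.mem_insert.1 hm' with rfl | h
        · rw [hfm, map_zero]; exact zero_le
        · exact hg1 i m' h
      · rcases hg2 with h | h
        · exact Or.inl h
        · right
          intro i
          obtain ⟨m', hm', e⟩ := h i
          exact ⟨m', Finset.mem_insert_of_mem hm', e⟩
    rcases hg2 with hg0 | hg2
    · refine ⟨f m, ?_, ?_⟩
      · intro i m' hm'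
        rcases Finset.mem_insert.1 hm' with rfl | h
        · exact le_rfl
        · have := hg1 i m' h
          rw [hg0, map_zero] at this
          exact this.trans zero_le
      · right
        intro i
        exact ⟨m, Finset.mem_insert_self _ _, rfl⟩
    -- a good index
    have hle : ∀ (i : Fin s) (k : ℕ), (V i).valuation (g + c k * f m) ≤
        max ((V i).valuation g) ((V i).valuation (f m)) := by
      intro i k
      refine ((V i).valuation.map_add _ _).trans ?_
      rw [map_mul, hc, one_mul]
    have hbad : ∀ (i : Fin s) (k k' : ℕ), k ≠ k' →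
        (V i).valuation (g + c k * f m) < max ((V i).valuation g) ((V i).valuation (f m)) →
        (V i).valuation (g + c k' * f m) < max ((V i).valuation g) ((V i).valuation (f m)) →
        False := by
      intro i k k' hkk h1 h2
      have h3 : (V i).valuation (f m) < max ((V i).valuation g) ((V i).valuation (f m)) := by
        have e1 : (V i).valuation (f m) =
            (V i).valuation ((g + c k * f m) - (g + c k' * f m)) := by
          have : (g + c k * f m) - (g + c k' * f m) = (c k - c k') * f m := by ring
          rw [this, map_mul, hcc i k k' hkk, one_mul]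
        rw [e1]
        refine lt_of_le_of_lt ((V i).valuation.map_sub _ _) ?_
        rw [← e1]
        exact max_lt h1 h2
      have h4 : (V i).valuation (f m) < (V i).valuation g := by
        rcases lt_max_iff.1 h3 with h | h
        · exact h
        · exact absurd h (lt_irrefl _)
      have h5 : (V i).valuation (c k * f m) < (V i).valuation g := by
        rw [map_mul, hc, one_mul]; exact h4
      rw [Valuation.map_add_eq_of_lt_left _ h5, max_eq_left h4.le] at h1
      exact lt_irrefl _ h1
    obtain ⟨k, hk⟩ : ∃ k : ℕ, ∀ i, ¬ (V i).valuation (g + c k * f m) <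
        max ((V i).valuation g) ((V i).valuation (f m)) := by
      by_contra hcon
      push Not at hcon
      choose φ hφ using hcon
      have hinj : Function.Injective φ := by
        intro k k' h
        by_contra hne
        exact hbad (φ k) k k' hne (hφ k) (by rw [h]; exact hφ k')
      exact not_injective_infinite_finite φ hinj
    have hk' : ∀ i, (V i).valuation (g + c k * f m) =
        max ((V i).valuation g) ((V i).valuation (f m)) := fun i =>
      le_antisymm (hle i k) (not_lt.1 (hk i))
    refine ⟨g + c k * f m, ?_, Or.inr ?_⟩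
    · intro i m' hm'
      rw [hk' i]
      rcases Finset.mem_insert.1 hm' with rfl | h
      · exact le_max_right _ _
      · exact (hg1 i m' h).trans (le_max_left _ _)
    · intro i
      rw [hk' i]
      rcases le_total ((V i).valuation g) ((V i).valuation (f m)) with h | h
      · exact ⟨m, Finset.mem_insert_self _ _, (max_eq_right h).symm⟩
      · obtain ⟨m', hm', e⟩ := hg2 i
        exact ⟨m', Finset.mem_insert_of_mem hm', by rw [max_eq_left h]; exact e⟩

/-- primitive multiples -/
theorem primV {L : Type u} [Field L] {s : ℕ} (V : Fin s → ValuationSubring L)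
    (c : ℕ → L) (hc : ∀ i m, (V i).valuation (c m) = 1)
    (hcc : ∀ i m m', m ≠ m' → (V i).valuation (c m - c m') = 1)
    {N : Type} [Fintype N] (f : N → L) (hf : f ≠ 0) : ∃ d : L, d ≠ 0 ∧
      (∀ i m, (V i).valuation (d * f m) ≤ 1) ∧ ∀ i, ∃ m, (V i).valuation (d * f m) = 1 := by
  obtain ⟨g, hg1, hg2⟩ := v4_ind V c hc hcc f Finset.univ
  rcases Nat.eq_zero_or_pos s with rfl | hs
  · exact ⟨1, one_ne_zero, fun i => i.elim0, fun i => i.elim0⟩
  obtain ⟨m0, hm0⟩ : ∃ m, f m ≠ 0 := by
    by_contra hcon
    push Not at hcon
    exact hf (funext hcon)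
  have hg0 : g ≠ 0 := by
    rintro rfl
    have := hg1 ⟨0, hs⟩ m0 (Finset.mem_univ _)
    rw [map_zero, le_zero_iff, map_eq_zero] at this
    exact hm0 this
  have hv : ∀ i, (V i).valuation g ≠ 0 := fun i => (Valuation.ne_zero_iff _).2 hg0
  refine ⟨g⁻¹, inv_ne_zero hg0, ?_, ?_⟩
  · intro i m
    rw [map_mul, map_inv₀]
    calc ((V i).valuation g)⁻¹ * (V i).valuation (f m)
        ≤ ((V i).valuation g)⁻¹ * (V i).valuation g :=
          mul_le_mul_right (hg1 i m (Finset.mem_univ _)) _
      _ = 1 := inv_mul_cancel₀ (hv i)
  · intro i
    rcases hg2 with h | h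
    · exact absurd h hg0
    · obtain ⟨m, -, e⟩ := h i
      exact ⟨m, by rw [map_mul, map_inv₀, e, inv_mul_cancel₀ (hv i)]⟩

end Pool.LibNP88
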