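import Pool.Agent.LibNP88.V3
import Pool.Agent.LibNP88.V4
import Pool.Agent.LibNP88.V6

/-
PLAN (V8, MEDIUM). Fields of Bs: pp, qp, ne given; two: s >= 2; qne: hq1 (valuation of q is 1, so its residue is not 0; map_natCast); inf: hinf; zeta: z is in every V i (z^q = 1: integrally closed, or v z > 1 impossible) so in Rv V, IsPrimitiveRoot in the subring (of_map_of_injective);
crt: crtV with t i := a lift of the given residue (residue surjective), residues equal iff valuation of the difference < 1; unit: x with all residues nonzero has valuation 1 at all i, x⁻¹ in all V i; prim: primV; intc: f over Rv V monic with root x: x in V i for every i (V i integrally closed: map f to V i), so in Rv V; root: given.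
-/

set_option autoImplicit false

noncomputable section

open Polynomial

namespace Pool.LibNP88

universe u

/-- the intersection of valuation rings -/
def Rv {L : Type u} [Field L] {s : ℕ} (V : Fin s → ValuationSubring L) : Subring L :=
  ⨅ i, (V i).toSubring

theorem mem_Rv {L : Type u} [Field L] {s : ℕ} (V : Fin s → ValuationSubring L) (x : L) :
    x ∈ Rv V ↔ ∀ i, x ∈ V i := by
  simp [Rv, Subring.mem_iInf]

/-- the residue maps -/
def rv {L : Type u} [Field L] {s : ℕ} (V : Fin s → ValuationSubring L) (i : Fin s) :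
    Rv V →+* IsLocalRing.ResidueField (V i) :=
  (IsLocalRing.residue (V i)).comp
    { toFun := fun x => ⟨x.1, (mem_Rv V x.1).1 x.2 i⟩
      map_one' := rfl
      map_mul' := fun _ _ => rfl
      map_zero' := rfl
      map_add' := fun _ _ => rfl }

/-- the residue is zero iff the valuation is < 1 -/
theorem rv_zero {L : Type u} [Field L] {s : ℕ} (V : Fin s → ValuationSubring L) (i : Fin s)
    (x : Rv V) : rv V i x = 0 ↔ (V i).valuation (x : L) < 1 := by
  have h := (V i).valuation_lt_one_iff ⟨(x : L), (mem_Rv V x.1).1 x.2 i⟩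
  have h2 : rv V i x = IsLocalRing.residue (V i) ⟨(x : L), (mem_Rv V x.1).1 x.2 i⟩ := rfl
  rw [h2, IsLocalRing.residue_eq_zero_iff, h]

private theorem V8_le {L : Type u} [Field L] {s : ℕ} (V : Fin s → ValuationSubring L) (i : Fin s)
    (x : Rv V) : (V i).valuation (x : L) ≤ 1 :=
  (ValuationSubring.valuation_le_one_iff _ _).2 ((mem_Rv V x.1).1 x.2 i)

private theorem V8_one {L : Type u} [Field L] {s : ℕ} (V : Fin s → ValuationSubring L) (i : Fin s)
    (x : Rv V) : rv V i x ≠ 0 ↔ (V i).valuation (x : L) = 1 := by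
  rw [Ne, rv_zero, not_lt]
  exact ⟨fun h => le_antisymm (V8_le V i x) h, fun h => h.ge⟩

private theorem V8_intc {L : Type u} [Field L] {s : ℕ} (V : Fin s → ValuationSubring L)
    (f : (Rv V)[X]) (hf : f.Monic) (x : L) (h : f.eval₂ (Rv V).subtype x = 0) : x ∈ Rv V := by
  rw [mem_Rv]
  intro i
  let j : Rv V →+* V i :=
    { toFun := fun x => ⟨x.1, (mem_Rv V x.1).1 x.2 i⟩
      map_one' := rfl
      map_mul' := fun _ _ => rfl
      map_zero' := rfl
      map_add' := fun _ _ => rfl }
  have hx : IsIntegral (V i) x := by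
    refine ⟨f.map j, hf.map j, ?_⟩
    rw [Polynomial.eval₂_map]
    exact h
  obtain ⟨y, hy⟩ := (IsIntegrallyClosed.isIntegral_iff (R := V i) (K := L)).1 hx
  rw [← hy]
  exact y.2

/-- base rings from valuation rings -/
theorem bs_of {p q : ℕ} (hp : p.Prime) (hq : q.Prime) (hne : p ≠ q) {L : Type u} [Field L] {s : ℕ}
    (hs : 2 ≤ s) (V : Fin s → ValuationSubring L) (hV : ∀ i j, V i ≤ V j → i = j)
    (hinf : ∀ i, Infinite (IsLocalRing.ResidueField (V i))) (c : ℕ → L) (hc : ∀ i m, (V i).valuation (c m) = 1)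
    (hcc : ∀ i m m', m ≠ m' → (V i).valuation (c m - c m') = 1)
    (hq1 : ∀ i, (V i).valuation (q : L) = 1) (z : L) (hz : IsPrimitiveRoot z q)
    (hroot : ∀ f : L[X], f.Monic → ¬ p ∣ f.natDegree → ∃ x, f.eval x = 0) :
    Bs p q (Rv V) (fun i => IsLocalRing.ResidueField (V i)) (rv V) where
  pp := hp
  qp := hq
  ne := hne
  two := ⟨⟨0, by omega⟩, ⟨1, by omega⟩, by simp⟩
  qne := by
    intro i
    have h1 : rv V i (q : Rv V) ≠ 0 := by
      rw [V8_one]
      have : (((q : Rv V)) : L) = (q : L) := by simp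
      rw [this]
      exact hq1 i
    rwa [map_natCast] at h1
  inf := hinf
  zeta := by
    have hzR : z ∈ Rv V := by
      refine V8_intc V (X ^ q - 1) ?_ z ?_
      · exact monic_X_pow_sub_C 1 hq.ne_zero
      · simp [hz.pow_eq_one]
    refine ⟨⟨z, hzR⟩, ?_⟩
    exact IsPrimitiveRoot.of_map_of_injective (f := (Rv V).subtype) (by simpa using hz)
      Subtype.val_injective
  crt := by
    intro t
    choose l hl using fun i => IsLocalRing.residue_surjective (R := V i) (t i)
    obtain ⟨x, hx1, hx2⟩ := crtV V hV c hc hcc (fun i => (l i : L))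
      (fun i => (ValuationSubring.valuation_le_one_iff _ _).2 (l i).2)
    refine ⟨⟨x, (mem_Rv V x).2 fun i => (ValuationSubring.valuation_le_one_iff _ _).1 (hx1 i)⟩,
      fun i => ?_⟩
    rw [← hl i]
    have hxi : x ∈ V i := (ValuationSubring.valuation_le_one_iff _ _).1 (hx1 i)
    have h2 : rv V i ⟨x, (mem_Rv V x).2 fun i =>
        (ValuationSubring.valuation_le_one_iff _ _).1 (hx1 i)⟩ =
        IsLocalRing.residue (V i) ⟨x, hxi⟩ := rfl
    rw [h2, ← sub_eq_zero, ← map_sub, IsLocalRing.residue_eq_zero_iff]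
    exact ((V i).valuation_lt_one_iff _).2 (hx2 i)
  unit := by
    intro x hx
    have h1 : ∀ i, (V i).valuation (x : L) = 1 := fun i => (V8_one V i x).1 (hx i)
    have hx0 : (x : L) ≠ 0 := by
      intro h
      have := h1 ⟨0, by omega⟩
      rw [h, map_zero] at this
      exact zero_ne_one this
    refine ⟨⟨(x : L)⁻¹, (mem_Rv V _).2 fun i => ?_⟩, ?_⟩
    · rw [← ValuationSubring.valuation_le_one_iff, map_inv₀, h1 i, inv_one]
    · apply Subtype.ext
      exact mul_inv_cancel₀ hx0
  prim := by
    intro N _ f hf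
    obtain ⟨d, hd, h1, h2⟩ := primV V c hc hcc f hf
    refine ⟨d, fun m => ⟨d * f m, (mem_Rv V _).2 fun i =>
      (ValuationSubring.valuation_le_one_iff _ _).1 (h1 i m)⟩, hd, fun m => rfl, fun i => ?_⟩
    obtain ⟨m, hm⟩ := h2 i
    exact ⟨m, (V8_one V i _).2 hm⟩
  intc := fun f hf x h => V8_intc V f hf x h
  root := hroot

end Pool.LibNP88
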