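import Pool.Agent.LibNP88.V1

/-
PLAN (V9, SHORT). Among two different primes q1, q2 different from p (exist: Nat.exists_infinite_primes) at most one has O.valuation < 1: a q1 + b q2 = 1 in the integers (Bezout, coprime). Integers are in O, valuation <= 1; valuation != 1 and <= 1 means < 1; then valuation of 1 would be < 1.
-/

set_option autoImplicit false

noncomputable section

open Polynomial

namespace Pool.LibNP88

universe u

theorem choose_q {K : Type u} [Field K] (O : ValuationSubring K) (p : ℕ) :
    ∃ q : ℕ, q.Prime ∧ p ≠ q ∧ O.valuation (q : K) = 1 := by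
  obtain ⟨q1, h1, hq1⟩ := Nat.exists_infinite_primes (p + 1)
  obtain ⟨q2, h2, hq2⟩ := Nat.exists_infinite_primes (q1 + 1)
  by_contra hcon
  push Not at hcon
  have hle : ∀ z : ℤ, O.valuation (z : K) ≤ 1 := fun z =>
    (O.valuation_le_one_iff _).2 (intCast_mem O z)
  have hlt : ∀ q : ℕ, q.Prime → p ≠ q → O.valuation (q : K) < 1 := by
    intro q hq hpq
    have h3 := hle (q : ℤ)
    rw [Int.cast_natCast] at h3
    exact lt_of_le_of_ne h3 (hcon q hq hpq)
  have h3 := hlt q1 hq1 (by omega)
  have h4 := hlt q2 hq2 (by omega)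
  have hcop : IsCoprime (q1 : ℤ) (q2 : ℤ) :=
    Nat.isCoprime_iff_coprime.2 ((Nat.coprime_primes hq1 hq2).2 (by omega))
  obtain ⟨a, b, hab⟩ := hcop
  have h5 : ((a : K) * (q1 : K) + (b : K) * (q2 : K)) = 1 := by
    have := congrArg (fun z : ℤ => (z : K)) hab
    push_cast at this
    exact this
  have h6 : O.valuation ((a : K) * (q1 : K)) < 1 := by
    rw [map_mul]
    exact lt_of_le_of_lt (mul_le_of_le_one_left' (hle a)) h3
  have h7 : O.valuation ((b : K) * (q2 : K)) < 1 := by
    rw [map_mul]
    exact lt_of_le_of_lt (mul_le_of_le_one_left' (hle b)) h4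
  have h8 := O.valuation.map_add_lt h6 h7
  rw [h5, map_one] at h8
  exact lt_irrefl _ h8

end Pool.LibNP88
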