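import Pool.Agent.LibNP88.N2
import Pool.Agent.LibNP88.V8
import Pool.Agent.LibNP88.V9
import Pool.Agent.LibNP88.V10
import Pool.Agent.LibNP88.V11
import Pool.Agent.LibNP88.M1
import Pool.Agent.LibNP88.M4

/-
Assembly (helper88).
-/

set_option autoImplicit false

noncomputable section

open Polynomial

namespace Pool.LibNP88

universe u

/-- a NIP valuation ring has at most one extension to an algebraic extension -/
theorem unique_ext {K : Type u} [Field K] (O : ValuationSubring K) (hN : NIP O) {p : ℕ}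
    (hp : p.Prime) (K1 : Type u) [Field K1] [Algebra K K1] [FiniteDimensional K K1]
    (h : ∀ (N : Type u) [Field N] [Algebra K1 N] [FiniteDimensional K1 N],
      ∃ k, Module.finrank K1 N = p ^ k) (E : Type u) [Field E] [Algebra K E]
    [Algebra.IsAlgebraic K E] (A B : ValuationSubring E) (hA : A.comap (algebraMap K E) = O)
    (hB : B.comap (algebraMap K E) = O) : A = B := by
  by_contra hne
  obtain ⟨q, hq, hpq, hqO⟩ := choose_q O p
  have hqK : (q : K) ≠ 0 := by
    intro h0
    rw [h0] at hqO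
    simp at hqO
  obtain ⟨L, _, _, _, ⟨z, hz⟩, hroot, A', B', hA', hB', hne'⟩ :=
    choose_L O hp K1 h hq hqK E A B hA hB hne
  obtain ⟨s, V, hs, hVi, hVO, hJ⟩ := family O A' B' hA' hB' hne'
  have hV : ∀ i j, V i ≤ V j → i = j := fun i j hij =>
    hVi (incomp O (V i) (V j) (hVO i) (hVO j) hij)
  have hinf := fun i => res_inf hp (V i) hroot
  have hinfO := res_down O (V ⟨0, by omega⟩) (hVO _) (hinf _)
  obtain ⟨c, hc, hcc⟩ := seq O hinfO
  have hc' : ∀ i m, (V i).valuation (algebraMap K L (c m)) = 1 := fun i m =>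
    (val_one O (V i) (hVO i) _).2 (hc m)
  have hcc' : ∀ i m m', m ≠ m' →
      (V i).valuation (algebraMap K L (c m) - algebraMap K L (c m')) = 1 := by
    intro i m m' hm
    rw [← map_sub]
    exact (val_one O (V i) (hVO i) _).2 (hcc m m' hm)
  have hq1 : ∀ i, (V i).valuation (q : L) = 1 := by
    intro i
    rw [← map_natCast (algebraMap K L) q]
    exact (val_one O (V i) (hVO i) _).2 hqO
  have hBs : Bs p q (Rv V) (fun i => IsLocalRing.ResidueField (V i)) (rv V) :=
    bs_of hp hq hpq hs V hV hinf (fun m => algebraMap K L (c m)) hc' hcc' hq1 z hz hroot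
  let b := Module.finBasis K L
  let J : Set L := {w | ∀ i, (V i).valuation w < 1}
  obtain ⟨N, hNp⟩ := nip_def O hN _ (def_psi O b J hJ q)
  apply hNp
  have hcV : ∀ m : ℕ, algebraMap K L (c m) ∈ Rv V := by
    intro m
    rw [mem_Rv]
    intro i
    rw [← ValuationSubring.valuation_le_one_iff]
    exact (hc' i m).le
  let a : Fin N → Rv V := fun j => ⟨algebraMap K L (c j), hcV j⟩
  have hinj : ∀ i, Function.Injective (fun j => rv V i (a j)) := by
    intro i j j' hjj
    by_contra hn
    have h1 : rv V i (a j - a j') = 0 := by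
      rw [map_sub, sub_eq_zero]
      exact hjj
    rw [rv_zero] at h1
    have h2 := hcc' i j j' (fun h => hn (Fin.ext h))
    have h3 : ((a j - a j' : Rv V) : L) = algebraMap K L (c j) - algebraMap K L (c j') := rfl
    rw [h3, h2] at h1
    exact lt_irrefl _ h1
  have hnz : ∀ i j, rv V i (a j) ≠ 0 := by
    intro i j h1
    rw [rv_zero] at h1
    have h3 : ((a j : Rv V) : L) = algebraMap K L (c j) := rfl
    rw [h3, hc' i j] at h1
    exact lt_irrefl _ h1
  choose x hx using fun J' : Set (Fin N) => patt hBs N a hinj hnz (fun j => j ∈ J')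
  refine ⟨fun j => b.repr (a j : L), fun J' => b.repr (x J' : L), ?_⟩
  intro j J'
  rw [← hx J' j]
  have e1 : ∀ w : L, ∑ i, (b.repr w) i • b i = w := fun w => b.sum_repr w
  simp only [Set.mem_setOf_eq, Sum.elim_inl, Sum.elim_inr]
  rw [e1, e1]
  constructor
  · rintro ⟨y, hy, hyJ⟩
    refine ⟨y, hy, ⟨y - 1, ?_⟩, rfl, ?_⟩
    · rw [mem_Rv]
      intro i
      rw [← ValuationSubring.valuation_le_one_iff]
      exact (hyJ i).le
    · intro i
      rw [rv_zero]
      exact hyJ i
  · rintro ⟨y, hy, w, hw, hwi⟩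
    refine ⟨y, hy, ?_⟩
    intro i
    rw [← hw]
    exact (rv_zero V i w).1 (hwi i)

/-- main theorem -/
theorem main {K : Type u} [Field K] (O : ValuationSubring K) (hN : NIP O) {p : ℕ}
    (hp : p.Prime) (K1 : Type u) [Field K1] [Algebra K K1] [FiniteDimensional K K1]
    (h : ∀ (N : Type u) [Field N] [Algebra K1 N] [FiniteDimensional K1 N],
      ∃ k, Module.finrank K1 N = p ^ k) (E : Type u) [Field E] [Algebra K E]
    [Algebra.IsAlgebraic K E] : ∃! A : ValuationSubring E, A.comap (algebraMap K E) = O := by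
  obtain ⟨A, hA⟩ := ext_exists O E
  exact ⟨A, hA, fun B hB => unique_ext O hN hp K1 h E B A hB hA⟩

end Pool.LibNP88
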